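import Mathlib

/-! Polarisation, and a lemma on functions on a finite group in which every element is conjugate to
its inverse. -/

set_option autoImplicit false
set_option linter.unusedSectionVars false

open scoped ComplexConjugate
open Finset

namespace Pool.Agent.H301_RC

section polar

variable {W : Type*} [AddCommGroup W] [Module ℂ W] {m : ℕ}

lemma sum_sup_neg {α : Type*} [Fintype α] [DecidableEq α] {A : Finset α} (hA : A ≠ univ) :
    ∑ S : Finset α, (if A ⊆ S then (-1 : ℂ) ^ S.card else 0) = 0 := by
  obtain ⟨i, hi⟩ : ∃ i, i ∉ A := by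
    by_contra h
    push Not at h
    exact hA (eq_univ_iff_forall.2 h)
  refine Finset.sum_involution (fun S _ => symmDiff S {i}) ?_ ?_ ?_ ?_
  · intro S _
    by_cases hS : i ∈ S
    · have e : symmDiff S {i} = S.erase i := by
        ext j; simp only [mem_symmDiff, mem_singleton, mem_erase]
        constructor
        · rintro (⟨h1, h2⟩ | ⟨h1, h2⟩)
          · exact ⟨h2, h1⟩
          · exact absurd (h1 ▸ hS) h2
        · rintro ⟨h1, h2⟩
          exact Or.inl ⟨h2, h1⟩
      have h1 : A ⊆ S.erase i ↔ A ⊆ S := by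
        refine ⟨fun h => h.trans (erase_subset _ _), fun h j hj => ?_⟩
        refine mem_erase.2 ⟨?_, h hj⟩
        rintro rfl
        exact hi hj
      rw [e]
      by_cases h2 : A ⊆ S
      · rw [if_pos h2, if_pos (h1.2 h2), ← card_erase_add_one hS, pow_succ]
        ring
      · rw [if_neg h2, if_neg (fun h => h2 (h1.1 h)), add_zero]
    · have e : symmDiff S {i} = insert i S := by
        ext j; simp only [mem_symmDiff, mem_singleton, mem_insert]
        constructor
        · rintro (⟨h1, h2⟩ | ⟨h1, h2⟩)
          · exact Or.inr h1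
          · exact Or.inl h1
        · rintro (h1 | h1)
          · exact Or.inr ⟨h1, h1 ▸ hS⟩
          · exact Or.inl ⟨h1, fun h => hS (h ▸ h1)⟩
      have h1 : A ⊆ insert i S ↔ A ⊆ S := by
        refine ⟨fun h j hj => ?_, fun h => h.trans (subset_insert _ _)⟩
        rcases mem_insert.1 (h hj) with h3 | h3
        · exact absurd (h3 ▸ hj) hi
        · exact h3
      rw [e]
      by_cases h2 : A ⊆ S
      · rw [if_pos h2, if_pos (h1.2 h2), card_insert_of_notMem hS, pow_succ]
        ring
      · rw [if_neg h2, if_neg (fun h => h2 (h1.1 h)), add_zero]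
  · intro S _ _ h
    have : i ∈ symmDiff S {i} ↔ i ∈ S := by rw [h]
    simp [mem_symmDiff] at this
  · intro S _
    exact mem_univ _
  · intro S _
    rw [symmDiff_assoc, symmDiff_self]
    simp

/-- Polarisation. -/
theorem polar (Q : MultilinearMap ℂ (fun _ : Fin m => W) ℂ) (h : ∀ w, Q (fun _ => w) = 0)
    (w : Fin m → W) : ∑ τ : Equiv.Perm (Fin m), Q (fun k => w (τ k)) = 0 := by
  classical
  have h1 : ∀ S : Finset (Fin m), ∑ f : Fin m → Fin m,
      (if (univ.image f) ⊆ S then Q (fun k => w (f k)) else 0) = 0 := by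
    intro S
    have h2 := Q.map_sum_finset (fun _ i => w i) (fun _ => S)
    rw [h] at h2
    rw [← Finset.sum_filter]
    rw [h2]
    refine Finset.sum_congr ?_ fun f _ => rfl
    ext f
    simp only [mem_filter, mem_univ, true_and, Fintype.mem_piFinset]
    constructor
    · intro h3 k
      exact h3 (mem_image_of_mem _ (mem_univ k))
    · intro h3 j hj
      obtain ⟨k, -, rfl⟩ := mem_image.1 hj
      exact h3 k
  have h2 : ∑ S : Finset (Fin m), ∑ f : Fin m → Fin m,
      (-1 : ℂ) ^ S.card * (if (univ.image f) ⊆ S then Q (fun k => w (f k)) else 0) = 0 := by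
    refine Finset.sum_eq_zero fun S _ => ?_
    rw [← Finset.mul_sum, h1, mul_zero]
  rw [Finset.sum_comm] at h2
  have h3 : ∀ f : Fin m → Fin m, ∑ S : Finset (Fin m),
      (-1 : ℂ) ^ S.card * (if (univ.image f) ⊆ S then Q (fun k => w (f k)) else 0) =
      if Function.Bijective f then (-1 : ℂ) ^ m * Q (fun k => w (f k)) else 0 := by
    intro f
    have h4 : ∀ S : Finset (Fin m),
        (-1 : ℂ) ^ S.card * (if (univ.image f) ⊆ S then Q (fun k => w (f k)) else 0) =
        (if (univ.image f) ⊆ S then (-1 : ℂ) ^ S.card else 0) * Q (fun k => w (f k)) := by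
      intro S
      split_ifs <;> simp
    simp only [h4]
    rw [← Finset.sum_mul]
    by_cases hf : univ.image f = univ
    · have hs : Function.Surjective f := by
        intro j
        have : j ∈ univ.image f := by rw [hf]; exact mem_univ j
        obtain ⟨k, -, hk⟩ := mem_image.1 this
        exact ⟨k, hk⟩
      rw [if_pos (Finite.surjective_iff_bijective.1 hs), hf]
      congr 1
      rw [Finset.sum_eq_single univ]
      · simp
      · intro S _ hS
        rw [if_neg]
        intro h5
        exact hS (univ_subset_iff.1 h5)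
      · intro h5
        exact absurd (mem_univ _) h5
    · rw [sum_sup_neg hf, zero_mul, if_neg]
      intro h5
      refine hf (eq_univ_iff_forall.2 fun j => ?_)
      obtain ⟨k, hk⟩ := h5.surjective j
      exact mem_image.2 ⟨k, mem_univ _, hk⟩
  simp only [h3] at h2
  rw [← Finset.sum_filter, ← Finset.mul_sum] at h2
  have h4 : ∑ f : Fin m → Fin m with Function.Bijective f, Q (fun k => w (f k)) = 0 := by
    rcases mul_eq_zero.1 h2 with h5 | h5
    · exact absurd h5 (pow_ne_zero _ (by norm_num))
    · exact h5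
  rw [← h4]
  symm
  refine Finset.sum_bij (fun f hf => Equiv.ofBijective f (mem_filter.1 hf).2) ?_ ?_ ?_ ?_
  · intro f _; exact mem_univ _
  · intro f _ f' _ h5
    funext k
    exact congrArg (fun e : Equiv.Perm (Fin m) => e k) h5
  · intro τ _
    exact ⟨τ, mem_filter.2 ⟨mem_univ _, τ.bijective⟩, Equiv.ext fun _ => rfl⟩
  · intro f _; rfl

end polar

section group

variable {G : Type*} [Group G] [Fintype G] [DecidableEq G]

/-- A nonzero two sided ideal of functions on a group in which every element is conjugate to its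
inverse contains a nonzero real function. -/
theorem exists_real (hG : ∀ g : G, IsConj g g⁻¹) (J : Submodule ℂ (G → ℂ))
    (hl : ∀ y ∈ J, ∀ h : G, (fun g => y (h * g)) ∈ J)
    (hr : ∀ y ∈ J, ∀ h : G, (fun g => y (g * h)) ∈ J) (hne : J ≠ ⊥) :
    ∃ y ∈ J, y ≠ 0 ∧ ∀ g, (y g).im = 0 := by
  -- Hermitian inner product
  let e := (WithLp.linearEquiv 2 ℂ (G → ℂ))
  let J' : Submodule ℂ (EuclideanSpace ℂ G) := J.comap e.toLinearMap
  let δ : EuclideanSpace ℂ G := EuclideanSpace.single 1 1
  let ε : EuclideanSpace ℂ G := J'.starProjection δ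
  have hεJ : (e ε) ∈ J := (J'.starProjection_apply_mem δ)
  set f : G → ℂ := e ε with hf
  have hrep : ∀ y ∈ J, ∑ g, conj (f g) * y g = y 1 := by
    intro y hy
    have hy' : e.symm y ∈ J' := by
      show e (e.symm y) ∈ J
      rw [e.apply_symm_apply]; exact hy
    have h1 : inner ℂ ε (e.symm y) = inner ℂ δ (e.symm y) := by
      have h2 := J'.starProjection_inner_eq_zero δ (e.symm y) hy'
      rw [inner_sub_left, sub_eq_zero] at h2
      exact h2.symm
    have h3 : inner ℂ ε (e.symm y) = ∑ g, conj (f g) * y g := by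
      rw [PiLp.inner_apply]
      refine Finset.sum_congr rfl fun g _ => ?_
      show y g * conj (f g) = _
      ring
    have h4 : inner ℂ δ (e.symm y) = y 1 := by
      rw [EuclideanSpace.inner_single_left]
      simp [e]
    rw [← h3, h1, h4]
  have huniq : ∀ f' ∈ J, (∀ y ∈ J, ∑ g, conj (f' g) * y g = y 1) → f' = f := by
    intro f' hf' h1
    have h2 : ∑ g, conj ((f' - f) g) * (f' - f) g = 0 := by
      have h3 := h1 (f' - f) (J.sub_mem hf' hεJ)
      have h4 := hrep (f' - f) (J.sub_mem hf' hεJ)
      have h5 : ∑ g, conj ((f' - f) g) * (f' - f) g =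
          ∑ g, conj (f' g) * (f' - f) g - ∑ g, conj (f g) * (f' - f) g := by
        rw [← Finset.sum_sub_distrib]
        refine Finset.sum_congr rfl fun g _ => ?_
        rw [Pi.sub_apply, map_sub]
        ring
      rw [h5, h3, h4, sub_self]
    have h6 : ∑ g, ‖(f' - f) g‖ ^ 2 = 0 := by
      have h7 : ((∑ g, ‖(f' - f) g‖ ^ 2 : ℝ) : ℂ) = 0 := by
        rw [← h2]
        push_cast
        refine Finset.sum_congr rfl fun g _ => ?_
        rw [mul_comm, Complex.mul_conj, Complex.normSq_eq_norm_sq]
        push_cast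
        rfl
      exact_mod_cast h7
    have h8 := (Finset.sum_eq_zero_iff_of_nonneg fun g _ => sq_nonneg _).1 h6
    refine sub_eq_zero.1 (funext fun g => ?_)
    have h9 := h8 g (mem_univ g)
    exact norm_eq_zero.1 (pow_eq_zero_iff two_ne_zero |>.1 h9)
  -- `f` is a class function
  have hclass : ∀ h g : G, f (h * g * h⁻¹) = f g := by
    intro h g
    have h1 : (fun g => f (h * g * h⁻¹)) = f := by
      refine huniq _ ?_ ?_
      · exact hl _ (hr _ hεJ h⁻¹) h
      · intro y hy
        have h2 := hrep _ (hl _ (hr _ hy h) h⁻¹)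
        simp only [mul_one, inv_mul_cancel] at h2
        rw [← h2]
        refine Fintype.sum_equiv (MulAut.conj h).toEquiv _ _ fun g => ?_
        simp only [MulEquiv.toEquiv_eq_coe, MulEquiv.coe_toEquiv, MulAut.conj_apply]
        congr 2
        group
    exact congrFun h1 g
  -- `f(g) = conj (f(g⁻¹))`
  have hstar : ∀ h : G, f h = conj (f h⁻¹) := by
    intro h
    have h1 := hrep _ (hl _ hεJ h)
    have h2 := hrep _ (hl _ hεJ h⁻¹)
    simp only [mul_one] at h1 h2
    rw [← h1, ← h2, map_sum]
    refine Fintype.sum_equiv (Equiv.mulLeft h) _ _ fun g => ?_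
    simp only [Equiv.coe_mulLeft, map_mul, Complex.conj_conj]
    rw [inv_mul_cancel_left]
    ring
  have hinv : ∀ g : G, f g⁻¹ = f g := by
    intro g
    obtain ⟨c, hc⟩ := isConj_iff.1 (hG g)
    rw [← hc, hclass]
  refine ⟨f, hεJ, ?_, fun g => ?_⟩
  · intro h0
    refine hne ((Submodule.eq_bot_iff _).2 fun y hy => ?_)
    funext g
    have h1 := hrep _ (hl y hy g)
    rw [h0] at h1
    simp at h1
    exact h1.symm
  · have h1 := hstar g
    rw [hinv] at h1
    exact Complex.conj_eq_iff_im.1 h1.symm

lemma perm_isConj_inv {m : ℕ} (g : Equiv.Perm (Fin m)) : IsConj g g⁻¹ := by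
  rw [Equiv.Perm.isConj_iff_cycleType_eq, Equiv.Perm.cycleType_inv]

end group

end Pool.Agent.H301_RC
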