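import Pool.Agent.H301_RC.Psef2

/-! The maximum principle for invariant polynomials: the global part. -/

set_option autoImplicit false
set_option linter.unusedSectionVars false

open scoped Manifold ContDiff Topology ComplexConjugate
open Filter Set Module

namespace Pool.Agent.H301_RC

/-- `ρ` is a representation. -/
structure IsRep {E : Type*} [NormedAddCommGroup E] [NormedSpace ℂ E] {W : Type*} [AddCommGroup W]
    [Module ℂ W] (ρ : (E →L[ℂ] E) → W →ₗ[ℂ] W) : Prop where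
  one : ρ (ContinuousLinearMap.id ℂ E) = LinearMap.id
  mul : ∀ A B : E →L[ℂ] E, ρ (A.comp B) = (ρ A).comp (ρ B)

variable {E : Type*} [NormedAddCommGroup E] [NormedSpace ℂ E]
  {M : Type*} [TopologicalSpace M] [ChartedSpace E M] [IsManifold 𝓘(ℂ, E) ω M]
  {W : Type*} [AddCommGroup W] [Module ℂ W] {m : ℕ}
  {ρ : (E →L[ℂ] E) → W →ₗ[ℂ] W} {ι : Type*} [Fintype ι] {b : Basis ι ℂ W} {k N : ℕ}
  {P : (E [×m]→L[ℂ] ℂ) → W → ℂ}

lemma pt_source {x : M} {z : E} (hz : z ∈ (extChartAt 𝓘(ℂ, E) x).target) :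
    pt x z ∈ (extChartAt 𝓘(ℂ, E) x).source := (extChartAt 𝓘(ℂ, E) x).map_target hz

lemma frame_back (hρ : IsRep ρ) {x : M} {z : E} (hz : z ∈ (extChartAt 𝓘(ℂ, E) x).target) :
    (frame ρ x z).comp (ρ (tangentCoordChange 𝓘(ℂ, E) (pt x z) x (pt x z))) = LinearMap.id := by
  unfold frame
  rw [← hρ.mul, ← hρ.one]
  congr 1
  ext v
  have h1 := pt_source hz
  have h2 := mem_extChartAt_source (I := 𝓘(ℂ, E)) (pt x z)
  rw [ContinuousLinearMap.comp_apply, tangentCoordChange_comp ⟨⟨h2, h1⟩, h2⟩,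
    tangentCoordChange_self h2]
  rfl

lemma frame_forth (hρ : IsRep ρ) {x : M} {z : E} (hz : z ∈ (extChartAt 𝓘(ℂ, E) x).target) :
    (ρ (tangentCoordChange 𝓘(ℂ, E) (pt x z) x (pt x z))).comp (frame ρ x z) = LinearMap.id := by
  unfold frame
  rw [← hρ.mul, ← hρ.one]
  congr 1
  ext v
  have h1 := pt_source hz
  have h2 := mem_extChartAt_source (I := 𝓘(ℂ, E)) (pt x z)
  rw [ContinuousLinearMap.comp_apply, tangentCoordChange_comp ⟨⟨h1, h2⟩, h1⟩,
    tangentCoordChange_self h1]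
  rfl

lemma frame_surj (hρ : IsRep ρ) {x : M} {z : E} (hz : z ∈ (extChartAt 𝓘(ℂ, E) x).target) (w : W) :
    ∃ w', frame ρ x z w' = w :=
  ⟨_, LinearMap.congr_fun (frame_back hρ hz) w⟩

lemma frame_ne (hρ : IsRep ρ) {x : M} {z : E} (hz : z ∈ (extChartAt 𝓘(ℂ, E) x).target) {w : W}
    (hw : w ≠ 0) : frame ρ x z w ≠ 0 := by
  intro h0
  have h1 := LinearMap.congr_fun (frame_forth hρ hz) w
  rw [LinearMap.comp_apply, h0, map_zero] at h1
  exact hw h1.symm

lemma frame_self (hρ : IsRep ρ) (x : M) (w : W) : frame ρ x (co E x) w = w := by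
  unfold frame
  rw [pt_co]
  have : tangentCoordChange 𝓘(ℂ, E) x x x = ContinuousLinearMap.id ℂ E := by
    ext v
    exact tangentCoordChange_self (mem_extChartAt_source x)
  rw [this, hρ.one]
  rfl

lemma loc_pos (hρ : IsRep ρ) (g : HermitianMetric ρ M) {x : M} {z : E}
    (hz : z ∈ (extChartAt 𝓘(ℂ, E) x).target) {w : W} (hw : w ≠ 0) : 0 < (g.loc x z w w).re :=
  g.pos _ _ (frame_ne hρ hz hw)

lemma loc_center (hρ : IsRep ρ) (g : HermitianMetric ρ M) (x : M) (w : W) :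
    g.loc x (co E x) w w = g.form x w w := by
  unfold HermitianMetric.loc locForm
  rw [frame_self hρ, pt_co]

lemma loc_smul (g : HermitianMetric ρ M) (x : M) (z : E) (c : ℂ) (w : W) :
    (g.loc x z (c • w) (c • w)).re = ‖c‖ ^ 2 * (g.loc x z w w).re := by
  rw [g.loc_smul_left, g.loc_smul_right, ← mul_assoc, Complex.mul_conj, Complex.normSq_eq_norm_sq,
    Complex.re_ofReal_mul]

/-- the quotient -/
noncomputable def quo (g : HermitianMetric ρ M) (T : PsefTensor E M m)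
    (P : (E [×m]→L[ℂ] ℂ) → W → ℂ) (k N : ℕ) (x : M) (z : E) (w : W) : ℝ :=
  amp T P k x z w / (g.loc x z w w).re ^ N

lemma quo_change (hρ : IsRep ρ) (g : HermitianMetric ρ M) (T : PsefTensor E M m)
    (hP : InvPoly ρ b k N P) {x : M} {z : E} (hz : z ∈ T.U x) (w : W) :
    quo g T P k N x z w = quo g T P k N (pt x z) (co E (pt x z)) (frame ρ x z w) := by
  unfold quo
  rw [amp_change hP T hz, loc_center hρ]
  rfl

lemma quo_smul (g : HermitianMetric ρ M) (T : PsefTensor E M m)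
    (hP : InvPoly ρ b k N P) (x : M) (z : E) {c : ℂ} (hc : c ≠ 0) (w : W) :
    quo g T P k N x z (c • w) = quo g T P k N x z w := by
  unfold quo amp
  rw [hP.hom2, loc_smul, norm_mul, norm_pow]
  have h1 : (‖c‖ ^ 2) ^ N = (‖c‖ ^ N) ^ 2 := by rw [← pow_mul, ← pow_mul, mul_comm]
  have h2 : (‖c‖ ^ N) ≠ 0 := pow_ne_zero _ (norm_ne_zero_iff.2 hc)
  rw [mul_pow (‖c‖ ^ 2), h1]
  have h3 : (‖c‖ ^ N * ‖P (T.σ x z) w‖ * ex (T.φ x z) ^ k) ^ 2 =
      (‖c‖ ^ N) ^ 2 * (‖P (T.σ x z) w‖ * ex (T.φ x z) ^ k) ^ 2 := by ring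
  rw [h3, mul_div_mul_left _ _ (pow_ne_zero 2 h2)]

lemma loc_expand (g : HermitianMetric ρ M) (x : M) (z : E) (c : ι → ℂ) :
    g.loc x z (∑ i, c i • b i) (∑ i, c i • b i) =
      ∑ i, ∑ j, c i * (conj (c j) * g.loc x z (b i) (b j)) := by
  unfold HermitianMetric.loc locForm
  simp only [map_sum, LinearMap.sum_apply, map_smulₛₗ, LinearMap.smul_apply, smul_eq_mul,
    RingHom.id_apply]
  rw [Finset.sum_comm]
  simp only [Finset.mul_sum]
  refine Finset.sum_congr rfl fun i _ => Finset.sum_congr rfl fun j _ => ?_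
  ring

lemma loc_contOn (g : HermitianMetric ρ M) (x : M) :
    ContinuousOn (fun q : E × (ι → ℂ) => (g.loc x q.1 (∑ i, q.2 i • b i) (∑ i, q.2 i • b i)).re)
      ((extChartAt 𝓘(ℂ, E) x).target ×ˢ univ) := by
  refine Complex.continuous_re.comp_continuousOn ?_
  simp only [loc_expand]
  refine continuousOn_finsetSum _ fun i _ => continuousOn_finsetSum _ fun j _ => ?_
  have h1 : ContinuousOn (fun z => g.loc x z (b i) (b j)) (extChartAt 𝓘(ℂ, E) x).target :=
    (g.smooth x (b i) (b j)).continuousOn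
  have h2 : ContinuousOn (fun q : E × (ι → ℂ) => g.loc x q.1 (b i) (b j))
      ((extChartAt 𝓘(ℂ, E) x).target ×ˢ univ) :=
    h1.comp continuousOn_fst fun q hq => hq.1
  have h3 : Continuous fun q : E × (ι → ℂ) => q.2 i := by fun_prop
  have h4 : Continuous fun q : E × (ι → ℂ) => conj (q.2 j) :=
    Complex.continuous_conj.comp (by fun_prop)
  exact h3.continuousOn.mul (h4.continuousOn.mul h2)

lemma quo_usc (hρ : IsRep ρ) (g : HermitianMetric ρ M) (T : PsefTensor E M m)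
    (hP : InvPoly ρ b k N P) (x : M) :
    UpperSemicontinuousOn (fun q : E × (ι → ℂ) => quo g T P k N x q.1 (∑ i, q.2 i • b i))
      (T.U x ×ˢ {c | c ≠ 0}) := by
  have hsub : T.U x ×ˢ {c : ι → ℂ | c ≠ 0} ⊆ (extChartAt 𝓘(ℂ, E) x).target ×ˢ univ :=
    prod_mono (T.sub x) (subset_univ _)
  have hne : ∀ c : ι → ℂ, c ≠ 0 → ∑ i, c i • b i ≠ 0 := by
    intro c hc h0
    refine hc ?_
    have h1 := (Fintype.linearIndependent_iff.1 b.linearIndependent) c h0
    exact funext h1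
  have hBp : ∀ q ∈ T.U x ×ˢ {c : ι → ℂ | c ≠ 0},
      0 < (g.loc x q.1 (∑ i, q.2 i • b i) (∑ i, q.2 i • b i)).re := fun q hq =>
    loc_pos hρ g (T.sub x hq.1) (hne _ hq.2)
  have hBc := (loc_contOn (b := b) g x).mono hsub
  have hσ : ContinuousOn (fun q : E × (ι → ℂ) => T.σ x q.1) (T.U x ×ˢ {c : ι → ℂ | c ≠ 0}) :=
    (T.hol x).continuousOn.comp continuousOn_fst fun q hq => hq.1
  have hPc : ContinuousOn (fun q : E × (ι → ℂ) => P (T.σ x q.1) (∑ i, q.2 i • b i))
      (T.U x ×ˢ {c : ι → ℂ | c ≠ 0}) := by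
    have h1 : Continuous fun q : (E [×m]→L[ℂ] ℂ) × (ι → ℂ) => P q.1 (∑ i, q.2 i • b i) :=
      hP.diff.continuous
    exact h1.comp_continuousOn (hσ.prodMk continuousOn_snd)
  have hcont : ContinuousOn (fun q : E × (ι → ℂ) => ‖P (T.σ x q.1) (∑ i, q.2 i • b i)‖ ^ 2 /
      (g.loc x q.1 (∑ i, q.2 i • b i) (∑ i, q.2 i • b i)).re ^ N)
      (T.U x ×ˢ {c : ι → ℂ | c ≠ 0}) :=
    (hPc.norm.pow 2).div (hBc.pow N) fun q hq => (pow_pos (hBp q hq) N).ne'
  have husc : UpperSemicontinuousOn (fun q : E × (ι → ℂ) => ex (T.φ x q.1) ^ (2 * k))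
      (T.U x ×ˢ {c : ι → ℂ | c ≠ 0}) := by
    refine usc_pow ?_ (fun q _ => ex_nonneg _) _
    have h1 := ex_usc (T.psh x).usc (T.psh x).lt_top
    intro q hq y hy
    have h2 := h1 q.1 hq.1 y hy
    have h3 : Tendsto (Prod.fst : E × (ι → ℂ) → E) (𝓝[T.U x ×ˢ {c : ι → ℂ | c ≠ 0}] q)
        (𝓝[T.U x] q.1) := by
      refine tendsto_nhdsWithin_of_tendsto_nhds_of_eventually_within _
        (continuous_fst.continuousAt.tendsto.mono_left nhdsWithin_le_nhds) ?_
      filter_upwards [self_mem_nhdsWithin] with w hw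
      exact hw.1
    exact h3.eventually h2
  have h5 := usc_mul hcont (fun q hq => div_nonneg (sq_nonneg _) (pow_pos (hBp q hq) N).le) husc
    (fun q _ => pow_nonneg (ex_nonneg _) _)
  have h6 : (fun q : E × (ι → ℂ) => quo g T P k N x q.1 (∑ i, q.2 i • b i)) = fun q =>
      ‖P (T.σ x q.1) (∑ i, q.2 i • b i)‖ ^ 2 /
      (g.loc x q.1 (∑ i, q.2 i • b i) (∑ i, q.2 i • b i)).re ^ N * ex (T.φ x q.1) ^ (2 * k) := by
    funext q
    unfold quo amp
    ring
  rw [h6]
  exact h5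

variable [FiniteDimensional ℂ E] [CompactSpace M]

/-- Over a compact manifold the quotient attains its supremum. -/
theorem exists_max [Nonempty M] [Nonempty ι] (hρ : IsRep ρ) (g : HermitianMetric ρ M)
    (T : PsefTensor E M m) (hP : InvPoly ρ b k N P) : ∃ (x : M) (w : W), w ≠ 0 ∧
      ∀ (y : M) (w' : W), w' ≠ 0 → quo g T P k N y (co E y) w' ≤ quo g T P k N x (co E x) w := by
  classical
  have : ProperSpace E := FiniteDimensional.proper ℂ E
  have hr : ∀ x : M, ∃ r > 0, Metric.closedBall (co E x) r ⊆ T.U x := fun x =>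
    Metric.nhds_basis_closedBall.mem_iff.1 ((T.isOpen x).mem_nhds (T.mem x))
  choose r hr0 hr using hr
  let V : M → Set M := fun x => (chartAt E x).source ∩ chartAt E x ⁻¹' Metric.ball (co E x) (r x)
  have hV : ∀ x, V x ∈ 𝓝 x := by
    intro x
    have h1 := ev_chart (mem_chart_source E x) (Metric.ball_mem_nhds (co E x) (hr0 x))
    exact h1
  obtain ⟨t, -, ht⟩ := isCompact_univ.elim_nhds_subcover V fun x _ => hV x
  let S : Set (ι → ℂ) := Metric.sphere 0 1
  have hSne : S.Nonempty := by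
    obtain ⟨i⟩ := ‹Nonempty ι›
    exact NormedSpace.sphere_nonempty.2 zero_le_one
  have hS0 : ∀ c ∈ S, c ≠ 0 := by
    rintro c hc rfl
    have : ‖(0 : ι → ℂ)‖ = 1 := mem_sphere_zero_iff_norm.1 hc
    simp at this
  have hmax : ∀ x : M, ∃ q ∈ Metric.closedBall (co E x) (r x) ×ˢ S,
      ∀ q' ∈ Metric.closedBall (co E x) (r x) ×ˢ S,
      quo g T P k N x q'.1 (∑ i, q'.2 i • b i) ≤ quo g T P k N x q.1 (∑ i, q.2 i • b i) := by
    intro x
    have h1 : IsCompact (Metric.closedBall (co E x) (r x) ×ˢ S) :=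
      (isCompact_closedBall _ _).prod (isCompact_sphere _ _)
    have h2 : (Metric.closedBall (co E x) (r x) ×ˢ S).Nonempty :=
      ⟨(co E x, hSne.some), ⟨Metric.mem_closedBall_self (hr0 x).le, hSne.some_mem⟩⟩
    have h3 : Metric.closedBall (co E x) (r x) ×ˢ S ⊆ T.U x ×ˢ {c : ι → ℂ | c ≠ 0} :=
      prod_mono (hr x) hS0
    obtain ⟨q, hq, hq2⟩ := ((quo_usc hρ g T hP x).mono h3).exists_isMaxOn h2 h1
    exact ⟨q, hq, fun q' hq' => hq2 hq'⟩
  choose q hq hqmax using hmax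
  have htne : t.Nonempty := by
    rcases t.eq_empty_or_nonempty with h0 | h0
    · rw [h0] at ht
      obtain ⟨x⟩ := ‹Nonempty M›
      have := ht (mem_univ x)
      simp at this
    · exact h0
  obtain ⟨x, hx, hxmax⟩ := t.exists_max_image
    (fun x => quo g T P k N x (q x).1 (∑ i, (q x).2 i • b i)) htne
  have hqU : (q x).1 ∈ T.U x := hr x (hq x).1
  have hw0 : ∀ c : ι → ℂ, c ≠ 0 → ∑ i, c i • b i ≠ 0 := by
    intro c hc h0
    refine hc ?_
    have h1 := (Fintype.linearIndependent_iff.1 b.linearIndependent) c h0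
    exact funext h1
  refine ⟨pt x (q x).1, frame ρ x (q x).1 (∑ i, (q x).2 i • b i),
    frame_ne hρ (T.sub x hqU) (hw0 _ (hS0 _ (hq x).2)), fun y w' hw' => ?_⟩
  rw [← quo_change hρ g T hP hqU]
  have hy : y ∈ ⋃ x ∈ t, V x := ht (mem_univ y)
  simp only [mem_iUnion, exists_prop] at hy
  obtain ⟨x', hx't, hyV⟩ := hy
  refine le_trans ?_ (hxmax x' hx't)
  set z := chartAt E x' y with hz
  have hzb : z ∈ Metric.ball (co E x') (r x') := hyV.2
  have hzU : z ∈ T.U x' := hr x' (Metric.ball_subset_closedBall hzb)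
  have hpt : pt x' z = y := (chartAt E x').left_inv hyV.1
  obtain ⟨w'', hw''⟩ := frame_surj hρ (T.sub x' hzU) w'
  have h1 := quo_change hρ g T hP hzU w''
  rw [hw'', hpt] at h1
  rw [← h1]
  have hw''0 : w'' ≠ 0 := by
    rintro rfl
    rw [map_zero] at hw''
    exact hw' hw''.symm
  set c : ι → ℂ := fun i => b.repr w'' i with hc
  have hcw : ∑ i, c i • b i = w'' := b.sum_repr w''
  have hc0 : c ≠ 0 := by
    intro h0
    rw [h0] at hcw
    simp at hcw
    exact hw''0 hcw.symm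
  have hn : ‖c‖ ≠ 0 := norm_ne_zero_iff.2 hc0
  have h2 := hqmax x' (z, fun i => ((‖c‖⁻¹ : ℝ) : ℂ) * c i) ⟨Metric.ball_subset_closedBall hzb, by
    have h3 : (fun i => ((‖c‖⁻¹ : ℝ) : ℂ) * c i) = ((‖c‖⁻¹ : ℝ) : ℂ) • c := rfl
    rw [h3]
    refine mem_sphere_zero_iff_norm.2 ?_
    rw [norm_smul, Complex.norm_real, norm_inv, norm_norm, inv_mul_cancel₀ hn]⟩
  refine le_trans (le_of_eq ?_) h2
  simp only [mul_smul, ← Finset.smul_sum, hcw]
  refine (quo_smul g T hP x' z ?_ w'').symm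
  exact_mod_cast inv_ne_zero hn

/-- The maximum principle: invariant polynomials of a pseudo-effective tensor and an RC-positive
metric vanish. -/
theorem vanish (hρ : IsRep ρ) (g : HermitianMetric ρ M) (hg : g.RCPositive)
    (T : PsefTensor E M m) (hP : InvPoly ρ b k N P) (hk : k ≠ 0) (hN : N ≠ 0) (x : M) (z : E)
    (hz : z ∈ T.U x) (w : W) : P (T.σ x z) w = 0 := by
  by_contra hne
  have : Nonempty M := ⟨x⟩
  have hw : w ≠ 0 := by
    rintro rfl
    exact hne (hP.zero_right hN _)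
  have hι : Nonempty ι := by
    by_contra h0
    rw [not_nonempty_iff] at h0
    exact hw (b.repr.injective (Subsingleton.elim _ _))
  -- a point where `φ` is finite
  have hc : ContinuousOn (fun z => P (T.σ x z) w) (T.U x) := by
    have h1 : Continuous fun q : (E [×m]→L[ℂ] ℂ) × (ι → ℂ) => P q.1 (∑ i, q.2 i • b i) :=
      hP.diff.continuous
    have h2 := h1.comp_continuousOn
      ((T.hol x).continuousOn.prodMk (continuousOn_const (c := fun i => b.repr w i)))
    refine h2.congr fun z _ => ?_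
    simp only [Function.comp_apply, b.sum_repr]
  have hopen : IsOpen (T.U x ∩ (fun z => P (T.σ x z) w) ⁻¹' {0}ᶜ) :=
    hc.isOpen_inter_preimage (T.isOpen x) isOpen_compl_singleton
  obtain ⟨z1, h1, h2⟩ := mem_closure_iff.1 (T.dense x hz) _ hopen ⟨hz, hne⟩
  have hpos : 0 < quo g T P k N x z1 w := by
    unfold quo amp
    have h3 : 0 < ‖P (T.σ x z1) w‖ := norm_pos_iff.2 h1.2
    have h4 : 0 < ex (T.φ x z1) := by
      rcases ex_cases ((T.psh x).lt_top z1 h1.1) with h5 | ⟨t, h5⟩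
      · exact absurd h5 h2.2
      · rw [h5, ex_coe]; exact Real.exp_pos _
    have h5 := loc_pos hρ g (T.sub x h1.1) hw
    positivity
  obtain ⟨x0, w0, hw0, hmax⟩ := exists_max (b := b) (k := k) (N := N) (P := P) hρ g T hP
  set G := quo g T P k N x0 (co E x0) w0 with hG
  have hGpos : 0 < G := by
    refine lt_of_lt_of_le hpos ?_
    rw [quo_change hρ g T hP h1.1]
    exact hmax _ _ (frame_ne hρ (T.sub x h1.1) hw)
  have hB0 : 0 < (g.loc x0 (co E x0) w0 w0).re := loc_pos hρ g (T.sub x0 (T.mem x0)) hw0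
  obtain ⟨v, r, hv, hr⟩ := hg x0 w0 hw0
  refine local_max g T hP hk hN hGpos hB0 ?_ ?_ hr hv
  · intro z' hz' w'
    by_cases hw' : w' = 0
    · rw [hw']
      unfold amp
      rw [hP.zero_right hN, norm_zero, zero_mul]
      have := g.loc_self_re_nonneg x0 z' (0 : W)
      rw [zero_pow two_ne_zero]
      positivity
    · have h3 := loc_pos hρ g (T.sub x0 hz') hw'
      rw [← div_le_iff₀ (pow_pos h3 N)]
      have h4 := quo_change hρ g T hP hz' w'
      have h5 := hmax (pt x0 z') _ (frame_ne hρ (T.sub x0 hz') hw')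
      rw [← h4] at h5
      exact h5
  · rw [hG]
    unfold quo
    rw [div_mul_cancel₀ _ (pow_pos hB0 N).ne']

end Pool.Agent.H301_RC
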