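import Pool.Agent.H301_RC.Calc

/-! Tensor powers of Hermitian forms. -/

set_option autoImplicit false
set_option linter.unusedSectionVars false

open scoped Topology ComplexConjugate TensorProduct
open Module

namespace Pool.Agent.H301_RC

variable {V : Type*} [AddCommGroup V] [Module ℂ V]

/-- sesquilinear forms -/
abbrev SF (V : Type*) [AddCommGroup V] [Module ℂ V] := V →ₗ[ℂ] V →ₗ⋆[ℂ] ℂ

lemma sf_expand {ι : Type*} [Fintype ι] (b : Basis ι ℂ V) (H : SF V) (a c : V) :
    H a c = ∑ i, ∑ j, b.repr a i * (conj (b.repr c j) * H (b i) (b j)) := by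
  conv_lhs => rw [← b.sum_repr a, ← b.sum_repr c]
  simp only [map_sum, LinearMap.sum_apply, map_smulₛₗ, LinearMap.smul_apply,
    smul_eq_mul, RingHom.id_apply]
  rw [Finset.sum_comm]
  refine Finset.sum_congr rfl fun i _ => ?_
  rw [Finset.mul_sum]
  refine Finset.sum_congr rfl fun j _ => ?_
  ring

lemma sf_ext {ι : Type*} [Fintype ι] (b : Basis ι ℂ V) {H H' : SF V}
    (h : ∀ i j, H (b i) (b j) = H' (b i) (b j)) (a c : V) : H a c = H' a c := by
  rw [sf_expand b H, sf_expand b H']
  simp only [h]

/-- the form with `a, c` replaced by `A a, A c` -/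
noncomputable def pullSF {V' : Type*} [AddCommGroup V'] [Module ℂ V'] (A : V' →ₗ[ℂ] V) (H : SF V) :
    SF V' :=
  LinearMap.mk₂'ₛₗ (RingHom.id ℂ) (starRingEnd ℂ) (fun a c => H (A a) (A c))
    (fun _ _ _ => by simp) (fun _ _ _ => by simp) (fun _ _ _ => by simp) (fun _ _ _ => by simp)

@[simp] lemma pullSF_apply {V' : Type*} [AddCommGroup V'] [Module ℂ V'] (A : V' →ₗ[ℂ] V) (H : SF V)
    (a c : V') : pullSF A H a c = H (A a) (A c) := rfl

section diag

/-- Simultaneous diagonalisation. -/
theorem exists_diag [FiniteDimensional ℂ V] (H R : SF V) (hH : ∀ a c, conj (H a c) = H c a)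
    (hpos : ∀ a, a ≠ 0 → 0 < (H a a).re) (hR : ∀ a c, conj (R a c) = R c a) :
    ∃ (b : Basis (Fin (finrank ℂ V)) ℂ V) (l : Fin (finrank ℂ V) → ℝ),
      (∀ i j, H (b i) (b j) = if i = j then 1 else 0) ∧
      ∀ i j, R (b i) (b j) = if i = j then (l i : ℂ) else 0 := by
  have him : ∀ a, (H a a).im = 0 := fun a => Complex.conj_eq_iff_im.1 (hH a a)
  let core : InnerProductSpace.Core ℂ V :=
    { inner := fun x y => H y x
      conj_inner_symm := fun x y => hH x y
      re_inner_nonneg := fun x => by
        by_cases hx : x = 0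
        · simp [hx]
        · exact (hpos x hx).le
      add_left := fun x y z => by simp
      smul_left := fun x y r => by simp
      definite := fun x hx => by
        by_contra hne
        have h1 := hpos x hne
        have h2 : H x x = 0 := hx
        rw [h2] at h1
        simp at h1 }
  letI : NormedAddCommGroup V := core.toNormedAddCommGroup
  letI : InnerProductSpace ℂ V := InnerProductSpace.ofCore core.toCore
  have hin : ∀ x y : V, inner ℂ x y = H y x := fun x y => rfl
  -- the operator
  have hex : ∀ a : V, ∃ t : V, ∀ c, H t c = R a c := by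
    intro a
    let φ : V →ₗ[ℂ] ℂ :=
      { toFun := fun c => conj (R a c)
        map_add' := fun x y => by simp
        map_smul' := fun k x => by simp }
    let φ' : V →L[ℂ] ℂ := LinearMap.toContinuousLinearMap φ
    refine ⟨(InnerProductSpace.toDual ℂ V).symm φ', fun c => ?_⟩
    have h1 : inner ℂ ((InnerProductSpace.toDual ℂ V).symm φ') c = φ' c :=
      InnerProductSpace.toDual_symm_apply
    rw [hin] at h1
    have h2 := congrArg (starRingEnd ℂ) h1
    rw [hH] at h2
    rw [h2]
    have h3 : φ' c = conj (R a c) := rfl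
    rw [h3, Complex.conj_conj]
  choose t ht using hex
  have hnd : ∀ x y : V, (∀ c, H x c = H y c) → x = y := by
    intro x y h
    by_contra hne
    have h1 := hpos (x - y) (sub_ne_zero.2 hne)
    have h3 : ∀ c, H (x - y) c = 0 := fun c => by
      rw [map_sub, LinearMap.sub_apply, h, sub_self]
    have h2 : H (x - y) (x - y) = 0 := h3 _
    rw [h2] at h1
    simp at h1
  let T : V →ₗ[ℂ] V :=
    { toFun := t
      map_add' := fun x y => hnd _ _ fun c => by simp [ht]
      map_smul' := fun k x => hnd _ _ fun c => by simp [ht] }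
  have hT : ∀ a c, H (T a) c = R a c := ht
  have hsym : T.IsSymmetric := by
    intro x y
    rw [hin, hin, hT, ← hH (T x) y, hT, hR]
  let b := hsym.eigenvectorBasis rfl
  refine ⟨b.toBasis, hsym.eigenvalues rfl, fun i j => ?_, fun i j => ?_⟩
  · have h1 := b.orthonormal
    rw [orthonormal_iff_ite] at h1
    have h2 := h1 j i
    rw [hin] at h2
    simp only [OrthonormalBasis.coe_toBasis]
    rw [h2]
    simp only [eq_comm]
  · have h1 := b.orthonormal
    rw [orthonormal_iff_ite] at h1
    have h2 := h1 j i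
    rw [hin] at h2
    have h3 : T (b i) = (hsym.eigenvalues rfl i : ℂ) • b i := hsym.apply_eigenvectorBasis rfl i
    simp only [OrthonormalBasis.coe_toBasis]
    rw [← hT, h3, map_smul, LinearMap.smul_apply, h2]
    by_cases hij : i = j
    · simp [hij]
    · have hji : ¬ j = i := fun h => hij h.symm
      simp [hij, hji]

end diag

section tensor

variable [FiniteDimensional ℂ V] {p : ℕ}

/-- the basis of the tensor power -/
noncomputable def tb {ι : Type*} (b : Basis ι ℂ V) (p : ℕ) :
    Basis (Fin p → ι) ℂ (⨂[ℂ]^p V) := Basis.piTensorProduct fun _ => b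

lemma tb_apply {ι : Type*} (b : Basis ι ℂ V) (I : Fin p → ι) :
    tb b p I = PiTensorProduct.tprod ℂ fun k => b (I k) :=
  Basis.piTensorProduct_apply _ I

lemma tb_repr {ι : Type*} (b : Basis ι ℂ V) (a : Fin p → V) (I : Fin p → ι) :
    (tb b p).repr (PiTensorProduct.tprod ℂ a) I = ∏ k, b.repr (a k) (I k) :=
  Basis.piTensorProduct_repr_tprod_apply _ _ _

/-- The tensor power of a form. -/
noncomputable def tform (H : SF V) (p : ℕ) : SF (⨂[ℂ]^p V) :=
  LinearMap.mk₂'ₛₗ (RingHom.id ℂ) (starRingEnd ℂ)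
    (fun S T => ∑ I, ∑ J, (tb (finBasis ℂ V) p).repr S I * (conj ((tb (finBasis ℂ V) p).repr T J) *
      ∏ k, H (finBasis ℂ V (I k)) (finBasis ℂ V (J k))))
    (fun S S' T => by
      simp only [map_add, Finsupp.add_apply, add_mul, Finset.sum_add_distrib])
    (fun c S T => by
      simp only [map_smul, Finsupp.smul_apply, smul_eq_mul, RingHom.id_apply, Finset.mul_sum,
        mul_assoc])
    (fun S T T' => by
      simp only [map_add, Finsupp.add_apply, add_mul, mul_add, Finset.sum_add_distrib])
    (fun c S T => by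
      simp only [map_smul, Finsupp.smul_apply, smul_eq_mul, map_mul, Finset.mul_sum]
      refine Finset.sum_congr rfl fun I _ => Finset.sum_congr rfl fun J _ => ?_
      ring)

lemma tform_apply (H : SF V) (S T : ⨂[ℂ]^p V) : tform H p S T =
    ∑ I, ∑ J, (tb (finBasis ℂ V) p).repr S I * (conj ((tb (finBasis ℂ V) p).repr T J) *
      ∏ k, H (finBasis ℂ V (I k)) (finBasis ℂ V (J k))) := rfl

lemma tform_tprod (H : SF V) (a c : Fin p → V) :
    tform H p (PiTensorProduct.tprod ℂ a) (PiTensorProduct.tprod ℂ c) = ∏ k, H (a k) (c k) := by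
  rw [tform_apply]
  simp only [tb_repr]
  have h1 : ∀ k, H (a k) (c k) = ∑ i, ∑ j, (finBasis ℂ V).repr (a k) i *
      (conj ((finBasis ℂ V).repr (c k) j) * H (finBasis ℂ V i) (finBasis ℂ V j)) := fun k =>
    sf_expand _ _ _ _
  simp only [h1]
  rw [Finset.prod_univ_sum]
  simp only [Fintype.piFinset_univ]
  refine Finset.sum_congr rfl fun I _ => ?_
  rw [Finset.prod_univ_sum]
  simp only [Fintype.piFinset_univ]
  refine Finset.sum_congr rfl fun J _ => ?_
  rw [map_prod, ← Finset.prod_mul_distrib, ← Finset.prod_mul_distrib]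

lemma tform_map {V' : Type*} [AddCommGroup V'] [Module ℂ V'] [FiniteDimensional ℂ V']
    (A : V' →ₗ[ℂ] V) (H : SF V) (S T : ⨂[ℂ]^p V') :
    tform H p (PiTensorProduct.map (fun _ => A) S) (PiTensorProduct.map (fun _ => A) T) =
      tform (pullSF A H) p S T := by
  have h1 := sf_ext (tb (finBasis ℂ V') p)
    (H := pullSF (PiTensorProduct.map (fun _ : Fin p => A)) (tform H p))
    (H' := tform (pullSF A H) p) (fun I J => by
      rw [pullSF_apply, tb_apply, tb_apply, PiTensorProduct.map_tprod, PiTensorProduct.map_tprod,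
        tform_tprod, tform_tprod]
      rfl) S T
  rwa [pullSF_apply] at h1

lemma tform_herm {H : SF V} (hH : ∀ a c, conj (H a c) = H c a) (S T : ⨂[ℂ]^p V) :
    conj (tform H p S T) = tform H p T S := by
  rw [tform_apply, tform_apply, map_sum, Finset.sum_comm]
  simp only [map_sum, map_mul, Complex.conj_conj, map_prod, hH]
  refine Finset.sum_congr rfl fun J _ => Finset.sum_congr rfl fun I _ => ?_
  ring

/-- the tensor power in an orthogonal basis -/
lemma tform_diag {ι : Type*} [Fintype ι] [DecidableEq ι] (b : Basis ι ℂ V) (H : SF V)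
    (l : (Fin p → ι) → ℂ) (hH : ∀ I J, ∏ k, H (b (I k)) (b (J k)) = if I = J then l I else 0)
    (T : ⨂[ℂ]^p V) :
    tform H p T T = ∑ I, (Complex.normSq ((tb b p).repr T I) : ℂ) * l I := by
  rw [sf_expand (tb b p) (tform H p) T T]
  refine Finset.sum_congr rfl fun I _ => ?_
  simp only [tb_apply, tform_tprod, hH]
  rw [Finset.sum_eq_single I]
  · simp only [if_true]
    rw [← mul_assoc, Complex.mul_conj]
  · intro J _ hJ
    rw [if_neg (Ne.symm hJ), mul_zero, mul_zero]
  · intro h; exact absurd (Finset.mem_univ I) h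

lemma tform_pos {H : SF V} (hH : ∀ a c, conj (H a c) = H c a)
    (hpos : ∀ a, a ≠ 0 → 0 < (H a a).re) {T : ⨂[ℂ]^p V} (hT : T ≠ 0) :
    0 < (tform H p T T).re := by
  obtain ⟨b, l, h1, _⟩ := exists_diag H H hH hpos hH
  have h2 : ∀ I J : Fin p → Fin (finrank ℂ V), ∏ k, H (b (I k)) (b (J k)) =
      if I = J then (1 : ℂ) else 0 := by
    intro I J
    simp only [h1]
    by_cases hIJ : I = J
    · simp [hIJ]
    · rw [if_neg hIJ]
      obtain ⟨k, hk⟩ := Function.ne_iff.1 hIJ
      exact Finset.prod_eq_zero (Finset.mem_univ k) (if_neg hk)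
  rw [tform_diag b H (fun _ => 1) h2 T]
  simp only [mul_one]
  rw [Complex.re_sum]
  simp only [Complex.ofReal_re]
  have h3 : ∃ I, (tb b p).repr T I ≠ 0 := by
    by_contra hcon
    push Not at hcon
    exact hT ((tb b p).repr.map_eq_zero_iff.1 (Finsupp.ext hcon))
  obtain ⟨I, hI⟩ := h3
  exact Finset.sum_pos' (fun i _ => Complex.normSq_nonneg _)
    ⟨I, Finset.mem_univ I, Complex.normSq_pos.2 hI⟩

end tensor

end Pool.Agent.H301_RC
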