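import Pool.Agent.H301_RC.Alg1
import Pool.Agent.H301_RC.Psef3
import Pool.Agent.H301_RC.TP1

/-! Invariant polynomials of a covariant tensor and a vector of a tensor power. -/

set_option autoImplicit false
set_option linter.unusedSectionVars false

open scoped ComplexConjugate TensorProduct
open Module Finset

namespace Pool.Agent.H301_RC

section ml

variable {V : Type*} [AddCommGroup V] [Module ℂ V] {ι : Type*} [Fintype ι]

lemma ml_expand (b : Basis ι ℂ V) {m : ℕ} (Y : MultilinearMap ℂ (fun _ : Fin m => V) ℂ)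
    (u : Fin m → V) : Y u = ∑ r : Fin m → ι, (∏ k, b.repr (u k) (r k)) * Y fun k => b (r k) := by
  classical
  have h1 : u = fun k => ∑ i, b.repr (u k) i • b i := funext fun k => (b.sum_repr (u k)).symm
  conv_lhs => rw [h1]
  rw [MultilinearMap.map_sum]
  refine Finset.sum_congr rfl fun r _ => ?_
  have h2 := Y.map_smul_univ (fun k => b.repr (u k) (r k)) (fun k => b (r k))
  rw [smul_eq_mul] at h2
  exact h2

variable [FiniteDimensional ℂ V] {p m : ℕ}

/-- The multilinear form on the tensor power. -/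
noncomputable def QQ (b : Basis ι ℂ V) (Y : Fin p → MultilinearMap ℂ (fun _ : Fin m => V) ℂ) :
    MultilinearMap ℂ (fun _ : Fin m => ⨂[ℂ]^p V) ℂ :=
  ∑ J : Fin p → Fin m → ι, (∏ j, Y j fun k => b (J j k)) •
    (MultilinearMap.mkPiAlgebra ℂ (Fin m) ℂ).compLinearMap fun k => (tb b p).coord fun j => J j k

lemma QQ_apply (b : Basis ι ℂ V) (Y : Fin p → MultilinearMap ℂ (fun _ : Fin m => V) ℂ)
    (w : Fin m → ⨂[ℂ]^p V) : QQ b Y w = ∑ J : Fin p → Fin m → ι, (∏ j, Y j fun k => b (J j k)) *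
      ∏ k, (tb b p).repr (w k) fun j => J j k := by
  unfold QQ
  rw [_root_.sum_apply]
  refine Finset.sum_congr rfl fun J _ => ?_
  simp [MultilinearMap.mkPiAlgebra_apply]

lemma QQ_tprod (b : Basis ι ℂ V) (Y : Fin p → MultilinearMap ℂ (fun _ : Fin m => V) ℂ)
    (u : Fin m → Fin p → V) :
    QQ b Y (fun k => PiTensorProduct.tprod ℂ (u k)) = ∏ j, Y j fun k => u k j := by
  classical
  rw [QQ_apply]
  have h1 : ∀ j, Y j (fun k => u k j) = ∑ r : Fin m → ι,
      (∏ k, b.repr (u k j) (r k)) * Y j fun k => b (r k) := fun j => ml_expand b (Y j) _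
  simp only [h1]
  rw [Finset.prod_univ_sum]
  rw [Fintype.piFinset_univ]
  refine Finset.sum_congr rfl fun J _ => ?_
  simp only [tb_repr]
  rw [Finset.prod_mul_distrib, Finset.prod_comm, mul_comm]

end ml

variable {E : Type*} [NormedAddCommGroup E] [NormedSpace ℂ E] [FiniteDimensional ℂ E] {p m : ℕ}

/-- the `p` forms -/
noncomputable def Yof (s : E [×m]→L[ℂ] ℂ) (π : Fin p → Equiv.Perm (Fin m)) :
    Fin p → MultilinearMap ℂ (fun _ : Fin m => E) ℂ :=
  fun j => s.toMultilinearMap.domDomCongr (π j)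

lemma Yof_apply (s : E [×m]→L[ℂ] ℂ) (π : Fin p → Equiv.Perm (Fin m)) (j : Fin p) (u : Fin m → E) :
    Yof s π j u = s fun k => u (π j k) := rfl

/-- The invariant polynomial of degree `p` in `s` and `m` in `w`. -/
noncomputable def PP (π : Fin p → Equiv.Perm (Fin m)) (s : E [×m]→L[ℂ] ℂ) (w : ⨂[ℂ]^p E) : ℂ :=
  QQ (finBasis ℂ E) (Yof s π) fun _ => w

lemma tensorRep_rep (p : ℕ) : IsRep (tensorRep E p) where
  one := by
    unfold tensorRep
    exact PiTensorProduct.map_id
  mul A B := by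
    unfold tensorRep
    exact PiTensorProduct.map_comp _ _

lemma PP_inv (π : Fin p → Equiv.Perm (Fin m)) (A : E →L[ℂ] E) (s : E [×m]→L[ℂ] ℂ)
    (w : ⨂[ℂ]^p E) :
    PP π (s.compContinuousLinearMap fun _ => A) w = PP π s (tensorRep E p A w) := by
  unfold PP
  have h : QQ (finBasis ℂ E) (Yof (s.compContinuousLinearMap fun _ => A) π) =
      (QQ (finBasis ℂ E) (Yof s π)).compLinearMap fun _ => tensorRep E p A := by
    refine Basis.ext_multilinear (fun _ => tb (finBasis ℂ E) p) fun v => ?_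
    simp only [MultilinearMap.compLinearMap_apply, tb_apply]
    unfold tensorRep
    simp only [PiTensorProduct.map_tprod]
    rw [QQ_tprod, QQ_tprod]
    rfl
  rw [h]
  rfl

lemma PP_poly (π : Fin p → Equiv.Perm (Fin m)) :
    InvPoly (tensorRep E p) (tb (finBasis ℂ E) p) p m (PP (E := E) π) where
  diff := by
    have h1 : (fun q : (E [×m]→L[ℂ] ℂ) × ((Fin p → Fin (finrank ℂ E)) → ℂ) =>
        PP π q.1 (∑ i, q.2 i • tb (finBasis ℂ E) p i)) = fun q =>
        ∑ J : Fin p → Fin m → Fin (finrank ℂ E),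
        (∏ j, q.1 fun k => finBasis ℂ E (J j (π j k))) * ∏ k, q.2 fun j => J j k := by
      funext q
      unfold PP
      rw [QQ_apply]
      refine Finset.sum_congr rfl fun J _ => ?_
      congr 1
      refine Finset.prod_congr rfl fun k _ => ?_
      rw [(tb (finBasis ℂ E) p).repr_sum_self]
    rw [h1]
    refine Differentiable.fun_sum fun J _ => ?_
    refine Differentiable.fun_mul ?_ ?_
    · refine ContDiff.differentiable (n := 1) (contDiff_prod fun j _ => ?_) (by simp)
      exact ((ContinuousMultilinearMap.apply ℂ (fun _ : Fin m => E) ℂ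
        fun k => finBasis ℂ E (J j (π j k))).contDiff).comp contDiff_fst
    · refine ContDiff.differentiable (n := 1) (contDiff_prod fun k _ => ?_) (by simp)
      exact (contDiff_apply ℂ ℂ (fun j => J j k)).comp contDiff_snd
  hom1 c s w := by
    unfold PP
    rw [QQ_apply, QQ_apply, Finset.mul_sum]
    refine Finset.sum_congr rfl fun J _ => ?_
    have h1 : ∏ j, (Yof (c • s) π j fun k => finBasis ℂ E (J j k)) =
        c ^ p * ∏ j, Yof s π j fun k => finBasis ℂ E (J j k) := by
      rw [← Fin.prod_const p c, ← Finset.prod_mul_distrib]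
      rfl
    rw [h1, mul_assoc]
  hom2 c s w := by
    unfold PP
    have h1 := (QQ (finBasis ℂ E) (Yof s π)).map_smul_univ (fun _ => c) (fun _ => w)
    rw [h1, Fin.prod_const, smul_eq_mul]
  inv A s w := PP_inv π A s w

/-- the function on the symmetric group -/
noncomputable def FF (s : E [×m]→L[ℂ] ℂ)
    (x : (Fin m → Fin (finrank ℂ E)) × Equiv.Perm (Fin m)) (τ : Equiv.Perm (Fin m)) : ℂ :=
  s fun k => finBasis ℂ E (x.1 (τ (x.2 k)))

/-- For even `p` the invariant polynomials separate `0` from the other tensors. -/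
theorem PP_ne (hp : Even p) (hp0 : p ≠ 0) {s : E [×m]→L[ℂ] ℂ}
    (h : ∀ (π : Fin p → Equiv.Perm (Fin m)) (w : ⨂[ℂ]^p E), PP π s w = 0) : s = 0 := by
  classical
  by_contra hne
  have h1 : ∀ r : Fin p → (Fin m → Fin (finrank ℂ E)) × Equiv.Perm (Fin m),
      ∑ τ : Equiv.Perm (Fin m), ∏ j, FF s (r j) τ = 0 := by
    intro r
    have h2 := polar (QQ (finBasis ℂ E) (Yof s fun j => (r j).2)) (h _)
      (fun l => PiTensorProduct.tprod ℂ fun j => finBasis ℂ E ((r j).1 l))
    rw [← h2]
    refine Finset.sum_congr rfl fun τ _ => ?_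
    rw [QQ_tprod]
    rfl
  set J : Submodule ℂ (Equiv.Perm (Fin m) → ℂ) := Submodule.span ℂ (Set.range (FF s)) with hJ
  have hl : ∀ y ∈ J, ∀ h : Equiv.Perm (Fin m), (fun g => y (h * g)) ∈ J := by
    intro y hy h
    have h2 : J ≤ J.comap (LinearMap.funLeft ℂ ℂ fun g => h * g) := by
      rw [hJ, Submodule.span_le]
      rintro _ ⟨x, rfl⟩
      refine Submodule.subset_span ⟨(fun i => x.1 (h i), x.2), ?_⟩
      rfl
    exact h2 hy
  have hr : ∀ y ∈ J, ∀ h : Equiv.Perm (Fin m), (fun g => y (g * h)) ∈ J := by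
    intro y hy h
    have h2 : J ≤ J.comap (LinearMap.funLeft ℂ ℂ fun g => g * h) := by
      rw [hJ, Submodule.span_le]
      rintro _ ⟨x, rfl⟩
      refine Submodule.subset_span ⟨(x.1, h * x.2), ?_⟩
      rfl
    exact h2 hy
  have hJne : J ≠ ⊥ := by
    intro h0
    refine hne ?_
    have h3 : s.toMultilinearMap = 0 := by
      refine Basis.ext_multilinear (fun _ => finBasis ℂ E) fun v => ?_
      have h4 : FF s (v, 1) ∈ J := Submodule.subset_span ⟨_, rfl⟩
      rw [h0, Submodule.mem_bot] at h4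
      exact congrFun h4 1
    ext v
    exact congrArg (fun f : MultilinearMap ℂ (fun _ : Fin m => E) ℂ => f v) h3
  obtain ⟨y, hyJ, hy0, hyr⟩ := exists_real perm_isConj_inv J hl hr hJne
  obtain ⟨c, hc⟩ := (Submodule.mem_span_range_iff_exists_fun ℂ).1 hyJ
  have h5 : ∑ τ, y τ ^ p = 0 := by
    have h6 : ∀ τ, y τ ^ p = ∑ r : Fin p → (Fin m → Fin (finrank ℂ E)) × Equiv.Perm (Fin m),
        (∏ j, c (r j)) * ∏ j, FF s (r j) τ := by
      intro τ
      have h7 : y τ = ∑ x, c x * FF s x τ := by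
        rw [← hc, Finset.sum_apply]
        rfl
      rw [h7, ← Fin.prod_const, Finset.prod_univ_sum, Fintype.piFinset_univ]
      refine Finset.sum_congr rfl fun r _ => ?_
      rw [Finset.prod_mul_distrib]
    simp only [h6]
    rw [Finset.sum_comm]
    refine Finset.sum_eq_zero fun r _ => ?_
    rw [← Finset.mul_sum, h1, mul_zero]
  have h8 : ∀ τ, y τ = ((y τ).re : ℂ) := fun τ => Complex.ext rfl (by simp [hyr τ])
  have h9 : ∑ τ, (y τ).re ^ p = 0 := by
    have : ((∑ τ, (y τ).re ^ p : ℝ) : ℂ) = 0 := by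
      rw [← h5]
      push_cast
      exact Finset.sum_congr rfl fun τ _ => by rw [← h8 τ]
    exact_mod_cast this
  have h10 := (Finset.sum_eq_zero_iff_of_nonneg fun τ _ => hp.pow_nonneg _).1 h9
  refine hy0 (funext fun τ => ?_)
  rw [h8 τ, (pow_eq_zero_iff hp0).1 (h10 τ (mem_univ τ))]
  rfl

end Pool.Agent.H301_RC
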