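import Pool.Agent.H301_RC.Levi

/-! Calculus: second order Taylor limits, and derivatives of second derivatives. -/

set_option autoImplicit false
set_option linter.unusedSectionVars false

open scoped ContDiff Topology
open Filter Set

namespace Pool.Agent.H301_RC

lemma taylor_lim {φ : ℝ → ℝ} (hφ : ContDiffAt ℝ 2 φ 0) (h0 : φ 0 = 0) (h1 : deriv φ 0 = 0) :
    Tendsto (fun t => φ t / t ^ 2) (𝓝[≠] 0) (𝓝 (deriv (deriv φ) 0 / 2)) := by
  refine deriv.lhopital_zero_nhdsNE ?_ ?_ ?_ ?_ ?_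
  · exact (ev_diff hφ).filter_mono nhdsWithin_le_nhds
  · filter_upwards [self_mem_nhdsWithin] with t ht
    have ht' : t ≠ 0 := ht
    simp [ht']
  · have := hφ.continuousAt.tendsto.mono_left (nhdsWithin_le_nhds (s := {0}ᶜ))
    rwa [h0] at this
  · have h2 : Continuous fun t : ℝ => t ^ 2 := by fun_prop
    have := (h2.tendsto 0).mono_left (nhdsWithin_le_nhds (s := {0}ᶜ))
    simpa using this
  · have h2 := (hasDerivAt_iff_tendsto_slope.1 (diff_deriv hφ).hasDerivAt).div_const 2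
    refine h2.congr' ?_
    filter_upwards [self_mem_nhdsWithin] with t ht
    have ht' : t ≠ 0 := ht
    have h3 : deriv (fun t : ℝ => t ^ 2) t = 2 * t := by simp
    rw [slope_def_field, h1, h3, sub_zero, sub_zero, div_div, mul_comm]

lemma dd_nonneg {φ : ℝ → ℝ} (hφ : ContDiffAt ℝ 2 φ 0) (h0 : φ 0 = 0)
    (hn : ∀ᶠ t in 𝓝 0, 0 ≤ φ t) : deriv φ 0 = 0 ∧ 0 ≤ deriv (deriv φ) 0 := by
  have hmin : IsLocalMin φ 0 := by
    filter_upwards [hn] with t ht
    rw [h0]; exact ht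
  have h1 := hmin.deriv_eq_zero
  refine ⟨h1, ?_⟩
  have h2 := taylor_lim hφ h0 h1
  have h3 : 0 ≤ deriv (deriv φ) 0 / 2 := by
    refine ge_of_tendsto h2 ?_
    filter_upwards [hn.filter_mono nhdsWithin_le_nhds] with t ht
    positivity
  linarith

section real

variable {V : Type*} [NormedAddCommGroup V] [NormedSpace ℝ V]

lemma line_cdR (p q : V) (n : WithTop ℕ∞) : ContDiff ℝ n fun t : ℝ => p + t • q :=
  contDiff_const.add (contDiff_id.smul contDiff_const)

lemma comp_line_cd {F : V → ℝ} {p : V} {n : WithTop ℕ∞} (hF : ContDiffAt ℝ n F p) (q : V) :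
    ContDiffAt ℝ n (fun t : ℝ => F (p + t • q)) 0 := by
  have h0 : ContDiffAt ℝ n F ((fun t : ℝ => p + t • q) 0) := by simpa using hF
  exact h0.comp (0 : ℝ) (line_cdR p q n).contDiffAt

lemma line_tendsto' (p q : V) : Tendsto (fun t : ℝ => p + t • q) (𝓝 0) (𝓝 p) := by
  have : Continuous fun t : ℝ => p + t • q := by fun_prop
  simpa using this.tendsto 0

lemma sd_nonneg {K : V → ℝ} {p q : V} (hK : ContDiffAt ℝ 2 K p) (h0 : K p = 0)
    (hn : ∀ᶠ t : ℝ in 𝓝 0, 0 ≤ K (p + t • q)) : 0 ≤ sd K p q := by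
  rw [← sd_line hK]
  exact (dd_nonneg (comp_line_cd hK q) (by simpa using h0) hn).2

lemma sd_mono {F G : V → ℝ} {p q : V} (hF : ContDiffAt ℝ 2 F p) (hG : ContDiffAt ℝ 2 G p)
    (h0 : F p = G p) (hn : ∀ᶠ t : ℝ in 𝓝 0, F (p + t • q) ≤ G (p + t • q)) :
    sd F p q ≤ sd G p q := by
  have hm : ContDiffAt ℝ 2 (fun w => (-1) * F w) p := contDiffAt_const.mul hF
  have h1 := sd_nonneg (K := fun w => G w + (-1) * F w) (q := q) (hG.add hm) (by rw [h0]; ring)
    (by filter_upwards [hn] with t ht; linarith)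
  rw [sd_add hG hm, sd_mul contDiffAt_const hF, sd_const] at h1
  simp at h1
  linarith

/-- directional derivative -/
noncomputable def Da (f : V → ℝ) (a : V) : V → ℝ := fun p => fderiv ℝ f p a

lemma Da_congr {f g : V → ℝ} {p : V} (h : f =ᶠ[𝓝 p] g) (a : V) : Da f a =ᶠ[𝓝 p] Da g a := by
  have h1 : fderiv ℝ f =ᶠ[𝓝 p] fderiv ℝ g := h.fderiv
  filter_upwards [h1] with x hx
  simp [Da, hx]

lemma Da_cd {n : ℕ} {f : V → ℝ} {p : V} (hf : ContDiffAt ℝ ((n + 1 : ℕ) : WithTop ℕ∞) f p)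
    (a : V) : ContDiffAt ℝ n (Da f a) p :=
  (hf.fderiv_right (m := n) (by push_cast; exact le_rfl)).clm_apply contDiffAt_const

lemma Da_Da {f : V → ℝ} {p : V} (hf : ContDiffAt ℝ 2 f p) (a b : V) :
    Da (Da f a) b p = fderiv ℝ (fderiv ℝ f) p b a := by
  have h1 := (diff_fderiv hf).hasFDerivAt.clm_apply (hasFDerivAt_const a p)
  have h2 : fderiv ℝ (Da f a) p = _ := h1.fderiv
  unfold Da at h2 ⊢
  rw [h2]
  simp

lemma Da_comm {f : V → ℝ} {p : V} (hf : ContDiffAt ℝ 2 f p) (a b : V) :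
    Da (Da f a) b p = Da (Da f b) a p := by
  rw [Da_Da hf, Da_Da hf]
  exact hf.isSymmSndFDerivAt (by simp) b a

lemma Da_comm_ev {f : V → ℝ} {p : V} (hf : ContDiffAt ℝ 2 f p) (a b : V) :
    Da (Da f a) b =ᶠ[𝓝 p] Da (Da f b) a := by
  filter_upwards [hf.eventually (by simp)] with q hq
  exact Da_comm hq a b

lemma Da3 {f : V → ℝ} {p : V} (hf : ContDiffAt ℝ 3 f p) (x t : V) :
    Da (Da (Da f x) x) t =ᶠ[𝓝 p] Da (Da (Da f t) x) x := by
  have h1 : ContDiffAt ℝ 2 (Da f x) p := Da_cd (n := 2) hf x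
  have h2 := Da_comm_ev h1 x t
  have h3 := Da_congr (Da_comm_ev (hf.of_le (by norm_cast)) x t) x
  exact h2.trans h3

lemma Da4 {f : V → ℝ} {p : V} (hf : ContDiffAt ℝ 4 f p) (x t : V) :
    Da (Da (Da (Da f x) x) t) t p = Da (Da (Da (Da f t) t) x) x p := by
  have h1 : ContDiffAt ℝ 3 (Da f t) p := Da_cd (n := 3) hf t
  have h2 := Da_congr (Da3 (hf.of_le (by norm_cast)) x t) t
  have h3 := Da3 h1 x t
  exact (h2.trans h3).self_of_nhds

lemma sd_eq_Da {f : V → ℝ} {p : V} (hf : ContDiffAt ℝ 2 f p) (a : V) :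
    sd f p a = Da (Da f a) a p := (Da_Da hf a a).symm

/-- first derivative along a line -/
lemma deriv_line {f : V → ℝ} {p : V} (hf : DifferentiableAt ℝ f p) (q : V) :
    deriv (fun t : ℝ => f (p + t • q)) 0 = Da f q p := by
  have h0 : HasFDerivAt f (fderiv ℝ f p) ((fun t : ℝ => p + t • q) 0) := by
    simpa using hf.hasFDerivAt
  have hl : HasDerivAt (fun t : ℝ => p + t • q) q 0 := by
    simpa using ((hasDerivAt_id (0 : ℝ)).smul_const q).const_add p
  have := HasFDerivAt.comp_hasDerivAt (0 : ℝ) h0 hl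
  exact this.deriv

section two

variable {F : V → ℝ} {z : V} (hF : ContDiffAt ℝ 4 F z) (w u b : V)

/-- the two parameter family -/
noncomputable def T2 (z w u b : V) (p : ℝ × ℝ) : V := z + p.2 • w + p.1 • (u - p.2 • b)

lemma T2_cd (z w u b : V) (n : WithTop ℕ∞) : ContDiff ℝ n (T2 z w u b) := by
  unfold T2
  exact (contDiff_const.add (contDiff_snd.smul contDiff_const)).add
    (contDiff_fst.smul (contDiff_const.sub (contDiff_snd.smul contDiff_const)))

lemma T2_x (z w u b : V) (x t : ℝ) :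
    T2 z w u b ((0, t) + x • (1, 0)) = (z + t • w) + x • (u - t • b) := by
  simp [T2]

lemma T2_t (z w u b : V) (x t : ℝ) :
    T2 z w u b ((x, 0) + t • (0, 1)) = (z + x • u) + t • (w - x • b) := by
  simp only [T2, Prod.smul_mk, smul_eq_mul, mul_zero, mul_one, Prod.mk_add_mk, add_zero, zero_add]
  rw [smul_sub, smul_sub, smul_comm x t b]
  abel

include hF in
lemma Q_cd : ContDiffAt ℝ 4 (fun p => F (T2 z w u b p)) (0, 0) := by
  have h0 : ContDiffAt ℝ 4 F (T2 z w u b (0, 0)) := by simpa [T2] using hF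
  exact h0.comp (0, 0) (T2_cd z w u b 4).contDiffAt

lemma tendsto_t0 : Tendsto (fun t : ℝ => ((0 : ℝ), t)) (𝓝 0) (𝓝 (0, 0)) := by
  have : Continuous fun t : ℝ => ((0 : ℝ), t) := by fun_prop
  exact this.tendsto 0

lemma tendsto_x0 : Tendsto (fun x : ℝ => (x, (0 : ℝ))) (𝓝 0) (𝓝 (0, 0)) := by
  have : Continuous fun x : ℝ => (x, (0 : ℝ)) := by fun_prop
  exact this.tendsto 0

include hF in
/-- `D²F(z + t w)(u - t b, u - t b)` as a second derivative of the two parameter family -/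
lemma G_eq : (fun t : ℝ => sd F (z + t • w) (u - t • b)) =ᶠ[𝓝 0]
    fun t => Da (Da (fun p => F (T2 z w u b p)) (1, 0)) (1, 0) (((0, 0) : ℝ × ℝ) + t • (0, 1)) := by
  have h1 : ∀ᶠ t in 𝓝 (0 : ℝ), ContDiffAt ℝ 4 F (z + t • w) :=
    (line_tendsto' z w).eventually (hF.eventually (by decide))
  have h2 : ∀ᶠ t in 𝓝 (0 : ℝ), ContDiffAt ℝ 4 (fun p => F (T2 z w u b p)) (0, t) :=
    tendsto_t0.eventually ((Q_cd hF w u b).eventually (by decide))
  filter_upwards [h1, h2] with t h1 h2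
  have e0 : ((0, 0) : ℝ × ℝ) + t • (0, 1) = (0, t) := by simp
  rw [e0, ← sd_eq_Da (h2.of_le (by norm_cast)), ← sd_line (h1.of_le (by norm_cast)),
    ← sd_line (h2.of_le (by norm_cast))]
  simp only [T2_x]

include hF in
lemma B_eq : (fun x : ℝ => fderiv ℝ F (z + x • u) (w - x • b)) =ᶠ[𝓝 0]
    fun x => Da (fun p => F (T2 z w u b p)) (0, 1) (((0, 0) : ℝ × ℝ) + x • (1, 0)) := by
  have h1 : ∀ᶠ x in 𝓝 (0 : ℝ), ContDiffAt ℝ 4 F (z + x • u) :=
    (line_tendsto' z u).eventually (hF.eventually (by decide))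
  have h2 : ∀ᶠ x in 𝓝 (0 : ℝ), ContDiffAt ℝ 4 (fun p => F (T2 z w u b p)) (x, 0) :=
    tendsto_x0.eventually ((Q_cd hF w u b).eventually (by decide))
  filter_upwards [h1, h2] with x h1 h2
  have e0 : ((0, 0) : ℝ × ℝ) + x • (1, 0) = (x, 0) := by simp
  have e1 := deriv_line (h1.differentiableAt (by simp)) (w - x • b)
  have e2 := deriv_line (h2.differentiableAt (by simp)) (0, 1)
  rw [e0, ← e2]
  simp only [T2_t]
  rw [e1]
  rfl

include hF in
lemma C_eq : (fun x : ℝ => sd F (z + x • u) (w - x • b)) =ᶠ[𝓝 0]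
    fun x => Da (Da (fun p => F (T2 z w u b p)) (0, 1)) (0, 1) (((0, 0) : ℝ × ℝ) + x • (1, 0)) := by
  have h1 : ∀ᶠ x in 𝓝 (0 : ℝ), ContDiffAt ℝ 4 F (z + x • u) :=
    (line_tendsto' z u).eventually (hF.eventually (by decide))
  have h2 : ∀ᶠ x in 𝓝 (0 : ℝ), ContDiffAt ℝ 4 (fun p => F (T2 z w u b p)) (x, 0) :=
    tendsto_x0.eventually ((Q_cd hF w u b).eventually (by decide))
  filter_upwards [h1, h2] with x h1 h2
  have e0 : ((0, 0) : ℝ × ℝ) + x • (1, 0) = (x, 0) := by simp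
  rw [e0, ← sd_eq_Da (h2.of_le (by norm_cast)), ← sd_line (h1.of_le (by norm_cast)),
    ← sd_line (h2.of_le (by norm_cast))]
  simp only [T2_t]

include hF in
/-- the first derivative -/
lemma G_deriv : deriv (fun t : ℝ => sd F (z + t • w) (u - t • b)) 0 =
    deriv (deriv fun x : ℝ => fderiv ℝ F (z + x • u) (w - x • b)) 0 := by
  set Q : ℝ × ℝ → ℝ := fun p => F (T2 z w u b p) with hQ
  have hc : ContDiffAt ℝ 4 Q (0, 0) := Q_cd hF w u b
  have c1 : ContDiffAt ℝ 3 (Da Q (1, 0)) (0, 0) := Da_cd (n := 3) hc _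
  have c2 : ContDiffAt ℝ 2 (Da (Da Q (1, 0)) (1, 0)) (0, 0) := Da_cd (n := 2) c1 _
  have c3 : ContDiffAt ℝ 3 (Da Q (0, 1)) (0, 0) := Da_cd (n := 3) hc _
  rw [(G_eq hF w u b).deriv_eq, deriv_line (c2.differentiableAt (by simp)),
    (B_eq hF w u b).deriv.deriv_eq, sd_line (c3.of_le (by norm_cast)),
    sd_eq_Da (c3.of_le (by norm_cast))]
  exact (Da3 (hc.of_le (by norm_cast)) (1, 0) (0, 1)).self_of_nhds

include hF in
/-- the second derivative -/
lemma G_deriv2 : deriv (deriv fun t : ℝ => sd F (z + t • w) (u - t • b)) 0 =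
    deriv (deriv fun x : ℝ => sd F (z + x • u) (w - x • b)) 0 := by
  set Q : ℝ × ℝ → ℝ := fun p => F (T2 z w u b p) with hQ
  have hc : ContDiffAt ℝ 4 Q (0, 0) := Q_cd hF w u b
  have c1 : ContDiffAt ℝ 3 (Da Q (1, 0)) (0, 0) := Da_cd (n := 3) hc _
  have c2 : ContDiffAt ℝ 2 (Da (Da Q (1, 0)) (1, 0)) (0, 0) := Da_cd (n := 2) c1 _
  have c3 : ContDiffAt ℝ 3 (Da Q (0, 1)) (0, 0) := Da_cd (n := 3) hc _
  have c4 : ContDiffAt ℝ 2 (Da (Da Q (0, 1)) (0, 1)) (0, 0) := Da_cd (n := 2) c3 _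
  rw [(G_eq hF w u b).deriv.deriv_eq, sd_line c2, (C_eq hF w u b).deriv.deriv_eq, sd_line c4,
    sd_eq_Da c2, sd_eq_Da c4]
  exact Da4 hc (1, 0) (0, 1)

end two

end real

/-- A function with negative second derivative -/
lemma neg_of_dd_neg {g : ℝ → ℝ} {s : ℝ} (hs : 0 < s) (hg : ∀ t ∈ Icc 0 s, ContDiffAt ℝ 2 g t)
    (h0 : g 0 = 0) (h1 : deriv g 0 = 0) (h2 : ∀ t ∈ Icc 0 s, deriv (deriv g) t < 0) : g s < 0 := by
  have hd : ∀ t ∈ Icc 0 s, DifferentiableAt ℝ (deriv g) t := by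
    intro t ht
    have h : ContDiffAt ℝ 1 (fderiv ℝ g) t := (hg t ht).fderiv_right (m := 1) (by norm_num)
    have h2 : ContDiffAt ℝ 1 (deriv g) t := by
      have : deriv g = fun t => fderiv ℝ g t 1 := by
        funext t; exact (fderiv_apply_one_eq_deriv).symm
      rw [this]
      exact h.clm_apply contDiffAt_const
    exact h2.differentiableAt (by simp)
  have a1 : StrictAntiOn (deriv g) (Icc 0 s) := by
    refine strictAntiOn_of_deriv_neg (convex_Icc 0 s) ?_ ?_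
    · exact fun t ht => (hd t ht).continuousAt.continuousWithinAt
    · intro t ht
      rw [interior_Icc] at ht
      exact h2 t (Ioo_subset_Icc_self ht)
  have a2 : StrictAntiOn g (Icc 0 s) := by
    refine strictAntiOn_of_deriv_neg (convex_Icc 0 s) ?_ ?_
    · exact fun t ht => (hg t ht).continuousAt.continuousWithinAt
    · intro t ht
      rw [interior_Icc] at ht
      have := a1 (left_mem_Icc.2 hs.le) (Ioo_subset_Icc_self ht) ht.1
      rwa [h1] at this
  have := a2 (left_mem_Icc.2 hs.le) (right_mem_Icc.2 hs.le) hs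
  rwa [h0] at this

end Pool.Agent.H301_RC
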