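import Pool.Agent.H301_RC.Tube
import Pool.Agent.H301_RC.Near1

/-! Near the curve: the tube function has a negative Levi form in nearly tangential directions. -/

set_option autoImplicit false
set_option linter.unusedSectionVars false

open scoped Manifold ContDiff Topology ComplexConjugate
open Filter Set

namespace Pool.Agent.H301_RC

lemma dd_eq_sd {g : ℝ → ℝ} (hg : ContDiffAt ℝ 2 g 0) : deriv (deriv g) 0 = sd g 0 1 := by
  rw [← sd_line hg]
  simp

variable {E : Type*} [NormedAddCommGroup E] [NormedSpace ℂ E] [FiniteDimensional ℂ E]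
  {M : Type*} [TopologicalSpace M] [ChartedSpace E M] [IsManifold 𝓘(ℂ, E) ω M]
  (h : HermitianMetric (idRep E) M)

/-- The normal bundle is a quotient, so it has positive curvature. -/
lemma quotpos {e : OpenPartialHomeomorph M E} (he : e ∈ HC E M) {z u : E} (hz : z ∈ e.target)
    (hu : u ≠ 0) (hp : PosE h e z u) {w : E} (hw : ¬ ∃ κ : ℂ, w = κ • u) :
    ∃ b, lev (gE h e u) (z, w) (u, b) < 0 := by
  set τ : ℂ := locE h e z w u / locE h e z u u with hτ
  have haw : orth h e u z w = w - τ • u := rfl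
  set a := w - τ • u with ha
  have ha0 : a ≠ 0 := fun h0 => hw ⟨τ, sub_eq_zero.1 h0⟩
  obtain ⟨b, hb⟩ := hp a ha0
  refine ⟨b, lt_of_le_of_lt ?_ hb⟩
  have key : ∀ u' b' : E, sd (gE h e u) (z, w) (u', b') ≤ sd (HF h e) (z, a) (u', b') := by
    intro u' b'
    let G' : E × E → ℝ := fun p => HF h e (p.1, p.2 - τ • u)
    have hG' : ContDiffAt ℝ 2 G' (z, w) := by
      have h1 : ContDiffAt ℝ 2 (fun p : E × E => (p.1, p.2 - τ • u)) (z, w) :=
        contDiffAt_fst.prodMk (contDiffAt_snd.sub contDiffAt_const)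
      exact ContDiffAt.comp (z, w) (g := HF h e) (f := fun p : E × E => (p.1, p.2 - τ • u))
        ((HF_cd h he hz _).of_le two_le) h1
    have hg : ContDiffAt ℝ 2 (gE h e u) (z, w) := (gE_cd he hz hu w).of_le two_le
    have e1 : sd G' (z, w) (u', b') = sd (HF h e) (z, a) (u', b') := by
      rw [← sd_line hG', ← sd_line ((HF_cd h he hz _).of_le two_le)]
      congr 2
      funext t
      simp only [G', Prod.smul_mk, Prod.mk_add_mk, ha]
      congr 2
      abel
    rw [← e1]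
    refine sd_mono hg hG' ?_ ?_
    · rw [gE_eq_orth he hz hu, haw]
    · have hev : ∀ᶠ t : ℝ in 𝓝 0, z + t • u' ∈ e.target :=
        (line_tendsto' z u').eventually (e.open_target.mem_nhds hz)
      filter_upwards [hev] with t ht
      have h2 : ((z, w) : E × E) + t • (u', b') = (z + t • u', w + t • b') := rfl
      rw [h2]
      have h3 : w + t • b' = (w + t • b' - τ • u) + τ • u := by abel
      have h4 : gE h e u (z + t • u', w + t • b') = gE h e u (z + t • u', w + t • b' - τ • u) := by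
        rw [h3, gE_add_u he ht hu]
        simp
      rw [h4]
      exact gE_le he ht hu _
  unfold lev
  have k1 := key u b
  have k2 := key (Complex.I • u) (Complex.I • b)
  have e2 : Complex.I • ((u, b) : E × E) = (Complex.I • u, Complex.I • b) := rfl
  rw [e2]
  linarith

section tube

variable {h} {C : Set M} {ρ : M → ℝ} (hρ : Sm E ρ) (hρ0 : ∀ x, 0 ≤ ρ x)
  (hρC : ∀ x, ρ x = 0 ↔ x ∈ C) (hT : ∀ q ∈ C, TubeAt h C ρ 1 q)
  {e : OpenPartialHomeomorph M E} {u : E} (A : Adapted C e u)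

include hρ hρ0 hρC hT A

lemma jets {c : ℂ} (hc : c • u ∈ e.target) : ρ (e.symm (c • u)) = 0 ∧
    (∀ a, fderiv ℝ (fun w => ρ (e.symm w)) (c • u) a = 0) ∧
    ∀ a, sd (fun w => ρ (e.symm w)) (c • u) a = 2 * gE h e u (c • u, a) := by
  have hqs : e.symm (c • u) ∈ e.source := e.map_target hc
  have hqq : e (e.symm (c • u)) = c • u := e.right_inv hc
  have hqC : e.symm (c • u) ∈ C := (A.iff _ hqs).2 ⟨c, hqq⟩
  have h0 : ρ (e.symm (c • u)) = 0 := (hρC _).2 hqC
  have hs : ContDiffAt ℝ ∞ (fun w => ρ (e.symm w)) (c • u) := hρ.chart A.mem hc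
  have hφ : ∀ a : E, ContDiffAt ℝ 2 (fun t : ℝ => ρ (e.symm (c • u + t • a))) 0 := fun a =>
    comp_line_cd (F := fun w => ρ (e.symm w)) (hs.of_le two_le) a
  have hd : ∀ a : E, deriv (fun t : ℝ => ρ (e.symm (c • u + t • a))) 0 = 0 := fun a =>
    (dd_nonneg (hφ a) (by simpa using h0) (Eventually.of_forall fun t => hρ0 _)).1
  refine ⟨h0, fun a => ?_, fun a => ?_⟩
  · have := deriv_line (f := fun w => ρ (e.symm w)) (hs.differentiableAt (by simp)) a
    rw [hd a] at this
    exact this.symm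
  · have h1 := taylor_lim (hφ a) (by simpa using h0) (hd a)
    have h2 := hT _ hqC e u A hqs a
    rw [hqq, one_mul] at h2
    have h3 := tendsto_nhds_unique h1 h2
    have h4 := sd_line (F := fun w => ρ (e.symm w)) (q := a) (hs.of_le two_le)
    rw [← h4]
    linarith

lemma lev_on_curve {c : ℂ} (hc : c • u ∈ e.target) :
    lev (fun w => ρ (e.symm w)) (c • u) u = 0 := by
  have h1 := (jets hρ hρ0 hρC hT A hc).2.2
  unfold lev
  rw [h1, h1, (gE_eq_zero A.mem hc A.ne u).2 ⟨1, by simp⟩,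
    (gE_eq_zero A.mem hc A.ne (Complex.I • u)).2 ⟨Complex.I, rfl⟩]
  simp

/-- near a point of the curve and a normal vector -/
lemma key_near {c₀ : ℂ} (hc : c₀ • u ∈ e.target) (hp : PosE h e (c₀ • u) u) {w₀ : E}
    (hw : ¬ ∃ κ : ℂ, w₀ = κ • u) : ∃ b : E, ∀ᶠ x : (ℂ × ℝ) × E in 𝓝 ((c₀, 0), w₀),
      0 < x.1.2 → PosE h e (x.1.1 • u + x.1.2 • x.2) (u - x.1.2 • b) ∧
        lev (fun w => ρ (e.symm w)) (x.1.1 • u + x.1.2 • x.2) (u - x.1.2 • b) < 0 := by
  obtain ⟨b', hb'⟩ := quotpos h A.mem hc A.ne hp hw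
  set b := -b' with hb
  have hbb : b' = -b := by rw [hb, neg_neg]
  rw [hbb] at hb'
  refine ⟨b, ?_⟩
  set F : E → ℝ := fun w => ρ (e.symm w) with hF
  have hFs : ∀ z ∈ e.target, ContDiffAt ℝ ∞ F z := fun z hz => hρ.chart A.mem hz
  have h4le : (4 : WithTop ℕ∞) ≤ ∞ := by norm_cast
  let T : ℝ × (ℂ × E) → E × E := fun p => (p.2.1 • u + p.1 • p.2.2, u - p.1 • b)
  have hTs : ContDiff ℝ ∞ T := by
    have t1 : ContDiff ℝ ∞ fun p : ℝ × (ℂ × E) => p.2.1 := contDiff_fst.comp contDiff_snd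
    have t2 : ContDiff ℝ ∞ fun p : ℝ × (ℂ × E) => p.2.2 := contDiff_snd.comp contDiff_snd
    exact ((t1.smul contDiff_const).add (contDiff_fst.smul t2)).prodMk
      (contDiff_const.sub (contDiff_fst.smul contDiff_const))
  let G : ℝ × (ℂ × E) → ℝ := fun p => lev F (T p).1 (T p).2
  set p₀ : ℝ × (ℂ × E) := (0, (c₀, w₀)) with hp₀
  have hTp : T p₀ = (c₀ • u, u) := by simp [T, hp₀]
  have hGs : ContDiffAt ℝ ∞ G p₀ := by
    have h1 : ContDiffAt ℝ ∞ (fun x : E × E => lev F x.1 x.2) (T p₀) := by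
      rw [hTp]; exact lev_contDiffAt (hFs _ hc) u
    exact ContDiffAt.comp p₀ (g := fun x : E × E => lev F x.1 x.2) (f := T) h1 hTs.contDiffAt
  -- the line in direction `t`
  have hline : ∀ (c : ℂ) (w : E), (fun t : ℝ => G ((0, (c, w)) + t • (1, 0))) =
      fun t : ℝ => (1 / 4 : ℝ) * (sd F (c • u + t • w) (u - t • b) +
        sd F (c • u + t • w) (Complex.I • u - t • (Complex.I • b))) := by
    intro c w
    funext t
    simp only [G, T, lev, Prod.smul_mk, Prod.mk_add_mk, smul_eq_mul, mul_one, zero_add, smul_zero,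
      add_zero]
    rw [smul_sub, smul_comm Complex.I t b]
    ring
  have hg_cd : ∀ (c : ℂ) (w u' b'' : E), c • u ∈ e.target →
      ContDiffAt ℝ 2 (fun t : ℝ => sd F (c • u + t • w) (u' - t • b'')) 0 := by
    intro c w u' b'' hcu
    have h1 : ContDiffAt ℝ ∞ (fun x : E × E => sd F x.1 x.2)
        ((fun t : ℝ => (c • u + t • w, u' - t • b'')) 0) := by
      simpa using sd_contDiffAt (hFs _ hcu) u'
    have h2 : ContDiff ℝ ∞ (fun t : ℝ => (c • u + t • w, u' - t • b'')) :=
      (contDiff_const.add (contDiff_id.smul contDiff_const)).prodMk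
        (contDiff_const.sub (contDiff_id.smul contDiff_const))
    exact (ContDiffAt.comp (0 : ℝ) (g := fun x : E × E => sd F x.1 x.2)
      (f := fun t : ℝ => (c • u + t • w, u' - t • b'')) h1 h2.contDiffAt).of_le two_le
  -- points of the line near zero
  have hpts : ∀ (c d : ℂ), c • u ∈ e.target → ∀ᶠ x : ℝ in 𝓝 0,
      c • u + x • (d • u) = (c + x * d) • u ∧ (c + x * d) • u ∈ e.target := by
    intro c d hcu
    have h1 : ∀ x : ℝ, c • u + x • (d • u) = (c + x * d) • u := by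
      intro x
      rw [add_smul, mul_smul, Complex.coe_smul]
    have h2 : ∀ᶠ x : ℝ in 𝓝 0, c • u + x • (d • u) ∈ e.target :=
      (line_tendsto' (c • u) (d • u)).eventually (e.open_target.mem_nhds hcu)
    filter_upwards [h2] with x hx
    exact ⟨h1 x, by rw [← h1 x]; exact hx⟩
  -- first derivative
  have hfirst : ∀ (c d : ℂ) (w b'' : E), c • u ∈ e.target →
      deriv (fun t : ℝ => sd F (c • u + t • w) (d • u - t • b'')) 0 = 0 := by
    intro c d w b'' hcu
    rw [G_deriv ((hFs _ hcu).of_le h4le) w (d • u) b'']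
    have h1 : (fun x : ℝ => fderiv ℝ F (c • u + x • (d • u)) (w - x • b'')) =ᶠ[𝓝 0] fun _ => 0 := by
      filter_upwards [hpts c d hcu] with x hx
      rw [hx.1]
      exact (jets hρ hρ0 hρC hT A hx.2).2.1 _
    rw [h1.deriv.deriv_eq]
    simp
  -- second derivative
  have hsecond : ∀ (d : ℂ), deriv (deriv (fun t : ℝ =>
      sd F (c₀ • u + t • w₀) (d • u - t • (d • b)))) 0 =
        2 * sd (gE h e u) (c₀ • u, w₀) (d • u, -(d • b)) := by
    intro d
    rw [G_deriv2 ((hFs _ hc).of_le h4le) w₀ (d • u) (d • b)]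
    have hg : ContDiffAt ℝ 2 (gE h e u) (c₀ • u, w₀) := (gE_cd A.mem hc A.ne w₀).of_le two_le
    have h1 : (fun x : ℝ => sd F (c₀ • u + x • (d • u)) (w₀ - x • (d • b))) =ᶠ[𝓝 0]
        fun x => 2 * gE h e u ((c₀ • u, w₀) + x • (d • u, -(d • b))) := by
      filter_upwards [hpts c₀ d hc] with x hx
      have h2 : ((c₀ • u, w₀) : E × E) + x • (d • u, -(d • b)) =
          ((c₀ + x * d) • u, w₀ - x • (d • b)) := by
        simp only [Prod.smul_mk, Prod.mk_add_mk, smul_neg]
        rw [hx.1, sub_eq_add_neg]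
      rw [h2, hx.1]
      exact (jets hρ hρ0 hρC hT A hx.2).2.2 _
    rw [h1.deriv.deriv_eq]
    have h3 : ContDiffAt ℝ 2 (fun x : ℝ => gE h e u ((c₀ • u, w₀) + x • (d • u, -(d • b)))) 0 :=
      comp_line_cd hg _
    have h4 : ContDiffAt ℝ 2 (fun x : ℝ => 2 * gE h e u ((c₀ • u, w₀) + x • (d • u, -(d • b)))) 0 :=
      contDiffAt_const.mul h3
    rw [dd_eq_sd h4, sd_mul contDiffAt_const h3, sd_const, ← dd_eq_sd h3, sd_line hg]
    simp
  have hK0 : sd G p₀ (1, 0) < 0 := by
    rw [← sd_line (hGs.of_le two_le), hp₀, hline]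
    have c1 := hg_cd c₀ w₀ u b hc
    have c2 := hg_cd c₀ w₀ (Complex.I • u) (Complex.I • b) hc
    have c3 := c1.add c2
    rw [dd_eq_sd (contDiffAt_const.mul c3), sd_mul contDiffAt_const c3, sd_const, sd_add c1 c2,
      ← dd_eq_sd c1, ← dd_eq_sd c2]
    have s1 := hsecond 1
    have s2 := hsecond Complex.I
    rw [one_smul, one_smul] at s1
    rw [s1, s2]
    have hl : lev (gE h e u) (c₀ • u, w₀) (u, -b) < 0 := hb'
    unfold lev at hl
    have e2 : Complex.I • ((u, -b) : E × E) = (Complex.I • u, -(Complex.I • b)) := by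
      rw [Prod.smul_mk, smul_neg]
    rw [e2] at hl
    simp only [fderiv_fun_const, Pi.zero_apply, zero_apply]
    linarith
  have hKc : ContinuousAt (fun p => sd G p (1, 0)) p₀ := by
    have h1 := (sd_contDiffAt hGs (1, 0)).continuousAt
    have h2 : ContinuousAt (fun p : ℝ × (ℂ × E) => (p, ((1, 0) : ℝ × (ℂ × E)))) p₀ := by fun_prop
    exact ContinuousAt.comp (x := p₀)
      (g := fun x : (ℝ × (ℂ × E)) × (ℝ × (ℂ × E)) => sd G x.1 x.2)
      (f := fun p : ℝ × (ℂ × E) => (p, ((1, 0) : ℝ × (ℂ × E)))) h1 h2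
  have hev1 : ∀ᶠ p in 𝓝 p₀, sd G p (1, 0) < 0 ∧ ContDiffAt ℝ 2 G p :=
    (hKc.eventually (gt_mem_nhds hK0)).and ((hGs.of_le two_le).eventually (by decide))
  obtain ⟨ε, hε, hball⟩ := Metric.eventually_nhds_iff_ball.1 hev1
  -- the map to the parameters
  have hm : Tendsto (fun x : (ℂ × ℝ) × E => (x.1.2, (x.1.1, x.2))) (𝓝 ((c₀, 0), w₀)) (𝓝 p₀) := by
    have : Continuous fun x : (ℂ × ℝ) × E => (x.1.2, (x.1.1, x.2)) := by fun_prop
    exact this.tendsto _
  have hm2 : Tendsto (fun x : (ℂ × ℝ) × E => (x.1.1 • u + x.1.2 • x.2, u - x.1.2 • b))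
      (𝓝 ((c₀, 0), w₀)) (𝓝 (c₀ • u, u)) := by
    have : Continuous fun x : (ℂ × ℝ) × E => (x.1.1 • u + x.1.2 • x.2, u - x.1.2 • b) := by
      fun_prop
    have h2 := this.tendsto ((c₀, 0), w₀)
    simpa using h2
  have hm3 : Tendsto (fun x : (ℂ × ℝ) × E => x.1.1 • u) (𝓝 ((c₀, 0), w₀)) (𝓝 (c₀ • u)) := by
    have : Continuous fun x : (ℂ × ℝ) × E => x.1.1 • u := by fun_prop
    exact this.tendsto ((c₀, 0), w₀)
  filter_upwards [hm.eventually (Metric.ball_mem_nhds p₀ hε), hm2.eventually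
    (PosE_open h A.mem hc hp), hm3.eventually (e.open_target.mem_nhds hc)] with x hx1 hx2 hx3 ht
  refine ⟨hx2, ?_⟩
  set t := x.1.2
  set c := x.1.1
  set w := x.2
  let g : ℝ → ℝ := fun s => G (s, (c, w))
  have hin : ∀ s ∈ Icc 0 t, (s, (c, w)) ∈ Metric.ball p₀ ε := by
    intro s hs
    have hx1' : max (dist t p₀.1) (dist (c, w) p₀.2) < ε := hx1
    have hgoal : max (dist s p₀.1) (dist (c, w) p₀.2) < ε := by
      rw [max_lt_iff] at hx1' ⊢
      refine ⟨lt_of_le_of_lt ?_ hx1'.1, hx1'.2⟩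
      simp only [hp₀, Real.dist_eq, sub_zero]
      rw [abs_of_nonneg hs.1, abs_of_nonneg (hs.1.trans hs.2)]
      exact hs.2
    exact hgoal
  have hgline : ∀ s : ℝ, (fun r : ℝ => g (s + r)) = fun r : ℝ => G ((s, (c, w)) + r • (1, 0)) := by
    intro s
    funext r
    simp [g]
  have hgcd : ∀ s ∈ Icc 0 t, ContDiffAt ℝ 2 g s := by
    intro s hs
    have h1 := (hball _ (hin s hs)).2
    have h2 : ContDiffAt ℝ 2 (fun s : ℝ => (s, (c, w))) s :=
      contDiffAt_id.prodMk contDiffAt_const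
    exact ContDiffAt.comp s (g := G) (f := fun s : ℝ => (s, (c, w))) h1 h2
  have hgdd : ∀ s ∈ Icc 0 t, deriv (deriv g) s < 0 := by
    intro s hs
    have h1 := hball _ (hin s hs)
    have h2 := sd_line (q := ((1, 0) : ℝ × (ℂ × E))) h1.2
    rw [← hgline] at h2
    have h3 : deriv (fun r => g (s + r)) = fun r => deriv g (s + r) := by
      funext r; exact deriv_comp_const_add g s r
    rw [h3, deriv_comp_const_add (deriv g) s 0, add_zero] at h2
    rw [h2]
    exact h1.1
  have hg0f : g = fun t : ℝ => (1 / 4 : ℝ) * (sd F (c • u + t • w) (u - t • b) +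
        sd F (c • u + t • w) (Complex.I • u - t • (Complex.I • b))) := by
    rw [← hline c w, ← hgline 0]
    funext r
    simp
  have hg0 : g 0 = 0 := by
    have h1 := lev_on_curve hρ hρ0 hρC hT A hx3
    simp only [g, G, T, zero_smul, add_zero, sub_zero]
    exact h1
  have hg1 : deriv g 0 = 0 := by
    rw [hg0f]
    have c1 := hg_cd c w u b hx3
    have c2 := hg_cd c w (Complex.I • u) (Complex.I • b) hx3
    have d1 := c1.differentiableAt (by simp)
    have d2 := c2.differentiableAt (by simp)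
    rw [deriv_const_mul _ (d1.fun_add d2), deriv_fun_add d1 d2]
    have f1 := hfirst c 1 w b hx3
    have f2 := hfirst c Complex.I w (Complex.I • b) hx3
    rw [one_smul] at f1
    rw [f1, f2]
    simp
  have hfin : g t < 0 := neg_of_dd_neg ht hgcd hg0 hg1 hgdd
  exact hfin

/-- Near a point of the curve there are good directions. -/
theorem near_curve {p : M} (hpe : p ∈ e.source) (hpC : p ∈ C) (hp : PosE h e (e p) u) :
    ∀ᶠ z in 𝓝 (e p), ∃ q, PosE h e z q ∧ lev (fun w => ρ (e.symm w)) z q ≤ 0 ∧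
      (e.symm z ∉ C → lev (fun w => ρ (e.symm w)) z q < 0) := by
  obtain ⟨c₀, hc₀⟩ := (A.iff p hpe).1 hpC
  have hpt : e p ∈ e.target := e.map_source hpe
  obtain ⟨l, hl⟩ := SeparatingDual.exists_eq_one (R := ℂ) A.ne
  have hlz : l (e p) = c₀ := by rw [hc₀, map_smul, hl]; simp
  have : ProperSpace E := FiniteDimensional.proper ℂ E
  have hK : IsCompact (Metric.sphere (0 : E) 1 ∩ {w | l w = 0}) :=
    (isCompact_sphere 0 1).inter_right (isClosed_eq l.continuous continuous_const)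
  have hct : c₀ • u ∈ e.target := by rw [← hc₀]; exact hpt
  have hpos' : PosE h e (c₀ • u) u := by rw [← hc₀]; exact hp
  have key : ∀ᶠ x : ℂ × ℝ in 𝓝 (c₀, 0), ∀ w ∈ Metric.sphere (0 : E) 1 ∩ {w | l w = 0},
      0 < x.2 → ∃ q, PosE h e (x.1 • u + x.2 • w) q ∧
        lev (fun w => ρ (e.symm w)) (x.1 • u + x.2 • w) q < 0 := by
    refine hK.eventually_forall_of_forall_eventually fun w hw => ?_
    have hw0 : ¬ ∃ κ : ℂ, w = κ • u := by
      rintro ⟨κ, rfl⟩
      have h1 : l (κ • u) = 0 := hw.2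
      rw [map_smul, hl, smul_eq_mul, mul_one] at h1
      have h2 := hw.1
      rw [h1] at h2
      simp at h2
    obtain ⟨b, hb⟩ := key_near hρ hρ0 hρC hT A hct hpos' hw0
    filter_upwards [hb] with x hx ht
    exact ⟨_, hx ht⟩
  have hm : Tendsto (fun z : E => (l z, ‖z - l z • u‖)) (𝓝 (e p)) (𝓝 (c₀, 0)) := by
    have h1 : Continuous fun z : E => (l z, ‖z - l z • u‖) := by fun_prop
    have h2 := h1.tendsto (e p)
    rw [hlz] at h2
    have h3 : ‖e p - c₀ • u‖ = 0 := by rw [hc₀]; simp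
    rwa [h3] at h2
  have hopen : ∀ᶠ z in 𝓝 (e p), PosE h e z u := by
    have h1 : Tendsto (fun z : E => (z, u)) (𝓝 (e p)) (𝓝 (e p, u)) := by
      have : Continuous fun z : E => (z, u) := by fun_prop
      exact this.tendsto _
    exact h1.eventually (PosE_open h A.mem hpt hp)
  filter_upwards [hm.eventually key, hopen, e.open_target.mem_nhds hpt] with z hz1 hz2 hz3
  by_cases hw : z - l z • u = 0
  · have hzu : z = l z • u := sub_eq_zero.1 hw
    refine ⟨u, hz2, ?_, ?_⟩
    · have h1 := lev_on_curve hρ hρ0 hρC hT A (c := l z) (by rw [← hzu]; exact hz3)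
      rw [← hzu] at h1
      exact h1.le
    · intro hnC
      exfalso
      apply hnC
      rw [A.iff _ (e.map_target hz3), e.right_inv hz3]
      exact ⟨_, hzu⟩
  · have ht : 0 < ‖z - l z • u‖ := norm_pos_iff.2 hw
    set t := ‖z - l z • u‖ with htdef
    have hz : l z • u + t • (t⁻¹ • (z - l z • u)) = z := by
      rw [smul_smul, mul_inv_cancel₀ ht.ne', one_smul]
      abel
    obtain ⟨q, hq1, hq2⟩ := hz1 (t⁻¹ • (z - l z • u)) ⟨by
      rw [mem_sphere_zero_iff_norm, norm_smul, norm_inv, Real.norm_eq_abs, abs_of_pos ht, ← htdef,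
        inv_mul_cancel₀ ht.ne'], by
      have : l (t⁻¹ • (z - l z • u)) = t⁻¹ • l (z - l z • u) := by
        have h5 : (t⁻¹ : ℝ) • (z - l z • u) = ((t⁻¹ : ℝ) : ℂ) • (z - l z • u) :=
          (Complex.coe_smul _ _).symm
        rw [h5, map_smul, Complex.coe_smul]
      simp only [mem_ofPred_eq]
      rw [this, map_sub, map_smul, hl]
      simp⟩ ht
    rw [hz] at hq1 hq2
    exact ⟨q, hq1, hq2.le, fun _ => hq2⟩

end tube

end Pool.Agent.H301_RC
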