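import Pool.Agent.H301_RC.GW
import Pool.Agent.H301_RC.Near2

/-! Uniformly RC-positive metrics on tangent bundles. -/

set_option autoImplicit false
set_option linter.unusedSectionVars false

open scoped Manifold ContDiff Topology ComplexConjugate
open Filter Set

namespace Pool.Agent.H301_RC

section local_k

variable {E : Type*} [NormedAddCommGroup E] [NormedSpace ℂ E] [FiniteDimensional ℂ E]
  {M : Type*} [TopologicalSpace M] [ChartedSpace E M] [IsManifold 𝓘(ℂ, E) ω M]
  (h : HermitianMetric (idRep E) M)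

lemma Sm.const_mul {F : M → ℝ} (hF : Sm E F) (k : ℝ) : Sm E fun y => k * F y :=
  fun y => (SmAt.const k y).mul (hF y)

/-- For large `k` the metric `e^{-kF} h` is positive where the Levi form of `F` is positive. -/
lemma large_k {F : M → ℝ} (hF : Sm E F) {e : OpenPartialHomeomorph M E} (he : e ∈ HC E M)
    {z₀ v : E} (hz : z₀ ∈ e.target) (hv : 0 < lev (fun w => F (e.symm w)) z₀ v) :
    ∃ k₀ : ℝ, ∀ᶠ z in 𝓝 z₀, ∀ k, k₀ ≤ k → PosE (conf h (fun y => k * F y) (hF.const_mul k)) e z v := by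
  have : ProperSpace E := FiniteDimensional.proper ℂ E
  have hK : IsCompact (Metric.sphere (0 : E) 1) := isCompact_sphere 0 1
  have hne : ∀ a ∈ Metric.sphere (0 : E) 1, a ≠ 0 := by
    rintro a ha rfl
    simp at ha
  have hFs : ContDiffAt ℝ ∞ (fun w => F (e.symm w)) z₀ := hF.chart he hz
  -- joint continuity
  have hc1 : ∀ a, ContinuousAt (fun x : E × E => lev (HF h e) x (v, 0)) (z₀, a) := by
    intro a
    have h1 := lev_continuousAt (HF_cd h he hz a) (v, 0)
    have h2 : ContinuousAt (fun x : E × E => (x, ((v, 0) : E × E))) (z₀, a) := by fun_prop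
    exact ContinuousAt.comp (x := (z₀, a)) (f := fun x : E × E => (x, ((v, 0) : E × E)))
      (g := fun x : (E × E) × (E × E) => lev (HF h e) x.1 x.2) h1 h2
  have hc2 : ContinuousAt (fun z : E => lev (fun w => F (e.symm w)) z v) z₀ := by
    have h1 := lev_continuousAt hFs v
    have h2 : ContinuousAt (fun z : E => ((z, v) : E × E)) z₀ := by fun_prop
    exact ContinuousAt.comp (x := z₀) (f := fun z : E => ((z, v) : E × E))
      (g := fun x : E × E => lev (fun w => F (e.symm w)) x.1 x.2) h1 h2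
  have hc3 : ∀ a, ContinuousAt (HF h e) (z₀, a) := fun a => (HF_cd h he hz a).continuousAt
  have hc4 : ∀ a, ContinuousAt (fun x : E × E => lev (fun w => F (e.symm w)) x.1 v * HF h e x)
      (z₀, a) := by
    intro a
    have h1 : ContinuousAt (fun x : E × E => lev (fun w => F (e.symm w)) x.1 v) (z₀, a) :=
      ContinuousAt.comp (x := (z₀, a)) (f := fun x : E × E => x.1)
        (g := fun z : E => lev (fun w => F (e.symm w)) z v) hc2 continuousAt_fst
    exact h1.mul (hc3 a)
  have hslice : ∀ a : E, Tendsto (fun a' : E => (z₀, a')) (𝓝 a) (𝓝 (z₀, a)) := fun a => by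
    have : Continuous fun a' : E => (z₀, a') := by fun_prop
    exact this.tendsto a
  obtain ⟨k₀, hk0, hk⟩ := exists_mul_dominate hK
    (p := fun a => -lev (HF h e) (z₀, a) (v, 0))
    (q := fun a => lev (fun w => F (e.symm w)) z₀ v * HF h e (z₀, a))
    (fun a _ => (((hc1 a).tendsto.comp (hslice a)).neg : Tendsto _ _ _).mono_left
      nhdsWithin_le_nhds)
    (fun a _ => ((hc4 a).tendsto.comp (hslice a)).mono_left nhdsWithin_le_nhds)
    (fun a ha => mul_pos hv (HF_pos h he hz (hne a ha)))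
  have hev : ∀ᶠ z in 𝓝 z₀, ∀ a ∈ Metric.sphere (0 : E) 1, lev (HF h e) (z, a) (v, 0) <
      k₀ * (lev (fun w => F (e.symm w)) z v * HF h e (z, a)) := by
    refine hK.eventually_forall_of_forall_eventually fun a ha => ?_
    have h1 := hk a ha
    have h2 : ContinuousAt (fun x : E × E => k₀ * (lev (fun w => F (e.symm w)) x.1 v *
      HF h e x)) (z₀, a) := continuousAt_const.mul (hc4 a)
    have h3 : lev (HF h e) (z₀, a) (v, 0) <
        k₀ * (lev (fun w => F (e.symm w)) z₀ v * HF h e (z₀, a)) := by linarith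
    exact (hc1 a).eventually_lt h2 h3
  refine ⟨k₀, ?_⟩
  filter_upwards [hev, hc2.eventually (lt_mem_nhds hv), e.open_target.mem_nhds hz]
    with z hz1 hz2 hz3 k hkk a ha
  have hna : ‖a‖ ≠ 0 := norm_ne_zero_iff.2 ha
  obtain ⟨b', hb'⟩ := lev_conf h (hF.const_mul k) he hz3 a v 0
  refine ⟨b', ?_⟩
  rw [hb']
  refine mul_neg_of_pos_of_neg (Real.exp_pos _) ?_
  have h1 := hz1 ((‖a‖⁻¹ : ℝ) • a) (by
    rw [mem_sphere_zero_iff_norm, norm_smul, Real.norm_eq_abs, abs_of_nonneg (by positivity),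
      inv_mul_cancel₀ hna])
  have h2 := lev_HF_smul h he hz3 ((‖a‖⁻¹ : ℝ) • a) v 0 ‖a‖
  have h3 := HF_smul h e z ((‖a‖⁻¹ : ℝ) • a) (‖a‖ : ℝ)
  have h4 : ((‖a‖ : ℝ) : ℂ) • ((‖a‖⁻¹ : ℝ) • a) = a := by
    rw [Complex.coe_smul, smul_smul, mul_inv_cancel₀ hna, one_smul]
  rw [h4, smul_zero] at h2
  rw [h4, Complex.norm_real, Real.norm_eq_abs, sq_abs] at h3
  have h5 : lev (fun w => k * F (e.symm w)) z v = k * lev (fun w => F (e.symm w)) z v :=
    lev_const_mul ((hF.chart he hz3).of_le two_le) k v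
  rw [h5, h2, h3]
  have hpos : 0 < ‖a‖ ^ 2 := by positivity
  have hHF : 0 ≤ HF h e (z, (‖a‖⁻¹ : ℝ) • a) := HF_nonneg h he hz3 _
  have h6 : k₀ * (lev (fun w => F (e.symm w)) z v * HF h e (z, (‖a‖⁻¹ : ℝ) • a)) ≤
      k * (lev (fun w => F (e.symm w)) z v * HF h e (z, (‖a‖⁻¹ : ℝ) • a)) :=
    mul_le_mul_of_nonneg_right hkk (mul_nonneg hz2.le hHF)
  have h7 : lev (HF h e) (z, (‖a‖⁻¹ : ℝ) • a) (v, 0) -
      k * (lev (fun w => F (e.symm w)) z v * HF h e (z, (‖a‖⁻¹ : ℝ) • a)) < 0 := by linarith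
  have h8 := mul_neg_of_pos_of_neg hpos h7
  calc _ = ‖a‖ ^ 2 * (lev (HF h e) (z, (‖a‖⁻¹ : ℝ) • a) (v, 0) -
      k * (lev (fun w => F (e.symm w)) z v * HF h e (z, (‖a‖⁻¹ : ℝ) • a))) := by ring
    _ < 0 := h8

end local_k

variable {E : Type*} [NormedAddCommGroup E] [InnerProductSpace ℂ E] [FiniteDimensional ℂ E]
  {M : Type*} [TopologicalSpace M] [ChartedSpace E M] [IsManifold 𝓘(ℂ, E) ω M]
  (h : HermitianMetric (idRep E) M)

/-- the good points: there is a direction of positive curvature in which `ρ` is superharmonic -/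
def Good (C : Set M) (ρ : M → ℝ) : Set M :=
  {x | ∃ q : E, PosE h (chartAt E x) (chartAt E x x) q ∧
    lev (fun w => ρ ((chartAt E x).symm w)) (chartAt E x x) q ≤ 0 ∧
    (x ∉ C → lev (fun w => ρ ((chartAt E x).symm w)) (chartAt E x x) q < 0)}

lemma good_nhds {C : Set M} {ρ : M → ℝ} (hρ : Sm E ρ) (hρ0 : ∀ x, 0 ≤ ρ x)
    (hρC : ∀ x, ρ x = 0 ↔ x ∈ C) (hT : ∀ q ∈ C, TubeAt h C ρ 1 q)
    {e : OpenPartialHomeomorph M E} {u : E} (A : Adapted C e u) {p : M} (hpe : p ∈ e.source)
    (hpC : p ∈ C) (hp : PosE h e (e p) u) : Good h C ρ ∈ 𝓝 p := by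
  have h1 := near_curve hρ hρ0 hρC hT A hpe hpC hp
  have h2 : ∀ᶠ y in 𝓝 p, y ∈ e.source ∧ e y ∈ {z | ∃ q, PosE h e z q ∧
      lev (fun w => ρ (e.symm w)) z q ≤ 0 ∧
      (e.symm z ∉ C → lev (fun w => ρ (e.symm w)) z q < 0)} := ev_chart hpe h1
  filter_upwards [h2] with y hy
  obtain ⟨hys, q, hq1, hq2, hq3⟩ := hy
  have hyt : e y ∈ e.target := e.map_source hys
  have hyy : e.symm (e y) = y := e.left_inv hys
  have hyc : e.symm (e y) ∈ (chartAt E y).source := by rw [hyy]; exact mem_chart_source E y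
  have h3 := PosE_change h A.mem (chart_hc y) hyt hyc hq1
  have h4 := lev_change A.mem (chart_hc y) hyt hyc (f := ρ) (hρ _) q
  rw [hyy] at h3 h4 hq3
  refine ⟨_, h3, ?_, fun hyC => ?_⟩
  · rw [← h4]; exact hq2
  · rw [← h4]; exact hq3 hyC

/-- The construction of the function. -/
theorem exists_F [CompactSpace M] [T2Space M] [PreconnectedSpace M] {C : Set M}
    (hC : IsClosed C) (hCne : C.Nonempty)
    (hA : ∀ x ∈ C, ∃ (e : OpenPartialHomeomorph M E) (u : E), x ∈ e.source ∧ Adapted C e u ∧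
      PosE h e (e x) u) :
    ∃ F : M → ℝ, Sm E F ∧ ∀ x : M,
      (∀ᶠ y in 𝓝 x, ∃ q : E, PosE h (chartAt E y) (chartAt E y y) q ∧
        0 ≤ lev (fun w => F ((chartAt E y).symm w)) (chartAt E y y) q) ∨
      ∃ (e : OpenPartialHomeomorph M E) (v : E), e ∈ HC E M ∧ x ∈ e.source ∧
        0 < lev (fun w => F (e.symm w)) (e x) v := by
  obtain ⟨ρ, hρ, hρ0, hρC, hT⟩ := exists_tube h hC fun x hx => by
    obtain ⟨e, u, h1, h2, _⟩ := hA x hx
    exact ⟨e, u, h1, h2⟩
  have hρc : Continuous ρ := hρ.continuous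
  have hgood : C ⊆ interior (Good h C ρ) := by
    intro x hx
    obtain ⟨e, u, h1, h2, h3⟩ := hA x hx
    exact mem_interior_iff_mem_nhds.2 (good_nhds h hρ hρ0 hρC hT h2 h1 hx h3)
  -- the size of the tube
  obtain ⟨s₀, hs₀, hsG⟩ : ∃ s₀ : ℝ, 0 < s₀ ∧ ∀ x, ρ x ≤ s₀ → x ∈ Good h C ρ := by
    have hK : IsCompact (interior (Good h C ρ))ᶜ := isOpen_interior.isClosed_compl.isCompact
    rcases (interior (Good h C ρ))ᶜ.eq_empty_or_nonempty with hem | hKne
    · refine ⟨1, one_pos, fun x _ => interior_subset ?_⟩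
      by_contra hx
      have : x ∈ (interior (Good h C ρ))ᶜ := hx
      rw [hem] at this
      exact this
    · obtain ⟨x₀, hx₀, hmin⟩ := hK.exists_isMinOn hKne hρc.continuousOn
      have hpos : 0 < ρ x₀ := by
        rcases (hρ0 x₀).lt_or_eq with h1 | h1
        · exact h1
        · exact absurd (hgood ((hρC x₀).1 h1.symm)) hx₀
      refine ⟨ρ x₀ / 2, by positivity, fun x hx => interior_subset ?_⟩
      by_contra hx'
      have h2 : ρ x₀ ≤ ρ x := hmin hx'
      linarith
  set s₁ := s₀ / 4 with hs₁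
  set s₂ := s₀ / 2 with hs₂
  set s₃ := 3 * s₀ / 4 with hs₃
  have hs1pos : 0 < s₁ := by positivity
  -- the operator
  let bas := Module.finBasis ℂ E
  have hspan0 : ∀ L : E →L[ℝ] ℝ, (∀ i, L (bas i) = 0 ∧ L (Complex.I • bas i) = 0) → L = 0 := by
    intro L hL
    ext a
    have h1 : a = ∑ i, (((bas.repr a i).re : ℝ) • bas i +
        ((bas.repr a i).im : ℝ) • (Complex.I • bas i)) := by
      conv_lhs => rw [← bas.sum_repr a]
      refine Finset.sum_congr rfl fun i _ => ?_
      rw [← Complex.coe_smul, ← Complex.coe_smul, smul_smul, ← add_smul]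
      congr 1
      exact (Complex.re_add_im _).symm
    rw [h1, map_sum]
    simp [hL]
  have hloc : ∀ x : M, ∃ (N : Set M) (d : Option (Fin (Module.finrank ℂ E)) → E), N ∈ 𝓝 x ∧
      N ⊆ (chartAt E x).source ∧
      (∀ L : E →L[ℝ] ℝ, (∀ k, L (d k) = 0 ∧ L (Complex.I • d k) = 0) → L = 0) ∧
      ∀ y ∈ N, s₁ ≤ ρ y → ρ y ≤ s₀ →
        ∑ k, lev (fun w => ρ ((chartAt E x).symm w)) (chartAt E x y) (d k) < 0 := by
    intro x
    have hxs : x ∈ (chartAt E x).source := mem_chart_source E x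
    by_cases hx : s₁ ≤ ρ x ∧ ρ x ≤ s₀
    · obtain ⟨q, hq1, hq2, hq3⟩ := hsG x hx.2
      have hxC : x ∉ C := by
        intro hxC
        rw [(hρC x).2 hxC] at hx
        linarith [hx.1]
      have hq := hq3 hxC
      set l := lev (fun w => ρ ((chartAt E x).symm w)) (chartAt E x x) q with hl
      set S := ∑ i, lev (fun w => ρ ((chartAt E x).symm w)) (chartAt E x x) (bas i) with hS
      obtain ⟨δ, hδ, hδS⟩ : ∃ δ : ℝ, 0 < δ ∧ l + δ ^ 2 * S < 0 := by
        have h1 : Tendsto (fun δ : ℝ => l + δ ^ 2 * S) (𝓝[>] 0) (𝓝 l) := by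
          have h2 : Continuous fun δ : ℝ => l + δ ^ 2 * S := by fun_prop
          have h3 := (h2.tendsto 0).mono_left (nhdsWithin_le_nhds (s := Ioi 0))
          simpa using h3
        have h2 := (h1.eventually (gt_mem_nhds hq)).and self_mem_nhdsWithin
        obtain ⟨δ, h3, h4⟩ := h2.exists
        exact ⟨δ, h4, h3⟩
      let d : Option (Fin (Module.finrank ℂ E)) → E := fun k =>
        match k with
        | none => q
        | some i => δ • bas i
      have hc : ContinuousAt (fun y => ∑ k, lev (fun w => ρ ((chartAt E x).symm w))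
          (chartAt E x y) (d k)) x :=
        tendsto_finsetSum _ fun k _ => OpData.lev_chart_continuousAt (hρ x) hxs (d k)
      have hval : ∑ k, lev (fun w => ρ ((chartAt E x).symm w)) (chartAt E x x) (d k) < 0 := by
        rw [Fintype.sum_option]
        have h1 : ∀ i, lev (fun w => ρ ((chartAt E x).symm w)) (chartAt E x x) (d (some i)) =
            δ ^ 2 * lev (fun w => ρ ((chartAt E x).symm w)) (chartAt E x x) (bas i) := fun i =>
          lev_smul _ _ _ _
        simp only [h1]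
        rw [← Finset.mul_sum]
        exact hδS
      refine ⟨{y | ∑ k, lev (fun w => ρ ((chartAt E x).symm w)) (chartAt E x y) (d k) < 0} ∩
        (chartAt E x).source, d, inter_mem (hc.eventually (gt_mem_nhds hval))
          ((chartAt E x).open_source.mem_nhds hxs), inter_subset_right, ?_, fun y hy _ _ => hy.1⟩
      intro L hL
      refine hspan0 L fun i => ?_
      have h1 := hL (some i)
      have h2 : d (some i) = δ • bas i := rfl
      rw [h2, smul_comm Complex.I δ (bas i), map_smul, map_smul] at h1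
      simp only [smul_eq_mul, mul_eq_zero, hδ.ne', false_or] at h1
      exact h1
    · let d : Option (Fin (Module.finrank ℂ E)) → E := fun k =>
        match k with
        | none => 0
        | some i => bas i
      refine ⟨{y | ρ y < s₁ ∨ s₀ < ρ y} ∩ (chartAt E x).source, d, inter_mem ?_
        ((chartAt E x).open_source.mem_nhds hxs), inter_subset_right, ?_, ?_⟩
      · refine ((isOpen_lt hρc continuous_const).union
          (isOpen_lt continuous_const hρc)).mem_nhds ?_
        by_contra h1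
        rw [mem_union, not_or] at h1
        exact hx ⟨not_lt.1 h1.1, not_lt.1 h1.2⟩
      · intro L hL
        exact hspan0 L fun i => hL (some i)
      · intro y hy h1 h2
        rcases hy.1 with h3 | h3
        · linarith
        · linarith
  choose N d hN hNs hspan hNneg using hloc
  choose χ hχs hχ0 hχx hχe using fun x => exists_bump (E := E) x (hN x)
  obtain ⟨Fs, hFs⟩ := isCompact_univ.elim_nhds_subcover (fun x => {y | 0 < χ x y}) fun x _ =>
    (isOpen_lt continuous_const (hχs x).continuous).mem_nhds (hχx x)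
  have hcov : ∀ y, ∃ x ∈ Fs, 0 < χ x y := by
    intro y
    have := hFs.2 (mem_univ y)
    simpa using this
  let P : OpData E M (Option (Fin (Module.finrank ℂ E))) :=
    { F := Fs
      χ := χ
      d := d
      sm := hχs
      nonneg := hχ0
      supp := fun x y hy => hχe x y fun h1 => hy (hNs x h1)
      cover := hcov
      span := fun x _ => hspan x }
  have hLρ : ∀ y, s₁ ≤ ρ y → ρ y ≤ s₀ → P.L ρ y < 0 := by
    intro y h1 h2
    obtain ⟨x, hx, hxy⟩ := hcov y
    have hmem : ∀ x, 0 < χ x y → y ∈ N x := by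
      intro x h3
      by_contra h4
      have := (hχe x y h4).self_of_nhds
      rw [this] at h3
      exact lt_irrefl _ h3
    have hTneg : ∀ x, 0 < χ x y → P.T x ρ y < 0 := fun x h3 => hNneg x y (hmem x h3) h1 h2
    have hle : ∀ i ∈ Fs, P.χ i y * P.T i ρ y ≤ 0 := by
      intro i _
      rcases (hχ0 i y).lt_or_eq with h3 | h3
      · exact (mul_neg_of_pos_of_neg h3 (hTneg i h3)).le
      · have h4 : P.χ i y = 0 := h3.symm
        rw [h4, zero_mul]
    exact Finset.sum_neg' hle ⟨x, hx, mul_neg_of_pos_of_neg hxy (hTneg x hxy)⟩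
  -- the subharmonic function
  obtain ⟨f, hf, hfL⟩ := exists_subharmonic P (U := {y | ρ y < s₁})
    (isOpen_lt hρc continuous_const) (by
      obtain ⟨x, hx⟩ := hCne
      exact ⟨x, by simp only [mem_ofPred_eq]; rw [(hρC x).2 hx]; exact hs1pos⟩)
  let σ : ℝ → ℝ := fun r => Real.smoothTransition ((r - s₁) / (s₂ - s₁))
  have hσ : ContDiff ℝ ∞ σ := Real.smoothTransition.contDiff.comp
    ((contDiff_id.sub contDiff_const).div_const _)
  have h12 : 0 < s₂ - s₁ := by rw [hs₁, hs₂]; linarith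
  have hσ0 : ∀ r, r ≤ s₁ → σ r = 0 := fun r hr =>
    Real.smoothTransition.zero_of_nonpos (div_nonpos_of_nonpos_of_nonneg (by linarith) h12.le)
  have hσ1 : ∀ r, s₂ ≤ r → σ r = 1 := fun r hr =>
    Real.smoothTransition.one_of_one_le (by rw [le_div_iff₀ h12]; linarith)
  have hg1 : Sm E fun y => σ (ρ y) * f y := fun y =>
    ((hρ y).comp_real hσ.contDiffAt).mul (hf y)
  have hr1 : Sm E fun y => s₀ + (-1) * ρ y := fun y =>
    (SmAt.const s₀ y).add ((SmAt.const (-1) y).mul (hρ y))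
  have hg2 : Sm E fun y => Phi 0 (s₀ + (-1) * ρ y) := fun y =>
    (hr1 y).comp_real (Phi_cd 0).contDiffAt
  have hLr : ∀ y, P.L (fun y => s₀ + (-1) * ρ y) y = -P.L ρ y := by
    intro y
    have h1 : P.L (fun _ => s₀) y = 0 := by
      unfold OpData.L OpData.T
      simp only [lev_const]
      simp
    rw [OpData.L_add (SmAt.const s₀ y) ((SmAt.const (-1) y).mul (hρ y)),
      OpData.L_const_mul (hρ y), h1]
    ring
  have hLg2 : ∀ y, P.L (fun y => Phi 0 (s₀ + (-1) * ρ y)) y =
      deriv (Phi 0) (s₀ + (-1) * ρ y) * (-P.L ρ y) +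
      deriv (deriv (Phi 0)) (s₀ + (-1) * ρ y) * P.G (fun y => s₀ + (-1) * ρ y) y := by
    intro y
    rw [OpData.L_comp (hr1 y) (Phi_cd 0), hLr]
  have hPhi2 : ∀ r, 0 ≤ deriv (deriv (Phi 0)) r := by
    intro r
    have := Phi_deriv2 0 r
    linarith
  have hLg2nn : ∀ y, s₁ ≤ ρ y → 0 ≤ P.L (fun y => Phi 0 (s₀ + (-1) * ρ y)) y := by
    intro y hy
    rw [hLg2]
    have h1 : 0 ≤ P.G (fun y => s₀ + (-1) * ρ y) y := OpData.G_nonneg _ y
    have h2 := mul_nonneg (hPhi2 (s₀ + (-1) * ρ y)) h1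
    rcases le_or_gt (ρ y) s₀ with h3 | h3
    · have h4 := hLρ y hy h3
      have h5 := mul_nonneg (Phi_deriv_nonneg 0 (s₀ + (-1) * ρ y)) (neg_pos.2 h4).le
      linarith
    · rw [Phi_deriv_zero 0 (by linarith), zero_mul]
      linarith
  have hLg2pos : ∀ y, s₁ ≤ ρ y → ρ y ≤ s₃ → 0 < P.L (fun y => Phi 0 (s₀ + (-1) * ρ y)) y := by
    intro y hy hy3
    rw [hLg2]
    have h1 : 0 ≤ P.G (fun y => s₀ + (-1) * ρ y) y := OpData.G_nonneg _ y
    have h2 := mul_nonneg (hPhi2 (s₀ + (-1) * ρ y)) h1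
    have h4 := hLρ y hy (by rw [hs₃] at hy3; linarith)
    have h5 := mul_pos (Phi_deriv_pos 0 (s := s₀ + (-1) * ρ y) (by rw [hs₃] at hy3; linarith))
      (neg_pos.2 h4)
    linarith
  have hKc : IsCompact {y | s₁ ≤ ρ y ∧ ρ y ≤ s₃} :=
    ((isClosed_le continuous_const hρc).inter (isClosed_le hρc continuous_const)).isCompact
  obtain ⟨A, hA0, hAK⟩ := exists_mul_dominate hKc
    (p := P.L fun y => σ (ρ y) * f y) (q := P.L fun y => Phi 0 (s₀ + (-1) * ρ y))
    (fun y _ => (OpData.L_continuousAt (hg1 y)).continuousWithinAt)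
    (fun y _ => (OpData.L_continuousAt (hg2 y)).continuousWithinAt)
    (fun y hy => hLg2pos y hy.1 hy.2)
  have hg3 : Sm E fun y => A * Phi 0 (s₀ + (-1) * ρ y) := hg2.const_mul A
  set F : M → ℝ := fun y => σ (ρ y) * f y + A * Phi 0 (s₀ + (-1) * ρ y) with hF
  have hFsm : Sm E F := fun y => (hg1 y).add (hg3 y)
  have hLF : ∀ y, s₁ ≤ ρ y → 0 < P.L F y := by
    intro y hy
    have h1 : P.L F y = P.L (fun y => σ (ρ y) * f y) y +
        A * P.L (fun y => Phi 0 (s₀ + (-1) * ρ y)) y := by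
      rw [← OpData.L_const_mul (hg2 y)]
      exact OpData.L_add (hg1 y) (hg3 y)
    rw [h1]
    rcases le_or_gt (ρ y) s₃ with h3 | h3
    · exact hAK y ⟨hy, h3⟩
    · have h4 : P.L (fun y => σ (ρ y) * f y) y = P.L f y := by
        refine OpData.L_congr ?_
        have h5 : ∀ᶠ z in 𝓝 y, s₂ < ρ z :=
          hρc.continuousAt.eventually (lt_mem_nhds (by rw [hs₂]; rw [hs₃] at h3; linarith))
        filter_upwards [h5] with z hz
        rw [hσ1 _ hz.le, one_mul]
      rw [h4]
      have h6 := hfL y (by simp only [mem_ofPred_eq, not_lt]; exact hy)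
      have h7 := mul_nonneg hA0 (hLg2nn y hy)
      linarith
  refine ⟨F, hFsm, fun x => ?_⟩
  rcases lt_or_ge (ρ x) s₁ with hx | hx
  · left
    filter_upwards [(isOpen_lt hρc continuous_const).mem_nhds hx] with y hy
    have hy' : ρ y < s₁ := hy
    obtain ⟨q, hq1, hq2, _⟩ := hsG y (by rw [hs₁] at hy'; linarith)
    refine ⟨q, hq1, ?_⟩
    have hys : y ∈ (chartAt E y).source := mem_chart_source E y
    have hyt : chartAt E y y ∈ (chartAt E y).target := mem_chart_target E y
    have hyy : (chartAt E y).symm (chartAt E y y) = y := (chartAt E y).left_inv hys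
    have hev : F =ᶠ[𝓝 y] fun z => A * Phi 0 (s₀ + (-1) * ρ z) := by
      filter_upwards [(isOpen_lt hρc continuous_const).mem_nhds hy] with z hz
      have hz' : ρ z < s₁ := hz
      simp only [hF]
      rw [hσ0 _ hz'.le, zero_mul, zero_add]
    have e1 := lev_congr (OpData.ev_chart_symm (x := y) hev hys) q
    rw [e1]
    have hcρ : ContDiffAt ℝ ∞ (fun w => ρ ((chartAt E y).symm w)) (chartAt E y y) :=
      hρ.chart (chart_hc y) hyt
    have hcr : ContDiffAt ℝ 2 (fun w => s₀ + (-1) * ρ ((chartAt E y).symm w)) (chartAt E y y) :=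
      (hr1.chart (chart_hc y) hyt).of_le two_le
    have hcg : ContDiffAt ℝ 2 (fun w => Phi 0 (s₀ + (-1) * ρ ((chartAt E y).symm w)))
        (chartAt E y y) := (hg2.chart (chart_hc y) hyt).of_le two_le
    rw [lev_const_mul hcg]
    refine mul_nonneg hA0 ?_
    rw [lev_comp_real (φ := Phi 0) (F := fun w => s₀ + (-1) * ρ ((chartAt E y).symm w))
      ((Phi_cd 0).contDiffAt.of_le two_le) hcr]
    have e2 : lev (fun w => s₀ + (-1) * ρ ((chartAt E y).symm w)) (chartAt E y y) q =
        -lev (fun w => ρ ((chartAt E y).symm w)) (chartAt E y y) q := by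
      have hcρ2 := hcρ.of_le two_le
      rw [lev_add contDiffAt_const (contDiffAt_const.mul hcρ2), lev_const, lev_const_mul hcρ2]
      ring
    rw [e2]
    have h5 := mul_nonneg (Phi_deriv_nonneg 0 (s₀ + (-1) * ρ ((chartAt E y).symm
      (chartAt E y y)))) (neg_nonneg.2 hq2)
    have h6 := mul_nonneg (hPhi2 (s₀ + (-1) * ρ ((chartAt E y).symm (chartAt E y y))))
      (gr_nonneg (fun w => s₀ + (-1) * ρ ((chartAt E y).symm w)) (chartAt E y y) q)
    linarith
  · right
    have h1 := hLF x hx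
    have h2 : ∃ i ∈ Fs, 0 < P.χ i x * P.T i F x := by
      by_contra hcon
      push Not at hcon
      exact absurd h1 (not_lt.2 (Finset.sum_nonpos hcon))
    obtain ⟨i, hi, h3⟩ := h2
    have h4 : P.χ i x ≠ 0 := by
      intro h5
      rw [h5, zero_mul] at h3
      exact lt_irrefl _ h3
    have h5 : 0 < P.T i F x := by
      have h6 : 0 < P.χ i x := lt_of_le_of_ne (hχ0 i x) (Ne.symm h4)
      exact (mul_pos_iff_of_pos_left h6).1 h3
    have h6 : ∃ k, 0 < lev (fun w => F ((chartAt E i).symm w)) (chartAt E i x) (P.d i k) := by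
      by_contra hcon
      push Not at hcon
      exact absurd h5 (not_lt.2 (Finset.sum_nonpos fun k _ => hcon k))
    obtain ⟨k, hk⟩ := h6
    exact ⟨chartAt E i, P.d i k, chart_hc i, OpData.mem_source_of_ne h4, hk⟩

/-- The main theorem in terms of `PosE`. -/
theorem uniform_posE [CompactSpace M] [T2Space M] [PreconnectedSpace M] {C : Set M}
    (hC : IsClosed C) (hCne : C.Nonempty)
    (hA : ∀ x ∈ C, ∃ (e : OpenPartialHomeomorph M E) (u : E), x ∈ e.source ∧ Adapted C e u ∧
      PosE h e (e x) u) :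
    ∃ h' : HermitianMetric (idRep E) M, ∀ x : M, ∃ v : E,
      PosE h' (chartAt E x) (chartAt E x x) v := by
  obtain ⟨F, hF, hFx⟩ := exists_F h hC hCne hA
  have hloc : ∀ x : M, ∃ k₀ : ℝ, ∀ᶠ y in 𝓝 x, ∀ k, k₀ ≤ k → ∃ v : E,
      PosE (conf h (fun y => k * F y) (hF.const_mul k)) (chartAt E y) (chartAt E y y) v := by
    intro x
    rcases hFx x with h1 | ⟨e, v, he, hxs, hv⟩
    · refine ⟨0, ?_⟩
      filter_upwards [h1] with y hy k hk
      obtain ⟨q, hq1, hq2⟩ := hy
      have hyt : chartAt E y y ∈ (chartAt E y).target := mem_chart_target E y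
      refine ⟨q, PosE_conf h (hF.const_mul k) (chart_hc y) hyt hq1 ?_⟩
      have h5 : lev (fun w => k * F ((chartAt E y).symm w)) (chartAt E y y) q =
          k * lev (fun w => F ((chartAt E y).symm w)) (chartAt E y y) q :=
        lev_const_mul ((hF.chart (chart_hc y) hyt).of_le two_le) k q
      rw [h5]
      exact mul_nonneg hk hq2
    · obtain ⟨k₀, hk₀⟩ := large_k h hF he (e.map_source hxs) hv
      refine ⟨k₀, ?_⟩
      have h2 : ∀ᶠ y in 𝓝 x, y ∈ e.source ∧ e y ∈ {z | ∀ k, k₀ ≤ k →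
          PosE (conf h (fun y => k * F y) (hF.const_mul k)) e z v} := ev_chart hxs hk₀
      filter_upwards [h2] with y hy k hk
      have hyt : e y ∈ e.target := e.map_source hy.1
      have hyy : e.symm (e y) = y := e.left_inv hy.1
      have hyc : e.symm (e y) ∈ (chartAt E y).source := by rw [hyy]; exact mem_chart_source E y
      have h3 := PosE_change _ he (chart_hc y) hyt hyc (hy.2 k hk)
      rw [hyy] at h3
      exact ⟨_, h3⟩
  choose k₀ hk₀ using hloc
  obtain ⟨Fs, hFs⟩ := isCompact_univ.elim_nhds_subcover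
    (fun x => {y | ∀ k, k₀ x ≤ k → ∃ v : E,
      PosE (conf h (fun y => k * F y) (hF.const_mul k)) (chartAt E y) (chartAt E y y) v})
    fun x _ => hk₀ x
  set K := ∑ x ∈ Fs, |k₀ x| with hK
  refine ⟨conf h (fun y => K * F y) (hF.const_mul K), fun y => ?_⟩
  have h1 := hFs.2 (mem_univ y)
  simp only [mem_iUnion] at h1
  obtain ⟨x, hx, hxy⟩ := h1
  refine hxy K ?_
  calc k₀ x ≤ |k₀ x| := le_abs_self _
    _ ≤ K := Finset.single_le_sum (f := fun x => |k₀ x|) (fun i _ => abs_nonneg _) hx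

end Pool.Agent.H301_RC
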