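import Pool.Agent.H301_RC.TP2

/-! Positivity of the induced metrics on tensor bundles. -/

set_option autoImplicit false
set_option linter.unusedSectionVars false

open scoped Manifold ContDiff Topology ComplexConjugate TensorProduct
open Filter Set Module

namespace Pool.Agent.H301_RC

/-- `W` with the action `ρ` is a subrepresentation of the tensor power. -/
structure IsSub {E : Type*} [NormedAddCommGroup E] [NormedSpace ℂ E] {W : Type*} [AddCommGroup W]
    [Module ℂ W] {p : ℕ} (ρ : (E →L[ℂ] E) → W →ₗ[ℂ] W) (i : W →ₗ[ℂ] ⨂[ℂ]^p E) : Prop where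
  inj : Function.Injective i
  eqv : ∀ (A : E →L[ℂ] E) s, i (ρ A s) = PiTensorProduct.map (fun _ => (A : E →ₗ[ℂ] E)) (i s)

variable {E : Type*} [NormedAddCommGroup E] [NormedSpace ℂ E] [FiniteDimensional ℂ E]
  {M : Type*} [TopologicalSpace M] [ChartedSpace E M] [IsManifold 𝓘(ℂ, E) ω M]
  {W : Type*} [AddCommGroup W] [Module ℂ W] {p : ℕ}
  {ρ : (E →L[ℂ] E) → W →ₗ[ℂ] W} {i : W →ₗ[ℂ] ⨂[ℂ]^p E}

/-- the matrix of the metric as a form -/
noncomputable def LF (h : HermitianMetric (idRep E) M) (x : M) (z : E) : SF E :=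
  pullSF (frame (idRep E) x z) (h.form (pt x z))

lemma LF_apply (h : HermitianMetric (idRep E) M) (x : M) (z a c : E) :
    LF h x z a c = h.loc x z a c := rfl

lemma induced_loc (h : HermitianMetric (idRep E) M) (hi : IsSub ρ i) (x : M) (z : E) (s s' : W) :
    locForm ρ (fun y => pullSF i (tform (h.form y) p)) x z s s' =
      tform (LF h x z) p (i s) (i s') := by
  unfold locForm
  rw [pullSF_apply]
  unfold frame
  rw [hi.eqv, hi.eqv, tform_map]
  rfl

/-- The metric on the tensor bundle induced by `h`. -/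
noncomputable def tmet (h : HermitianMetric (idRep E) M) (hi : IsSub ρ i) :
    HermitianMetric ρ M where
  form x := pullSF i (tform (h.form x) p)
  inner x := ⟨fun a b => tform_herm (h.herm x) _ _, fun a ha => by
    refine tform_pos (h.herm x) (h.pos x) fun h0 => ha (hi.inj ?_)
    rw [h0, map_zero]⟩
  smooth x a b := by
    have h1 : (fun z : E => locForm ρ (fun y => pullSF i (tform (h.form y) p)) x z a b) =
        fun z => ∑ I, ∑ J, (tb (finBasis ℂ E) p).repr (i a) I *
          (conj ((tb (finBasis ℂ E) p).repr (i b) J) *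
          ∏ k, locForm (idRep E) h.form x z (finBasis ℂ E (I k)) (finBasis ℂ E (J k))) := by
      funext z
      rw [induced_loc h hi, tform_apply]
      rfl
    rw [h1]
    exact ContDiffOn.sum fun I _ => ContDiffOn.sum fun J _ => contDiffOn_const.mul
      (contDiffOn_const.mul (contDiffOn_prod fun k _ => h.smooth x _ _))

lemma tmet_loc (h : HermitianMetric (idRep E) M) (hi : IsSub ρ i) (x : M) (z : E) (s s' : W) :
    (tmet h hi).loc x z s s' = tform (LF h x z) p (i s) (i s') := induced_loc h hi x z s s'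

lemma ddz_sec_lev (h : HermitianMetric (idRep E) M) (x : M) (v a b : E) :
    ddz (h.sec x (chartAt E x x) v a (-b)) =
      ((lev (HF h (chartAt E x)) (chartAt E x x, a) (v, b) : ℝ) : ℂ) := by
  have hxt : chartAt E x x ∈ (chartAt E x).target := mem_chart_target E x
  rw [← ddz_line ((HF_cd h (chart_hc x) hxt a).of_le two_le)]
  refine ddz_congr ?_
  have hev : ∀ᶠ ζ : ℂ in 𝓝 0, chartAt E x x + ζ • v ∈ (chartAt E x).target := by
    have hc : ContinuousAt (fun ζ : ℂ => chartAt E x x + ζ • v) 0 := by fun_prop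
    refine hc.eventually ?_
    simp only [zero_smul, add_zero]
    exact (chartAt E x).open_target.mem_nhds hxt
  filter_upwards [hev] with ζ hζ
  unfold HermitianMetric.sec
  rw [loc_eq h hζ, ← locE_self]
  simp

lemma loc_pos0 (h : HermitianMetric (idRep E) M) (x : M) {a : E} (ha : a ≠ 0) :
    0 < (h.loc x (chartAt E x x) a a).re := by
  have hxt : chartAt E x x ∈ (chartAt E x).target := mem_chart_target E x
  rw [loc_eq h hxt]
  exact locE_pos (chart_hc x) hxt ha

/-- The curve of forms at `x` in the direction `v`. -/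
theorem exists_curveData (h : HermitianMetric (idRep E) M) {x : M} {v : E}
    (hp : PosE h (chartAt E x) (chartAt E x x) v) :
    ∃ D : CurveData E, (∀ ζ, D.H ζ = LF h x (chartAt E x x + ζ • v)) ∧
      ∀ a, a ≠ 0 → 0 < (D.R a a).re := by
  set z := chartAt E x x with hz
  have hzt : z ∈ (extChartAt 𝓘(ℂ, E) x).target := by
    rw [ext_target]; exact mem_chart_target E x
  have hcd : ∀ a c, ContDiffAt ℝ 2 (fun ζ : ℂ => h.loc x (z + ζ • v) a c) 0 := fun a c =>
    h.loc_cd hzt v a c
  have hne : ∀ a, a ≠ 0 → h.loc x z a a ≠ 0 := by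
    intro a ha h0
    have := loc_pos0 h x ha
    rw [← hz, h0] at this
    simp at this
  have hth : ∀ a, ∃ θ, ∀ c, h.loc x z θ c = dz fun ζ => h.loc x (z + ζ • v) a c := by
    intro a
    refine h.exists_theta hne (fun c => dz fun ζ => h.loc x (z + ζ • v) a c) ?_ ?_
    · intro c c'
      rw [← dz_add (hcd a c) (hcd a c')]
      exact congrArg dz (funext fun ζ => h.loc_add_right _ _ _ _ _)
    · intro k c
      have : (fun ζ : ℂ => h.loc x (z + ζ • v) a (k • c)) =
          fun ζ : ℂ => conj k * h.loc x (z + ζ • v) a c :=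
        funext fun ζ => h.loc_smul_right _ _ _ _ _
      rw [this, dz_const_mul (hcd a c)]
  choose θ hθ using hth
  have hnd : ∀ a b, (∀ c, h.loc x z a c = h.loc x z b c) → a = b := by
    intro a b hab
    by_contra hne'
    refine hne (a - b) (sub_ne_zero.2 hne') ?_
    rw [h.loc_sub_left, hab, sub_self]
  let Θ : E →ₗ[ℂ] E :=
    { toFun := θ
      map_add' := fun a b => hnd _ _ fun c => by
        rw [h.loc_add_left, hθ, hθ, hθ, ← dz_add (hcd a c) (hcd b c)]
        exact congrArg dz (funext fun ζ => h.loc_add_left _ _ _ _ _)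
      map_smul' := fun k a => hnd _ _ fun c => by
        rw [RingHom.id_apply, h.loc_smul_left, hθ, hθ, ← dz_const_mul (hcd a c)]
        exact congrArg dz (funext fun ζ => h.loc_smul_left _ _ _ _ _) }
  let D : CurveData E :=
    { H := fun ζ => LF h x (z + ζ • v)
      Θ := Θ
      herm := fun ζ a c => h.loc_conj _ _ _ _
      pos := fun a ha => by
        have := loc_pos0 h x ha
        simpa [LF_apply] using this
      cd := fun a c => hcd a c
      conn := fun a c => by
        show h.loc x (z + (0 : ℂ) • v) (θ a) c = _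
        rw [zero_smul, add_zero]
        exact hθ a c }
  refine ⟨D, fun ζ => rfl, fun a ha => ?_⟩
  obtain ⟨b, hb⟩ := hp a ha
  have h1 := ddz_sec_lev h x v a b
  have h2 := h.ddz_sec_theta hzt v a (θ a) (-b) (hθ a)
  rw [← hz] at h1
  rw [h1] at h2
  have h3 := congrArg Complex.re h2
  rw [Complex.ofReal_re, Complex.add_re, Complex.sub_re] at h3
  have h4 := h.loc_self_re_nonneg x z (-b - θ a)
  have h5 : D.R a a = h.loc x z (θ a) (θ a) - ddz fun ζ => h.loc x (z + ζ • v) a a := by
    rw [CurveData.R_apply]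
    have : D.H 0 (D.Θ a) (D.Θ a) = h.loc x z (θ a) (θ a) := by
      have e : D.H 0 = LF h x z := by
        show LF h x (z + (0 : ℂ) • v) = LF h x z
        rw [zero_smul, add_zero]
      rw [e]; rfl
    rw [this]
    rfl
  rw [h5, Complex.sub_re]
  linarith

section positivity

variable [FiniteDimensional ℂ W]

/-- coordinates on the tensor power -/
noncomputable def tco (E : Type*) [NormedAddCommGroup E] [NormedSpace ℂ E] [FiniteDimensional ℂ E]
    (p : ℕ) : (⨂[ℂ]^p E) ≃ₗ[ℂ] ((Fin p → Fin (finrank ℂ E)) → ℂ) :=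
  (tb (finBasis ℂ E) p).equivFun

lemma tco_apply (S : ⨂[ℂ]^p E) (I : Fin p → Fin (finrank ℂ E)) :
    tco E p S I = (tb (finBasis ℂ E) p).repr S I := rfl

/-- the squared length in coordinates -/
noncomputable def psi (D : CurveData E) (p : ℕ) (x : ℂ × ((Fin p → Fin (finrank ℂ E)) → ℂ)) : ℝ :=
  (∑ I, ∑ J, x.2 I * (conj (x.2 J) *
    ∏ k, D.H x.1 (finBasis ℂ E (I k)) (finBasis ℂ E (J k)))).re

lemma psi_cd (D : CurveData E) (t : (Fin p → Fin (finrank ℂ E)) → ℂ) :
    ContDiffAt ℝ 2 (psi D p) (0, t) := by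
  have h1 : ∀ I, ContDiffAt ℝ 2 (fun x : ℂ × ((Fin p → Fin (finrank ℂ E)) → ℂ) => x.2 I) (0, t) := by
    intro I
    exact (contDiff_apply ℝ ℂ I).contDiffAt.comp (0, t) contDiffAt_snd
  have h2 : ∀ a c, ContDiffAt ℝ 2 (fun x : ℂ × ((Fin p → Fin (finrank ℂ E)) → ℂ) => D.H x.1 a c)
      (0, t) := by
    intro a c
    exact ContDiffAt.comp (0, t) (g := fun ζ => D.H ζ a c)
      (f := fun x : ℂ × ((Fin p → Fin (finrank ℂ E)) → ℂ) => x.1) (D.cd a c) contDiffAt_fst
  have h3 : ∀ J, ContDiffAt ℝ 2 (fun x : ℂ × ((Fin p → Fin (finrank ℂ E)) → ℂ) => conj (x.2 J))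
      (0, t) := fun J => Complex.conjCLE.contDiff.contDiffAt.comp (0, t) (h1 J)
  have h4 := ContDiffAt.sum (s := Finset.univ) fun I (_ : I ∈ Finset.univ) =>
    ContDiffAt.sum (s := Finset.univ) fun J (_ : J ∈ Finset.univ) =>
    (h1 I).mul ((h3 J).mul (contDiffAt_prod (t := Finset.univ) fun k (_ : k ∈ Finset.univ) =>
      h2 (finBasis ℂ E (I k)) (finBasis ℂ E (J k))))
  exact Complex.reCLM.contDiff.contDiffAt.comp (0, t) h4

lemma psi_tco (D : CurveData E) (ζ : ℂ) (S : ⨂[ℂ]^p E) :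
    tform (D.H ζ) p S S = ((psi D p (ζ, tco E p S) : ℝ) : ℂ) := by
  have h1 : psi D p (ζ, tco E p S) = (tform (D.H ζ) p S S).re := by
    rw [tform_apply]; rfl
  rw [h1]
  refine Complex.ext rfl ?_
  rw [Complex.ofReal_im]
  exact Complex.conj_eq_iff_im.1 (tform_herm (D.herm ζ) S S)

/-- the curve `(1 - ζ Θ)^{⊗ p} S` in coordinates -/
noncomputable def tau (D : CurveData E) (S : ⨂[ℂ]^p E) (ζ : ℂ) :
    (Fin p → Fin (finrank ℂ E)) → ℂ :=
  tco E p (PiTensorProduct.map (fun _ => LinearMap.id - ζ • D.Θ) S)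

lemma tau_cd (D : CurveData E) (S : ⨂[ℂ]^p E) : ContDiff ℂ ω (tau D S) := by
  rw [contDiff_pi]
  intro I
  have h1 : (fun ζ => tau D S ζ I) = fun ζ => ∑ J, (tb (finBasis ℂ E) p).repr S J *
      ∏ k, ((finBasis ℂ E).repr (finBasis ℂ E (J k)) (I k) -
        ζ * (finBasis ℂ E).repr (D.Θ (finBasis ℂ E (J k))) (I k)) := by
    funext ζ
    unfold tau
    rw [tco_apply]
    conv_lhs => rw [← (tb (finBasis ℂ E) p).sum_repr S]
    rw [map_sum, map_sum, Finsupp.finsetSum_apply]
    refine Finset.sum_congr rfl fun J _ => ?_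
    rw [map_smul, map_smul, Finsupp.smul_apply, smul_eq_mul, tb_apply, PiTensorProduct.map_tprod,
      tb_repr]
    congr 1
    refine Finset.prod_congr rfl fun k _ => ?_
    simp
  rw [h1]
  exact ContDiff.sum fun J _ => contDiff_const.mul (contDiff_prod fun k _ =>
    contDiff_const.sub (contDiff_id.mul contDiff_const))

/-- **Positivity of the induced metric**, in the direction `v`. -/
theorem tmet_pos (h : HermitianMetric (idRep E) M) (hi : IsSub ρ i) (hp1 : 1 ≤ p) {x : M} {v : E}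
    (hp : PosE h (chartAt E x) (chartAt E x x) v) (s : W) (hs : s ≠ 0) :
    ∃ r, (tmet h hi).IsCurvature x v s r ∧ 0 < r := by
  obtain ⟨D, hD, hR⟩ := exists_curveData h hp
  set z := chartAt E x x with hz
  have his : i s ≠ 0 := fun h0 => hs (hi.inj (by rw [h0, map_zero]))
  have hneg := D.tensor_neg hR hp1 his
  -- the curve and its derivative
  have hτ0 : tau D (i s) 0 = tco E p (i s) := by
    unfold tau
    simp
  have hτd : HasDerivAt (tau D (i s)) (deriv (tau D (i s)) 0) 0 :=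
    ((tau_cd D (i s)).contDiffAt.differentiableAt (by simp)).hasDerivAt
  let S : Submodule ℂ ((Fin p → Fin (finrank ℂ E)) → ℂ) := LinearMap.range
    ((tco E p : (⨂[ℂ]^p E) →ₗ[ℂ] _).comp i)
  have hmem : ∀ ζ, tau D (i s) ζ ∈ S := by
    intro ζ
    let A : E →L[ℂ] E := LinearMap.toContinuousLinearMap (LinearMap.id - ζ • D.Θ)
    refine ⟨ρ A s, ?_⟩
    simp only [LinearMap.comp_apply, hi.eqv]
    rfl
  obtain ⟨s₂, hs₂⟩ := deriv_mem_submodule S hτd hmem
  have hs₂' : tco E p (i s₂) = deriv (tau D (i s)) 0 := hs₂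
  -- the Levi form
  have hψ := psi_cd D (p := p) (tco E p (i s))
  let c : ℂ → ℂ × ((Fin p → Fin (finrank ℂ E)) → ℂ) := fun ζ => (ζ, tau D (i s) ζ)
  have hc : ContDiffAt ℂ 2 c 0 :=
    contDiffAt_id.prodMk ((tau_cd D (i s)).contDiffAt.of_le le_top)
  have hc0 : c 0 = (0, tco E p (i s)) := by simp only [c, hτ0]
  have hcd : fderiv ℂ c 0 1 = (1, tco E p (i s₂)) := by
    have h1 : HasDerivAt c (1, deriv (tau D (i s)) 0) 0 := (hasDerivAt_id' (0 : ℂ)).prodMk hτd
    rw [h1.hasFDerivAt.fderiv, hs₂']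
    simp
  have hl := lev_comp (F := psi D p) (Φ := c) (z := 0) (by rw [hc0]; exact hψ) hc 1
  rw [hc0, hcd] at hl
  have hψc : ContDiffAt ℝ 2 (fun w => psi D p (c w)) 0 := by
    have h0 : ContDiffAt ℝ 2 (psi D p) (c 0) := by rw [hc0]; exact hψ
    exact h0.comp (0 : ℂ) (cdR hc)
  have e1 := ddz_line (F := fun w => psi D p (c w)) (p := (0 : ℂ)) (q := (1 : ℂ)) hψc
  have e2 : (fun ζ : ℂ => ((psi D p (c (0 + ζ • (1 : ℂ))) : ℝ) : ℂ)) = fun ζ =>
      tform (D.H ζ) p (PiTensorProduct.map (fun _ => LinearMap.id - ζ • D.Θ) (i s))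
        (PiTensorProduct.map (fun _ => LinearMap.id - ζ • D.Θ) (i s)) := by
    funext ζ
    rw [psi_tco]
    simp only [c, zero_add, smul_eq_mul, mul_one]
    rfl
  rw [e2] at e1
  rw [e1, Complex.ofReal_re, hl] at hneg
  have e3 := ddz_line (F := psi D p) (p := (0, tco E p (i s))) (q := (1, tco E p (i s₂))) hψ
  -- the section
  have hxt : chartAt E x x ∈ (chartAt E x).target := mem_chart_target E x
  have hpos : ∀ a, a ≠ 0 → (tmet h hi).loc x (extChartAt 𝓘(ℂ, E) x x) a a ≠ 0 := by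
    intro a ha h0
    have hia : i a ≠ 0 := fun h0 => ha (hi.inj (by rw [h0, map_zero]))
    have h1 : (0 : ℝ) < ((tmet h hi).loc x (extChartAt 𝓘(ℂ, E) x x) a a).re := by
      rw [tmet_loc]
      refine tform_pos (fun a c => h.loc_conj _ _ _ _) (fun b hb => ?_) hia
      exact loc_pos0 h x hb
    rw [h0] at h1
    simp at h1
  obtain ⟨r, hr, hle⟩ := (tmet h hi).exists_curvature hpos v s (-s₂)
  refine ⟨r, hr, lt_of_lt_of_le ?_ hle⟩
  have e4 : ddz ((tmet h hi).sec x (extChartAt 𝓘(ℂ, E) x x) v s (-s₂)) =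
      ((lev (psi D p) (0, tco E p (i s)) (1, tco E p (i s₂)) : ℝ) : ℂ) := by
    rw [← e3]
    congr 1
    funext ζ
    unfold HermitianMetric.sec
    rw [tmet_loc]
    have h1 : (0, tco E p (i s)) + ζ • ((1 : ℂ), tco E p (i s₂)) =
        (ζ, tco E p (i (s - ζ • (-s₂)))) := by
      simp [map_add, map_smul]
    rw [h1, ← psi_tco, hD]
    rfl
  rw [e4, Complex.ofReal_re]
  linarith

end positivity

end Pool.Agent.H301_RC
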