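import Pool.Agent.H301_RC.PCDefs
import Pool.Agent.H301_RC.Final
import Pool.Agent.H301_RC.TP3

/-! Uniformly RC-positive metrics on the tensor and exterior powers of the tangent bundle of a
manifold with a positive curve. -/

set_option autoImplicit false
set_option linter.unusedSectionVars false

open scoped Manifold ContDiff Topology ComplexConjugate TensorProduct
open Filter Set Module

namespace Pool.Agent.H301_RC

section rep

variable {E : Type*} [NormedAddCommGroup E] [NormedSpace ℂ E]

lemma isSub_tensor (p : ℕ) : IsSub (tensorRep E p) (LinearMap.id : (⨂[ℂ]^p E) →ₗ[ℂ] ⨂[ℂ]^p E) :=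
  ⟨Function.injective_id, fun _ _ => rfl⟩

lemma toTensorPower_inj (p : ℕ) : Function.Injective (exteriorPower.toTensorPower ℂ E p) := by
  let π : (⨂[ℂ]^p E) →ₗ[ℂ] ⋀[ℂ]^p E :=
    PiTensorProduct.lift (exteriorPower.ιMulti ℂ p (M := E)).toMultilinearMap
  have h1 : π.comp (exteriorPower.toTensorPower ℂ E p) =
      ((p.factorial : ℕ) : ℂ) • (LinearMap.id : (⋀[ℂ]^p E) →ₗ[ℂ] ⋀[ℂ]^p E) := by
    refine exteriorPower.linearMap_ext (AlternatingMap.ext fun v => ?_)
    simp only [LinearMap.compAlternatingMap_apply, LinearMap.comp_apply,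
      exteriorPower.toTensorPower_apply_ιMulti, map_sum, LinearMap.smul_apply, LinearMap.id_apply]
    have h2 : ∀ σ : Equiv.Perm (Fin p),
        π (Equiv.Perm.sign σ • PiTensorProduct.tprod ℂ (fun i => v (σ i))) =
          exteriorPower.ιMulti ℂ p v := by
      intro σ
      have h3 : π (Equiv.Perm.sign σ • PiTensorProduct.tprod ℂ (fun i => v (σ i))) =
          Equiv.Perm.sign σ • π (PiTensorProduct.tprod ℂ (fun i => v (σ i))) := by
        rcases Int.units_eq_one_or (Equiv.Perm.sign σ) with h | h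
        · rw [h, one_smul, one_smul]
        · rw [h, Units.neg_smul, Units.neg_smul, one_smul, one_smul, map_neg]
      have h4 : π (PiTensorProduct.tprod ℂ (fun i => v (σ i))) =
          exteriorPower.ιMulti ℂ p (v ∘ σ) := PiTensorProduct.lift.tprod _
      rw [h3, h4, AlternatingMap.map_perm, smul_smul]
      have h5 : Equiv.Perm.sign σ * Equiv.Perm.sign σ = 1 := Int.units_mul_self _
      rw [h5, one_smul]
    simp only [h2, Finset.sum_const, Finset.card_univ, Fintype.card_perm, Fintype.card_fin]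
    rw [Nat.cast_smul_eq_nsmul]
  intro a b hab
  have h2 := LinearMap.congr_fun h1 a
  have h3 := LinearMap.congr_fun h1 b
  simp only [LinearMap.comp_apply, hab, LinearMap.smul_apply, LinearMap.id_apply] at h2 h3
  rw [h2] at h3
  have h4 : ((p.factorial : ℕ) : ℂ) ≠ 0 := Nat.cast_ne_zero.2 (Nat.factorial_ne_zero p)
  exact smul_right_injective _ h4 h3

lemma isSub_exterior (p : ℕ) : IsSub (exteriorRep E p) (exteriorPower.toTensorPower ℂ E p) := by
  refine ⟨toTensorPower_inj p, fun A s => ?_⟩
  have h1 : (exteriorPower.toTensorPower ℂ E p).comp (exteriorPower.map p (A : E →ₗ[ℂ] E)) =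
      (PiTensorProduct.map fun _ => (A : E →ₗ[ℂ] E)).comp
        (exteriorPower.toTensorPower ℂ E p) := by
    refine exteriorPower.linearMap_ext (AlternatingMap.ext fun v => ?_)
    simp only [LinearMap.compAlternatingMap_apply, LinearMap.comp_apply,
      exteriorPower.toTensorPower_apply_ιMulti, map_sum, exteriorPower.map_apply_ιMulti]
    refine Finset.sum_congr rfl fun σ _ => ?_
    rcases Int.units_eq_one_or (Equiv.Perm.sign σ) with h | h
    · rw [h, one_smul, one_smul, PiTensorProduct.map_tprod]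
      rfl
    · rw [h, Units.neg_smul, Units.neg_smul, one_smul, one_smul, map_neg,
        PiTensorProduct.map_tprod]
      rfl
  exact LinearMap.congr_fun h1 s

end rep

section curve

variable {E : Type*} [NormedAddCommGroup E] [NormedSpace ℂ E] [FiniteDimensional ℂ E]
  {M : Type*} [TopologicalSpace M] [ChartedSpace E M] [IsManifold 𝓘(ℂ, E) ω M]
  {h : HermitianMetric (idRep E) M}

lemma mfderiv_symm {e : OpenPartialHomeomorph M E} (he : e ∈ HC E M) {z : E} (hz : z ∈ e.target)
    (u : E) : mfderiv 𝓘(ℂ, E) 𝓘(ℂ, E) e.symm z u = D e (chartAt E (e.symm z)) z u := by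
  have h0 : ContMDiffAt 𝓘(ℂ, E) 𝓘(ℂ, E) ω e.symm z := contMDiffAt_symm_of_mem_maximalAtlas he hz
  have h1 : MDifferentiableAt 𝓘(ℂ, E) 𝓘(ℂ, E) e.symm z := h0.mdifferentiableAt (by simp)
  have h2 : mfderiv 𝓘(ℂ, E) 𝓘(ℂ, E) e.symm z = D e (chartAt E (e.symm z)) z := by
    rw [h1.mfderiv]
    simp only [writtenInExtChartAt, extChartAt_model_space_eq_id, PartialEquiv.refl_coe,
      modelWithCornersSelf_coe, range_id, fderivWithin_univ]
    rfl
  rw [h2]
  rfl

lemma posE_of_positiveAt {x : M} {v : E} (hp : h.PositiveAt x v) :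
    PosE h (chartAt E x) (chartAt E x x) v := by
  intro a ha
  obtain ⟨r, ⟨θ, hθ, hr⟩, hr0⟩ := hp a ha
  refine ⟨-θ, ?_⟩
  have hzt : chartAt E x x ∈ (extChartAt 𝓘(ℂ, E) x).target := by
    rw [ext_target]; exact mem_chart_target E x
  have hco : co E x = chartAt E x x := rfl
  rw [hco] at hr
  have h1 := ddz_sec_lev h x v a (-θ)
  rw [neg_neg] at h1
  have h2 := h.ddz_sec_theta hzt v a θ θ hθ
  rw [h1, sub_self, h.loc_zero_left, add_zero] at h2
  have h3 := congrArg Complex.re h2
  rw [Complex.ofReal_re, Complex.sub_re] at h3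
  linarith

end curve

variable {E : Type*} [NormedAddCommGroup E] [InnerProductSpace ℂ E] [FiniteDimensional ℂ E]
  {M : Type*} [TopologicalSpace M] [ChartedSpace E M] [IsManifold 𝓘(ℂ, E) ω M]
  {h : HermitianMetric (idRep E) M}

theorem exists_uniform [CompactSpace M] [T2Space M] [PreconnectedSpace M] {C : Set M}
    (hC : PositiveCurve h C) : ∃ (h' : HermitianMetric (idRep E) M) (v : M → E), ∀ x : M,
      PosE h' (chartAt E x) (chartAt E x x) (v x) := by
  obtain ⟨h', hh'⟩ := uniform_posE h hC.closed hC.nonempty fun x hx => by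
    obtain ⟨e, he, u, hxe, hl, hpos⟩ := hC.chart x hx
    refine ⟨e, u, hxe, ⟨he, hl.1, hl.2⟩, ?_⟩
    have hz : e x ∈ e.target := e.map_source hxe
    have hzz : e.symm (e x) = x := e.left_inv hxe
    have h1 : mfderiv 𝓘(ℂ, E) 𝓘(ℂ, E) e.symm (e x) u = D e (chartAt E x) (e x) u := by
      rw [mfderiv_symm he hz, hzz]
    have hpos' : h.PositiveAt x (D e (chartAt E x) (e x) u) := by
      rw [← h1]; exact hpos
    have h2 := posE_of_positiveAt hpos'
    have hxc : chartAt E x x ∈ (chartAt E x).target := mem_chart_target E x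
    have hxx : (chartAt E x).symm (chartAt E x x) = x := (chartAt E x).left_inv (mem_chart_source E x)
    have h3 := PosE_change h (chart_hc x) he hxc (by rw [hxx]; exact hxe) h2
    rw [hxx] at h3
    have h4 := D_comp he (chart_hc x) he hz (by rw [hzz]; exact mem_chart_source E x)
      (e.map_target hz) u
    rw [hzz, D_self hz] at h4
    rw [h4] at h3
    exact h3
  choose v hv using hh'
  exact ⟨h', v, hv⟩

theorem exists_induced [CompactSpace M] [T2Space M] [PreconnectedSpace M] {C : Set M}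
    (hC : PositiveCurve h C) : ∃ v : M → E, ∀ p : ℕ, 1 ≤ p →
      (∃ g : HermitianMetric (tensorRep E p) M, ∀ x, g.PositiveAt x (v x)) ∧
      ∃ g : HermitianMetric (exteriorRep E p) M, ∀ x, g.PositiveAt x (v x) := by
  obtain ⟨h', v, hv⟩ := exists_uniform hC
  exact ⟨v, fun p hp => ⟨⟨tmet h' (isSub_tensor p), fun x s hs => tmet_pos h' _ hp (hv x) s hs⟩,
    ⟨tmet h' (isSub_exterior p), fun x s hs => tmet_pos h' _ hp (hv x) s hs⟩⟩⟩

end Pool.Agent.H301_RC
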