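import Pool.Agent.H301_RC.Alg2
import Pool.Agent.H301_RC.PC

/-! Invariant polynomials of a form and a vector of an exterior power of even degree. -/

set_option autoImplicit false
set_option linter.unusedSectionVars false

open scoped ComplexConjugate TensorProduct
open Module Finset

namespace Pool.Agent.H301_RC

section ml

variable {V : Type*} [AddCommGroup V] [Module ℂ V] [FiniteDimensional ℂ V]
  {ι : Type*} [Fintype ι] {j p : ℕ}

/-- The contraction of a multilinear form of degree `j p` with `j` tensors of degree `p`. -/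
noncomputable def RR (b : Basis ι ℂ V) (s : MultilinearMap ℂ (fun _ : Fin (j * p) => V) ℂ) :
    MultilinearMap ℂ (fun _ : Fin j => ⨂[ℂ]^p V) ℂ :=
  ∑ J : Fin j → Fin p → ι, (s fun i => b (J i.divNat i.modNat)) •
    (MultilinearMap.mkPiAlgebra ℂ (Fin j) ℂ).compLinearMap fun k => (tb b p).coord (J k)

lemma RR_apply (b : Basis ι ℂ V) (s : MultilinearMap ℂ (fun _ : Fin (j * p) => V) ℂ)
    (w : Fin j → ⨂[ℂ]^p V) : RR b s w = ∑ J : Fin j → Fin p → ι,
      (s fun i => b (J i.divNat i.modNat)) * ∏ k, (tb b p).repr (w k) (J k) := by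
  unfold RR
  rw [_root_.sum_apply]
  refine Finset.sum_congr rfl fun J _ => ?_
  simp [MultilinearMap.mkPiAlgebra_apply]

lemma RR_tprod (b : Basis ι ℂ V) (s : MultilinearMap ℂ (fun _ : Fin (j * p) => V) ℂ)
    (u : Fin j → Fin p → V) :
    RR b s (fun k => PiTensorProduct.tprod ℂ (u k)) = s fun i => u i.divNat i.modNat := by
  classical
  rw [RR_apply, ml_expand b s]
  let e : (Fin j → Fin p → ι) ≃ (Fin (j * p) → ι) :=
    (Equiv.curry (Fin j) (Fin p) ι).symm.trans (Equiv.arrowCongr finProdFinEquiv (Equiv.refl ι))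
  have he : ∀ (J : Fin j → Fin p → ι) (i : Fin (j * p)), e J i = J i.divNat i.modNat := by
    intro J i
    rfl
  refine Fintype.sum_equiv e _ _ fun J => ?_
  simp only [he, tb_repr]
  rw [mul_comm]
  congr 1
  have h1 : ∏ k : Fin j, ∏ k' : Fin p, b.repr (u k k') (J k k') =
      ∏ x : Fin j × Fin p, b.repr (u x.1 x.2) (J x.1 x.2) :=
    (Fintype.prod_prod_type (fun x : Fin j × Fin p => b.repr (u x.1 x.2) (J x.1 x.2))).symm
  rw [h1]
  exact Fintype.prod_equiv finProdFinEquiv _ _ fun x => by
    have h2 : (finProdFinEquiv x).divNat = x.1 := congrArg Prod.fst (finProdFinEquiv.symm_apply_apply x)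
    have h3 : (finProdFinEquiv x).modNat = x.2 := congrArg Prod.snd (finProdFinEquiv.symm_apply_apply x)
    rw [h2, h3]

end ml

variable {E : Type*} [NormedAddCommGroup E] [NormedSpace ℂ E] [FiniteDimensional ℂ E] {j p : ℕ}

/-- The invariant polynomial of degree `1` in `s` and `j` in `w`. -/
noncomputable def RP (j p : ℕ) (s : E [×(j * p)]→L[ℂ] ℂ) (w : ⋀[ℂ]^p E) : ℂ :=
  RR (finBasis ℂ E) s.toMultilinearMap fun _ => exteriorPower.toTensorPower ℂ E p w

lemma exteriorRep_rep (p : ℕ) : IsRep (exteriorRep E p) where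
  one := by
    unfold exteriorRep
    exact exteriorPower.map_id
  mul A B := by
    unfold exteriorRep
    exact exteriorPower.map_comp (n := p) (B : E →ₗ[ℂ] E) (A : E →ₗ[ℂ] E)

lemma RP_inv (A : E →L[ℂ] E) (s : E [×(j * p)]→L[ℂ] ℂ) (w : ⋀[ℂ]^p E) :
    RP j p (s.compContinuousLinearMap fun _ => A) w = RP j p s (exteriorRep E p A w) := by
  unfold RP
  have h : RR (finBasis ℂ E) (s.compContinuousLinearMap fun _ => A).toMultilinearMap =
      (RR (finBasis ℂ E) s.toMultilinearMap).compLinearMap fun _ => tensorRep E p A := by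
    refine Basis.ext_multilinear (fun _ => tb (finBasis ℂ E) p) fun v => ?_
    simp only [MultilinearMap.compLinearMap_apply, tb_apply]
    unfold tensorRep
    simp only [PiTensorProduct.map_tprod]
    rw [RR_tprod, RR_tprod]
    rfl
  rw [h, (isSub_exterior (E := E) p).eqv]
  rfl

lemma RP_poly {ι : Type*} [Fintype ι] (b : Basis ι ℂ (⋀[ℂ]^p E)) :
    InvPoly (exteriorRep E p) b 1 j (RP (E := E) j p) where
  diff := by
    have h0 : ∀ (q : ι → ℂ) (I : Fin p → Fin (finrank ℂ E)), (tb (finBasis ℂ E) p).repr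
        (exteriorPower.toTensorPower ℂ E p (∑ i, q i • b i)) I =
        ∑ i, q i * (tb (finBasis ℂ E) p).repr (exteriorPower.toTensorPower ℂ E p (b i)) I := by
      intro q I
      simp only [map_sum, map_smul, Finsupp.coe_finsetSum, Finset.sum_apply, Finsupp.smul_apply,
        smul_eq_mul]
    have h1 : (fun q : (E [×(j * p)]→L[ℂ] ℂ) × (ι → ℂ) => RP j p q.1 (∑ i, q.2 i • b i)) = fun q =>
        ∑ J : Fin j → Fin p → Fin (finrank ℂ E),
        (q.1 fun i => finBasis ℂ E (J i.divNat i.modNat)) * ∏ k, ∑ i, q.2 i *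
          (tb (finBasis ℂ E) p).repr (exteriorPower.toTensorPower ℂ E p (b i)) (J k) := by
      funext q
      unfold RP
      rw [RR_apply]
      refine Finset.sum_congr rfl fun J _ => ?_
      congr 1
      refine Finset.prod_congr rfl fun k _ => ?_
      rw [h0]
    rw [h1]
    refine Differentiable.fun_sum fun J _ => ?_
    refine Differentiable.fun_mul ?_ ?_
    · exact ((ContinuousMultilinearMap.apply ℂ (fun _ : Fin (j * p) => E) ℂ
        fun i => finBasis ℂ E (J i.divNat i.modNat)).differentiable).comp differentiable_fst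
    · refine ContDiff.differentiable (n := 1) (contDiff_prod fun k _ => ?_) (by simp)
      refine ContDiff.sum fun i _ => ?_
      exact ((contDiff_apply ℂ ℂ i).comp contDiff_snd).mul contDiff_const
  hom1 c s w := by
    unfold RP
    rw [RR_apply, RR_apply, Finset.mul_sum]
    refine Finset.sum_congr rfl fun J _ => ?_
    have h1 : (c • s).toMultilinearMap (fun i => finBasis ℂ E (J i.divNat i.modNat)) =
        c * s.toMultilinearMap (fun i => finBasis ℂ E (J i.divNat i.modNat)) := rfl
    rw [h1, pow_one, mul_assoc]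
  hom2 c s w := by
    unfold RP
    rw [map_smul]
    have h1 := (RR (finBasis ℂ E) s.toMultilinearMap).map_smul_univ (fun _ => c)
      (fun _ => exteriorPower.toTensorPower ℂ E p w)
    rw [h1, Fin.prod_const, smul_eq_mul]
  inv A s w := RP_inv A s w

/-- For even `p` the invariant polynomial vanishes identically only for `s = 0`. -/
theorem RP_ne (hp : Even p) {s : E [×(j * p)]→L[ℂ] ℂ}
    (halt : ∀ (a : Fin (j * p) → E) (i i' : Fin (j * p)), a i = a i' → i ≠ i' → s a = 0)
    (h : ∀ w : ⋀[ℂ]^p E, RP j p s w = 0) : s = 0 := by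
  classical
  let S : E [⋀^Fin (j * p)]→ₗ[ℂ] ℂ :=
    { s.toMultilinearMap with map_eq_zero_of_eq' := fun a i i' h1 h2 => halt a i i' h1 h2 }
  have hS : ∀ a, S a = s a := fun a => rfl
  have h1 := polar ((RR (finBasis ℂ E) s.toMultilinearMap).compLinearMap fun _ =>
    exteriorPower.toTensorPower ℂ E p) h
  ext v
  -- the value on decomposable vectors
  have key : ∀ τ : Equiv.Perm (Fin j), ((RR (finBasis ℂ E) s.toMultilinearMap).compLinearMap fun _ =>
      exteriorPower.toTensorPower ℂ E p) (fun k => exteriorPower.ιMulti ℂ p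
        fun i => v (finProdFinEquiv (τ k, i))) = ((p.factorial : ℕ) : ℂ) ^ j * s v := by
    intro τ
    rw [MultilinearMap.compLinearMap_apply]
    simp only [exteriorPower.toTensorPower_apply_ιMulti]
    rw [MultilinearMap.map_sum]
    have h2 : ∀ σ : Fin j → Equiv.Perm (Fin p), RR (finBasis ℂ E) s.toMultilinearMap
        (fun k => Equiv.Perm.sign (σ k) • PiTensorProduct.tprod ℂ
          fun i => v (finProdFinEquiv (τ k, σ k i))) = s v := by
      intro σ
      have h3 : (fun k => Equiv.Perm.sign (σ k) • PiTensorProduct.tprod ℂ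
          fun i => v (finProdFinEquiv (τ k, σ k i))) = fun k =>
          (((Equiv.Perm.sign (σ k) : ℤˣ) : ℤ) : ℂ) • PiTensorProduct.tprod ℂ
          fun i => v (finProdFinEquiv (τ k, σ k i)) := by
        funext k
        rw [Units.smul_def, ← Int.cast_smul_eq_zsmul ℂ]
      rw [h3, MultilinearMap.map_smul_univ, RR_tprod]
      let e : Equiv.Perm (Fin j × Fin p) :=
        (Equiv.prodCongrRight σ).trans (Equiv.prodCongrLeft fun _ => τ)
      have h4 : (fun i : Fin (j * p) => v (finProdFinEquiv (τ i.divNat, σ i.divNat i.modNat))) =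
          v ∘ (finProdFinEquiv.permCongr e) := rfl
      have h5 : s.toMultilinearMap (fun i : Fin (j * p) =>
          v (finProdFinEquiv (τ i.divNat, σ i.divNat i.modNat))) =
          S (v ∘ (finProdFinEquiv.permCongr e)) := by rw [h4]; rfl
      rw [h5, AlternatingMap.map_perm, Equiv.Perm.sign_permCongr]
      have h6 : Equiv.Perm.sign e = ∏ k, Equiv.Perm.sign (σ k) := by
        have h7 : Equiv.Perm.sign e = Equiv.Perm.sign (Equiv.prodCongrLeft fun _ : Fin p => τ) *
            Equiv.Perm.sign (Equiv.prodCongrRight σ) := Equiv.Perm.sign_mul _ _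
        rw [h7, Equiv.Perm.sign_prodCongrLeft, Equiv.Perm.sign_prodCongrRight, Fin.prod_const]
        have h8 : (Equiv.Perm.sign τ) ^ p = 1 := by
          obtain ⟨r, rfl⟩ := hp
          rw [← two_mul, pow_mul, Int.units_sq, one_pow]
        rw [h8, one_mul]
      rw [h6, Units.smul_def, ← Int.cast_smul_eq_zsmul ℂ, smul_smul, hS]
      have h9 : (∏ k, ((((Equiv.Perm.sign (σ k) : ℤˣ) : ℤ) : ℂ))) *
          ((((∏ k, Equiv.Perm.sign (σ k) : ℤˣ) : ℤ)) : ℂ) = 1 := by
        have h10 : (∏ k, ((((Equiv.Perm.sign (σ k) : ℤˣ) : ℤ) : ℂ))) =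
            ((((∏ k, Equiv.Perm.sign (σ k) : ℤˣ) : ℤ)) : ℂ) := by
          push_cast
          rfl
        rw [h10, ← Int.cast_mul, ← Units.val_mul, Int.units_mul_self]
        simp
      rw [h9, one_smul]
    simp only [h2, Finset.sum_const, Finset.card_univ, Fintype.card_pi, Fintype.card_perm,
      Fintype.card_fin, Finset.prod_const, nsmul_eq_mul]
    push_cast
    rfl
  have h2 := h1 (fun k => exteriorPower.ιMulti ℂ p fun i => v (finProdFinEquiv (k, i)))
  simp only [key] at h2
  rw [Finset.sum_const, Finset.card_univ, Fintype.card_perm, Fintype.card_fin, nsmul_eq_mul] at h2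
  rcases mul_eq_zero.1 h2 with h3 | h3
  · exact absurd h3 (Nat.cast_ne_zero.2 (Nat.factorial_ne_zero j))
  · rcases mul_eq_zero.1 h3 with h4 | h4
    · exact absurd h4 (pow_ne_zero _ (Nat.cast_ne_zero.2 (Nat.factorial_ne_zero p)))
    · exact h4

end Pool.Agent.H301_RC
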