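import Pool.Agent.H301_RC.Defs

/-! Calculus with `∂/∂ζ`, `∂/∂ζ̄` and `∂²/∂ζ∂ζ̄` at the origin. -/

set_option autoImplicit false

open scoped Manifold ContDiff Topology ComplexConjugate
open Filter

namespace Pool.Agent.H301_RC

/-- The derivative `∂f/∂ζ̄` of `f` at `ζ = 0`. -/
noncomputable def dzb (f : ℂ → ℂ) : ℂ :=
  (deriv (fun t : ℝ => f (t : ℂ)) 0 +
    Complex.I * deriv (fun t : ℝ => f ((t : ℂ) * Complex.I)) 0) / 2

lemma tendsto_x : Tendsto (fun t : ℝ => (t : ℂ)) (𝓝 0) (𝓝 (0 : ℂ)) := by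
  have := Complex.continuous_ofReal.tendsto (0 : ℝ)
  simpa using this

lemma tendsto_y : Tendsto (fun t : ℝ => (t : ℂ) * Complex.I) (𝓝 0) (𝓝 (0 : ℂ)) := by
  have h : Continuous fun t : ℝ => (t : ℂ) * Complex.I :=
    Complex.continuous_ofReal.mul continuous_const
  simpa using h.tendsto (0 : ℝ)

lemma cdx : ContDiff ℝ 2 (fun t : ℝ => (t : ℂ)) := Complex.ofRealCLM.contDiff

lemma cdy : ContDiff ℝ 2 (fun t : ℝ => (t : ℂ) * Complex.I) := cdx.mul contDiff_const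

lemma cd_x {V : Type*} [NormedAddCommGroup V] [NormedSpace ℝ V] {f : ℂ → V}
    (hf : ContDiffAt ℝ 2 f 0) : ContDiffAt ℝ 2 (fun t : ℝ => f (t : ℂ)) 0 := by
  have h : ContDiffAt ℝ 2 f ((fun t : ℝ => (t : ℂ)) 0) := by simpa using hf
  exact h.comp (0 : ℝ) cdx.contDiffAt

lemma cd_y {V : Type*} [NormedAddCommGroup V] [NormedSpace ℝ V] {f : ℂ → V}
    (hf : ContDiffAt ℝ 2 f 0) : ContDiffAt ℝ 2 (fun t : ℝ => f ((t : ℂ) * Complex.I)) 0 := by
  have h : ContDiffAt ℝ 2 f ((fun t : ℝ => (t : ℂ) * Complex.I) 0) := by simpa using hf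
  exact h.comp (0 : ℝ) cdy.contDiffAt

section one

lemma ev_diff {V : Type*} [NormedAddCommGroup V] [NormedSpace ℝ V] {g : ℝ → V}
    (hg : ContDiffAt ℝ 2 g 0) : ∀ᶠ t in 𝓝 (0 : ℝ), DifferentiableAt ℝ g t := by
  have h := hg.eventually (by simp)
  filter_upwards [h] with t ht
  exact ht.differentiableAt (by simp)

lemma diff_deriv {V : Type*} [NormedAddCommGroup V] [NormedSpace ℝ V] {g : ℝ → V}
    (hg : ContDiffAt ℝ 2 g 0) : DifferentiableAt ℝ (deriv g) 0 := by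
  have h : ContDiffAt ℝ 1 (fderiv ℝ g) 0 := hg.fderiv_right (m := 1) (by norm_num)
  have h2 : ContDiffAt ℝ 1 (deriv g) 0 := by
    have : deriv g = fun t => fderiv ℝ g t 1 := by
      funext t; exact (fderiv_apply_one_eq_deriv).symm
    rw [this]
    exact h.clm_apply contDiffAt_const
  exact h2.differentiableAt (by simp)

lemma dd_mul {g h : ℝ → ℂ} (hg : ContDiffAt ℝ 2 g 0) (hh : ContDiffAt ℝ 2 h 0) :
    deriv (deriv (fun t => g t * h t)) 0 =
      deriv (deriv g) 0 * h 0 + 2 * (deriv g 0 * deriv h 0) + g 0 * deriv (deriv h) 0 := by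
  have h1 : deriv (fun t => g t * h t) =ᶠ[𝓝 0] fun t => deriv g t * h t + g t * deriv h t := by
    filter_upwards [ev_diff hg, ev_diff hh] with t h1 h2
    exact deriv_fun_mul h1 h2
  have e1 := (ev_diff hg).self_of_nhds
  have e2 := (ev_diff hh).self_of_nhds
  rw [h1.deriv_eq, deriv_fun_add ((diff_deriv hg).fun_mul e2) (e1.fun_mul (diff_deriv hh)),
    deriv_fun_mul (diff_deriv hg) e2, deriv_fun_mul e1 (diff_deriv hh)]
  ring

lemma dd_add {g h : ℝ → ℂ} (hg : ContDiffAt ℝ 2 g 0) (hh : ContDiffAt ℝ 2 h 0) :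
    deriv (deriv (fun t => g t + h t)) 0 = deriv (deriv g) 0 + deriv (deriv h) 0 := by
  have h1 : deriv (fun t => g t + h t) =ᶠ[𝓝 0] fun t => deriv g t + deriv h t := by
    filter_upwards [ev_diff hg, ev_diff hh] with t h1 h2
    exact deriv_fun_add h1 h2
  rw [h1.deriv_eq, deriv_fun_add (diff_deriv hg) (diff_deriv hh)]

lemma deriv_conj' {g : ℝ → ℂ} (t : ℝ) (hg : DifferentiableAt ℝ g t) :
    deriv (fun t => conj (g t)) t = conj (deriv g t) := by
  have h := (Complex.conjCLE.toContinuousLinearMap.hasFDerivAt.comp_hasDerivAt t hg.hasDerivAt)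
  exact h.deriv

lemma dd_conj {g : ℝ → ℂ} (hg : ContDiffAt ℝ 2 g 0) :
    deriv (deriv (fun t => conj (g t))) 0 = conj (deriv (deriv g) 0) := by
  have h1 : deriv (fun t => conj (g t)) =ᶠ[𝓝 0] fun t => conj (deriv g t) := by
    filter_upwards [ev_diff hg] with t h1
    exact deriv_conj' t h1
  rw [h1.deriv_eq, deriv_conj' _ (diff_deriv hg)]

end one

variable {f g : ℂ → ℂ}

lemma dz_congr (h : f =ᶠ[𝓝 0] g) : dz f = dz g := by
  have h1 : (fun t : ℝ => f (t : ℂ)) =ᶠ[𝓝 0] fun t : ℝ => g (t : ℂ) := tendsto_x.eventually h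
  have h2 : (fun t : ℝ => f ((t : ℂ) * Complex.I)) =ᶠ[𝓝 0] fun t : ℝ => g ((t : ℂ) * Complex.I) :=
    tendsto_y.eventually h
  unfold dz
  rw [h1.deriv_eq, h2.deriv_eq]

lemma dzb_congr (h : f =ᶠ[𝓝 0] g) : dzb f = dzb g := by
  have h1 : (fun t : ℝ => f (t : ℂ)) =ᶠ[𝓝 0] fun t : ℝ => g (t : ℂ) := tendsto_x.eventually h
  have h2 : (fun t : ℝ => f ((t : ℂ) * Complex.I)) =ᶠ[𝓝 0] fun t : ℝ => g ((t : ℂ) * Complex.I) :=
    tendsto_y.eventually h
  unfold dzb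
  rw [h1.deriv_eq, h2.deriv_eq]

lemma ddz_congr (h : f =ᶠ[𝓝 0] g) : ddz f = ddz g := by
  have h1 : (fun t : ℝ => f (t : ℂ)) =ᶠ[𝓝 0] fun t : ℝ => g (t : ℂ) := tendsto_x.eventually h
  have h2 : (fun t : ℝ => f ((t : ℂ) * Complex.I)) =ᶠ[𝓝 0] fun t : ℝ => g ((t : ℂ) * Complex.I) :=
    tendsto_y.eventually h
  unfold ddz
  rw [h1.deriv.deriv_eq, h2.deriv.deriv_eq]

lemma dx (hf : ContDiffAt ℝ 2 f 0) : DifferentiableAt ℝ (fun t : ℝ => f (t : ℂ)) 0 :=
  (ev_diff (cd_x hf)).self_of_nhds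

lemma dy (hf : ContDiffAt ℝ 2 f 0) :
    DifferentiableAt ℝ (fun t : ℝ => f ((t : ℂ) * Complex.I)) 0 :=
  (ev_diff (cd_y hf)).self_of_nhds

lemma dz_add (hf : ContDiffAt ℝ 2 f 0) (hg : ContDiffAt ℝ 2 g 0) :
    dz (fun ζ => f ζ + g ζ) = dz f + dz g := by
  unfold dz
  rw [deriv_fun_add (dx hf) (dx hg), deriv_fun_add (dy hf) (dy hg)]
  ring

lemma dzb_add (hf : ContDiffAt ℝ 2 f 0) (hg : ContDiffAt ℝ 2 g 0) :
    dzb (fun ζ => f ζ + g ζ) = dzb f + dzb g := by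
  unfold dzb
  rw [deriv_fun_add (dx hf) (dx hg), deriv_fun_add (dy hf) (dy hg)]
  ring

lemma ddz_add (hf : ContDiffAt ℝ 2 f 0) (hg : ContDiffAt ℝ 2 g 0) :
    ddz (fun ζ => f ζ + g ζ) = ddz f + ddz g := by
  unfold ddz
  rw [dd_add (cd_x hf) (cd_x hg), dd_add (cd_y hf) (cd_y hg)]
  ring

lemma dz_mul (hf : ContDiffAt ℝ 2 f 0) (hg : ContDiffAt ℝ 2 g 0) :
    dz (fun ζ => f ζ * g ζ) = dz f * g 0 + f 0 * dz g := by
  unfold dz
  rw [deriv_fun_mul (dx hf) (dx hg), deriv_fun_mul (dy hf) (dy hg)]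
  simp only [Complex.ofReal_zero, zero_mul]
  ring

lemma dzb_mul (hf : ContDiffAt ℝ 2 f 0) (hg : ContDiffAt ℝ 2 g 0) :
    dzb (fun ζ => f ζ * g ζ) = dzb f * g 0 + f 0 * dzb g := by
  unfold dzb
  rw [deriv_fun_mul (dx hf) (dx hg), deriv_fun_mul (dy hf) (dy hg)]
  simp only [Complex.ofReal_zero, zero_mul]
  ring

lemma ddz_mul (hf : ContDiffAt ℝ 2 f 0) (hg : ContDiffAt ℝ 2 g 0) :
    ddz (fun ζ => f ζ * g ζ) = ddz f * g 0 + dz f * dzb g + dzb f * dz g + f 0 * ddz g := by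
  unfold ddz dz dzb
  rw [dd_mul (cd_x hf) (cd_x hg), dd_mul (cd_y hf) (cd_y hg)]
  simp only [Complex.ofReal_zero, zero_mul]
  have hI : Complex.I ^ 2 = -1 := Complex.I_sq
  linear_combination ((deriv (fun t : ℝ => f ((t : ℂ) * Complex.I)) 0 *
    deriv (fun t : ℝ => g ((t : ℂ) * Complex.I)) 0) / 2) * hI

lemma dz_conj (hf : ContDiffAt ℝ 2 f 0) : dz (fun ζ => conj (f ζ)) = conj (dzb f) := by
  unfold dz dzb
  rw [deriv_conj' _ (dx hf), deriv_conj' _ (dy hf)]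
  have h2 : conj (2 : ℂ) = 2 := map_ofNat _ 2
  rw [map_div₀, map_add, map_mul, Complex.conj_I, h2]
  ring

lemma dzb_conj (hf : ContDiffAt ℝ 2 f 0) : dzb (fun ζ => conj (f ζ)) = conj (dz f) := by
  unfold dz dzb
  rw [deriv_conj' _ (dx hf), deriv_conj' _ (dy hf)]
  have h2 : conj (2 : ℂ) = 2 := map_ofNat _ 2
  rw [map_div₀, map_sub, map_mul, Complex.conj_I, h2]
  ring

lemma ddz_conj (hf : ContDiffAt ℝ 2 f 0) : ddz (fun ζ => conj (f ζ)) = conj (ddz f) := by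
  unfold ddz
  rw [dd_conj (cd_x hf), dd_conj (cd_y hf)]
  have h2 : conj (4 : ℂ) = 4 := map_ofNat _ 4
  rw [map_div₀, map_add, h2]

lemma dz_const (c : ℂ) : dz (fun _ => c) = 0 := by simp [dz]

lemma dzb_const (c : ℂ) : dzb (fun _ => c) = 0 := by simp [dzb]

lemma ddz_const (c : ℂ) : ddz (fun _ => c) = 0 := by simp [ddz]

lemma dz_id : dz (fun ζ => ζ) = 1 := by
  have h1 : deriv (fun t : ℝ => (t : ℂ)) 0 = 1 := Complex.ofRealCLM.hasDerivAt.deriv
  have h2 : deriv (fun t : ℝ => (t : ℂ) * Complex.I) 0 = Complex.I := by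
    have := (Complex.ofRealCLM.hasDerivAt (x := (0 : ℝ))).mul_const Complex.I
    simpa using this.deriv
  unfold dz
  rw [h1, h2, Complex.I_mul_I]; norm_num

lemma dzb_id : dzb (fun ζ => ζ) = 0 := by
  have h1 : deriv (fun t : ℝ => (t : ℂ)) 0 = 1 := Complex.ofRealCLM.hasDerivAt.deriv
  have h2 : deriv (fun t : ℝ => (t : ℂ) * Complex.I) 0 = Complex.I := by
    have := (Complex.ofRealCLM.hasDerivAt (x := (0 : ℝ))).mul_const Complex.I
    simpa using this.deriv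
  unfold dzb
  rw [h1, h2, Complex.I_mul_I]; norm_num

lemma ddz_id : ddz (fun ζ => ζ) = 0 := by
  have h1 : deriv (fun t : ℝ => (t : ℂ)) = fun _ => 1 := by
    funext t; exact Complex.ofRealCLM.hasDerivAt.deriv
  have h2 : deriv (fun t : ℝ => (t : ℂ) * Complex.I) = fun _ => Complex.I := by
    funext t
    have := (Complex.ofRealCLM.hasDerivAt (x := t)).mul_const Complex.I
    simpa using this.deriv
  unfold ddz
  rw [h1, h2]; simp

lemma cd_id : ContDiffAt ℝ 2 (fun ζ : ℂ => ζ) 0 := contDiffAt_id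

lemma cd_conj (hf : ContDiffAt ℝ 2 f 0) : ContDiffAt ℝ 2 (fun ζ => conj (f ζ)) 0 :=
  Complex.conjCLE.contDiff.contDiffAt.comp (0 : ℂ) hf

section inner

variable {V : Type*} [NormedAddCommGroup V] [InnerProductSpace ℂ V] {p q : ℂ → V}

lemma hasDerivAt_x {t : ℝ} (hp : DifferentiableAt ℂ p (t : ℂ)) :
    HasDerivAt (fun t : ℝ => p (t : ℂ)) (deriv p (t : ℂ)) t := by
  have h := hp.hasDerivAt.scomp t Complex.ofRealCLM.hasDerivAt
  rw [show (Complex.ofRealCLM (1 : ℝ) : ℂ) = 1 from by simp, one_smul] at h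
  exact h

lemma hasDerivAt_y {t : ℝ} (hp : DifferentiableAt ℂ p ((t : ℂ) * Complex.I)) :
    HasDerivAt (fun t : ℝ => p ((t : ℂ) * Complex.I))
      (Complex.I • deriv p ((t : ℂ) * Complex.I)) t := by
  have h0 : HasDerivAt (fun t : ℝ => (t : ℂ) * Complex.I) Complex.I t := by
    have := (Complex.ofRealCLM.hasDerivAt (x := t)).mul_const Complex.I
    simpa using this
  exact hp.hasDerivAt.scomp t h0

lemma ev_diffC (hp : ContDiffAt ℂ 2 p 0) : ∀ᶠ ζ in 𝓝 (0 : ℂ), DifferentiableAt ℂ p ζ := by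
  have h := hp.eventually (by simp)
  filter_upwards [h] with t ht
  exact ht.differentiableAt (by simp)

lemma diff_derivC (hp : ContDiffAt ℂ 2 p 0) : DifferentiableAt ℂ (deriv p) 0 := by
  have h : ContDiffAt ℂ 1 (fderiv ℂ p) 0 := hp.fderiv_right (m := 1) (by norm_num)
  have h2 : ContDiffAt ℂ 1 (deriv p) 0 := by
    have : deriv p = fun t => fderiv ℂ p t 1 := by
      funext t; exact (fderiv_apply_one_eq_deriv).symm
    rw [this]
    exact h.clm_apply contDiffAt_const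
  exact h2.differentiableAt (by simp)

lemma cd_inner (hp : ContDiffAt ℂ 2 p 0) (hq : ContDiffAt ℂ 2 q 0) :
    ContDiffAt ℝ 2 (fun ζ => inner ℂ (q ζ) (p ζ)) 0 :=
  (hq.restrict_scalars ℝ).inner ℂ (hp.restrict_scalars ℝ)

lemma dz_inner (hp : ContDiffAt ℂ 2 p 0) (hq : ContDiffAt ℂ 2 q 0) :
    dz (fun ζ => inner ℂ (q ζ) (p ζ)) = inner ℂ (q 0) (deriv p 0) := by
  have hp0 := (ev_diffC hp).self_of_nhds
  have hq0 := (ev_diffC hq).self_of_nhds
  have h1 := (hasDerivAt_x (t := 0) (by simpa using hq0)).inner ℂ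
    (hasDerivAt_x (t := 0) (by simpa using hp0))
  have h2 := (hasDerivAt_y (t := 0) (by simpa using hq0)).inner ℂ
    (hasDerivAt_y (t := 0) (by simpa using hp0))
  unfold dz
  rw [h1.deriv, h2.deriv]
  simp only [Complex.ofReal_zero, zero_mul, inner_smul_left, inner_smul_right, Complex.conj_I]
  linear_combination (-(inner ℂ (q 0) (deriv p 0)) / 2 + inner ℂ (deriv q 0) (p 0) / 2) *
    Complex.I_mul_I

lemma dzb_inner (hp : ContDiffAt ℂ 2 p 0) (hq : ContDiffAt ℂ 2 q 0) :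
    dzb (fun ζ => inner ℂ (q ζ) (p ζ)) = inner ℂ (deriv q 0) (p 0) := by
  have hp0 := (ev_diffC hp).self_of_nhds
  have hq0 := (ev_diffC hq).self_of_nhds
  have h1 := (hasDerivAt_x (t := 0) (by simpa using hq0)).inner ℂ
    (hasDerivAt_x (t := 0) (by simpa using hp0))
  have h2 := (hasDerivAt_y (t := 0) (by simpa using hq0)).inner ℂ
    (hasDerivAt_y (t := 0) (by simpa using hp0))
  unfold dzb
  rw [h1.deriv, h2.deriv]
  simp only [Complex.ofReal_zero, zero_mul, inner_smul_left, inner_smul_right, Complex.conj_I]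
  linear_combination ((inner ℂ (q 0) (deriv p 0)) / 2 - inner ℂ (deriv q 0) (p 0) / 2) *
    Complex.I_mul_I

lemma ddz_inner (hp : ContDiffAt ℂ 2 p 0) (hq : ContDiffAt ℂ 2 q 0) :
    ddz (fun ζ => inner ℂ (q ζ) (p ζ)) = inner ℂ (deriv q 0) (deriv p 0) := by
  have hp0 := (ev_diffC hp).self_of_nhds
  have hq0 := (ev_diffC hq).self_of_nhds
  have hp1 := diff_derivC hp
  have hq1 := diff_derivC hq
  have ex : deriv (fun t : ℝ => inner ℂ (q (t : ℂ)) (p (t : ℂ))) =ᶠ[𝓝 0]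
      fun t : ℝ => inner ℂ (q (t : ℂ)) (deriv p (t : ℂ)) +
        inner ℂ (deriv q (t : ℂ)) (p (t : ℂ)) := by
    filter_upwards [tendsto_x.eventually (ev_diffC hp), tendsto_x.eventually (ev_diffC hq)]
      with t h1 h2
    exact ((hasDerivAt_x h2).inner ℂ (hasDerivAt_x h1)).deriv
  have ey : deriv (fun t : ℝ => inner ℂ (q ((t : ℂ) * Complex.I)) (p ((t : ℂ) * Complex.I)))
      =ᶠ[𝓝 0] fun t : ℝ =>
        inner ℂ (q ((t : ℂ) * Complex.I)) (Complex.I • deriv p ((t : ℂ) * Complex.I)) +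
        inner ℂ (Complex.I • deriv q ((t : ℂ) * Complex.I)) (p ((t : ℂ) * Complex.I)) := by
    filter_upwards [tendsto_y.eventually (ev_diffC hp), tendsto_y.eventually (ev_diffC hq)]
      with t h1 h2
    exact ((hasDerivAt_y h2).inner ℂ (hasDerivAt_y h1)).deriv
  have hx := (((hasDerivAt_x (t := 0) (by simpa using hq0)).inner ℂ
      (hasDerivAt_x (p := deriv p) (t := 0) (by simpa using hp1))).add
    ((hasDerivAt_x (p := deriv q) (t := 0) (by simpa using hq1)).inner ℂ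
      (hasDerivAt_x (t := 0) (by simpa using hp0))))
  have hy := (((hasDerivAt_y (t := 0) (by simpa using hq0)).inner ℂ
      ((hasDerivAt_y (p := deriv p) (t := 0) (by simpa using hp1)).const_smul Complex.I)).add
    (((hasDerivAt_y (p := deriv q) (t := 0) (by simpa using hq1)).const_smul Complex.I).inner ℂ
      (hasDerivAt_y (t := 0) (by simpa using hp0))))
  have hx' := hx.deriv
  have hy' := hy.deriv
  simp only [Complex.ofReal_zero, zero_mul] at hx' hy'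
  unfold ddz
  rw [ex.deriv_eq, ey.deriv_eq]
  have e1 : deriv (fun t : ℝ => inner ℂ (q (t : ℂ)) (deriv p (t : ℂ)) +
        inner ℂ (deriv q (t : ℂ)) (p (t : ℂ))) 0 = _ := hx'
  have e2 : deriv (fun t : ℝ =>
        inner ℂ (q ((t : ℂ) * Complex.I)) (Complex.I • deriv p ((t : ℂ) * Complex.I)) +
        inner ℂ (Complex.I • deriv q ((t : ℂ) * Complex.I)) (p ((t : ℂ) * Complex.I))) 0 = _ := hy'
  rw [e1, e2]
  simp only [inner_smul_left, inner_smul_right, Complex.conj_I, Pi.smul_apply,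
    Complex.ofReal_zero, zero_mul]
  linear_combination ((inner ℂ (q 0) (deriv (deriv p) 0)) / 4 -
    inner ℂ (deriv q 0) (deriv p 0) / 2 + inner ℂ (deriv (deriv q) 0) (p 0) / 4) *
    Complex.I_mul_I

end inner

end Pool.Agent.H301_RC
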