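import Pool.Agent.H301_RC.Calc

/-! The Levi form of a real function on a complex normed space. -/

set_option autoImplicit false
set_option linter.unusedSectionVars false

open scoped Manifold ContDiff Topology ComplexConjugate
open Filter

namespace Pool.Agent.H301_RC

section real

variable {V : Type*} [NormedAddCommGroup V] [NormedSpace ℝ V]
  {V' : Type*} [NormedAddCommGroup V'] [NormedSpace ℝ V']

/-- The second derivative `D²F(p)(q, q)`. -/
noncomputable def sd (F : V → ℝ) (p q : V) : ℝ := fderiv ℝ (fderiv ℝ F) p q q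

lemma cd_fderiv {F : V → V'} {p : V} (hF : ContDiffAt ℝ 2 F p) :
    ContDiffAt ℝ 1 (fderiv ℝ F) p := hF.fderiv_right (m := 1) (by norm_num)

lemma diff_fderiv {F : V → V'} {p : V} (hF : ContDiffAt ℝ 2 F p) :
    DifferentiableAt ℝ (fderiv ℝ F) p := (cd_fderiv hF).differentiableAt (by simp)

lemma ev_differentiableAt {F : V → V'} {p : V} (hF : ContDiffAt ℝ 2 F p) :
    ∀ᶠ w in 𝓝 p, DifferentiableAt ℝ F w := by
  filter_upwards [hF.eventually (by simp)] with w hw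
  exact hw.differentiableAt (by simp)

lemma sd_comp {F : V' → ℝ} {Φ : V → V'} {z : V} (hF : ContDiffAt ℝ 2 F (Φ z))
    (hΦ : ContDiffAt ℝ 2 Φ z) (q : V) :
    sd (fun w => F (Φ w)) z q = sd F (Φ z) (fderiv ℝ Φ z q) +
      fderiv ℝ F (Φ z) (fderiv ℝ (fderiv ℝ Φ) z q q) := by
  have h1 : fderiv ℝ (fun w => F (Φ w)) =ᶠ[𝓝 z] fun w => (fderiv ℝ F (Φ w)).comp (fderiv ℝ Φ w) := by
    filter_upwards [hΦ.continuousAt.eventually (ev_differentiableAt hF),
      ev_differentiableAt hΦ] with w h1 h2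
    exact fderiv_comp w h1 h2
  have h2 : HasFDerivAt (fun w => fderiv ℝ F (Φ w))
      ((fderiv ℝ (fderiv ℝ F) (Φ z)).comp (fderiv ℝ Φ z)) z :=
    (diff_fderiv hF).hasFDerivAt.comp z (ev_differentiableAt hΦ).self_of_nhds.hasFDerivAt
  have h3 : HasFDerivAt (fderiv ℝ Φ) (fderiv ℝ (fderiv ℝ Φ) z) z := (diff_fderiv hΦ).hasFDerivAt
  have h4 := h2.clm_comp h3
  unfold sd
  rw [h1.fderiv_eq, h4.fderiv]
  simp [add_comm]

lemma sd_congr {F G : V → ℝ} {p : V} (h : F =ᶠ[𝓝 p] G) (q : V) : sd F p q = sd G p q := by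
  unfold sd
  rw [h.fderiv.fderiv_eq]

lemma sd_line {F : V → ℝ} {p q : V} (hF : ContDiffAt ℝ 2 F p) :
    deriv (deriv fun t : ℝ => F (p + t • q)) 0 = sd F p q := by
  have hc : ContinuousAt (fun t : ℝ => p + t • q) 0 := by fun_prop
  have h0 : (fun t : ℝ => p + t • q) 0 = p := by simp
  have hl : ∀ t : ℝ, HasDerivAt (fun t : ℝ => p + t • q) q t := by
    intro t
    simpa using ((hasDerivAt_id t).smul_const q).const_add p
  have h1 : deriv (fun t : ℝ => F (p + t • q)) =ᶠ[𝓝 0] fun t => fderiv ℝ F (p + t • q) q := by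
    have h2 : ∀ᶠ t in 𝓝 (0 : ℝ), DifferentiableAt ℝ F (p + t • q) := by
      have := ev_differentiableAt hF
      rw [← h0] at this
      exact hc.eventually this
    filter_upwards [h2] with t h3
    exact (h3.hasFDerivAt.comp_hasDerivAt t (hl t)).deriv
  rw [h1.deriv_eq]
  have h5 : HasFDerivAt (fderiv ℝ F) (fderiv ℝ (fderiv ℝ F) p) ((fun t : ℝ => p + t • q) 0) := by
    rw [h0]; exact (diff_fderiv hF).hasFDerivAt
  have h6 : HasDerivAt (fun t : ℝ => fderiv ℝ F (p + t • q)) (fderiv ℝ (fderiv ℝ F) p q) 0 :=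
    h5.comp_hasDerivAt 0 (hl 0)
  have h7 := h6.clm_apply (hasDerivAt_const (0 : ℝ) q)
  rw [h7.deriv]
  simp [sd]

lemma sd_add {F G : V → ℝ} {p : V} (hF : ContDiffAt ℝ 2 F p) (hG : ContDiffAt ℝ 2 G p) (q : V) :
    sd (fun w => F w + G w) p q = sd F p q + sd G p q := by
  have h1 : fderiv ℝ (fun w => F w + G w) =ᶠ[𝓝 p] fun w => fderiv ℝ F w + fderiv ℝ G w := by
    filter_upwards [ev_differentiableAt hF, ev_differentiableAt hG] with w h1 h2
    exact fderiv_fun_add h1 h2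
  unfold sd
  rw [h1.fderiv_eq, fderiv_fun_add (diff_fderiv hF) (diff_fderiv hG)]
  simp

lemma sd_mul {F G : V → ℝ} {p : V} (hF : ContDiffAt ℝ 2 F p) (hG : ContDiffAt ℝ 2 G p) (q : V) :
    sd (fun w => F w * G w) p q = sd F p q * G p + F p * sd G p q +
      2 * (fderiv ℝ F p q * fderiv ℝ G p q) := by
  have h1 : fderiv ℝ (fun w => F w * G w) =ᶠ[𝓝 p] fun w => F w • fderiv ℝ G w + G w • fderiv ℝ F w := by
    filter_upwards [ev_differentiableAt hF, ev_differentiableAt hG] with w h1 h2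
    exact fderiv_fun_mul h1 h2
  have dF := (ev_differentiableAt hF).self_of_nhds.hasFDerivAt
  have dG := (ev_differentiableAt hG).self_of_nhds.hasFDerivAt
  have h2 := (dF.smul (diff_fderiv hG).hasFDerivAt).add (dG.smul (diff_fderiv hF).hasFDerivAt)
  unfold sd
  rw [h1.fderiv_eq]
  erw [h2.fderiv]
  simp
  ring

lemma sd_const (c : ℝ) (p q : V) : sd (fun _ : V => c) p q = 0 := by
  have : fderiv ℝ (fun _ : V => c) = fun _ => 0 := by
    funext w; simp
  simp [sd, this]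

lemma sd_clm (L : V →L[ℝ] ℝ) (p q : V) : sd (fun w => L w) p q = 0 := by
  have : fderiv ℝ (fun w => L w) = fun _ => L := by
    funext w; exact L.fderiv
  simp [sd, this]

/-- chain rule with a function of one variable -/
lemma sd_comp_real {φ : ℝ → ℝ} {F : V → ℝ} {p : V} (hφ : ContDiffAt ℝ 2 φ (F p))
    (hF : ContDiffAt ℝ 2 F p) (q : V) :
    sd (fun w => φ (F w)) p q = deriv φ (F p) * sd F p q +
      deriv (deriv φ) (F p) * (fderiv ℝ F p q) ^ 2 := by
  rw [sd_comp hφ hF]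
  have h1 : ∀ x : ℝ, fderiv ℝ φ (F p) x = deriv φ (F p) * x := by
    intro x
    rw [fderiv_eq_smul_deriv, smul_eq_mul, mul_comm]
  have h2 : fderiv ℝ φ =ᶠ[𝓝 (F p)] fun x => ContinuousLinearMap.toSpanSingleton ℝ (deriv φ x) := by
    refine Eventually.of_forall fun x => ?_
    ext
    simp [fderiv_eq_smul_deriv]
  have h3 : sd φ (F p) (fderiv ℝ F p q) = deriv (deriv φ) (F p) * (fderiv ℝ F p q) ^ 2 := by
    have h4 : DifferentiableAt ℝ (fderiv ℝ φ) (F p) := diff_fderiv hφ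
    have h5 : deriv φ = fun x => fderiv ℝ φ x 1 := by
      funext x; exact (fderiv_apply_one_eq_deriv).symm
    have h6 : deriv (deriv φ) (F p) = fderiv ℝ (fderiv ℝ φ) (F p) 1 1 := by
      rw [h5]
      have h7 : HasDerivAt (fderiv ℝ φ) (fderiv ℝ (fderiv ℝ φ) (F p) 1) (F p) :=
        h4.hasFDerivAt.hasDerivAt
      have h8 := h7.clm_apply (hasDerivAt_const (F p) (1 : ℝ))
      rw [h8.deriv]; simp
    unfold sd
    have h9 : ∀ c : ℝ, fderiv ℝ (fderiv ℝ φ) (F p) c c =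
        fderiv ℝ (fderiv ℝ φ) (F p) 1 1 * c ^ 2 := by
      intro c
      have h10 : fderiv ℝ (fderiv ℝ φ) (F p) (c • (1 : ℝ)) (c • (1 : ℝ)) =
          fderiv ℝ (fderiv ℝ φ) (F p) 1 1 * c ^ 2 := by
        rw [map_smul, map_smul, smul_apply, smul_eq_mul, smul_eq_mul]
        ring
      simpa using h10
    rw [h6]
    exact h9 _
  rw [h3, h1]
  unfold sd
  ring

lemma sd_contDiffAt {F : V → ℝ} {p : V} (hF : ContDiffAt ℝ ∞ F p) (q : V) :
    ContDiffAt ℝ ∞ (fun x : V × V => sd F x.1 x.2) (p, q) := by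
  have h1 : ContDiffAt ℝ ∞ (fderiv ℝ F) p := hF.fderiv_right (m := ∞) (by simp)
  have h2 : ContDiffAt ℝ ∞ (fderiv ℝ (fderiv ℝ F)) p := h1.fderiv_right (m := ∞) (by simp)
  have h3 : ContDiffAt ℝ ∞ (fun x : V × V => fderiv ℝ (fderiv ℝ F) x.1) (p, q) :=
    ContDiffAt.comp (p, q) h2 contDiffAt_fst
  exact (h3.clm_apply contDiffAt_snd).clm_apply contDiffAt_snd

lemma sd_smul (F : V → ℝ) (p q : V) (c : ℝ) : sd F p (c • q) = c ^ 2 * sd F p q := by
  simp only [sd, map_smul, smul_apply, smul_eq_mul]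
  ring

end real

section complex

variable {V : Type*} [NormedAddCommGroup V] [NormedSpace ℂ V]
  {V' : Type*} [NormedAddCommGroup V'] [NormedSpace ℂ V']

/-- The Levi form `∂∂̄F(q, q̄)` at `p`. -/
noncomputable def lev (F : V → ℝ) (p q : V) : ℝ := (sd F p q + sd F p (Complex.I • q)) / 4

/-- The squared length of `∂F(q)` at `p`. -/
noncomputable def gr (F : V → ℝ) (p q : V) : ℝ :=
  ((fderiv ℝ F p q) ^ 2 + (fderiv ℝ F p (Complex.I • q)) ^ 2) / 4

lemma cdR {Φ : V → V'} {z : V} {n : WithTop ℕ∞} (hΦ : ContDiffAt ℂ n Φ z) : ContDiffAt ℝ n Φ z :=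
  hΦ.restrict_scalars ℝ

lemma fderivR {Φ : V → V'} {z : V} (hΦ : DifferentiableAt ℂ Φ z) :
    fderiv ℝ Φ z = (fderiv ℂ Φ z).restrictScalars ℝ := hΦ.fderiv_restrictScalars ℝ

lemma fderivR_apply {Φ : V → V'} {z : V} (hΦ : DifferentiableAt ℂ Φ z) (q : V) :
    fderiv ℝ Φ z q = fderiv ℂ Φ z q := by rw [fderivR hΦ]; rfl

lemma snd_hol {Φ : V → V'} {z : V} (hΦ : ContDiffAt ℂ 2 Φ z) (q q' : V) :
    fderiv ℝ (fderiv ℝ Φ) z q q' = fderiv ℂ (fderiv ℂ Φ) z q q' := by
  have h1 : fderiv ℝ Φ =ᶠ[𝓝 z] fun w => ContinuousLinearMap.restrictScalarsL ℂ V V' ℝ ℝ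
      (fderiv ℂ Φ w) := by
    filter_upwards [hΦ.eventually (by simp)] with w hw
    exact fderivR (hw.differentiableAt (by simp))
  have h2 : ContDiffAt ℂ 1 (fderiv ℂ Φ) z := hΦ.fderiv_right (m := 1) (by norm_num)
  have h3 : HasFDerivAt (fderiv ℂ Φ) ((fderiv ℂ (fderiv ℂ Φ) z).restrictScalars ℝ) z :=
    ((h2.differentiableAt (by simp)).hasFDerivAt).restrictScalars ℝ
  have h4 := (ContinuousLinearMap.restrictScalarsL ℂ V V' ℝ ℝ).hasFDerivAt.comp z h3
  have h5 : fderiv ℝ (fderiv ℝ Φ) z = _ := (h4.congr_of_eventuallyEq h1).fderiv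
  rw [h5]
  rfl

/-- The Levi form and holomorphic maps. -/
lemma lev_comp {F : V' → ℝ} {Φ : V → V'} {z : V} (hF : ContDiffAt ℝ 2 F (Φ z))
    (hΦ : ContDiffAt ℂ 2 Φ z) (q : V) :
    lev (fun w => F (Φ w)) z q = lev F (Φ z) (fderiv ℂ Φ z q) := by
  have hd : DifferentiableAt ℂ Φ z := hΦ.differentiableAt (by simp)
  unfold lev
  rw [sd_comp hF (cdR hΦ), sd_comp hF (cdR hΦ), snd_hol hΦ, snd_hol hΦ, fderivR_apply hd,
    fderivR_apply hd]
  have h1 : fderiv ℂ (fderiv ℂ Φ) z (Complex.I • q) (Complex.I • q) =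
      -fderiv ℂ (fderiv ℂ Φ) z q q := by
    simp only [map_smul, smul_apply, smul_smul, Complex.I_mul_I, neg_smul,
      one_smul]
  rw [h1, map_neg, map_smul]
  ring

lemma gr_comp {F : V' → ℝ} {Φ : V → V'} {z : V} (hF : DifferentiableAt ℝ F (Φ z))
    (hΦ : DifferentiableAt ℂ Φ z) (q : V) :
    gr (fun w => F (Φ w)) z q = gr F (Φ z) (fderiv ℂ Φ z q) := by
  have hd : DifferentiableAt ℝ Φ z := hΦ.restrictScalars ℝ
  have h1 : fderiv ℝ (fun w => F (Φ w)) z = _ := fderiv_comp z hF hd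
  unfold gr
  rw [h1]
  simp only [ContinuousLinearMap.comp_apply, fderivR_apply hΦ, map_smul]

lemma lev_congr {F G : V → ℝ} {p : V} (h : F =ᶠ[𝓝 p] G) (q : V) : lev F p q = lev G p q := by
  unfold lev
  rw [sd_congr h, sd_congr h]

lemma lev_add {F G : V → ℝ} {p : V} (hF : ContDiffAt ℝ 2 F p) (hG : ContDiffAt ℝ 2 G p) (q : V) :
    lev (fun w => F w + G w) p q = lev F p q + lev G p q := by
  unfold lev
  rw [sd_add hF hG, sd_add hF hG]
  ring

lemma lev_mul {F G : V → ℝ} {p : V} (hF : ContDiffAt ℝ 2 F p) (hG : ContDiffAt ℝ 2 G p) (q : V) :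
    lev (fun w => F w * G w) p q = lev F p q * G p + F p * lev G p q +
      (fderiv ℝ F p q * fderiv ℝ G p q +
        fderiv ℝ F p (Complex.I • q) * fderiv ℝ G p (Complex.I • q)) / 2 := by
  unfold lev
  rw [sd_mul hF hG, sd_mul hF hG]
  ring

lemma lev_const (c : ℝ) (p q : V) : lev (fun _ : V => c) p q = 0 := by
  simp [lev, sd_const]

lemma lev_clm (L : V →L[ℝ] ℝ) (p q : V) : lev (fun w => L w) p q = 0 := by
  simp [lev, sd_clm]

lemma lev_const_mul {F : V → ℝ} {p : V} (hF : ContDiffAt ℝ 2 F p) (c : ℝ) (q : V) :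
    lev (fun w => c * F w) p q = c * lev F p q := by
  rw [lev_mul contDiffAt_const hF, lev_const]
  simp

lemma lev_comp_real {φ : ℝ → ℝ} {F : V → ℝ} {p : V} (hφ : ContDiffAt ℝ 2 φ (F p))
    (hF : ContDiffAt ℝ 2 F p) (q : V) :
    lev (fun w => φ (F w)) p q = deriv φ (F p) * lev F p q +
      deriv (deriv φ) (F p) * gr F p q := by
  unfold lev gr
  rw [sd_comp_real hφ hF, sd_comp_real hφ hF]
  ring

lemma gr_nonneg (F : V → ℝ) (p q : V) : 0 ≤ gr F p q := by
  unfold gr; positivity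

lemma lev_smul (F : V → ℝ) (p q : V) (c : ℝ) : lev F p (c • q) = c ^ 2 * lev F p q := by
  unfold lev
  rw [smul_comm Complex.I c q, sd_smul, sd_smul]
  ring

lemma lev_contDiffAt {F : V → ℝ} {p : V} (hF : ContDiffAt ℝ ∞ F p) (q : V) :
    ContDiffAt ℝ ∞ (fun x : V × V => lev F x.1 x.2) (p, q) := by
  have h1 := sd_contDiffAt hF q
  have h2 : ContDiffAt ℝ ∞ (fun x : V × V => sd F x.1 (Complex.I • x.2)) (p, q) := by
    have h3 : ContDiffAt ℝ ∞ (fun x : V × V => sd F x.1 x.2)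
        ((fun x : V × V => (x.1, Complex.I • x.2)) (p, q)) := sd_contDiffAt hF (Complex.I • q)
    exact ContDiffAt.comp (p, q) h3 (contDiffAt_fst.prodMk (contDiffAt_snd.const_smul Complex.I))
  have h4 : (fun x : V × V => lev F x.1 x.2) =
      fun x => (sd F x.1 x.2 + sd F x.1 (Complex.I • x.2)) * (1 / 4) := by
    funext x; unfold lev; ring
  rw [h4]
  exact (h1.add h2).mul contDiffAt_const

lemma lev_continuousAt {F : V → ℝ} {p : V} (hF : ContDiffAt ℝ ∞ F p) (q : V) :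
    ContinuousAt (fun x : V × V => lev F x.1 x.2) (p, q) := (lev_contDiffAt hF q).continuousAt

lemma gr_continuousAt {F : V → ℝ} {p : V} (hF : ContDiffAt ℝ ∞ F p) (q : V) :
    ContinuousAt (fun x : V × V => gr F x.1 x.2) (p, q) := by
  have h1 : ContDiffAt ℝ ∞ (fderiv ℝ F) p := hF.fderiv_right (m := ∞) (by simp)
  have h2 : ContinuousAt (fun x : V × V => fderiv ℝ F x.1) (p, q) :=
    ContinuousAt.comp (x := (p, q)) (f := Prod.fst) h1.continuousAt continuousAt_fst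
  have h3 : ContinuousAt (fun x : V × V => fderiv ℝ F x.1 x.2) (p, q) :=
    h2.clm_apply continuousAt_snd
  have h4 : ContinuousAt (fun x : V × V => fderiv ℝ F x.1 (Complex.I • x.2)) (p, q) :=
    h2.clm_apply (continuousAt_snd.const_smul Complex.I)
  unfold gr
  exact ((h3.pow 2).add (h4.pow 2)).div_const 4

/-- The Levi form as `∂²/∂ζ∂ζ̄`. -/
lemma ddz_line {F : V → ℝ} {p q : V} (hF : ContDiffAt ℝ 2 F p) :
    ddz (fun ζ => ((F (p + ζ • q) : ℝ) : ℂ)) = (lev F p q : ℂ) := by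
  have key : ∀ q' : V, deriv (deriv fun t : ℝ => ((F (p + t • q') : ℝ) : ℂ)) 0 =
      ((sd F p q' : ℝ) : ℂ) := by
    intro q'
    have hline : ContDiffAt ℝ 2 (fun t : ℝ => F (p + t • q')) 0 := by
      have h0 : ContDiffAt ℝ 2 F ((fun t : ℝ => p + t • q') 0) := by simpa using hF
      exact h0.comp (0 : ℝ) (contDiffAt_const.add (contDiffAt_id.smul contDiffAt_const))
    have h1 : deriv (fun t : ℝ => ((F (p + t • q') : ℝ) : ℂ)) =ᶠ[𝓝 0]
        fun t => ((deriv (fun t : ℝ => F (p + t • q')) t : ℝ) : ℂ) := by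
      filter_upwards [ev_diff hline] with t ht
      exact ht.hasDerivAt.ofReal_comp.deriv
    rw [h1.deriv_eq, ((diff_deriv hline).hasDerivAt.ofReal_comp).deriv, sd_line hF]
  have k1 := key q
  have k2 := key (Complex.I • q)
  unfold ddz lev
  have e1 : (fun t : ℝ => ((F (p + (t : ℂ) • q) : ℝ) : ℂ)) =
      fun t : ℝ => ((F (p + t • q) : ℝ) : ℂ) := by
    funext t; rw [Complex.coe_smul]
  have e2 : (fun t : ℝ => ((F (p + ((t : ℂ) * Complex.I) • q) : ℝ) : ℂ)) =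
      fun t : ℝ => ((F (p + t • (Complex.I • q)) : ℝ) : ℂ) := by
    funext t; rw [mul_smul, Complex.coe_smul]
  rw [e1, e2, k1, k2]
  push_cast
  ring

end complex

end Pool.Agent.H301_RC
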