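import Pool.Agent.H301_RC.Curv
import Pool.Agent.H301_RC.Levi

/-! Holomorphic charts, smooth functions and the matrix of a metric in a holomorphic chart. -/

set_option autoImplicit false
set_option linter.unusedSectionVars false

open scoped Manifold ContDiff Topology ComplexConjugate
open Filter Set

namespace Pool.Agent.H301_RC

lemma two_le : (2 : WithTop ℕ∞) ≤ ∞ := by
  norm_cast

/-- The holomorphic charts. -/
abbrev HC (E : Type*) [NormedAddCommGroup E] [NormedSpace ℂ E] (M : Type*) [TopologicalSpace M]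
    [ChartedSpace E M] : Set (OpenPartialHomeomorph M E) :=
  IsManifold.maximalAtlas 𝓘(ℂ, E) ω M

variable {E : Type*} [NormedAddCommGroup E] [NormedSpace ℂ E]
  {M : Type*} [TopologicalSpace M] [ChartedSpace E M] [IsManifold 𝓘(ℂ, E) ω M]

lemma chart_hc (x : M) : chartAt E x ∈ HC E M := IsManifold.chart_mem_maximalAtlas x

/-- The derivative of the change of charts. -/
noncomputable def D (e e' : OpenPartialHomeomorph M E) (z : E) : E →L[ℂ] E :=
  fderiv ℂ (fun w => e' (e.symm w)) z

lemma tr_cd {e e' : OpenPartialHomeomorph M E} (he : e ∈ HC E M) (he' : e' ∈ HC E M) {z : E}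
    (hz : z ∈ e.target) (hz' : e.symm z ∈ e'.source) :
    ContDiffAt ℂ ω (fun w => e' (e.symm w)) z := by
  have h1 : ContMDiffAt 𝓘(ℂ, E) 𝓘(ℂ, E) ω e.symm z := contMDiffAt_symm_of_mem_maximalAtlas he hz
  have h2 : ContMDiffAt 𝓘(ℂ, E) 𝓘(ℂ, E) ω e' (e.symm z) :=
    contMDiffAt_of_mem_maximalAtlas he' hz'
  exact (h2.comp z h1).contDiffAt

lemma tr_diff {e e' : OpenPartialHomeomorph M E} (he : e ∈ HC E M) (he' : e' ∈ HC E M) {z : E}
    (hz : z ∈ e.target) (hz' : e.symm z ∈ e'.source) :
    DifferentiableAt ℂ (fun w => e' (e.symm w)) z :=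
  (tr_cd he he' hz hz').differentiableAt (by simp)

lemma ev_symm {e : OpenPartialHomeomorph M E} {z : E} (hz : z ∈ e.target) {s : Set M}
    (hs : s ∈ 𝓝 (e.symm z)) : ∀ᶠ w in 𝓝 z, w ∈ e.target ∧ e.symm w ∈ s :=
  Filter.Eventually.and (e.open_target.mem_nhds hz) ((e.continuousAt_symm hz).eventually hs)

lemma ev_chart {e : OpenPartialHomeomorph M E} {x : M} (hx : x ∈ e.source) {s : Set E}
    (hs : s ∈ 𝓝 (e x)) : ∀ᶠ y in 𝓝 x, y ∈ e.source ∧ e y ∈ s :=
  Filter.Eventually.and (e.open_source.mem_nhds hx) ((e.continuousAt hx).eventually hs)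

lemma D_comp {e e' e'' : OpenPartialHomeomorph M E} (he : e ∈ HC E M) (he' : e' ∈ HC E M)
    (he'' : e'' ∈ HC E M) {z : E} (hz : z ∈ e.target) (hz' : e.symm z ∈ e'.source)
    (hz'' : e.symm z ∈ e''.source) (a : E) :
    D e' e'' (e' (e.symm z)) (D e e' z a) = D e e'' z a := by
  have h1 := (tr_diff he he' hz hz').hasFDerivAt
  have hz1 : e' (e.symm z) ∈ e'.target := e'.map_source hz'
  have hz2 : e'.symm (e' (e.symm z)) ∈ e''.source := by rw [e'.left_inv hz']; exact hz''
  have h2 := (tr_diff he' he'' hz1 hz2).hasFDerivAt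
  have h3 := h2.comp z h1
  have h4 : (fun w => e'' (e.symm w)) =ᶠ[𝓝 z]
      (fun w => e'' (e'.symm w)) ∘ fun w => e' (e.symm w) := by
    filter_upwards [ev_symm hz (e'.open_source.mem_nhds hz')] with w hw
    simp only [Function.comp_apply]
    rw [e'.left_inv hw.2]
  have h5 : D e e'' z = _ := (h3.congr_of_eventuallyEq h4).fderiv
  rw [h5]; rfl

lemma D_self {e : OpenPartialHomeomorph M E} {z : E} (hz : z ∈ e.target) (a : E) :
    D e e z a = a := by
  have h4 : (fun w => e (e.symm w)) =ᶠ[𝓝 z] fun w => w := by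
    filter_upwards [e.open_target.mem_nhds hz] with w hw
    exact e.right_inv hw
  have : D e e z = _ := h4.fderiv_eq
  rw [this]; simp

lemma D_inj {e e' : OpenPartialHomeomorph M E} (he : e ∈ HC E M) (he' : e' ∈ HC E M) {z : E}
    (hz : z ∈ e.target) (hz' : e.symm z ∈ e'.source) {a : E} (ha : a ≠ 0) : D e e' z a ≠ 0 := by
  intro h0
  have h1 := D_comp he he' he hz hz' (e.map_target hz) a
  rw [h0, D_self hz, map_zero] at h1
  exact ha h1.symm

lemma ext_target (x : M) : (extChartAt 𝓘(ℂ, E) x).target = (chartAt E x).target := by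
  simp [extChartAt]

lemma tcc_eq {p : M} {z : E} (_hz : z ∈ (chartAt E p).target) :
    tangentCoordChange 𝓘(ℂ, E) p (pt p z) (pt p z) = D (chartAt E p) (chartAt E (pt p z)) z := by
  rw [tangentCoordChange_def]
  have h1 : extChartAt 𝓘(ℂ, E) p (pt p z) = z := (chartAt E p).right_inv _hz
  rw [h1]
  simp only [modelWithCornersSelf_coe, range_id, fderivWithin_univ]
  rfl

/-- `f` is real smooth at `x`. -/
def SmAt (E : Type*) [NormedAddCommGroup E] [NormedSpace ℂ E] {M : Type*} [TopologicalSpace M]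
    [ChartedSpace E M] (f : M → ℝ) (x : M) : Prop :=
  ContDiffAt ℝ ∞ (fun z : E => f ((chartAt E x).symm z)) (chartAt E x x)

lemma SmAt.chart {f : M → ℝ} {e : OpenPartialHomeomorph M E} (he : e ∈ HC E M) {z : E}
    (hz : z ∈ e.target) (hf : SmAt E f (e.symm z)) :
    ContDiffAt ℝ ∞ (fun w => f (e.symm w)) z := by
  set x := e.symm z
  have hx : x ∈ (chartAt E x).source := mem_chart_source E x
  have h1 : ContDiffAt ℝ ∞ (fun w => chartAt E x (e.symm w)) z :=
    (cdR (tr_cd he (chart_hc x) hz hx)).of_le (by exact_mod_cast le_top)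
  have h2 : ContDiffAt ℝ ∞ ((fun w : E => f ((chartAt E x).symm w)) ∘
      fun w => chartAt E x (e.symm w)) z := ContDiffAt.comp z hf h1
  refine h2.congr_of_eventuallyEq ?_
  filter_upwards [ev_symm hz ((chartAt E x).open_source.mem_nhds hx)] with w hw
  simp only [Function.comp_apply]
  rw [(chartAt E x).left_inv hw.2]

lemma SmAt.of_chart {f : M → ℝ} {e : OpenPartialHomeomorph M E} (he : e ∈ HC E M) {x : M}
    (hx : x ∈ e.source) (hf : ContDiffAt ℝ ∞ (fun w => f (e.symm w)) (e x)) : SmAt E f x := by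
  have hx' : x ∈ (chartAt E x).source := mem_chart_source E x
  have hxt : chartAt E x x ∈ (chartAt E x).target := mem_chart_target E x
  have hxx : (chartAt E x).symm (chartAt E x x) = x := (chartAt E x).left_inv hx'
  have h1 : ContDiffAt ℝ ∞ (fun w => e ((chartAt E x).symm w)) (chartAt E x x) :=
    (cdR (tr_cd (chart_hc x) he hxt (by rw [hxx]; exact hx))).of_le (by exact_mod_cast le_top)
  have hf' : ContDiffAt ℝ ∞ (fun w => f (e.symm w)) ((fun w => e ((chartAt E x).symm w))
      (chartAt E x x)) := by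
    simp only [hxx]; exact hf
  have h2 := ContDiffAt.comp (chartAt E x x) hf' h1
  refine h2.congr_of_eventuallyEq ?_
  filter_upwards [ev_symm hxt (s := e.source) (by rw [hxx]; exact e.open_source.mem_nhds hx)]
    with w hw
  simp only [Function.comp_apply]
  rw [e.left_inv hw.2]

lemma SmAt.continuousAt {f : M → ℝ} {x : M} (hf : SmAt E f x) : ContinuousAt f x := by
  have hx' : x ∈ (chartAt E x).source := mem_chart_source E x
  have h1 : ContinuousAt ((fun z : E => f ((chartAt E x).symm z)) ∘ chartAt E x) x :=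
    ContinuousAt.comp (x := x) (ContDiffAt.continuousAt hf) ((chartAt E x).continuousAt hx')
  refine h1.congr ?_
  filter_upwards [(chartAt E x).open_source.mem_nhds hx'] with y hy
  simp only [Function.comp_apply]
  rw [(chartAt E x).left_inv hy]

lemma SmAt.congr {f g : M → ℝ} {x : M} (hf : SmAt E f x) (h : g =ᶠ[𝓝 x] f) : SmAt E g x := by
  have hx' : x ∈ (chartAt E x).source := mem_chart_source E x
  have hxt : chartAt E x x ∈ (chartAt E x).target := mem_chart_target E x
  have hxx : (chartAt E x).symm (chartAt E x x) = x := (chartAt E x).left_inv hx'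
  refine ContDiffAt.congr_of_eventuallyEq hf ?_
  have h1 : ∀ᶠ w in 𝓝 (chartAt E x x), w ∈ (chartAt E x).target ∧
      (chartAt E x).symm w ∈ {y | g y = f y} :=
    ev_symm hxt (by rw [hxx]; exact h)
  filter_upwards [h1] with w hw
  exact hw.2

lemma SmAt.add {f g : M → ℝ} {x : M} (hf : SmAt E f x) (hg : SmAt E g x) :
    SmAt E (fun y => f y + g y) x := ContDiffAt.add hf hg

lemma SmAt.mul {f g : M → ℝ} {x : M} (hf : SmAt E f x) (hg : SmAt E g x) :
    SmAt E (fun y => f y * g y) x := ContDiffAt.mul hf hg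

lemma SmAt.const (c : ℝ) (x : M) : SmAt E (fun _ : M => c) x := contDiffAt_const

lemma SmAt.sum {ι : Type*} (s : Finset ι) {f : ι → M → ℝ} {x : M}
    (hf : ∀ i ∈ s, SmAt E (f i) x) : SmAt E (fun y => ∑ i ∈ s, f i y) x :=
  ContDiffAt.sum hf

lemma SmAt.comp_real {f : M → ℝ} {x : M} (hf : SmAt E f x) {φ : ℝ → ℝ}
    (hφ : ContDiffAt ℝ ∞ φ (f x)) : SmAt E (fun y => φ (f y)) x := by
  have hx' : x ∈ (chartAt E x).source := mem_chart_source E x
  have hxx : (chartAt E x).symm (chartAt E x x) = x := (chartAt E x).left_inv hx'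
  have h1 : ContDiffAt ℝ ∞ φ ((fun z : E => f ((chartAt E x).symm z)) (chartAt E x x)) := by
    simp only [hxx]; exact hφ
  exact ContDiffAt.comp (chartAt E x x) h1 hf

lemma SmAt.div {f g : M → ℝ} {x : M} (hf : SmAt E f x) (hg : SmAt E g x) (h0 : g x ≠ 0) :
    SmAt E (fun y => f y / g y) x := by
  have hx' : x ∈ (chartAt E x).source := mem_chart_source E x
  have hxx : (chartAt E x).symm (chartAt E x x) = x := (chartAt E x).left_inv hx'
  refine ContDiffAt.div hf hg ?_
  simp only [hxx]; exact h0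

/-- `f` is real smooth. -/
def Sm (E : Type*) [NormedAddCommGroup E] [NormedSpace ℂ E] {M : Type*} [TopologicalSpace M]
    [ChartedSpace E M] (f : M → ℝ) : Prop := ∀ x, SmAt E f x

lemma Sm.continuous {f : M → ℝ} (hf : Sm E f) : Continuous f :=
  continuous_iff_continuousAt.2 fun x => (hf x).continuousAt

lemma Sm.chart {f : M → ℝ} (hf : Sm E f) {e : OpenPartialHomeomorph M E} (he : e ∈ HC E M) {z : E}
    (hz : z ∈ e.target) : ContDiffAt ℝ ∞ (fun w => f (e.symm w)) z := (hf _).chart he hz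

/-- The Levi form in two charts. -/
lemma lev_change {f : M → ℝ} {e e' : OpenPartialHomeomorph M E} (he : e ∈ HC E M)
    (he' : e' ∈ HC E M) {z : E} (hz : z ∈ e.target) (hz' : e.symm z ∈ e'.source)
    (hf : SmAt E f (e.symm z)) (q : E) :
    lev (fun w => f (e.symm w)) z q = lev (fun w => f (e'.symm w)) (e' (e.symm z)) (D e e' z q) := by
  have h0 : e'.symm (e' (e.symm z)) = e.symm z := e'.left_inv hz'
  have h1 : ContDiffAt ℝ ∞ (fun w => f (e'.symm w)) (e' (e.symm z)) :=
    SmAt.chart he' (e'.map_source hz') (by rw [h0]; exact hf)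
  have h2 := lev_comp (F := fun w => f (e'.symm w)) (Φ := fun w => e' (e.symm w))
    (h1.of_le two_le) ((tr_cd he he' hz hz').of_le le_top) q
  rw [D, ← h2]
  refine lev_congr ?_ q
  filter_upwards [ev_symm hz (e'.open_source.mem_nhds hz')] with w hw
  rw [e'.left_inv hw.2]

end Pool.Agent.H301_RC
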