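import Pool.Agent.H301_RC.HForm

/-! Conformal changes of a metric on the tangent bundle. -/

set_option autoImplicit false
set_option linter.unusedSectionVars false

open scoped Manifold ContDiff Topology ComplexConjugate
open Filter Set

namespace Pool.Agent.H301_RC

section analytic

variable {E : Type*} [NormedAddCommGroup E] [NormedSpace ℂ E]

lemma line_deriv (z q : E) : HasFDerivAt (fun ζ : ℂ => z + ζ • q)
    ((ContinuousLinearMap.id ℂ ℂ).smulRight q) 0 :=
  (((ContinuousLinearMap.id ℂ ℂ).hasFDerivAt (x := (0 : ℂ))).smul_const q).const_add z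

lemma line_cdC (z q : E) : ContDiff ℂ ω (fun ζ : ℂ => z + ζ • q) :=
  contDiff_const.add (contDiff_id.smul contDiff_const)

lemma lev_line {P : E → ℝ} {z : E} (hP : ContDiffAt ℝ 2 P z) (q : E) :
    lev (fun ζ : ℂ => P (z + ζ • q)) 0 1 = lev P z q := by
  have h0 : (fun ζ : ℂ => z + ζ • q) 0 = z := by simp
  have hP' : ContDiffAt ℝ 2 P ((fun ζ : ℂ => z + ζ • q) 0) := by rw [h0]; exact hP
  have h1 := lev_comp (F := P) (Φ := fun ζ : ℂ => z + ζ • q) (z := (0 : ℂ)) hP'
    ((line_cdC z q).contDiffAt.of_le le_top) (1 : ℂ)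
  rw [(line_deriv z q).fderiv] at h1
  simpa using h1

lemma fderiv_lineR {P : E → ℝ} {z : E} (hP : DifferentiableAt ℝ P z) (q : E) (v : ℂ) :
    fderiv ℝ (fun ζ : ℂ => P (z + ζ • q)) 0 v = fderiv ℝ P z (v • q) := by
  have h0 : (fun ζ : ℂ => z + ζ • q) 0 = z := by simp
  have hP' : HasFDerivAt P (fderiv ℝ P z) ((fun ζ : ℂ => z + ζ • q) 0) := by
    rw [h0]; exact hP.hasFDerivAt
  have h1 := hP'.comp (0 : ℂ) ((line_deriv z q).restrictScalars ℝ)
  have h2 : fderiv ℝ (fun ζ : ℂ => P (z + ζ • q)) 0 = _ := h1.fderiv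
  rw [h2]
  simp

lemma lev_conf_aux {P : E → ℝ} {G : E × E → ℝ} {z a : E} (q b : E) (hP : ContDiffAt ℝ 2 P z)
    (hG : ContDiffAt ℝ 2 G (z, a)) (hs : ∀ (z' a' : E) (c : ℂ), G (z', c • a') = ‖c‖ ^ 2 * G (z', a')) :
    ∃ b', lev (fun x : E × E => Real.exp (-P x.1) * G x) (z, a) (q, b') =
      Real.exp (-P z) * (lev G (z, a) (q, b) - lev P z q * G (z, a)) := by
  set μ : ℂ := ⟨fderiv ℝ P z q / 2, -(fderiv ℝ P z (Complex.I • q)) / 2⟩ with hμ
  let c : ℂ → E × E := fun ζ => (z + ζ • q, Complex.exp (ζ * μ) • (a + ζ • b))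
  have c1 : HasDerivAt (fun ζ : ℂ => z + ζ • q) q 0 := by
    simpa using ((hasDerivAt_id (0 : ℂ)).smul_const q).const_add z
  have c2 : HasDerivAt (fun ζ : ℂ => a + ζ • b) b 0 := by
    simpa using ((hasDerivAt_id (0 : ℂ)).smul_const b).const_add a
  have c3 : HasDerivAt (fun ζ : ℂ => Complex.exp (ζ * μ)) μ 0 := by
    have := ((hasDerivAt_id (0 : ℂ)).mul_const μ).cexp
    simpa using this
  have c4 : HasDerivAt (fun ζ : ℂ => Complex.exp (ζ * μ) • (a + ζ • b)) (b + μ • a) 0 := by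
    have := c3.fun_smul c2
    simpa using this
  have c5 : HasDerivAt c (q, b + μ • a) 0 := c1.prodMk c4
  have c6 : ContDiffAt ℂ ω c 0 := by
    refine (line_cdC z q).contDiffAt.prodMk (ContDiffAt.smul ?_ (line_cdC a b).contDiffAt)
    exact (Complex.contDiff_exp.comp (contDiff_id.mul contDiff_const)).contDiffAt
  have c0 : c 0 = (z, a) := by simp [c]
  refine ⟨b + μ • a, ?_⟩
  set K : E × E → ℝ := fun x => Real.exp (-P x.1) * G x with hK
  have hP1 : ContDiffAt ℝ 2 (fun x : E × E => P x.1) (z, a) :=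
    ContDiffAt.comp (z, a) (f := fun x : E × E => x.1) hP contDiffAt_fst
  have hKc : ContDiffAt ℝ 2 K (z, a) := (hP1.neg.exp).mul hG
  have k1 := lev_comp (F := K) (Φ := c) (z := 0) (by rw [c0]; exact hKc) (c6.of_le le_top) 1
  have k2 : fderiv ℂ c 0 1 = (q, b + μ • a) := by
    rw [c5.hasFDerivAt.fderiv]; simp
  rw [k2, c0] at k1
  rw [← k1]
  -- the two factors
  let L : ℂ →L[ℝ] ℝ := (2 : ℝ) • (Complex.reCLM.comp
    ((ContinuousLinearMap.mul ℝ ℂ).flip μ))
  have hL : ∀ ζ, L ζ = 2 * (ζ * μ).re := fun ζ => by simp [L]; ring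
  let g : ℂ → ℝ := fun ζ => (-1) * P (z + ζ • q) + L ζ
  let S : ℂ → ℝ := fun ζ => G (z + ζ • q, a + ζ • b)
  have hfac : (fun w => K (c w)) = fun ζ => Real.exp (g ζ) * S ζ := by
    funext ζ
    simp only [K, c, g, S]
    rw [hs, Complex.norm_exp, hL]
    have : Real.exp ((ζ * μ).re) ^ 2 = Real.exp (2 * (ζ * μ).re) := by
      rw [← Real.exp_nat_mul]; norm_num
    rw [this, ← mul_assoc, ← Real.exp_add]
    ring_nf
  have g0 : g 0 = -P z := by simp [g]
  have S0 : S 0 = G (z, a) := by simp [S]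
  have hPl : ContDiffAt ℝ 2 (fun ζ : ℂ => P (z + ζ • q)) 0 := by
    have h0 : ContDiffAt ℝ 2 P ((fun ζ : ℂ => z + ζ • q) 0) := by simpa using hP
    exact h0.comp (0 : ℂ) (cdR ((line_cdC z q).contDiffAt.of_le le_top))
  have hg1 : ContDiffAt ℝ 2 (fun ζ : ℂ => (-1) * P (z + ζ • q)) 0 := contDiffAt_const.mul hPl
  have hgc : ContDiffAt ℝ 2 g 0 := hg1.add L.contDiff.contDiffAt
  have hline2 : ContDiffAt ℂ ω (fun ζ : ℂ => ((z + ζ • q, a + ζ • b) : E × E)) 0 :=
    (line_cdC z q).contDiffAt.prodMk (line_cdC a b).contDiffAt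
  have hSc : ContDiffAt ℝ 2 S 0 := by
    have h0 : ContDiffAt ℝ 2 G ((fun ζ : ℂ => ((z + ζ • q, a + ζ • b) : E × E)) 0) := by
      simpa using hG
    exact h0.comp (0 : ℂ) (cdR (hline2.of_le le_top))
  have hlg : lev g 0 1 = -lev P z q := by
    have := lev_add hg1 (L.contDiff.contDiffAt (x := 0) (n := 2)) 1
    rw [lev_const_mul hPl, lev_line hP, lev_clm] at this
    rw [this]; ring
  have hdg : ∀ v : ℂ, fderiv ℝ g 0 v = -fderiv ℝ P z (v • q) + L v := by
    intro v
    have h1 : DifferentiableAt ℝ (fun ζ : ℂ => P (z + ζ • q)) 0 := hPl.differentiableAt (by simp)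
    have h2 : fderiv ℝ g 0 = fderiv ℝ (fun ζ : ℂ => (-1) * P (z + ζ • q)) 0 + fderiv ℝ L 0 :=
      fderiv_fun_add (h1.const_mul _) L.differentiableAt
    rw [h2, fderiv_const_mul h1, L.fderiv]
    simp only [add_apply, smul_apply, smul_eq_mul]
    rw [fderiv_lineR (hP.differentiableAt (by simp))]
    ring
  have hd1 : fderiv ℝ g 0 1 = 0 := by
    rw [hdg, hL]; simp [μ]; ring
  have hd2 : fderiv ℝ g 0 (Complex.I • (1 : ℂ)) = 0 := by
    rw [hdg, hL]
    simp [μ]; ring
  have hexp : ContDiffAt ℝ 2 Real.exp (g 0) := Real.contDiff_exp.contDiffAt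
  have hA : ContDiffAt ℝ 2 (fun ζ => Real.exp (g ζ)) 0 := hgc.exp
  have hlA : lev (fun ζ => Real.exp (g ζ)) 0 1 = Real.exp (-P z) * (-lev P z q) := by
    rw [lev_comp_real hexp hgc, hlg, g0]
    have : gr g 0 1 = 0 := by
      unfold gr; rw [hd1, hd2]; simp
    rw [this]
    simp
  have hdA : ∀ v : ℂ, fderiv ℝ (fun ζ => Real.exp (g ζ)) 0 v = Real.exp (g 0) * fderiv ℝ g 0 v := by
    intro v
    rw [((hgc.differentiableAt (by simp)).hasFDerivAt.exp).fderiv]
    simp
  have hlS : lev S 0 1 = lev G (z, a) (q, b) := by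
    have e1 := lev_comp (F := G) (Φ := fun ζ : ℂ => ((z + ζ • q, a + ζ • b) : E × E)) (z := 0)
      (by simpa using hG) (hline2.of_le le_top) 1
    have e2 : fderiv ℂ (fun ζ : ℂ => ((z + ζ • q, a + ζ • b) : E × E)) 0 1 = (q, b) := by
      rw [(c1.prodMk c2).hasFDerivAt.fderiv]; simp
    rw [e2] at e1
    simpa using e1
  rw [hfac, lev_mul hA hSc, hlA, hlS, S0, hdA, hdA, hd1, hd2, g0]
  ring

end analytic

variable {E : Type*} [NormedAddCommGroup E] [NormedSpace ℂ E]
  {M : Type*} [TopologicalSpace M] [ChartedSpace E M] [IsManifold 𝓘(ℂ, E) ω M]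

/-- The conformal change `e^{-φ} h` of a metric. -/
noncomputable def conf (h : HermitianMetric (idRep E) M) (φ : M → ℝ) (hφ : Sm E φ) :
    HermitianMetric (idRep E) M where
  form x := ((Real.exp (-φ x) : ℝ) : ℂ) • h.form x
  inner x := ⟨fun a b => by
      simp only [LinearMap.smul_apply, smul_eq_mul, map_mul, Complex.conj_ofReal]
      rw [h.herm], fun a ha => by
      simp only [LinearMap.smul_apply, smul_eq_mul, Complex.re_ofReal_mul]
      exact mul_pos (Real.exp_pos _) (h.pos x a ha)⟩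
  smooth x a b := by
    intro z hz
    have hz' : z ∈ (chartAt E x).target := by rwa [ext_target] at hz
    have h1 : ContDiffAt ℝ ∞ (fun w => φ ((chartAt E x).symm w)) z := hφ.chart (chart_hc x) hz'
    have h2 : ContDiffAt ℝ ∞ (fun w => ((Real.exp (-φ ((chartAt E x).symm w)) : ℝ) : ℂ)) z :=
      Complex.ofRealCLM.contDiff.contDiffAt.comp z h1.neg.exp
    exact h2.contDiffWithinAt.mul (h.smooth x a b z hz)

variable (h : HermitianMetric (idRep E) M) {φ : M → ℝ} (hφ : Sm E φ)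

lemma conf_HF (e : OpenPartialHomeomorph M E) (p : E × E) :
    HF (conf h φ hφ) e p = Real.exp (-φ (e.symm p.1)) * HF h e p := by
  unfold HF locE conf
  simp only [LinearMap.smul_apply, smul_eq_mul, Complex.re_ofReal_mul]

variable [FiniteDimensional ℂ E]

lemma lev_conf {e : OpenPartialHomeomorph M E} (he : e ∈ HC E M) {z : E} (hz : z ∈ e.target)
    (a q b : E) : ∃ b', lev (HF (conf h φ hφ) e) (z, a) (q, b') =
      Real.exp (-φ (e.symm z)) * (lev (HF h e) (z, a) (q, b) -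
        lev (fun w => φ (e.symm w)) z q * HF h e (z, a)) := by
  have h1 : HF (conf h φ hφ) e = fun x : E × E => Real.exp (-φ (e.symm x.1)) * HF h e x := by
    funext p; exact conf_HF h hφ e p
  rw [h1]
  exact lev_conf_aux q b ((hφ.chart he hz).of_le two_le) ((HF_cd h he hz a).of_le two_le)
    (fun z' a' c => HF_smul h e z' a' c)

/-- If `h` is positive in the direction `q` and the Levi form of `φ` is nonnegative there, then
`e^{-φ} h` is positive in the direction `q`. -/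
lemma PosE_conf {e : OpenPartialHomeomorph M E} (he : e ∈ HC E M) {z q : E} (hz : z ∈ e.target)
    (hp : PosE h e z q) (hq : 0 ≤ lev (fun w => φ (e.symm w)) z q) :
    PosE (conf h φ hφ) e z q := by
  intro a ha
  obtain ⟨b, hb⟩ := hp a ha
  obtain ⟨b', hb'⟩ := lev_conf h hφ he hz a q b
  refine ⟨b', ?_⟩
  rw [hb']
  refine mul_neg_of_pos_of_neg (Real.exp_pos _) ?_
  have := mul_nonneg hq (HF_nonneg h he hz a)
  linarith

/-- The final criterion. -/
lemma curvature_pos {x : M} {v : E} (hp : PosE h (chartAt E x) (chartAt E x x) v) (a : E)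
    (ha : a ≠ 0) : ∃ r, h.IsCurvature x v a r ∧ 0 < r := by
  obtain ⟨b, hb⟩ := hp a ha
  have hxt : chartAt E x x ∈ (chartAt E x).target := mem_chart_target E x
  have hco : extChartAt 𝓘(ℂ, E) x x = chartAt E x x := rfl
  have hpos : ∀ a, a ≠ 0 → h.loc x (extChartAt 𝓘(ℂ, E) x x) a a ≠ 0 := by
    intro a ha h0
    rw [hco, loc_eq h hxt] at h0
    have := locE_pos (h := h) (chart_hc x) hxt ha
    rw [h0] at this
    simp at this
  obtain ⟨r, hr, hle⟩ := h.exists_curvature hpos v a (-b)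
  refine ⟨r, hr, lt_of_lt_of_le ?_ hle⟩
  have h1 : ddz (h.sec x (extChartAt 𝓘(ℂ, E) x x) v a (-b)) =
      ((lev (HF h (chartAt E x)) (chartAt E x x, a) (v, b) : ℝ) : ℂ) := by
    rw [← ddz_line ((HF_cd h (chart_hc x) hxt a).of_le two_le)]
    refine ddz_congr ?_
    have hev : ∀ᶠ ζ : ℂ in 𝓝 0, chartAt E x x + ζ • v ∈ (chartAt E x).target := by
      have hc : ContinuousAt (fun ζ : ℂ => chartAt E x x + ζ • v) 0 := by fun_prop
      refine hc.eventually ?_
      simp only [zero_smul, add_zero]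
      exact (chartAt E x).open_target.mem_nhds hxt
    filter_upwards [hev] with ζ hζ
    unfold HermitianMetric.sec
    rw [hco, loc_eq h hζ, ← locE_self]
    simp
  rw [h1, Complex.ofReal_re]
  linarith

end Pool.Agent.H301_RC
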