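import Pool.Agent.H301_RC.Calc

/-! The curvature of a Hermitian metric and holomorphic sections along a complex line. -/

set_option autoImplicit false
set_option linter.unusedSectionVars false

open scoped Manifold ContDiff Topology ComplexConjugate
open Filter

namespace Pool.Agent.H301_RC

namespace HermitianMetric

variable {E : Type*} [NormedAddCommGroup E] [NormedSpace ℂ E]
  {W : Type*} [AddCommGroup W] [Module ℂ W]
  {ρ : (E →L[ℂ] E) → W →ₗ[ℂ] W} {M : Type*} [TopologicalSpace M] [ChartedSpace E M]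
  [IsManifold 𝓘(ℂ, E) 1 M] (h : HermitianMetric ρ M)

lemma loc_add_left (x : M) (z : E) (a b c : W) :
    h.loc x z (a + b) c = h.loc x z a c + h.loc x z b c := by
  simp [loc, locForm]

lemma loc_sub_left (x : M) (z : E) (a b c : W) :
    h.loc x z (a - b) c = h.loc x z a c - h.loc x z b c := by
  simp [loc, locForm]

lemma loc_smul_left (x : M) (z : E) (k : ℂ) (a c : W) :
    h.loc x z (k • a) c = k * h.loc x z a c := by
  simp [loc, locForm]

lemma loc_add_right (x : M) (z : E) (a b c : W) :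
    h.loc x z c (a + b) = h.loc x z c a + h.loc x z c b := by
  simp [loc, locForm]

lemma loc_sub_right (x : M) (z : E) (a b c : W) :
    h.loc x z c (a - b) = h.loc x z c a - h.loc x z c b := by
  simp [loc, locForm]

lemma loc_smul_right (x : M) (z : E) (k : ℂ) (a c : W) :
    h.loc x z c (k • a) = conj k * h.loc x z c a := by
  simp [loc, locForm]

lemma loc_zero_left (x : M) (z : E) (c : W) : h.loc x z 0 c = 0 := by simp [loc, locForm]

lemma loc_conj (x : M) (z : E) (a b : W) : conj (h.loc x z a b) = h.loc x z b a :=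
  h.herm _ _ _

lemma mem_target (x : M) :
    extChartAt 𝓘(ℂ, E) x x ∈ (extChartAt 𝓘(ℂ, E) x).target :=
  mem_extChartAt_target x

lemma line_cd (z v : E) : ContDiff ℝ 2 fun ζ : ℂ => z + ζ • v :=
  contDiff_const.add (contDiff_id.smul contDiff_const)

lemma loc_cd {x : M} {z : E} (hz : z ∈ (extChartAt 𝓘(ℂ, E) x).target) (v : E) (a b : W) :
    ContDiffAt ℝ 2 (fun ζ : ℂ => h.loc x (z + ζ • v) a b) 0 := by
  have h1 := (h.smooth x a b).contDiffAt ((isOpen_extChartAt_target x).mem_nhds hz)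
  have h2 : ContDiffAt ℝ 2 (fun z => h.loc x z a b) ((fun ζ : ℂ => z + ζ • v) 0) := by
    simpa [loc] using h1.of_le (by norm_cast)
  exact h2.comp (0 : ℂ) (line_cd z v).contDiffAt

/-- The section `a - ζ a₁` along a complex line. -/
noncomputable def sec (x : M) (z v : E) (a a₁ : W) (ζ : ℂ) : ℂ :=
  h.loc x (z + ζ • v) (a - ζ • a₁) (a - ζ • a₁)

lemma sec_eq (x : M) (z v : E) (a a₁ : W) :
    h.sec x z v a a₁ = fun ζ => h.loc x (z + ζ • v) a a +
      (-1 * (ζ * h.loc x (z + ζ • v) a₁ a) + (-1 * (conj ζ * h.loc x (z + ζ • v) a a₁) +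
        ζ * (conj ζ * h.loc x (z + ζ • v) a₁ a₁))) := by
  funext ζ
  simp only [sec, loc_sub_left, loc_sub_right, loc_smul_left, loc_smul_right]
  ring

lemma sec_cd {x : M} {z : E} (hz : z ∈ (extChartAt 𝓘(ℂ, E) x).target) (v : E) (a a₁ : W) :
    ContDiffAt ℝ 2 (h.sec x z v a a₁) 0 := by
  rw [sec_eq]
  have hc : ContDiffAt ℝ 2 (fun ζ : ℂ => conj ζ) 0 := cd_conj cd_id
  exact (h.loc_cd hz v a a).add ((contDiffAt_const.mul (cd_id.mul (h.loc_cd hz v a₁ a))).add
    ((contDiffAt_const.mul (hc.mul (h.loc_cd hz v a a₁))).add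
      (cd_id.mul (hc.mul (h.loc_cd hz v a₁ a₁)))))

lemma ddz_sec {x : M} {z : E} (hz : z ∈ (extChartAt 𝓘(ℂ, E) x).target) (v : E) (a a₁ : W) :
    ddz (h.sec x z v a a₁) = ddz (fun ζ => h.loc x (z + ζ • v) a a) -
      conj (dz fun ζ => h.loc x (z + ζ • v) a a₁) - (dz fun ζ => h.loc x (z + ζ • v) a a₁) +
      h.loc x z a₁ a₁ := by
  have hc : ContDiffAt ℝ 2 (fun ζ : ℂ => conj ζ) 0 := cd_conj cd_id
  have c1 : ContDiffAt ℝ 2 (fun _ : ℂ => (-1 : ℂ)) 0 := contDiffAt_const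
  have d1 : dz (fun ζ : ℂ => conj ζ) = 0 := by
    rw [dz_conj cd_id, dzb_id, map_zero]
  have d2 : dzb (fun ζ : ℂ => conj ζ) = 1 := by
    rw [dzb_conj cd_id, dz_id, map_one]
  have d3 : ddz (fun ζ : ℂ => conj ζ) = 0 := by
    rw [ddz_conj cd_id, ddz_id, map_zero]
  have l0 := h.loc_cd hz v a a
  have l1 := h.loc_cd hz v a₁ a
  have l2 := h.loc_cd hz v a a₁
  have l3 := h.loc_cd hz v a₁ a₁
  have e1 : (fun ζ : ℂ => h.loc x (z + ζ • v) a₁ a) =
      fun ζ : ℂ => conj (h.loc x (z + ζ • v) a a₁) := by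
    funext ζ; rw [loc_conj]
  have e2 : dzb (fun ζ : ℂ => h.loc x (z + ζ • v) a₁ a) =
      conj (dz fun ζ : ℂ => h.loc x (z + ζ • v) a a₁) := by
    rw [e1, dzb_conj l2]
  rw [sec_eq, ddz_add l0 ((c1.mul (cd_id.mul l1)).add ((c1.mul (hc.mul l2)).add
      (cd_id.mul (hc.mul l3)))),
    ddz_add (c1.mul (cd_id.mul l1)) ((c1.mul (hc.mul l2)).add (cd_id.mul (hc.mul l3))),
    ddz_add (c1.mul (hc.mul l2)) (cd_id.mul (hc.mul l3)),
    ddz_mul c1 (cd_id.mul l1), ddz_mul c1 (hc.mul l2), ddz_mul cd_id l1, ddz_mul hc l2,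
    ddz_mul cd_id (hc.mul l3), dzb_mul hc l3, dz_mul hc l3, ddz_mul hc l3, dz_const, dzb_const,
    ddz_const, dz_id, dzb_id, ddz_id, d1, d2, d3, e2]
  simp only [map_zero, zero_smul, add_zero]
  ring

lemma dz_sec {x : M} {z : E} (hz : z ∈ (extChartAt 𝓘(ℂ, E) x).target) (v : E) (a a₁ : W) :
    dz (h.sec x z v a a₁) = dz (fun ζ => h.loc x (z + ζ • v) a a) - h.loc x z a₁ a := by
  have hc : ContDiffAt ℝ 2 (fun ζ : ℂ => conj ζ) 0 := cd_conj cd_id
  have c1 : ContDiffAt ℝ 2 (fun _ : ℂ => (-1 : ℂ)) 0 := contDiffAt_const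
  have d1 : dz (fun ζ : ℂ => conj ζ) = 0 := by
    rw [dz_conj cd_id, dzb_id, map_zero]
  have l0 := h.loc_cd hz v a a
  have l1 := h.loc_cd hz v a₁ a
  have l2 := h.loc_cd hz v a a₁
  have l3 := h.loc_cd hz v a₁ a₁
  rw [sec_eq, dz_add l0 ((c1.mul (cd_id.mul l1)).add ((c1.mul (hc.mul l2)).add
      (cd_id.mul (hc.mul l3)))),
    dz_add (c1.mul (cd_id.mul l1)) ((c1.mul (hc.mul l2)).add (cd_id.mul (hc.mul l3))),
    dz_add (c1.mul (hc.mul l2)) (cd_id.mul (hc.mul l3)),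
    dz_mul c1 (cd_id.mul l1), dz_mul c1 (hc.mul l2), dz_mul cd_id l1, dz_mul hc l2,
    dz_mul cd_id (hc.mul l3), dz_const, dz_id, d1]
  simp only [map_zero, zero_smul, add_zero]
  ring

/-- With the connection vector `θ`: the section `a - ζ θ` has `∂|s|²/∂ζ = 0`. -/
lemma dz_sec_theta {x : M} {z : E} (hz : z ∈ (extChartAt 𝓘(ℂ, E) x).target) (v : E) (a θ : W)
    (hθ : ∀ b, h.loc x z θ b = dz fun ζ => h.loc x (z + ζ • v) a b) :
    dz (h.sec x z v a θ) = 0 := by
  rw [dz_sec h hz, hθ a, sub_self]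

lemma ddz_sec_theta {x : M} {z : E} (hz : z ∈ (extChartAt 𝓘(ℂ, E) x).target) (v : E) (a θ a₁ : W)
    (hθ : ∀ b, h.loc x z θ b = dz fun ζ => h.loc x (z + ζ • v) a b) :
    ddz (h.sec x z v a a₁) = ddz (fun ζ => h.loc x (z + ζ • v) a a) - h.loc x z θ θ +
      h.loc x z (a₁ - θ) (a₁ - θ) := by
  rw [ddz_sec h hz, ← hθ a₁, loc_conj]
  simp only [loc_sub_left, loc_sub_right]
  ring

lemma form_self_re_nonneg (x : M) (a : W) : 0 ≤ (h.form x a a).re := by
  by_cases ha : a = 0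
  · simp [ha]
  · exact (h.pos x a ha).le

lemma loc_self_re_nonneg (x : M) (z : E) (a : W) : 0 ≤ (h.loc x z a a).re :=
  h.form_self_re_nonneg _ _

lemma loc_self_im (x : M) (z : E) (a : W) : (h.loc x z a a).im = 0 :=
  Complex.conj_eq_iff_im.1 (h.loc_conj x z a a)

variable [FiniteDimensional ℂ W]

/-- Existence of the connection vector, if the form is nondegenerate. -/
lemma exists_theta {x : M} {z : E} (hpos : ∀ a, a ≠ 0 → h.loc x z a a ≠ 0)
    (F : W → ℂ) (hF1 : ∀ a b, F (a + b) = F a + F b) (hF2 : ∀ (k : ℂ) a, F (k • a) = conj k * F a) :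
    ∃ θ : W, ∀ b, h.loc x z θ b = F b := by
  classical
  let e := Module.finBasis ℂ W
  let T : W →ₗ[ℂ] (Fin (Module.finrank ℂ W) → ℂ) :=
    { toFun := fun θ i => h.loc x z θ (e i)
      map_add' := fun a b => by funext i; exact h.loc_add_left _ _ _ _ _
      map_smul' := fun k a => by funext i; exact h.loc_smul_left _ _ _ _ _ }
  have ext : ∀ (G G' : W → ℂ), (∀ a b, G (a + b) = G a + G b) →
      (∀ (k : ℂ) a, G (k • a) = conj k * G a) → (∀ a b, G' (a + b) = G' a + G' b) →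
      (∀ (k : ℂ) a, G' (k • a) = conj k * G' a) → (∀ i, G (e i) = G' (e i)) → ∀ b, G b = G' b := by
    intro G G' h1 h2 h3 h4 h5 b
    let g : W →ₗ⋆[ℂ] ℂ := { toFun := G, map_add' := h1, map_smul' := h2 }
    let g' : W →ₗ⋆[ℂ] ℂ := { toFun := G', map_add' := h3, map_smul' := h4 }
    have : g = g' := e.ext h5
    exact congrArg (fun f : W →ₗ⋆[ℂ] ℂ => f b) this
  have hinj : Function.Injective T := by
    rw [← LinearMap.ker_eq_bot, LinearMap.ker_eq_bot']
    intro θ hθ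
    by_contra hne
    refine hpos θ hne ?_
    exact ext (fun b => h.loc x z θ b) (fun _ => 0) (fun _ _ => h.loc_add_right _ _ _ _ _)
      (fun _ _ => h.loc_smul_right _ _ _ _ _) (by simp) (by simp)
      (fun i => congrFun hθ i) θ
  have hsurj : Function.Surjective T := by
    refine (LinearMap.injective_iff_surjective_of_finrank_eq_finrank ?_).1 hinj
    simp
  obtain ⟨θ, hθ⟩ := hsurj fun i => F (e i)
  exact ⟨θ, ext _ _ (fun _ _ => h.loc_add_right _ _ _ _ _) (fun _ _ => h.loc_smul_right _ _ _ _ _)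
    hF1 hF2 fun i => congrFun hθ i⟩

/-- The curvature exists, and it is bounded below by the values given by the sections
`a - ζ a₁`. -/
theorem exists_curvature {x : M}
    (hpos : ∀ a, a ≠ 0 → h.loc x (extChartAt 𝓘(ℂ, E) x x) a a ≠ 0) (v : E) (a a₁ : W) :
    ∃ r, h.IsCurvature x v a r ∧
      -(ddz (h.sec x (extChartAt 𝓘(ℂ, E) x x) v a a₁)).re ≤ r := by
  have hz := mem_target (E := E) x
  obtain ⟨θ, hθ⟩ := h.exists_theta hpos
    (fun b => dz fun ζ => h.loc x (extChartAt 𝓘(ℂ, E) x x + ζ • v) a b)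
    (fun b c => by
      rw [← dz_add (h.loc_cd hz v a b) (h.loc_cd hz v a c)]
      exact congrArg dz (funext fun ζ => h.loc_add_right _ _ _ _ _))
    (fun k b => by
      have : (fun ζ => h.loc x (extChartAt 𝓘(ℂ, E) x x + ζ • v) a (k • b)) =
          fun ζ => (fun _ : ℂ => conj k) ζ *
            (fun ζ => h.loc x (extChartAt 𝓘(ℂ, E) x x + ζ • v) a b) ζ :=
        funext fun ζ => h.loc_smul_right _ _ _ _ _
      rw [this, dz_mul contDiffAt_const (h.loc_cd hz v a b), dz_const]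
      ring)
  refine ⟨_, ⟨θ, hθ, rfl⟩, ?_⟩
  rw [h.ddz_sec_theta hz v a θ a₁ hθ]
  have := h.loc_self_re_nonneg x (extChartAt 𝓘(ℂ, E) x x) (a₁ - θ)
  simp only [Complex.add_re, Complex.sub_re, co]
  linarith

end HermitianMetric

end Pool.Agent.H301_RC
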