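import Mathlib

/-!
# Hermitian metrics on tensor bundles and RC-positivity

`M` is a complex manifold modelled on the complex normed space `E`. As in Mathlib, the tangent
space `T_x M` is a copy of `E`, through the preferred chart at `x`. A tensor bundle is described by
a vector space `W` and a map `ρ` from the endomorphisms of `E` to those of `W`: the fibre at `x` of
the tensor bundle is a copy of `W`, through the preferred chart at `x`, and a change of charts with
the derivative `A` acts by `ρ A`.
-/

set_option autoImplicit false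

open scoped Manifold ContDiff Topology ComplexConjugate

namespace Pool.Agent.H301_RC

/-- The derivative `∂f/∂ζ` of `f` at `ζ = 0`. -/
noncomputable def dz (f : ℂ → ℂ) : ℂ :=
  (deriv (fun t : ℝ => f (t : ℂ)) 0 -
    Complex.I * deriv (fun t : ℝ => f ((t : ℂ) * Complex.I)) 0) / 2

/-- The derivative `∂²f/∂ζ∂ζ̄` of `f` at `ζ = 0`, a quarter of the Laplacian. -/
noncomputable def ddz (f : ℂ → ℂ) : ℂ :=
  (deriv (deriv (fun t : ℝ => f (t : ℂ))) 0 +
    deriv (deriv (fun t : ℝ => f ((t : ℂ) * Complex.I))) 0) / 4

/-- A positive definite Hermitian form on `W`, linear in the first and conjugate linear in the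
second argument. -/
structure IsInner {W : Type*} [AddCommGroup W] [Module ℂ W] (H : W →ₗ[ℂ] W →ₗ⋆[ℂ] ℂ) : Prop where
  herm : ∀ a b, conj (H a b) = H b a
  pos : ∀ a, a ≠ 0 → 0 < (H a a).re

section

variable {E : Type*} [NormedAddCommGroup E] [NormedSpace ℂ E]
  {W : Type*} [AddCommGroup W] [Module ℂ W] {M : Type*} [TopologicalSpace M]
  [ChartedSpace E M]

/-- The point with the coordinates `z` in the preferred chart at `x`. -/
noncomputable def pt (x : M) (z : E) : M := (extChartAt 𝓘(ℂ, E) x).symm z

/-- The coordinates of `x` in the preferred chart at `x`. -/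
noncomputable def co (E : Type*) [NormedAddCommGroup E] [NormedSpace ℂ E] {M : Type*}
    [TopologicalSpace M] [ChartedSpace E M] (x : M) : E := extChartAt 𝓘(ℂ, E) x x

variable [IsManifold 𝓘(ℂ, E) 1 M]

/-- The holomorphic frame given by the preferred chart at `x`: for the point `y` with the
coordinates `z` in this chart, this is the map from `W` to the fibre at `y` given by the derivative
of the change from this chart to the preferred chart at `y`. -/
noncomputable def frame (ρ : (E →L[ℂ] E) → W →ₗ[ℂ] W) (x : M) (z : E) : W →ₗ[ℂ] W :=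
  ρ (tangentCoordChange 𝓘(ℂ, E) x (pt x z) (pt x z))

/-- The matrix `h(a, b)` of a family `h` of forms on the fibres, at the point with the coordinates
`z` in the preferred chart at `x`, for the vectors `a`, `b` of the holomorphic frame given by this
chart. -/
noncomputable def locForm (ρ : (E →L[ℂ] E) → W →ₗ[ℂ] W) (h : M → W →ₗ[ℂ] W →ₗ⋆[ℂ] ℂ)
    (x : M) (z : E) (a b : W) : ℂ :=
  h (pt x z) (frame ρ x z a) (frame ρ x z b)

end

variable {E : Type*} [NormedAddCommGroup E] [NormedSpace ℂ E]
  {W : Type*} [AddCommGroup W] [Module ℂ W]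

/-- A smooth Hermitian metric on the tensor bundle over `M` which is given by `W` and `ρ`: a
positive definite Hermitian form on the fibre at each point, whose matrix in the holomorphic frame
given by any preferred chart is smooth. -/
structure HermitianMetric (ρ : (E →L[ℂ] E) → W →ₗ[ℂ] W) (M : Type*) [TopologicalSpace M]
    [ChartedSpace E M] [IsManifold 𝓘(ℂ, E) 1 M] where
  form : M → W →ₗ[ℂ] W →ₗ⋆[ℂ] ℂ
  inner : ∀ x, IsInner (form x)
  smooth : ∀ x a b, ContDiffOn ℝ ∞ (fun z : E => locForm ρ form x z a b)
    (extChartAt 𝓘(ℂ, E) x).target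

/-- The tangent bundle as a tensor bundle: `W = E` and `ρ A = A`. -/
def idRep (E : Type*) [NormedAddCommGroup E] [NormedSpace ℂ E] : (E →L[ℂ] E) → E →ₗ[ℂ] E :=
  fun A => A

namespace HermitianMetric

variable {ρ : (E →L[ℂ] E) → W →ₗ[ℂ] W} {M : Type*} [TopologicalSpace M] [ChartedSpace E M]
  [IsManifold 𝓘(ℂ, E) 1 M]

/-- The matrix `h(a, b)` of the metric, at the point with the coordinates `z` in the
preferred chart at `x`, for the vectors `a`, `b` of the holomorphic frame given by this chart. -/
noncomputable def loc (h : HermitianMetric ρ M) (x : M) (z : E) (a b : W) : ℂ :=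
  locForm ρ h.form x z a b

/-- The curvature `R(v, v̄, a, ā)` of the Chern connection at `x` is `r`: in the holomorphic frame
given by the preferred chart at `x`, let `h(ζ)` be the matrix of the metric at the point with the
coordinates of `x` plus `ζ v`. Then
`R(v, v̄, a, ā) = - ∂²h(a, a)/∂ζ∂ζ̄ + h(θ, θ)`, where the vector `θ`, the value at `a` of the connection
form in the direction `v`, is given by `h(θ, b) = ∂h(a, b)/∂ζ` for all `b`. -/
def IsCurvature (h : HermitianMetric ρ M) (x : M) (v : E) (a : W) (r : ℝ) : Prop :=
  ∃ θ : W, (∀ b, h.loc x (co E x) θ b = dz fun ζ => h.loc x (co E x + ζ • v) a b) ∧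
    r = (h.loc x (co E x) θ θ).re - (ddz fun ζ => h.loc x (co E x + ζ • v) a a).re

/-- The metric is RC-positive: for every point `x` and every nonzero `a` in the fibre there is a
tangent vector `v` with `R(v, v̄, a, ā) > 0`. -/
def RCPositive (h : HermitianMetric ρ M) : Prop :=
  ∀ (x : M) (a : W), a ≠ 0 → ∃ (v : E) (r : ℝ), h.IsCurvature x v a r ∧ 0 < r

lemma herm (h : HermitianMetric ρ M) (x : M) (a b : W) : conj (h.form x a b) = h.form x b a :=
  (h.inner x).herm a b

lemma pos (h : HermitianMetric ρ M) (x : M) (a : W) (ha : a ≠ 0) : 0 < (h.form x a a).re :=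
  (h.inner x).pos a ha

end HermitianMetric

end Pool.Agent.H301_RC
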