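import Pool.Agent.H301_RC.Curv

/-! The Fubini-Study form and its second derivatives along a holomorphic immersion. -/

set_option autoImplicit false
set_option linter.unusedSectionVars false

open scoped Manifold ContDiff Topology ComplexConjugate InnerProductSpace
open Filter

namespace Pool.Agent.H301_RC

variable {V : Type*} [NormedAddCommGroup V] [InnerProductSpace ℂ V]

/-- The Fubini-Study form at the point with the homogeneous coordinates `g`, for the tangent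
vectors given by `X` and `Y`. -/
noncomputable def fs (g X Y : V) : ℂ :=
  (⟪g, g⟫_ℂ * ⟪Y, X⟫_ℂ - ⟪g, X⟫_ℂ * ⟪Y, g⟫_ℂ) / ⟪g, g⟫_ℂ ^ 2

lemma fs_add_left (g X X' Y : V) : fs g (X + X') Y = fs g X Y + fs g X' Y := by
  simp only [fs, inner_add_right]; ring

lemma fs_smul_left (k : ℂ) (g X Y : V) : fs g (k • X) Y = k * fs g X Y := by
  simp only [fs, inner_smul_right]; ring

lemma fs_add_right (g X Y Y' : V) : fs g X (Y + Y') = fs g X Y + fs g X Y' := by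
  simp only [fs, inner_add_left]; ring

lemma fs_smul_right (k : ℂ) (g X Y : V) : fs g X (k • Y) = conj k * fs g X Y := by
  simp only [fs, inner_smul_left]; ring

lemma fs_conj (g X Y : V) : conj (fs g X Y) = fs g Y X := by
  simp only [fs, map_div₀, map_sub, map_mul, map_pow, inner_conj_symm]
  ring

lemma fs_change {c : ℂ} (hc : c ≠ 0) (d d' : ℂ) (g X Y : V) :
    fs (c • g) (c • X + d • g) (c • Y + d' • g) = fs g X Y := by
  by_cases hg : g = 0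
  · simp [fs, hg]
  have h1 : ⟪g, g⟫_ℂ ≠ 0 := inner_self_ne_zero.2 hg
  have h2 : conj c ≠ 0 := by simpa using hc
  simp only [fs, inner_add_left, inner_add_right, inner_smul_left, inner_smul_right]
  field_simp
  ring

lemma fs_self (g X : V) (hg : g ≠ 0) :
    (fs g X X).re * ‖g‖ ^ 2 = ‖X - (⟪g, X⟫_ℂ / ⟪g, g⟫_ℂ) • g‖ ^ 2 := by
  have h1 : ⟪g, g⟫_ℂ ≠ 0 := inner_self_ne_zero.2 hg
  have h1' : conj ⟪g, g⟫_ℂ = ⟪g, g⟫_ℂ := inner_conj_symm g g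
  have h3 : ⟪X - (⟪g, X⟫_ℂ / ⟪g, g⟫_ℂ) • g, X - (⟪g, X⟫_ℂ / ⟪g, g⟫_ℂ) • g⟫_ℂ =
      fs g X X * ⟪g, g⟫_ℂ := by
    simp only [fs, inner_sub_left, inner_sub_right, inner_smul_left, inner_smul_right, map_div₀,
      inner_conj_symm, h1']
    field_simp
    ring
  have h4 : ⟪g, g⟫_ℂ = ((‖g‖ ^ 2 : ℝ) : ℂ) := by
    rw [inner_self_eq_norm_sq_to_K]; push_cast; rfl
  have h5 := congrArg Complex.re h3
  have h6 : (fs g X X * ⟪g, g⟫_ℂ).re = (fs g X X).re * ‖g‖ ^ 2 := by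
    rw [h4, Complex.re_mul_ofReal]
  rw [h6, inner_self_eq_norm_sq_to_K] at h5
  rw [← h5]
  norm_cast

lemma fs_self_pos {g X : V} (hg : g ≠ 0) (hX : ∀ c : ℂ, X ≠ c • g) : 0 < (fs g X X).re := by
  have h := fs_self g X hg
  have h1 : 0 < ‖g‖ ^ 2 := by positivity
  have h2 : 0 < ‖X - (⟪g, X⟫_ℂ / ⟪g, g⟫_ℂ) • g‖ ^ 2 := by
    have : X - (⟪g, X⟫_ℂ / ⟪g, g⟫_ℂ) • g ≠ 0 := sub_ne_zero.2 (hX _)
    positivity
  rw [← h] at h2
  exact pos_of_mul_pos_left h2 h1.le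

variable {E : Type*} [NormedAddCommGroup E] [NormedSpace ℂ E]

/-- **The second derivative of the Fubini-Study form.** `G` is a lift of a holomorphic immersion,
normalized at `z`, and the second fundamental form vanishes on `v`, `a`. -/
theorem ddz_fs_neg {G : E → V} {z : E} (hG : ContDiffAt ℂ ω G z) (hG0 : G z ≠ 0)
    (hn : ∀ u, ⟪G z, fderiv ℂ G z u⟫_ℂ = 0) (hi : ∀ u, fderiv ℂ G z u = 0 → u = 0)
    {v a a₁ : E} {l : ℂ} (hv : v ≠ 0) (ha : a ≠ 0)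
    (h2 : fderiv ℂ (fderiv ℂ G) z v a = fderiv ℂ G z a₁ + l • G z) :
    (ddz fun ζ => fs (G (z + ζ • v)) (fderiv ℂ G (z + ζ • v) (a - ζ • a₁))
      (fderiv ℂ G (z + ζ • v) (a - ζ • a₁))).re < 0 := by
  set g : ℂ → V := fun ζ => G (z + ζ • v) with hg
  set X : ℂ → V := fun ζ => fderiv ℂ G (z + ζ • v) (a - ζ • a₁) with hX
  have hline : ContDiff ℂ 2 fun ζ : ℂ => z + ζ • v :=
    contDiff_const.add (contDiff_id.smul contDiff_const)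
  have hz0 : z + (0 : ℂ) • v = z := by simp
  have hDG : ContDiffAt ℂ 2 (fderiv ℂ G) z := hG.fderiv_right (m := 2) (by exact le_top)
  have cg : ContDiffAt ℂ 2 g 0 := by
    have h1 : ContDiffAt ℂ 2 G ((fun ζ : ℂ => z + ζ • v) 0) := by
      simpa using hG.of_le le_top
    exact h1.comp (0 : ℂ) hline.contDiffAt
  have cD : ContDiffAt ℂ 2 (fun ζ : ℂ => fderiv ℂ G (z + ζ • v)) 0 := by
    have h1 : ContDiffAt ℂ 2 (fderiv ℂ G) ((fun ζ : ℂ => z + ζ • v) 0) := by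
      simpa using hDG
    exact h1.comp (0 : ℂ) hline.contDiffAt
  have cX : ContDiffAt ℂ 2 X 0 :=
    cD.clm_apply (contDiffAt_const.sub (contDiffAt_id.smul contDiffAt_const))
  have hl' : HasDerivAt (fun ζ : ℂ => z + ζ • v) v 0 := by
    simpa using ((hasDerivAt_id (0 : ℂ)).smul_const v).const_add z
  have dg : deriv g 0 = fderiv ℂ G z v := by
    have h1 : HasFDerivAt G (fderiv ℂ G z) ((fun ζ : ℂ => z + ζ • v) 0) := by
      simpa using (hG.differentiableAt (by simp)).hasFDerivAt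
    exact (h1.comp_hasDerivAt (0 : ℂ) hl').deriv
  have dX : deriv X 0 = l • G z := by
    have h1 : HasFDerivAt (fderiv ℂ G) (fderiv ℂ (fderiv ℂ G) z)
        ((fun ζ : ℂ => z + ζ • v) 0) := by
      simpa using (hDG.differentiableAt (by simp)).hasFDerivAt
    have h3 := h1.comp_hasDerivAt (0 : ℂ) hl'
    have h4 : HasDerivAt (fun ζ : ℂ => a - ζ • a₁) (-a₁) 0 := by
      simpa using ((hasDerivAt_id (0 : ℂ)).smul_const a₁).const_sub a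
    have h5 := h3.clm_apply h4
    have h6 : deriv X 0 = _ := h5.deriv
    rw [h6]
    simp only [zero_smul, add_zero, sub_zero, Function.comp_apply]
    rw [h2, map_neg]; abel
  have g0 : g 0 = G z := by simp [hg]
  have X0 : X 0 = fderiv ℂ G z a := by simp [hX]
  have n1 : ⟪G z, fderiv ℂ G z v⟫_ℂ = 0 := hn v
  have n1' : ⟪fderiv ℂ G z v, G z⟫_ℂ = 0 := by
    rw [← inner_conj_symm, n1, map_zero]
  have n2 : ⟪G z, fderiv ℂ G z a⟫_ℂ = 0 := hn a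
  have n2' : ⟪fderiv ℂ G z a, G z⟫_ℂ = 0 := by
    rw [← inner_conj_symm, n2, map_zero]
  -- the functions
  have cA := cd_inner cg cg
  have cB := cd_inner cX cX
  have cC := cd_inner cX cg
  have cC' := cd_inner cg cX
  have A1 := dz_inner cg cg
  have A2 := dzb_inner cg cg
  have A3 := ddz_inner cg cg
  have B1 := dz_inner cX cX
  have B2 := dzb_inner cX cX
  have B3 := ddz_inner cX cX
  have C1 := dz_inner cX cg
  have C2 := dzb_inner cX cg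
  have C3 := ddz_inner cX cg
  have C1' := dz_inner cg cX
  have C2' := dzb_inner cg cX
  have C3' := ddz_inner cg cX
  simp only [dg, dX, g0, X0, inner_smul_left, inner_smul_right, n1, n1', n2, n2', mul_zero]
    at A1 A2 A3 B1 B2 B3 C1 C2 C3 C1' C2' C3'
  have hA0 : ⟪G z, G z⟫_ℂ ≠ 0 := inner_self_ne_zero.2 hG0
  have hAne : ∀ᶠ ζ in 𝓝 (0 : ℂ), ⟪g ζ, g ζ⟫_ℂ ≠ 0 := by
    have h1 : ContinuousAt (fun ζ => ⟪g ζ, g ζ⟫_ℂ) 0 := cA.continuousAt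
    exact h1.eventually_ne (by rw [g0]; exact hA0)
  set f : ℂ → ℂ := fun ζ => fs (g ζ) (X ζ) (X ζ) with hf
  have cN : ContDiffAt ℝ 2 (fun ζ => ⟪g ζ, g ζ⟫_ℂ * ⟪X ζ, X ζ⟫_ℂ +
      (-1) * (⟪g ζ, X ζ⟫_ℂ * ⟪X ζ, g ζ⟫_ℂ)) 0 :=
    (cA.mul cB).add (contDiffAt_const.mul (cC.mul cC'))
  have cDD : ContDiffAt ℝ 2 (fun ζ => ⟪g ζ, g ζ⟫_ℂ * ⟪g ζ, g ζ⟫_ℂ) 0 := cA.mul cA
  have cf : ContDiffAt ℝ 2 f 0 := by
    have h1 : ContDiffAt ℝ 2 (fun ζ => (⟪g ζ, g ζ⟫_ℂ * ⟪X ζ, X ζ⟫_ℂ -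
        ⟪g ζ, X ζ⟫_ℂ * ⟪X ζ, g ζ⟫_ℂ) * (⟪g ζ, g ζ⟫_ℂ ^ 2)⁻¹) 0 := by
      refine ((cA.mul cB).sub (cC.mul cC')).mul ((cA.pow 2).inv ?_)
      rw [g0]; exact pow_ne_zero 2 hA0
    exact h1
  have hmul : (fun ζ => f ζ * (⟪g ζ, g ζ⟫_ℂ * ⟪g ζ, g ζ⟫_ℂ)) =ᶠ[𝓝 0]
      fun ζ => ⟪g ζ, g ζ⟫_ℂ * ⟪X ζ, X ζ⟫_ℂ + (-1) * (⟪g ζ, X ζ⟫_ℂ * ⟪X ζ, g ζ⟫_ℂ) := by
    filter_upwards [hAne] with ζ h
    simp only [hf, fs]
    field_simp
    ring
  have key := ddz_congr hmul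
  rw [ddz_mul cf cDD, ddz_mul cA cA, dz_mul cA cA, dzb_mul cA cA, A1, A2, A3,
    ddz_add (cA.mul cB) (contDiffAt_const.mul (cC.mul cC')), ddz_mul cA cB,
    ddz_mul contDiffAt_const (cC.mul cC'), ddz_mul cC cC', dz_const, dzb_const, ddz_const,
    A1, A2, A3, B1, B2, B3, C1, C2, C3, C1', C2', C3'] at key
  simp only [g0, X0, n2, n2', mul_zero, zero_mul, add_zero, zero_add] at key
  have f0 : f 0 * ⟪G z, G z⟫_ℂ = ⟪fderiv ℂ G z a, fderiv ℂ G z a⟫_ℂ := by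
    simp only [hf, fs, g0, X0, n2, n2', mul_zero, sub_zero]
    field_simp
  -- norms
  have nv : ⟪fderiv ℂ G z v, fderiv ℂ G z v⟫_ℂ = ((‖fderiv ℂ G z v‖ ^ 2 : ℝ) : ℂ) := by
    rw [inner_self_eq_norm_sq_to_K]; push_cast; rfl
  have na : ⟪fderiv ℂ G z a, fderiv ℂ G z a⟫_ℂ = ((‖fderiv ℂ G z a‖ ^ 2 : ℝ) : ℂ) := by
    rw [inner_self_eq_norm_sq_to_K]; push_cast; rfl
  have nG : ⟪G z, G z⟫_ℂ = ((‖G z‖ ^ 2 : ℝ) : ℂ) := by
    rw [inner_self_eq_norm_sq_to_K]; push_cast; rfl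
  have nva : ⟪fderiv ℂ G z v, fderiv ℂ G z a⟫_ℂ * ⟪fderiv ℂ G z a, fderiv ℂ G z v⟫_ℂ =
      ((‖⟪fderiv ℂ G z v, fderiv ℂ G z a⟫_ℂ‖ ^ 2 : ℝ) : ℂ) := by
    rw [← inner_conj_symm (fderiv ℂ G z a) (fderiv ℂ G z v), Complex.mul_conj,
      Complex.normSq_eq_norm_sq]
  have key2 : ddz f * ((‖G z‖ ^ 2 * ‖G z‖ ^ 2 : ℝ) : ℂ) =
      ((-(‖fderiv ℂ G z v‖ ^ 2 * ‖fderiv ℂ G z a‖ ^ 2) -
        ‖⟪fderiv ℂ G z v, fderiv ℂ G z a⟫_ℂ‖ ^ 2 : ℝ) : ℂ) := by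
    push_cast
    have e1 := nv; have e2 := na; have e3 := nG; have e4 := nva
    push_cast at e1 e2 e3 e4
    rw [← e1, ← e2, ← e3, ← e4]
    linear_combination key - 2 * ⟪fderiv ℂ G z v, fderiv ℂ G z v⟫_ℂ * f0
  have key3 := congrArg Complex.re key2
  rw [Complex.re_mul_ofReal, Complex.ofReal_re] at key3
  have p1 : 0 < ‖fderiv ℂ G z v‖ ^ 2 := by
    have : fderiv ℂ G z v ≠ 0 := fun h => hv (hi v h)
    positivity
  have p2 : 0 < ‖fderiv ℂ G z a‖ ^ 2 := by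
    have : fderiv ℂ G z a ≠ 0 := fun h => ha (hi a h)
    positivity
  have p3 : 0 < ‖G z‖ ^ 2 * ‖G z‖ ^ 2 := by positivity
  have p4 : 0 ≤ ‖⟪fderiv ℂ G z v, fderiv ℂ G z a⟫_ℂ‖ ^ 2 := by positivity
  have p5 : (ddz f).re * (‖G z‖ ^ 2 * ‖G z‖ ^ 2) < 0 := by
    rw [key3]; nlinarith [mul_pos p1 p2]
  exact neg_of_mul_neg_left p5 p3.le

end Pool.Agent.H301_RC
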