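import Pool.Agent.H301_RC.Oper
import Pool.Agent.H301_RC.Near1

/-! On a compact connected manifold there is a function which is strictly subharmonic outside of a
given nonempty open set. -/

set_option autoImplicit false
set_option linter.unusedSectionVars false

open scoped Manifold ContDiff Topology ComplexConjugate
open Filter Set

namespace Pool.Agent.H301_RC

section quad

variable {E : Type*} [NormedAddCommGroup E] [InnerProductSpace ℂ E]

/-- the function `R² - |z - c|²` -/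
noncomputable def mq (R : ℝ) (c z : E) : ℝ := R ^ 2 - ‖z - c‖ ^ 2

lemma mq_cd (R : ℝ) (c : E) : ContDiff ℝ ∞ (mq R c) := by
  letI : InnerProductSpace ℝ E := InnerProductSpace.complexToReal
  have h1 : ContDiff ℝ ∞ fun z : E => ‖z - c‖ ^ 2 := (contDiff_id.sub contDiff_const).norm_sq ℝ
  exact contDiff_const.sub h1

lemma mq_fderiv_ne {R : ℝ} {c z : E} (h : z ≠ c) : fderiv ℝ (mq R c) z ≠ 0 := by
  intro h0
  have h1 := deriv_line (f := mq R c) (p := z) ((mq_cd R c).contDiffAt.differentiableAt (by simp))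
    (z - c)
  unfold Da at h1
  rw [h0] at h1
  have h2 : (fun t : ℝ => mq R c (z + t • (z - c))) = fun t => R ^ 2 - (1 + t) ^ 2 * ‖z - c‖ ^ 2 := by
    funext t
    unfold mq
    have h3 : z + t • (z - c) - c = (1 + t) • (z - c) := by
      rw [add_smul, one_smul]; abel
    rw [h3, norm_smul, mul_pow, Real.norm_eq_abs, sq_abs]
  rw [h2] at h1
  have h4 : HasDerivAt (fun t : ℝ => R ^ 2 - (1 + t) ^ 2 * ‖z - c‖ ^ 2) (-(2 * ‖z - c‖ ^ 2)) 0 := by
    have h5 := (((hasDerivAt_id (0 : ℝ)).const_add 1).pow 2).mul_const (‖z - c‖ ^ 2)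
    have h6 := h5.const_sub (R ^ 2)
    simpa using h6
  rw [h4.deriv] at h1
  have h7 : 0 < ‖z - c‖ := norm_pos_iff.2 (sub_ne_zero.2 h)
  simp at h1
  exact h (sub_eq_zero.1 h1)

end quad

variable {E : Type*} [NormedAddCommGroup E] [InnerProductSpace ℂ E] [FiniteDimensional ℂ E]
  {M : Type*} [TopologicalSpace M] [ChartedSpace E M] [IsManifold 𝓘(ℂ, E) ω M] [T2Space M]
  {κ : Type*} [Fintype κ] (P : OpData E M κ)

open OpData

lemma barrier {e : OpenPartialHomeomorph M E} (he : e ∈ HC E M) {y : M}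
    {R s : ℝ} (hball : Metric.closedBall (e y) R ⊆ e.target) (hs : 0 < s) (hR : 0 < R) :
    ∃ b : M → ℝ, Sm E b ∧
      (∀ y', (y' ∈ e.source ∧ ‖e y' - e y‖ < s) ∨ 0 ≤ P.L b y') ∧
      ∀ y' ∈ e.source, s ≤ ‖e y' - e y‖ → ‖e y' - e y‖ < R → 0 < P.L b y' := by
  have : ProperSpace E := FiniteDimensional.proper ℂ E
  set f : M → ℝ := fun y' => mq R (e y) (e y') with hf
  have hfs : ∀ y' ∈ e.source, (fun w => f (e.symm w)) =ᶠ[𝓝 (e y')] mq R (e y) := by
    intro y' hy'
    filter_upwards [e.open_target.mem_nhds (e.map_source hy')] with w hw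
    simp only [hf]
    rw [e.right_inv hw]
  have hfsm : ∀ y' ∈ e.source, SmAt E f y' := fun y' hy' =>
    SmAt.of_chart he hy' ((mq_cd R (e y)).contDiffAt.congr_of_eventuallyEq (hfs y' hy'))
  have hball_c : IsCompact (Metric.closedBall (e y) R) := isCompact_closedBall _ _
  set B : Set E := Metric.closedBall (e y) R ∩ {w | s ≤ ‖w - e y‖} with hB
  have hBc : IsCompact B := hball_c.inter_right
    (isClosed_le continuous_const (continuous_id.sub continuous_const).norm)
  have hBt : B ⊆ e.target := inter_subset_left.trans hball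
  have hA : IsCompact (e.symm '' B) := hBc.image_of_continuousOn (e.continuousOn_symm.mono hBt)
  have hAs : ∀ y' ∈ e.symm '' B, y' ∈ e.source ∧ e y' ∈ B := by
    rintro y' ⟨w, hw, rfl⟩
    exact ⟨e.map_target (hBt hw), by rw [e.right_inv (hBt hw)]; exact hw⟩
  have hGpos : ∀ y' ∈ e.symm '' B, 0 < P.G f y' := by
    intro y' hy'
    obtain ⟨h1, h2⟩ := hAs y' hy'
    refine G_pos he h1 (hfsm y' h1) ?_
    rw [(hfs y' h1).fderiv_eq]
    refine mq_fderiv_ne ?_
    intro h3
    have h4 : s ≤ ‖e y' - e y‖ := h2.2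
    rw [h3] at h4
    simp at h4
    linarith
  obtain ⟨K, hK0, hK⟩ := exists_mul_dominate hA (p := P.L f) (q := P.G f)
    (fun y' hy' => (L_continuousAt (hfsm y' (hAs y' hy').1)).continuousWithinAt)
    (fun y' hy' => (G_continuousAt (hfsm y' (hAs y' hy').1)).continuousWithinAt) hGpos
  set g : E → ℝ := fun w => Phi K (mq R (e y) w) with hg
  have hg0 : ∀ z, z ∉ Metric.closedBall (e y) R → g z = 0 := by
    intro z hz
    refine Phi_zero K ?_
    rw [mem_closedBall_iff_norm, not_le] at hz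
    unfold mq
    nlinarith
  have hgs : ContDiff ℝ ∞ g := (Phi_cd K).comp (mq_cd R (e y))
  have hev0 : ∀ y', y' ∉ e.symm '' Metric.closedBall (e y) R → P.L (extz e g) y' = 0 := by
    intro y' hy'
    have h1 : extz e g =ᶠ[𝓝 y'] fun _ => 0 := extz_ev_zero hball_c hball hg0 hy'
    rw [L_congr h1, L_zero]
  have hsrc : ∀ y' ∈ e.source, P.L (extz e g) y' = deriv (Phi K) (f y') * P.L f y' +
      deriv (deriv (Phi K)) (f y') * P.G f y' := by
    intro y' hy'
    rw [← L_comp (hfsm y' hy') (Phi_cd K)]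
    refine L_congr ?_
    filter_upwards [e.open_source.mem_nhds hy'] with z hz
    rw [extz_of_mem hz]
  have hann : ∀ y' ∈ e.symm '' B, 0 ≤ P.L (extz e g) y' ∧
      (0 < f y' → 0 < P.L (extz e g) y') := by
    intro y' hy'
    have h1 := hK y' hy'
    have h2 := Phi_deriv2 K (f y')
    have h3 := Phi_deriv_nonneg K (f y')
    have h4 : 0 ≤ P.G f y' := G_nonneg f y'
    have h5 : deriv (Phi K) (f y') * (P.L f y' + K * P.G f y') ≤ P.L (extz e g) y' := by
      rw [hsrc y' (hAs y' hy').1]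
      nlinarith
    refine ⟨le_trans (mul_nonneg h3 h1.le) h5, fun h6 => lt_of_lt_of_le ?_ h5⟩
    exact mul_pos (Phi_deriv_pos K h6) h1
  refine ⟨extz e g, extz_sm he hball_c hball hg0 fun z _ => hgs.contDiffAt, ?_, ?_⟩
  · intro y'
    by_cases hy' : y' ∈ e.symm '' Metric.closedBall (e y) R
    · obtain ⟨w, hw, rfl⟩ := hy'
      have hws := e.map_target (hball hw)
      have hww := e.right_inv (hball hw)
      by_cases h1 : ‖w - e y‖ < s
      · left
        exact ⟨hws, by rw [hww]; exact h1⟩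
      · right
        exact (hann _ ⟨w, ⟨hw, not_lt.1 h1⟩, rfl⟩).1
    · right
      rw [hev0 y' hy']
  · intro y' hy' h1 h2
    refine (hann y' ⟨e y', ⟨?_, h1⟩, e.left_inv hy'⟩).2 ?_
    · rw [mem_closedBall_iff_norm]; exact h2.le
    · simp only [hf]
      unfold mq
      nlinarith [norm_nonneg (e y' - e y)]

theorem exists_subharmonic [CompactSpace M] [PreconnectedSpace M] {U : Set M} (hU : IsOpen U)
    (hne : U.Nonempty) : ∃ f : M → ℝ, Sm E f ∧ ∀ y, y ∉ U → 0 < P.L f y := by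
  have : ProperSpace E := FiniteDimensional.proper ℂ E
  set T : Set M := {x | ∃ f : M → ℝ, Sm E f ∧ (∀ y, y ∉ U → 0 ≤ P.L f y) ∧
    (x ∉ U → 0 < P.L f x)} with hT
  have hUT : U ⊆ T := by
    intro x hx
    refine ⟨fun _ => 0, fun y => SmAt.const 0 y, fun y _ => by rw [L_zero], fun h => absurd hx h⟩
  have hTo : ∀ x ∈ T, x ∉ U → ∃ f : M → ℝ, Sm E f ∧ (∀ y, y ∉ U → 0 ≤ P.L f y) ∧
      ∀ᶠ y in 𝓝 x, 0 < P.L f y := by
    rintro x ⟨f, hf, h1, h2⟩ hx
    exact ⟨f, hf, h1, (L_continuousAt (hf x)).eventually (lt_mem_nhds (h2 hx))⟩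
  have hopen : IsOpen T := by
    rw [isOpen_iff_mem_nhds]
    intro x hx
    by_cases hxU : x ∈ U
    · exact mem_of_superset (hU.mem_nhds hxU) hUT
    · obtain ⟨f, hf, h1, h2⟩ := hTo x hx hxU
      filter_upwards [h2] with y hy
      exact ⟨f, hf, h1, fun _ => hy⟩
  have hclosed : IsClosed T := by
    refine isClosed_of_closure_subset fun x hx => ?_
    set e := chartAt E x with hedef
    have he : e ∈ HC E M := chart_hc x
    have hxs : x ∈ e.source := mem_chart_source E x
    have hxt : e x ∈ e.target := mem_chart_target E x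
    obtain ⟨r, hr, hrt⟩ := Metric.isOpen_iff.1 e.open_target (e x) hxt
    have hN : {y | y ∈ e.source ∧ e y ∈ Metric.ball (e x) (r / 4)} ∈ 𝓝 x :=
      ev_chart hxs (Metric.ball_mem_nhds _ (by positivity))
    obtain ⟨y, ⟨hys, hyb⟩, hyT⟩ := mem_closure_iff_nhds.1 hx _ hN
    rw [mem_ball_iff_norm] at hyb
    have hball : Metric.closedBall (e y) (r / 2) ⊆ e.target := by
      refine Subset.trans ?_ hrt
      intro w hw
      rw [mem_closedBall_iff_norm] at hw
      rw [mem_ball_iff_norm]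
      calc ‖w - e x‖ = ‖(w - e y) + (e y - e x)‖ := by congr 1; abel
        _ ≤ ‖w - e y‖ + ‖e y - e x‖ := norm_add_le _ _
        _ < r := by linarith
    have hxy : ‖e x - e y‖ < r / 2 := by
      rw [norm_sub_rev]; linarith
    -- a neighbourhood of `y`
    obtain ⟨f, hf, hf1, W, hW, hf2⟩ : ∃ f : M → ℝ, Sm E f ∧ (∀ y, y ∉ U → 0 ≤ P.L f y) ∧
        ∃ W ∈ 𝓝 y, W ⊆ T ∧ ∀ y' ∈ W, y' ∉ U → 0 < P.L f y' := by
      by_cases hyU : y ∈ U
      · exact ⟨fun _ => 0, fun y => SmAt.const 0 y, fun y _ => by rw [L_zero], U, hU.mem_nhds hyU,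
          hUT, fun y' h1 h2 => absurd h1 h2⟩
      · obtain ⟨f, hf, h1, h2⟩ := hTo y hyT hyU
        refine ⟨f, hf, h1, T ∩ {y' | 0 < P.L f y'}, ?_, inter_subset_left, fun y' h3 _ => h3.2⟩
        exact inter_mem (hopen.mem_nhds hyT) h2
    have hyt : e y ∈ e.target := e.map_source hys
    have hev : ∀ᶠ w in 𝓝 (e y), w ∈ e.target ∧ e.symm w ∈ W :=
      ev_symm hyt (by rw [e.left_inv hys]; exact hW)
    obtain ⟨s₀, hs₀, hsW⟩ := Metric.eventually_nhds_iff_ball.1 hev
    set s := s₀ / 2 with hsdef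
    have hs : 0 < s := by positivity
    have hcb : Metric.closedBall (e y) s ⊆ Metric.ball (e y) s₀ :=
      Metric.closedBall_subset_ball (by rw [hsdef]; linarith)
    obtain ⟨b, hb, hb1, hb2⟩ := barrier P he hball hs (by positivity)
    -- the compact set where `b` is bad
    have hKt : Metric.closedBall (e y) s ⊆ e.target := fun w hw => (hsW w (hcb hw)).1
    have hK : IsCompact (e.symm '' Metric.closedBall (e y) s ∩ Uᶜ) :=
      ((isCompact_closedBall _ _).image_of_continuousOn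
        (e.continuousOn_symm.mono hKt)).inter_right hU.isClosed_compl
    have hpos : ∀ y' ∈ e.symm '' Metric.closedBall (e y) s ∩ Uᶜ, 0 < P.L f y' := by
      rintro y' ⟨⟨w, hw, rfl⟩, hU'⟩
      exact hf2.2 _ (hsW w (hcb hw)).2 hU'
    obtain ⟨A, hA0, hA⟩ := exists_mul_dominate hK (p := P.L b) (q := P.L f)
      (fun y' _ => (L_continuousAt (hb y')).continuousWithinAt)
      (fun y' _ => (L_continuousAt (hf y')).continuousWithinAt) hpos
    by_cases hxs' : ‖e x - e y‖ < s
    · have h1 : e x ∈ Metric.ball (e y) s₀ := by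
        rw [mem_ball_iff_norm]; linarith
      have h2 := (hsW _ h1).2
      rw [e.left_inv hxs] at h2
      exact hf2.1 h2
    · have hAf : Sm E fun z => A * f z := fun z => (SmAt.const A z).mul (hf z)
      have hsum : ∀ y', P.L (fun z => b z + A * f z) y' = P.L b y' + A * P.L f y' := by
        intro y'
        rw [L_add (hb y') (hAf y'), L_const_mul (hf y')]
      refine ⟨fun z => b z + A * f z, fun z => (hb z).add (hAf z), fun y' hy' => ?_, fun hxU => ?_⟩
      · rw [hsum]
        rcases hb1 y' with ⟨h1, h2⟩ | h1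
        · refine (hA y' ⟨⟨e y', ?_, e.left_inv h1⟩, hy'⟩).le
          rw [mem_closedBall_iff_norm]; exact h2.le
        · have := mul_nonneg hA0 (hf1 y' hy')
          linarith
      · rw [hsum]
        have h1 := hb2 x hxs (not_lt.1 hxs') hxy
        have := mul_nonneg hA0 (hf1 x hxU)
        linarith
  have hTuniv : T = univ := by
    refine IsClopen.eq_univ ⟨hclosed, hopen⟩ (hne.mono hUT)
  have hall : ∀ x : M, ∃ f : M → ℝ, Sm E f ∧ (∀ y, y ∉ U → 0 ≤ P.L f y) ∧
      ∀ᶠ y in 𝓝 x, y ∉ U → 0 < P.L f y := by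
    intro x
    have hx : x ∈ T := by rw [hTuniv]; exact mem_univ x
    by_cases hxU : x ∈ U
    · refine ⟨fun _ => 0, fun y => SmAt.const 0 y, fun y _ => by rw [L_zero], ?_⟩
      filter_upwards [hU.mem_nhds hxU] with y hy h1
      exact absurd hy h1
    · obtain ⟨f, hf, h1, h2⟩ := hTo x hx hxU
      exact ⟨f, hf, h1, h2.mono fun y hy _ => hy⟩
  choose f hf hf1 hf2 using hall
  obtain ⟨F, hF⟩ := isCompact_univ.elim_nhds_subcover
    (fun x => {y | y ∉ U → 0 < P.L (f x) y}) fun x _ => hf2 x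
  refine ⟨fun y => ∑ x ∈ F, f x y, fun y => SmAt.sum F fun x _ => hf x y, fun y hy => ?_⟩
  rw [L_sum F fun x _ => hf x y]
  have h1 := hF.2 (mem_univ y)
  simp only [mem_iUnion] at h1
  obtain ⟨x, hx, hxy⟩ := h1
  exact Finset.sum_pos' (fun i _ => hf1 i y hy) ⟨x, hx, hxy hy⟩

end Pool.Agent.H301_RC
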