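import Pool.Agent.H301_RC.Charts

/-! The matrix of a metric on the tangent bundle in a holomorphic chart. -/

set_option autoImplicit false
set_option linter.unusedSectionVars false

open scoped Manifold ContDiff Topology ComplexConjugate
open Filter Set

namespace Pool.Agent.H301_RC

variable {E : Type*} [NormedAddCommGroup E] [NormedSpace ℂ E]
  {M : Type*} [TopologicalSpace M] [ChartedSpace E M] [IsManifold 𝓘(ℂ, E) ω M]

instance isManifold_one : IsManifold 𝓘(ℂ, E) 1 M := IsManifold.of_le (n := ω) le_top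

/-- The matrix of the metric in the holomorphic chart `e`. -/
noncomputable def locE (h : HermitianMetric (idRep E) M) (e : OpenPartialHomeomorph M E) (z : E)
    (a b : E) : ℂ :=
  h.form (e.symm z) (D e (chartAt E (e.symm z)) z a) (D e (chartAt E (e.symm z)) z b)

variable (h : HermitianMetric (idRep E) M)

lemma loc_eq {p : M} {z : E} (hz : z ∈ (chartAt E p).target) (a b : E) :
    h.loc p z a b = locE h (chartAt E p) z a b := by
  unfold HermitianMetric.loc locForm frame idRep locE
  rw [tcc_eq hz]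
  rfl

lemma locE_change {e e' : OpenPartialHomeomorph M E} (he : e ∈ HC E M) (he' : e' ∈ HC E M) {z : E}
    (hz : z ∈ e.target) (hz' : e.symm z ∈ e'.source) (a b : E) :
    locE h e z a b = locE h e' (e' (e.symm z)) (D e e' z a) (D e e' z b) := by
  have h0 : e'.symm (e' (e.symm z)) = e.symm z := e'.left_inv hz'
  have hs : e.symm z ∈ (chartAt E (e.symm z)).source := mem_chart_source E _
  unfold locE
  rw [h0, D_comp he he' (chart_hc _) hz hz' hs, D_comp he he' (chart_hc _) hz hz' hs]

section basic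

variable {h}

lemma locE_add_left (e : OpenPartialHomeomorph M E) (z a b c : E) :
    locE h e z (a + b) c = locE h e z a c + locE h e z b c := by simp [locE]

lemma locE_sub_left (e : OpenPartialHomeomorph M E) (z a b c : E) :
    locE h e z (a - b) c = locE h e z a c - locE h e z b c := by simp [locE]

lemma locE_smul_left (e : OpenPartialHomeomorph M E) (z : E) (k : ℂ) (a c : E) :
    locE h e z (k • a) c = k * locE h e z a c := by simp [locE]

lemma locE_add_right (e : OpenPartialHomeomorph M E) (z a b c : E) :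
    locE h e z c (a + b) = locE h e z c a + locE h e z c b := by simp [locE]

lemma locE_sub_right (e : OpenPartialHomeomorph M E) (z a b c : E) :
    locE h e z c (a - b) = locE h e z c a - locE h e z c b := by simp [locE]

lemma locE_smul_right (e : OpenPartialHomeomorph M E) (z : E) (k : ℂ) (a c : E) :
    locE h e z c (k • a) = conj k * locE h e z c a := by simp [locE]

lemma locE_conj (e : OpenPartialHomeomorph M E) (z a b : E) :
    conj (locE h e z a b) = locE h e z b a := h.herm _ _ _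

lemma locE_self_im (e : OpenPartialHomeomorph M E) (z a : E) : (locE h e z a a).im = 0 :=
  Complex.conj_eq_iff_im.1 (locE_conj e z a a)

lemma locE_pos {e : OpenPartialHomeomorph M E} (he : e ∈ HC E M) {z : E} (hz : z ∈ e.target)
    {a : E} (ha : a ≠ 0) : 0 < (locE h e z a a).re :=
  h.pos _ _ (D_inj he (chart_hc _) hz (mem_chart_source E _) ha)

end basic

variable [FiniteDimensional ℂ E]

lemma locE_expand (e : OpenPartialHomeomorph M E) (z a b : E) :
    locE h e z a b = ∑ i, ∑ j, (Module.finBasis ℂ E).coord i a *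
      (conj ((Module.finBasis ℂ E).coord j b) *
        locE h e z (Module.finBasis ℂ E i) (Module.finBasis ℂ E j)) := by
  let g : E →ₗ[ℂ] E →ₗ⋆[ℂ] ℂ := LinearMap.mk₂'ₛₗ (RingHom.id ℂ) (starRingEnd ℂ)
    (fun a b => locE h e z a b) (fun _ _ _ => locE_add_left _ _ _ _ _)
    (fun _ _ _ => locE_smul_left _ _ _ _ _) (fun _ _ _ => locE_add_right _ _ _ _ _)
    (fun _ _ _ => locE_smul_right _ _ _ _ _)
  have h1 : locE h e z a b = g a b := rfl
  have h2 : ∀ i j, locE h e z (Module.finBasis ℂ E i) (Module.finBasis ℂ E j) =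
    g (Module.finBasis ℂ E i) (Module.finBasis ℂ E j) := fun _ _ => rfl
  rw [h1]
  simp only [h2]
  conv_lhs => rw [← (Module.finBasis ℂ E).sum_repr a, ← (Module.finBasis ℂ E).sum_repr b]
  simp only [map_sum, LinearMap.sum_apply, map_smulₛₗ, LinearMap.smul_apply,
    smul_eq_mul, Module.Basis.coord_apply, RingHom.id_apply]
  rw [Finset.sum_comm]
  refine Finset.sum_congr rfl fun i _ => ?_
  rw [Finset.mul_sum]
  refine Finset.sum_congr rfl fun j _ => ?_
  ring

lemma loc_basis_cd {p : M} {z : E} (hz : z ∈ (chartAt E p).target) (a b : E) :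
    ContDiffAt ℝ ∞ (fun z => locE h (chartAt E p) z a b) z := by
  have h1 := (h.smooth p a b).contDiffAt (x := z)
    (by rw [ext_target]; exact (chartAt E p).open_target.mem_nhds hz)
  refine h1.congr_of_eventuallyEq ?_
  filter_upwards [(chartAt E p).open_target.mem_nhds hz] with w hw
  exact (loc_eq h hw a b).symm

lemma coord_cd {V : Type*} [NormedAddCommGroup V] [NormedSpace ℝ V] {f : V → E} {x : V}
    (hf : ContDiffAt ℝ ∞ f x) (i : Fin (Module.finrank ℂ E)) :
    ContDiffAt ℝ ∞ (fun y => (Module.finBasis ℂ E).coord i (f y)) x := by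
  let L : E →L[ℂ] ℂ := LinearMap.toContinuousLinearMap ((Module.finBasis ℂ E).coord i)
  exact (L.restrictScalars ℝ).contDiff.contDiffAt.comp x hf

lemma conj_cd {V : Type*} [NormedAddCommGroup V] [NormedSpace ℝ V] {f : V → ℂ} {x : V}
    (hf : ContDiffAt ℝ ∞ f x) : ContDiffAt ℝ ∞ (fun y => conj (f y)) x :=
  Complex.conjCLE.contDiff.contDiffAt.comp x hf

/-- joint smoothness, preferred charts -/
lemma locE_cd0 {p : M} {z : E} (hz : z ∈ (chartAt E p).target) (a b : E) :
    ContDiffAt ℝ ∞ (fun x : E × E × E => locE h (chartAt E p) x.1 x.2.1 x.2.2) (z, a, b) := by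
  have h0 : (fun x : E × E × E => locE h (chartAt E p) x.1 x.2.1 x.2.2) = fun x =>
      ∑ i, ∑ j, (Module.finBasis ℂ E).coord i x.2.1 *
      (conj ((Module.finBasis ℂ E).coord j x.2.2) *
        locE h (chartAt E p) x.1 (Module.finBasis ℂ E i) (Module.finBasis ℂ E j)) := by
    funext x; exact locE_expand h _ _ _ _
  rw [h0]
  refine ContDiffAt.sum fun i _ => ContDiffAt.sum fun j _ => ?_
  have h1 : ContDiffAt ℝ ∞ (fun x : E × E × E => x.2.1) (z, a, b) :=
    contDiffAt_fst.comp (z, a, b) contDiffAt_snd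
  have h2 : ContDiffAt ℝ ∞ (fun x : E × E × E => x.2.2) (z, a, b) :=
    contDiffAt_snd.comp (z, a, b) contDiffAt_snd
  have h3 : ContDiffAt ℝ ∞ (fun x : E × E × E =>
      locE h (chartAt E p) x.1 (Module.finBasis ℂ E i) (Module.finBasis ℂ E j)) (z, a, b) := by
    have h4 : ContDiffAt ℝ ∞ (fun z => locE h (chartAt E p) z (Module.finBasis ℂ E i)
      (Module.finBasis ℂ E j)) ((Prod.fst : E × E × E → E) (z, a, b)) :=
      loc_basis_cd h hz _ _
    exact h4.comp (z, a, b) contDiffAt_fst
  exact (coord_cd h1 i).mul ((conj_cd (coord_cd h2 j)).mul h3)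

/-- joint smoothness -/
lemma locE_cd {e : OpenPartialHomeomorph M E} (he : e ∈ HC E M) {z : E} (hz : z ∈ e.target)
    (a b : E) : ContDiffAt ℝ ∞ (fun x : E × E × E => locE h e x.1 x.2.1 x.2.2) (z, a, b) := by
  set p := e.symm z with hp
  have hs : e.symm z ∈ (chartAt E p).source := mem_chart_source E _
  have h1 : ContDiffAt ℂ ω (fun w => chartAt E p (e.symm w)) z := tr_cd he (chart_hc p) hz hs
  have h2 : ContDiffAt ℝ ∞ (fun w => chartAt E p (e.symm w)) z := (cdR h1).of_le le_top
  have h3 : ContDiffAt ℝ ∞ (fun w => D e (chartAt E p) w) z :=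
    (cdR (h1.fderiv_right (m := ω) (by simp))).of_le le_top
  have f1 : ContDiffAt ℝ ∞ (fun x : E × E × E => chartAt E p (e.symm x.1)) (z, a, b) :=
    ContDiffAt.comp (z, a, b) (f := fun x : E × E × E => x.1) h2 contDiffAt_fst
  have f2 : ContDiffAt ℝ ∞ (fun x : E × E × E => D e (chartAt E p) x.1) (z, a, b) :=
    ContDiffAt.comp (z, a, b) (f := fun x : E × E × E => x.1) h3 contDiffAt_fst
  have g1 : ContDiffAt ℝ ∞ (fun x : E × E × E => x.2.1) (z, a, b) :=
    contDiffAt_fst.comp (z, a, b) contDiffAt_snd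
  have g2 : ContDiffAt ℝ ∞ (fun x : E × E × E => x.2.2) (z, a, b) :=
    contDiffAt_snd.comp (z, a, b) contDiffAt_snd
  have hD : ∀ {g : E × E × E → E}, ContDiffAt ℝ ∞ g (z, a, b) →
      ContDiffAt ℝ ∞ (fun x => D e (chartAt E p) x.1 (g x)) (z, a, b) := by
    intro g hg
    have hR : ContDiffAt ℝ ∞ (fun x : E × E × E =>
        ContinuousLinearMap.restrictScalarsL ℂ E E ℝ ℝ (D e (chartAt E p) x.1)) (z, a, b) :=
      (ContinuousLinearMap.restrictScalarsL ℂ E E ℝ ℝ).contDiff.contDiffAt.comp (z, a, b) f2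
    exact hR.clm_apply hg
  have k := f1.prodMk ((hD g1).prodMk (hD g2))
  have hz0 : chartAt E p (e.symm z) ∈ (chartAt E p).target := (chartAt E p).map_source hs
  have k2 : ContDiffAt ℝ ∞ (fun x : E × E × E => locE h (chartAt E p) x.1 x.2.1 x.2.2)
      (chartAt E p (e.symm z), D e (chartAt E p) z a, D e (chartAt E p) z b) :=
    locE_cd0 h hz0 _ _
  have k3 := ContDiffAt.comp (z, a, b) k2 k
  refine k3.congr_of_eventuallyEq ?_
  have hev : ∀ᶠ x : E × E × E in 𝓝 (z, a, b), x.1 ∈ e.target ∧ e.symm x.1 ∈ (chartAt E p).source :=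
    (continuousAt_fst (p := (z, (a, b)))).eventually
      (ev_symm hz ((chartAt E p).open_source.mem_nhds hs))
  filter_upwards [hev] with x hx
  exact locE_change h he (chart_hc p) hx.1 hx.2 _ _

/-- the function `(z, a) ↦ |a|²` -/
noncomputable def HF (e : OpenPartialHomeomorph M E) (p : E × E) : ℝ := (locE h e p.1 p.2 p.2).re

lemma locE_self (e : OpenPartialHomeomorph M E) (z a : E) : locE h e z a a = (HF h e (z, a) : ℂ) := by
  refine Complex.ext ?_ ?_
  · simp [HF]
  · simp [locE_self_im]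

lemma HF_cd {e : OpenPartialHomeomorph M E} (he : e ∈ HC E M) {z : E} (hz : z ∈ e.target) (a : E) :
    ContDiffAt ℝ ∞ (HF h e) (z, a) := by
  have h1 : ContDiffAt ℝ ∞ (fun x : E × E => (x.1, x.2, x.2)) (z, a) :=
    contDiffAt_fst.prodMk (contDiffAt_snd.prodMk contDiffAt_snd)
  have h2 := ContDiffAt.comp (z, a) (locE_cd h he hz a a) h1
  exact Complex.reCLM.contDiff.contDiffAt.comp (z, a) h2

lemma HF_smul (e : OpenPartialHomeomorph M E) (z a : E) (c : ℂ) :
    HF h e (z, c • a) = ‖c‖ ^ 2 * HF h e (z, a) := by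
  unfold HF
  simp only [locE_smul_left, locE_smul_right]
  rw [← mul_assoc, mul_comm (starRingEnd ℂ c) c, Complex.mul_conj, Complex.normSq_eq_norm_sq,
    Complex.re_ofReal_mul]

lemma HF_pos {e : OpenPartialHomeomorph M E} (he : e ∈ HC E M) {z : E} (hz : z ∈ e.target)
    {a : E} (ha : a ≠ 0) : 0 < HF h e (z, a) := locE_pos he hz ha

lemma HF_nonneg {e : OpenPartialHomeomorph M E} (he : e ∈ HC E M) {z : E} (hz : z ∈ e.target)
    (a : E) : 0 ≤ HF h e (z, a) := by
  by_cases ha : a = 0
  · simp [HF, ha, locE]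
  · exact (HF_pos h he hz ha).le

/-- `h` has positive curvature at the point with the coordinates `z`, in the direction `q`. -/
def PosE (e : OpenPartialHomeomorph M E) (z q : E) : Prop :=
  ∀ a, a ≠ 0 → ∃ b, lev (HF h e) (z, a) (q, b) < 0

lemma PosE_change {e e' : OpenPartialHomeomorph M E} (he : e ∈ HC E M) (he' : e' ∈ HC E M) {z : E}
    (hz : z ∈ e.target) (hz' : e.symm z ∈ e'.source) {q : E} (hp : PosE h e z q) :
    PosE h e' (e' (e.symm z)) (D e e' z q) := by
  intro a' ha'
  set z' := e' (e.symm z) with hz'def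
  have hz't : z' ∈ e'.target := e'.map_source hz'
  have hzz : e'.symm z' = e.symm z := e'.left_inv hz'
  have hzs : e'.symm z' ∈ e.source := by rw [hzz]; exact e.map_target hz
  have hez : e (e'.symm z') = z := by rw [hzz]; exact e.right_inv hz
  set a := D e' e z' a' with hadef
  have ha : a ≠ 0 := D_inj he' he hz't hzs ha'
  have haa : D e e' z a = a' := by
    have h1 := D_comp he' he he' hz't hzs (e'.map_target hz't) a'
    rw [hez, D_self hz't] at h1
    exact h1
  obtain ⟨b, hb⟩ := hp a ha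
  let T : E × E → E × E := fun x => (e' (e.symm x.1), D e e' x.1 x.2)
  have t1 : ContDiffAt ℂ ω (fun w => e' (e.symm w)) z := tr_cd he he' hz hz'
  have t2 : ContDiffAt ℂ ω (fun w => D e e' w) z := t1.fderiv_right (m := ω) (by simp)
  have t3 : ContDiffAt ℂ ω (fun x : E × E => e' (e.symm x.1)) (z, a) :=
    ContDiffAt.comp (z, a) (f := fun x : E × E => x.1) t1 contDiffAt_fst
  have t4 : ContDiffAt ℂ ω (fun x : E × E => D e e' x.1 x.2) (z, a) :=
    (ContDiffAt.comp (z, a) (f := fun x : E × E => x.1) t2 contDiffAt_fst).clm_apply contDiffAt_snd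
  have hT : ContDiffAt ℂ ω T (z, a) := t3.prodMk t4
  have hT0 : T (z, a) = (z', a') := by simp only [T]; rw [haa]
  have hF : ContDiffAt ℝ 2 (HF h e') (T (z, a)) := by
    rw [hT0]; exact (HF_cd h he' hz't a').of_le two_le
  have h1 := lev_comp hF (hT.of_le le_top) (q, b)
  have h2 : lev (HF h e) (z, a) (q, b) = lev (fun w => HF h e' (T w)) (z, a) (q, b) := by
    refine lev_congr ?_ _
    have hev : ∀ᶠ x : E × E in 𝓝 (z, a), x.1 ∈ e.target ∧ e.symm x.1 ∈ e'.source :=
      (continuousAt_fst (p := (z, a))).eventually (ev_symm hz (e'.open_source.mem_nhds hz'))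
    filter_upwards [hev] with x hx
    exact congrArg Complex.re (locE_change h he he' hx.1 hx.2 x.2 x.2)
  have h3 : fderiv ℂ T (z, a) (q, b) = (D e e' z q, (fderiv ℂ T (z, a) (q, b)).2) := by
    refine Prod.ext ?_ rfl
    have d1 := (t3.differentiableAt (by simp)).hasFDerivAt
    have d2 := (t4.differentiableAt (by simp)).hasFDerivAt
    have d3 : fderiv ℂ T (z, a) = _ := (d1.prodMk d2).fderiv
    have d4 : fderiv ℂ (fun x : E × E => e' (e.symm x.1)) (z, a) (q, b) = D e e' z q := by
      have d5 : HasFDerivAt (fun w => e' (e.symm w)) (D e e' z) ((Prod.fst : E × E → E) (z, a)) :=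
        (t1.differentiableAt (by simp)).hasFDerivAt
      have d6 := d5.comp (z, a) (hasFDerivAt_fst (p := (z, a)))
      have d7 : fderiv ℂ (fun x : E × E => e' (e.symm x.1)) (z, a) = _ := d6.fderiv
      rw [d7]; rfl
    rw [d3]
    exact d4
  rw [h2, h1, hT0, h3] at hb
  exact ⟨_, hb⟩

lemma lev_HF_smul {e : OpenPartialHomeomorph M E} (he : e ∈ HC E M) {z : E} (hz : z ∈ e.target)
    (a q b : E) (r : ℝ) :
    lev (HF h e) (z, (r : ℂ) • a) (q, (r : ℂ) • b) = r ^ 2 * lev (HF h e) (z, a) (q, b) := by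
  let T : E × E → E × E := fun x => (x.1, (r : ℂ) • x.2)
  have hT : ContDiffAt ℂ ω T (z, a) := contDiffAt_fst.prodMk (contDiffAt_snd.const_smul (r : ℂ))
  have hF : ContDiffAt ℝ 2 (HF h e) (T (z, a)) := (HF_cd h he hz _).of_le two_le
  have h1 := lev_comp hF (hT.of_le le_top) (q, b)
  have h2 : fderiv ℂ T (z, a) (q, b) = (q, (r : ℂ) • b) := by
    have d1 := (hasFDerivAt_fst (𝕜 := ℂ) (p := (z, a))).prodMk
      ((hasFDerivAt_snd (𝕜 := ℂ) (p := (z, a))).const_smul (r : ℂ))
    have d2 : fderiv ℂ T (z, a) = _ := d1.fderiv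
    rw [d2]; rfl
  rw [h2] at h1
  rw [← lev_const_mul ((HF_cd h he hz a).of_le two_le)]
  have h3 : (fun w : E × E => HF h e (T w)) = fun w => r ^ 2 * HF h e w := by
    funext w
    have := HF_smul h e w.1 w.2 (r : ℂ)
    simp only [Complex.norm_real, Real.norm_eq_abs, sq_abs] at this
    exact this
  rw [← h3, h1]

lemma PosE_open {e : OpenPartialHomeomorph M E} (he : e ∈ HC E M) {z q : E} (hz : z ∈ e.target)
    (hp : PosE h e z q) : ∀ᶠ x : E × E in 𝓝 (z, q), PosE h e x.1 x.2 := by
  have hK : IsCompact (Metric.sphere (0 : E) 1) := by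
    have : ProperSpace E := FiniteDimensional.proper ℂ E
    exact isCompact_sphere 0 1
  have key : ∀ᶠ x : E × E in 𝓝 (z, q), ∀ a ∈ Metric.sphere (0 : E) 1,
      ∃ b, lev (HF h e) (x.1, a) (x.2, b) < 0 := by
    refine hK.eventually_forall_of_forall_eventually fun a ha => ?_
    have ha0 : a ≠ 0 := by
      rintro rfl; simp at ha
    obtain ⟨b, hb⟩ := hp a ha0
    have hc := lev_continuousAt (HF_cd h he hz a) (q, b)
    have hm : ContinuousAt (fun x : (E × E) × E => (((x.1.1, x.2), (x.1.2, b)) : (E × E) × (E × E)))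
        ((z, q), a) := by fun_prop
    have hc1 : ∀ᶠ y : (E × E) × (E × E) in 𝓝 ((z, a), (q, b)), lev (HF h e) y.1 y.2 < 0 :=
      hc.eventually (gt_mem_nhds hb)
    have hc2 := hm.eventually hc1
    filter_upwards [hc2] with x hx
    exact ⟨b, hx⟩
  have hev : ∀ᶠ x : E × E in 𝓝 (z, q), x.1 ∈ e.target :=
    (continuousAt_fst (p := (z, q))).eventually (e.open_target.mem_nhds hz)
  filter_upwards [key, hev] with x hx hxt a ha
  have hna : ‖a‖ ≠ 0 := norm_ne_zero_iff.2 ha
  obtain ⟨b, hb⟩ := hx ((‖a‖⁻¹ : ℝ) • a) (by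
    rw [mem_sphere_zero_iff_norm, norm_smul, Real.norm_eq_abs, abs_of_nonneg (by positivity),
      inv_mul_cancel₀ hna])
  refine ⟨((‖a‖ : ℝ) : ℂ) • b, ?_⟩
  have h1 := lev_HF_smul h he hxt ((‖a‖⁻¹ : ℝ) • a) x.2 b ‖a‖
  have h2 : ((‖a‖ : ℝ) : ℂ) • ((‖a‖⁻¹ : ℝ) • a) = a := by
    rw [Complex.coe_smul, smul_smul, mul_inv_cancel₀ hna, one_smul]
  rw [h2] at h1
  rw [h1]
  have h3 : 0 < ‖a‖ ^ 2 := by positivity
  exact mul_neg_of_pos_of_neg h3 hb

end Pool.Agent.H301_RC
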