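import Pool.Agent.H301_RC.FS

/-! Normalization of a lift and the dimension count. -/

set_option autoImplicit false
set_option linter.unusedSectionVars false

open scoped Manifold ContDiff Topology ComplexConjugate InnerProductSpace
open Filter Module

namespace Pool.Agent.H301_RC

variable {V : Type*} [NormedAddCommGroup V] [InnerProductSpace ℂ V]
  {E : Type*} [NormedAddCommGroup E] [NormedSpace ℂ E]

/-- The linear functional which normalizes the lift. -/
noncomputable def nl (G : E → V) (z : E) : E →L[ℂ] ℂ :=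
  (⟪G z, G z⟫_ℂ)⁻¹ • (innerSL ℂ (G z)).comp (fderiv ℂ G z)

lemma nl_apply (G : E → V) (z u : E) :
    nl G z u = (⟪G z, G z⟫_ℂ)⁻¹ * ⟪G z, fderiv ℂ G z u⟫_ℂ := by
  simp [nl]

/-- The normalized lift. -/
noncomputable def nG (G : E → V) (z : E) (w : E) : V := Complex.exp (-(nl G z (w - z))) • G w

lemma nG_self (G : E → V) (z : E) : nG G z z = G z := by simp [nG]

lemma exp_hasFDerivAt (G : E → V) (z w : E) :
    HasFDerivAt (fun w => Complex.exp (-(nl G z (w - z))))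
      (Complex.exp (-(nl G z (w - z))) • (-(nl G z))) w := by
  have h1 : HasFDerivAt (fun w => -(nl G z (w - z))) (-(nl G z)) w := by
    have h2 : HasFDerivAt (fun w => -(nl G z w - nl G z z)) (-(nl G z)) w :=
      ((nl G z).hasFDerivAt.sub_const _).neg
    simpa only [map_sub] using h2
  exact h1.cexp

lemma nG_fderiv {G : E → V} {z w : E} (hw : DifferentiableAt ℂ G w) (u : E) :
    fderiv ℂ (nG G z) w u = Complex.exp (-(nl G z (w - z))) • fderiv ℂ G w u +
      (-(Complex.exp (-(nl G z (w - z))) * nl G z u)) • G w := by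
  have h := (exp_hasFDerivAt G z w).smul hw.hasFDerivAt
  have h2 : fderiv ℂ (nG G z) w = _ := h.fderiv
  rw [h2]
  simp [mul_comm]

lemma nG_contDiffAt {G : E → V} {z : E} (hG : ContDiffAt ℂ ω G z) :
    ContDiffAt ℂ ω (nG G z) z := by
  have h1 : ContDiff ℂ ω fun w => Complex.exp (-(nl G z (w - z))) :=
    (((nl G z).contDiff.comp (contDiff_id.sub contDiff_const)).neg).cexp
  exact h1.contDiffAt.smul hG

lemma nG_normalized {G : E → V} {z : E} (hG : DifferentiableAt ℂ G z) (h0 : G z ≠ 0) (u : E) :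
    ⟪nG G z z, fderiv ℂ (nG G z) z u⟫_ℂ = 0 := by
  have h1 : ⟪G z, G z⟫_ℂ ≠ 0 := inner_self_ne_zero.2 h0
  rw [nG_fderiv hG, nG_self]
  simp only [sub_self, map_zero, neg_zero, Complex.exp_zero, one_smul, one_mul, inner_add_right,
    inner_smul_right, nl_apply]
  field_simp
  ring

lemma fs_nG {G : E → V} {z w : E} (hw : DifferentiableAt ℂ G w) (u u' : E) :
    fs (nG G z w) (fderiv ℂ (nG G z) w u) (fderiv ℂ (nG G z) w u') =
      fs (G w) (fderiv ℂ G w u) (fderiv ℂ G w u') := by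
  rw [nG_fderiv hw, nG_fderiv hw]
  exact fs_change (Complex.exp_ne_zero _) _ _ _ _ _

variable [FiniteDimensional ℂ E] [FiniteDimensional ℂ V]

/-- Dimension count: the second fundamental form `v ↦ A(v, a)` has a kernel. -/
lemma exists_kernel {G : E → V} {z : E} (h0 : G z ≠ 0)
    (hn : ∀ u, ⟪G z, fderiv ℂ G z u⟫_ℂ = 0) (hi : ∀ u, fderiv ℂ G z u = 0 → u = 0)
    (hdim : finrank ℂ V ≤ 2 * finrank ℂ E) (a : E) :
    ∃ v : E, v ≠ 0 ∧ ∃ (a₁ : E) (l : ℂ),
      fderiv ℂ (fderiv ℂ G) z v a = fderiv ℂ G z a₁ + l • G z := by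
  set S : Submodule ℂ V := LinearMap.range (fderiv ℂ G z : E →ₗ[ℂ] V) ⊔ ℂ ∙ (G z) with hS
  have hinj : Function.Injective (fderiv ℂ G z : E →ₗ[ℂ] V) := by
    rw [← LinearMap.ker_eq_bot, LinearMap.ker_eq_bot']
    exact hi
  have h1 : finrank ℂ (LinearMap.range (fderiv ℂ G z : E →ₗ[ℂ] V)) = finrank ℂ E :=
    LinearMap.finrank_range_of_inj hinj
  have h2 : finrank ℂ (ℂ ∙ (G z)) = 1 := finrank_span_singleton h0
  have h3 : LinearMap.range (fderiv ℂ G z : E →ₗ[ℂ] V) ⊓ (ℂ ∙ (G z)) = ⊥ := by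
    rw [eq_bot_iff]
    rintro y ⟨⟨u, hu⟩, hy⟩
    obtain ⟨c, rfl⟩ := Submodule.mem_span_singleton.1 hy
    have h4 : ⟪G z, c • G z⟫_ℂ = 0 := by rw [← hu]; exact hn u
    rw [inner_smul_right, mul_eq_zero] at h4
    rcases h4 with h4 | h4
    · simp [h4]
    · exact absurd (inner_self_eq_zero.1 h4) h0
  have h4 : finrank ℂ S = finrank ℂ E + 1 := by
    have := Submodule.finrank_sup_add_finrank_inf_eq
      (LinearMap.range (fderiv ℂ G z : E →ₗ[ℂ] V)) (ℂ ∙ (G z))
    rw [h3, h1, h2, finrank_bot] at this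
    simpa using this
  have h5 : finrank ℂ (V ⧸ S) + finrank ℂ S = finrank ℂ V := S.finrank_quotient_add_finrank
  let T : E →ₗ[ℂ] (V ⧸ S) :=
    S.mkQ.comp (((ContinuousLinearMap.apply ℂ V a).comp (fderiv ℂ (fderiv ℂ G) z)) : E →ₗ[ℂ] V)
  have h6 : LinearMap.ker T ≠ ⊥ := by
    intro hk
    have := LinearMap.finrank_le_finrank_of_injective (LinearMap.ker_eq_bot.1 hk)
    omega
  obtain ⟨v, hv, hv0⟩ := (Submodule.ne_bot_iff _).1 h6
  refine ⟨v, hv0, ?_⟩
  have h7 : fderiv ℂ (fderiv ℂ G) z v a ∈ S := by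
    have : T v = 0 := hv
    simpa [T] using this
  obtain ⟨y, ⟨a₁, ha₁⟩, y', hy', hsum⟩ := Submodule.mem_sup.1 h7
  obtain ⟨l, rfl⟩ := Submodule.mem_span_singleton.1 hy'
  refine ⟨a₁, l, ?_⟩
  rw [← hsum, ← ha₁]; rfl

/-- For a lift `G` of a holomorphic immersion into a projective space of dimension less than
`2 n`. -/
theorem exists_neg {G : E → V} {z : E} (hG : ContDiffAt ℂ ω G z) (h0 : G z ≠ 0)
    (hi : ∀ (u : E) (c : ℂ), fderiv ℂ G z u = c • G z → u = 0)
    (hdim : finrank ℂ V ≤ 2 * finrank ℂ E) {a : E} (ha : a ≠ 0) :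
    ∃ v a₁ : E, (ddz fun ζ => fs (G (z + ζ • v)) (fderiv ℂ G (z + ζ • v) (a - ζ • a₁))
      (fderiv ℂ G (z + ζ • v) (a - ζ • a₁))).re < 0 := by
  have hd : DifferentiableAt ℂ G z := hG.differentiableAt (by simp)
  have c1 := nG_contDiffAt hG
  have c2 : nG G z z ≠ 0 := by rw [nG_self]; exact h0
  have c3 := nG_normalized hd h0
  have c4 : ∀ u, fderiv ℂ (nG G z) z u = 0 → u = 0 := by
    intro u hu
    rw [nG_fderiv hd] at hu
    simp only [sub_self, map_zero, neg_zero, Complex.exp_zero, one_smul, one_mul] at hu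
    refine hi u (nl G z u) ?_
    rw [← sub_eq_zero, ← hu, neg_smul, sub_eq_add_neg]
  obtain ⟨v, hv, a₁, l, h⟩ := exists_kernel c2 c3 c4 hdim a
  refine ⟨v, a₁, ?_⟩
  have key := ddz_fs_neg c1 c2 c3 c4 hv ha h
  have hev : ∀ᶠ w in 𝓝 z, DifferentiableAt ℂ G w := by
    have h1 : ContDiffAt ℂ 1 G z := hG.of_le le_top
    filter_upwards [h1.eventually (by simp)] with w hw
    exact hw.differentiableAt (by simp)
  have hev2 : ∀ᶠ ζ in 𝓝 (0 : ℂ), DifferentiableAt ℂ G (z + ζ • v) := by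
    have h1 : Tendsto (fun ζ : ℂ => z + ζ • v) (𝓝 0) (𝓝 z) := by
      have h2 : Continuous fun ζ : ℂ => z + ζ • v := by fun_prop
      simpa using h2.tendsto 0
    exact h1.eventually hev
  rw [ddz_congr (g := fun ζ => fs (nG G z (z + ζ • v))
    (fderiv ℂ (nG G z) (z + ζ • v) (a - ζ • a₁))
    (fderiv ℂ (nG G z) (z + ζ • v) (a - ζ • a₁)))]
  · exact key
  · filter_upwards [hev2] with ζ hζ
    exact (fs_nG hζ _ _).symm

end Pool.Agent.H301_RC
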