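import Pool.Agent.H301_RC.ImmDefs
import Pool.Agent.H301_RC.Norm

/-! The metric on the tangent bundle induced by an immersion into a projective space. -/

set_option autoImplicit false
set_option linter.unusedSectionVars false

open scoped Manifold ContDiff Topology ComplexConjugate InnerProductSpace
  LinearAlgebra.Projectivization
open Filter Module Set

namespace Pool.Agent.H301_RC

variable {E : Type*} [NormedAddCommGroup E] [NormedSpace ℂ E]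
  {M : Type*} [TopologicalSpace M] [ChartedSpace E M] [IsManifold 𝓘(ℂ, E) ω M]
  {N : ℕ} {f : M → ℙ ℂ (EuclideanSpace ℂ (Fin (N + 1)))}

instance : IsManifold 𝓘(ℂ, E) 1 M := IsManifold.of_le (n := ω) le_top

/-- coordinates of the chart at `x` -/
noncomputable abbrev ψ (E : Type*) [NormedAddCommGroup E] [NormedSpace ℂ E]
    {M : Type*} [TopologicalSpace M] [ChartedSpace E M] (x : M) : E → M :=
  (extChartAt 𝓘(ℂ, E) x).symm

lemma psi_contMDiffAt {x : M} {z : E} (hz : z ∈ (extChartAt 𝓘(ℂ, E) x).target) :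
    ContMDiffAt 𝓘(ℂ, E) 𝓘(ℂ, E) ω (ψ E x) z := by
  have h := (contMDiffOn_extChartAt_symm (I := 𝓘(ℂ, E)) (n := ω) x).contMDiffAt
    ((isOpen_extChartAt_target x).mem_nhds hz)
  exact h

lemma comp_contDiffAt {V : Type*} [NormedAddCommGroup V] [NormedSpace ℂ V] {F : M → V} {x : M}
    {z : E} (hz : z ∈ (extChartAt 𝓘(ℂ, E) x).target)
    (hF : ContMDiffAt 𝓘(ℂ, E) 𝓘(ℂ, V) ω F (ψ E x z)) :
    ContDiffAt ℂ ω (F ∘ ψ E x) z := by
  have h : ContMDiffAt 𝓘(ℂ, E) 𝓘(ℂ, V) ω (F ∘ ψ E x) z := hF.comp z (psi_contMDiffAt hz)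
  exact h.contDiffAt

lemma mfderiv_eq {V : Type*} [NormedAddCommGroup V] [NormedSpace ℂ V] {F : M → V} {x : M}
    (hF : ContMDiffAt 𝓘(ℂ, E) 𝓘(ℂ, V) ω F x) (u : E) :
    mfderiv 𝓘(ℂ, E) 𝓘(ℂ, V) F x u = fderiv ℂ (F ∘ ψ E x) (extChartAt 𝓘(ℂ, E) x x) u := by
  have h : MDifferentiableAt 𝓘(ℂ, E) 𝓘(ℂ, V) F x := hF.mdifferentiableAt (by simp)
  have h1 : mfderiv 𝓘(ℂ, E) 𝓘(ℂ, V) F x = fderiv ℂ (F ∘ ψ E x) (extChartAt 𝓘(ℂ, E) x x) := by
    rw [h.mfderiv]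
    simp only [writtenInExtChartAt, extChartAt_model_space_eq_id, PartialEquiv.refl_coe,
      modelWithCornersSelf_coe, range_id, fderivWithin_univ]
    rfl
  rw [h1]
  rfl

/-- The derivatives in two charts. -/
lemma fderiv_change {V : Type*} [NormedAddCommGroup V] [NormedSpace ℂ V] {F : M → V} {x : M}
    {z : E} (hz : z ∈ (extChartAt 𝓘(ℂ, E) x).target)
    (hF : ContMDiffAt 𝓘(ℂ, E) 𝓘(ℂ, V) ω F (ψ E x z)) (u : E) :
    fderiv ℂ (F ∘ ψ E x) z u =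
      fderiv ℂ (F ∘ ψ E (ψ E x z)) (extChartAt 𝓘(ℂ, E) (ψ E x z) (ψ E x z))
        (tangentCoordChange 𝓘(ℂ, E) x (ψ E x z) (ψ E x z) u) := by
  set y := ψ E x z with hy
  have hys : y ∈ (extChartAt 𝓘(ℂ, E) x).source := (extChartAt 𝓘(ℂ, E) x).map_target hz
  have hyy : y ∈ (extChartAt 𝓘(ℂ, E) y).source := mem_extChartAt_source y
  have h1 := hasFDerivWithinAt_tangentCoordChange (I := 𝓘(ℂ, E)) (x := x) (y := y) (z := y)
    ⟨hys, hyy⟩
  have hzz : extChartAt 𝓘(ℂ, E) x y = z := (extChartAt 𝓘(ℂ, E) x).right_inv hz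
  rw [hzz] at h1
  simp only [modelWithCornersSelf_coe, range_id, hasFDerivWithinAt_univ] at h1
  have h2 : ContDiffAt ℂ ω (F ∘ ψ E y) (extChartAt 𝓘(ℂ, E) y y) := by
    refine comp_contDiffAt (mem_extChartAt_target y) ?_
    have : ψ E y (extChartAt 𝓘(ℂ, E) y y) = y := extChartAt_to_inv y
    rw [this]; exact hF
  have h3 : HasFDerivAt (F ∘ ψ E y) (fderiv ℂ (F ∘ ψ E y) (extChartAt 𝓘(ℂ, E) y y))
      ((extChartAt 𝓘(ℂ, E) y ∘ (extChartAt 𝓘(ℂ, E) x).symm) z) := by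
    have : (extChartAt 𝓘(ℂ, E) y ∘ (extChartAt 𝓘(ℂ, E) x).symm) z = extChartAt 𝓘(ℂ, E) y y := rfl
    rw [this]
    exact (h2.differentiableAt (by simp)).hasFDerivAt
  have h4 := h3.comp z h1
  have h5 : F ∘ ψ E x =ᶠ[𝓝 z]
      (F ∘ ψ E y) ∘ (extChartAt 𝓘(ℂ, E) y ∘ (extChartAt 𝓘(ℂ, E) x).symm) := by
    have h6 : ∀ᶠ w in 𝓝 z, ψ E x w ∈ (extChartAt 𝓘(ℂ, E) y).source := by
      have h7 : ContinuousAt (ψ E x) z := (psi_contMDiffAt hz).continuousAt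
      exact h7.eventually ((isOpen_extChartAt_source y).mem_nhds hyy)
    filter_upwards [h6] with w hw
    simp only [Function.comp_apply]
    congr 1
    exact ((extChartAt 𝓘(ℂ, E) y).left_inv hw).symm
  have h6 : fderiv ℂ (F ∘ ψ E x) z = _ := (h4.congr_of_eventuallyEq h5).fderiv
  rw [h6]; rfl

section lifts

variable {V : Type*} [NormedAddCommGroup V] [InnerProductSpace ℂ V]

lemma fs_prop {G G' : E → V} {z : E} {c : E → ℂ} (hc : DifferentiableAt ℂ c z)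
    (hG' : DifferentiableAt ℂ G' z) (hev : G =ᶠ[𝓝 z] fun w => c w • G' w) (hc0 : c z ≠ 0)
    (a b : E) :
    fs (G z) (fderiv ℂ G z a) (fderiv ℂ G z b) = fs (G' z) (fderiv ℂ G' z a) (fderiv ℂ G' z b) := by
  have hval : G z = c z • G' z := hev.self_of_nhds
  have hder : ∀ u, fderiv ℂ G z u = c z • fderiv ℂ G' z u + (fderiv ℂ c z u) • G' z := by
    intro u
    have h1 := hc.hasFDerivAt.smul hG'.hasFDerivAt
    have h2 : fderiv ℂ G z = _ := (h1.congr_of_eventuallyEq hev).fderiv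
    rw [h2]
    simp
  rw [hder a, hder b, hval]
  exact fs_change hc0 _ _ _ _ _

lemma ratio_diff {G G' : E → V} {z : E} (hG : DifferentiableAt ℂ G z)
    (hG' : DifferentiableAt ℂ G' z) (h0 : G' z ≠ 0) :
    DifferentiableAt ℂ (fun w => ⟪G' z, G w⟫_ℂ * (⟪G' z, G' w⟫_ℂ)⁻¹) z := by
  have d1 : DifferentiableAt ℂ (fun w => ⟪G' z, G w⟫_ℂ) z :=
    (innerSL ℂ (G' z)).differentiableAt.comp z hG
  have d2 : DifferentiableAt ℂ (fun w => ⟪G' z, G' w⟫_ℂ) z :=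
    (innerSL ℂ (G' z)).differentiableAt.comp z hG'
  exact DifferentiableAt.fun_mul d1 (DifferentiableAt.fun_inv d2 (inner_self_ne_zero.2 h0))

lemma fs_prop2 {G G' : E → V} {z : E} (hG : DifferentiableAt ℂ G z)
    (hG' : DifferentiableAt ℂ G' z) (h0 : G' z ≠ 0) (h0' : G z ≠ 0)
    (hev : ∀ᶠ w in 𝓝 z, ∃ k : ℂ, G w = k • G' w) (a b : E) :
    fs (G z) (fderiv ℂ G z a) (fderiv ℂ G z b) = fs (G' z) (fderiv ℂ G' z a) (fderiv ℂ G' z b) := by
  have hφ0 : ⟪G' z, G' z⟫_ℂ ≠ 0 := inner_self_ne_zero.2 h0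
  have hφ : ∀ᶠ w in 𝓝 z, ⟪G' z, G' w⟫_ℂ ≠ 0 := by
    have h1 : ContinuousAt (fun w => ⟪G' z, G' w⟫_ℂ) z :=
      continuousAt_const.inner hG'.continuousAt
    exact h1.eventually_ne hφ0
  have hev2 : G =ᶠ[𝓝 z] fun w => (⟪G' z, G w⟫_ℂ * (⟪G' z, G' w⟫_ℂ)⁻¹) • G' w := by
    filter_upwards [hφ, hev] with w h1 h2
    obtain ⟨k, hk⟩ := h2
    have h3 : ⟪G' z, G w⟫_ℂ * (⟪G' z, G' w⟫_ℂ)⁻¹ = k := by
      rw [hk, inner_smul_right, mul_assoc, mul_inv_cancel₀ h1, mul_one]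
    rw [h3, hk]
  refine fs_prop (ratio_diff hG hG' h0) hG' hev2 ?_ a b
  intro h1
  have h2 : G z = (⟪G' z, G z⟫_ℂ * (⟪G' z, G' z⟫_ℂ)⁻¹) • G' z := hev2.self_of_nhds
  rw [h1, zero_smul] at h2
  exact h0' h2

lemma lifts_prop {U U' : Set M} {F F' : M → EuclideanSpace ℂ (Fin (N + 1))}
    (hF : IsLift (E := E) f U F) (hF' : IsLift (E := E) f U' F') {y : M} (h2 : y ∈ U)
    (h3 : y ∈ U') : ∃ k : ℂ, F y = k • F' y := by
  obtain ⟨n1, e1⟩ := hF.lift _ h2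
  obtain ⟨n2, e2⟩ := hF'.lift _ h3
  rw [e1, Projectivization.mk_eq_mk_iff'] at e2
  obtain ⟨k, hk⟩ := e2
  exact ⟨k, hk.symm⟩

/-- Two lifts give the same Fubini-Study form. -/
lemma fs_lifts {U U' : Set M} {F F' : M → EuclideanSpace ℂ (Fin (N + 1))}
    (hF : IsLift (E := E) f U F) (hF' : IsLift (E := E) f U' F') {x : M} {z : E}
    (hz : z ∈ (extChartAt 𝓘(ℂ, E) x).target) (hU : ψ E x z ∈ U) (hU' : ψ E x z ∈ U') (a b : E) :
    fs ((F ∘ ψ E x) z) (fderiv ℂ (F ∘ ψ E x) z a) (fderiv ℂ (F ∘ ψ E x) z b) =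
      fs ((F' ∘ ψ E x) z) (fderiv ℂ (F' ∘ ψ E x) z a) (fderiv ℂ (F' ∘ ψ E x) z b) := by
  have c1 : ContDiffAt ℂ ω (F ∘ ψ E x) z :=
    comp_contDiffAt hz (hF.holomorphic.contMDiffAt (hF.isOpen.mem_nhds hU))
  have c2 : ContDiffAt ℂ ω (F' ∘ ψ E x) z :=
    comp_contDiffAt hz (hF'.holomorphic.contMDiffAt (hF'.isOpen.mem_nhds hU'))
  have hcont : ContinuousAt (ψ E x) z := (psi_contMDiffAt hz).continuousAt
  refine fs_prop2 (c1.differentiableAt (by simp)) (c2.differentiableAt (by simp))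
    (hF'.lift _ hU').1 (hF.lift _ hU).1 ?_ a b
  filter_upwards [hcont.eventually (hF.isOpen.mem_nhds hU),
      hcont.eventually (hF'.isOpen.mem_nhds hU')] with w h2 h3
  exact lifts_prop hF hF' h2 h3

end lifts

/-- the chosen lift -/
noncomputable def cF (hf : HolomorphicImmersion E f) (x : M) : M → EuclideanSpace ℂ (Fin (N + 1)) :=
  (hf x).choose_spec.choose

/-- the chosen open set -/
noncomputable def cU (hf : HolomorphicImmersion E f) (x : M) : Set M := (hf x).choose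

lemma mem_cU (hf : HolomorphicImmersion E f) (x : M) : x ∈ cU hf x :=
  (hf x).choose_spec.choose_spec.1

lemma isLift_cF (hf : HolomorphicImmersion E f) (x : M) : IsLift (E := E) f (cU hf x) (cF hf x) :=
  (hf x).choose_spec.choose_spec.2.1

lemma cF_inj (hf : HolomorphicImmersion E f) (x : M) (u : E) (c : ℂ)
    (h : fderiv ℂ (cF hf x ∘ ψ E x) (extChartAt 𝓘(ℂ, E) x x) u = c • cF hf x x) : u = 0 := by
  refine (hf x).choose_spec.choose_spec.2.2 u c ?_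
  rw [← mfderiv_eq ((isLift_cF hf x).holomorphic.contMDiffAt
    ((isLift_cF hf x).isOpen.mem_nhds (mem_cU hf x)))] at h
  exact h

/-- the form at `x` -/
noncomputable def fsForm (hf : HolomorphicImmersion E f) (x : M) : E →ₗ[ℂ] E →ₗ⋆[ℂ] ℂ :=
  LinearMap.mk₂'ₛₗ (RingHom.id ℂ) (starRingEnd ℂ)
    (fun a b => fs (cF hf x x) (fderiv ℂ (cF hf x ∘ ψ E x) (extChartAt 𝓘(ℂ, E) x x) a)
      (fderiv ℂ (cF hf x ∘ ψ E x) (extChartAt 𝓘(ℂ, E) x x) b))
    (fun a a' b => by rw [map_add, fs_add_left])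
    (fun k a b => by rw [map_smul, fs_smul_left]; rfl)
    (fun a b b' => by rw [map_add, fs_add_right])
    (fun k a b => by rw [map_smul, fs_smul_right]; rfl)

lemma fsForm_apply (hf : HolomorphicImmersion E f) (x : M) (a b : E) :
    fsForm hf x a b = fs (cF hf x x)
      (fderiv ℂ (cF hf x ∘ ψ E x) (extChartAt 𝓘(ℂ, E) x x) a)
      (fderiv ℂ (cF hf x ∘ ψ E x) (extChartAt 𝓘(ℂ, E) x x) b) := rfl

/-- the form in a chart, for any lift -/
lemma fsForm_chart (hf : HolomorphicImmersion E f) {U : Set M}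
    {F : M → EuclideanSpace ℂ (Fin (N + 1))} (hF : IsLift (E := E) f U F) {x : M} {z : E}
    (hz : z ∈ (extChartAt 𝓘(ℂ, E) x).target) (hU : ψ E x z ∈ U) (a b : E) :
    fsForm hf (ψ E x z) (tangentCoordChange 𝓘(ℂ, E) x (ψ E x z) (ψ E x z) a)
      (tangentCoordChange 𝓘(ℂ, E) x (ψ E x z) (ψ E x z) b) =
    fs ((F ∘ ψ E x) z) (fderiv ℂ (F ∘ ψ E x) z a) (fderiv ℂ (F ∘ ψ E x) z b) := by
  have hy := mem_cU hf (ψ E x z)
  have hl := isLift_cF hf (ψ E x z)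
  have hc := hl.holomorphic.contMDiffAt (hl.isOpen.mem_nhds hy)
  rw [fsForm_apply, ← fderiv_change hz hc a, ← fderiv_change hz hc b]
  exact fs_lifts hl hF hz hy hU a b

lemma fs_smooth {V : Type*} [NormedAddCommGroup V] [InnerProductSpace ℂ V] {G : E → V} {z : E}
    (hG : ContDiffAt ℂ ω G z) (h0 : G z ≠ 0) (a b : E) :
    ContDiffAt ℝ ∞ (fun z => fs (G z) (fderiv ℂ G z a) (fderiv ℂ G z b)) z := by
  have c0 : ContDiffAt ℝ ∞ G z := (hG.of_le le_top).restrict_scalars ℝ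
  have cD : ContDiffAt ℂ ∞ (fderiv ℂ G) z := hG.fderiv_right (by exact le_top)
  have ca : ContDiffAt ℝ ∞ (fun z => fderiv ℂ G z a) z :=
    (cD.clm_apply contDiffAt_const).restrict_scalars ℝ
  have cb : ContDiffAt ℝ ∞ (fun z => fderiv ℂ G z b) z :=
    (cD.clm_apply contDiffAt_const).restrict_scalars ℝ
  have h1 : ContDiffAt ℝ ∞ (fun z => (⟪G z, G z⟫_ℂ * ⟪fderiv ℂ G z b, fderiv ℂ G z a⟫_ℂ -
      ⟪G z, fderiv ℂ G z a⟫_ℂ * ⟪fderiv ℂ G z b, G z⟫_ℂ) * (⟪G z, G z⟫_ℂ ^ 2)⁻¹) z := by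
    refine (((c0.inner ℂ c0).mul (cb.inner ℂ ca)).sub ((c0.inner ℂ ca).mul (cb.inner ℂ c0))).mul
      (((c0.inner ℂ c0).pow 2).inv ?_)
    exact pow_ne_zero 2 (inner_self_ne_zero.2 h0)
  exact h1

/-- The metric on the tangent bundle. -/
noncomputable def fsMetric (hf : HolomorphicImmersion E f) :
    HermitianMetric (idRep E) M where
  form := fsForm hf
  inner x := ⟨fun a b => by rw [fsForm_apply, fsForm_apply, fs_conj], fun a ha => by
    rw [fsForm_apply]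
    exact fs_self_pos ((isLift_cF hf x).lift _ (mem_cU hf x)).1
      fun c hc => ha (cF_inj hf x a c hc)⟩
  smooth x a b := by
    intro z hz
    refine ContDiffAt.contDiffWithinAt ?_
    have hl := isLift_cF hf (ψ E x z)
    have hy := mem_cU hf (ψ E x z)
    have hcont : ContinuousAt (ψ E x) z := (psi_contMDiffAt hz).continuousAt
    have c1 : ContDiffAt ℂ ω (cF hf (ψ E x z) ∘ ψ E x) z :=
      comp_contDiffAt hz (hl.holomorphic.contMDiffAt (hl.isOpen.mem_nhds hy))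
    refine (fs_smooth c1 (hl.lift _ hy).1 a b).congr_of_eventuallyEq ?_
    filter_upwards [hcont.eventually (hl.isOpen.mem_nhds hy),
      (isOpen_extChartAt_target x).mem_nhds hz] with w h1 h2
    exact fsForm_chart hf hl h2 h1 a b

theorem fsMetric_rc [FiniteDimensional ℂ E] (hf : HolomorphicImmersion E f)
    (hN : N < 2 * finrank ℂ E) : (fsMetric hf).RCPositive := by
  intro x a ha
  have hz : extChartAt 𝓘(ℂ, E) x x ∈ (extChartAt 𝓘(ℂ, E) x).target := mem_extChartAt_target x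
  have hψ : ψ E x (extChartAt 𝓘(ℂ, E) x x) = x := extChartAt_to_inv x
  have hl := isLift_cF hf x
  have hy := mem_cU hf x
  have hy' : ψ E x (extChartAt 𝓘(ℂ, E) x x) ∈ cU hf x := by rw [hψ]; exact hy
  have c1 : ContDiffAt ℂ ω (cF hf x ∘ ψ E x) (extChartAt 𝓘(ℂ, E) x x) :=
    comp_contDiffAt hz (hl.holomorphic.contMDiffAt (hl.isOpen.mem_nhds hy'))
  have c2 : (cF hf x ∘ ψ E x) (extChartAt 𝓘(ℂ, E) x x) ≠ 0 := (hl.lift _ hy').1
  have c3 : ∀ (u : E) (c : ℂ), fderiv ℂ (cF hf x ∘ ψ E x) (extChartAt 𝓘(ℂ, E) x x) u =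
      c • (cF hf x ∘ ψ E x) (extChartAt 𝓘(ℂ, E) x x) → u = 0 := by
    intro u c h
    refine cF_inj hf x u c ?_
    rw [h, Function.comp_apply, hψ]
  have hdim : finrank ℂ (EuclideanSpace ℂ (Fin (N + 1))) ≤ 2 * finrank ℂ E := by
    simp; omega
  obtain ⟨v, a₁, hneg⟩ := exists_neg c1 c2 c3 hdim ha
  have hloc : ∀ z (hz : z ∈ (extChartAt 𝓘(ℂ, E) x).target) (hU : ψ E x z ∈ cU hf x) (a b : E),
      (fsMetric hf).loc x z a b = fs ((cF hf x ∘ ψ E x) z)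
        (fderiv ℂ (cF hf x ∘ ψ E x) z a) (fderiv ℂ (cF hf x ∘ ψ E x) z b) :=
    fun z hz hU a b => fsForm_chart hf hl hz hU a b
  have hpos : ∀ a, a ≠ 0 →
      (fsMetric hf).loc x (extChartAt 𝓘(ℂ, E) x x) a a ≠ 0 := by
    intro b hb h0
    rw [hloc _ hz hy'] at h0
    have := fs_self_pos c2 (X := fderiv ℂ (cF hf x ∘ ψ E x) (extChartAt 𝓘(ℂ, E) x x) b)
      fun c hc => hb (c3 b c hc)
    rw [h0] at this
    simp at this
  obtain ⟨r, hr, hle⟩ := (fsMetric hf).exists_curvature hpos v a a₁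
  refine ⟨v, r, hr, lt_of_lt_of_le ?_ hle⟩
  have hcont : ContinuousAt (ψ E x) (extChartAt 𝓘(ℂ, E) x x) := (psi_contMDiffAt hz).continuousAt
  have hev : ∀ᶠ w in 𝓝 (extChartAt 𝓘(ℂ, E) x x), w ∈ (extChartAt 𝓘(ℂ, E) x).target ∧
      ψ E x w ∈ cU hf x :=
    Filter.Eventually.and ((isOpen_extChartAt_target x).mem_nhds hz)
      (hcont.eventually (hl.isOpen.mem_nhds hy'))
  have hev2 : ∀ᶠ ζ in 𝓝 (0 : ℂ), extChartAt 𝓘(ℂ, E) x x + ζ • v ∈
      (extChartAt 𝓘(ℂ, E) x).target ∧ ψ E x (extChartAt 𝓘(ℂ, E) x x + ζ • v) ∈ cU hf x := by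
    have h1 : Tendsto (fun ζ : ℂ => extChartAt 𝓘(ℂ, E) x x + ζ • v) (𝓝 0)
        (𝓝 (extChartAt 𝓘(ℂ, E) x x)) := by
      have h2 : Continuous fun ζ : ℂ => extChartAt 𝓘(ℂ, E) x x + ζ • v := by fun_prop
      simpa using h2.tendsto 0
    exact h1.eventually hev
  rw [ddz_congr (g := fun ζ => fs ((cF hf x ∘ ψ E x) (extChartAt 𝓘(ℂ, E) x x + ζ • v))
    (fderiv ℂ (cF hf x ∘ ψ E x) (extChartAt 𝓘(ℂ, E) x x + ζ • v) (a - ζ • a₁))
    (fderiv ℂ (cF hf x ∘ ψ E x) (extChartAt 𝓘(ℂ, E) x x + ζ • v) (a - ζ • a₁)))]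
  · linarith
  · filter_upwards [hev2] with ζ hζ
    exact hloc _ hζ.1 hζ.2 _ _

end Pool.Agent.H301_RC
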