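import Pool.Agent.H301_RC.Defs

/-! Holomorphic immersions into projective spaces. -/

set_option autoImplicit false

open scoped Manifold ContDiff Topology ComplexConjugate LinearAlgebra.Projectivization

namespace Pool.Agent.H301_RC

/-- On the open set `U` the holomorphic map `F` is a lift of `f` to homogeneous coordinates. -/
structure IsLift {E : Type*} [NormedAddCommGroup E] [NormedSpace ℂ E]
    {V : Type*} [NormedAddCommGroup V] [NormedSpace ℂ V]
    {M : Type*} [TopologicalSpace M] [ChartedSpace E M]
    (f : M → ℙ ℂ V) (U : Set M) (F : M → V) : Prop where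
  isOpen : IsOpen U
  holomorphic : ContMDiffOn 𝓘(ℂ, E) 𝓘(ℂ, V) ω F U
  lift : ∀ y ∈ U, ∃ h : F y ≠ 0, f y = Projectivization.mk ℂ (F y) h

/-- `f` is a holomorphic immersion of `M` into the projective space of `V`: near every point
`x` it has a holomorphic lift `F` to homogeneous coordinates, and the derivative of `F` at `x` takes
a value in the line `ℂ F(x)` only at `0`. -/
def HolomorphicImmersion (E : Type*) [NormedAddCommGroup E] [NormedSpace ℂ E]
    {V : Type*} [NormedAddCommGroup V] [NormedSpace ℂ V]
    {M : Type*} [TopologicalSpace M] [ChartedSpace E M] (f : M → ℙ ℂ V) : Prop :=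
  ∀ x : M, ∃ (U : Set M) (F : M → V),
    x ∈ U ∧ IsLift (E := E) f U F ∧ ∀ (u : TangentSpace 𝓘(ℂ, E) x) (c : ℂ),
      mfderiv 𝓘(ℂ, E) 𝓘(ℂ, V) F x u = c • F x → u = 0

end Pool.Agent.H301_RC
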