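import Mathlib

/-! The functions `∫₀ˢ e^{Kt} e^{-1/t} dt`. -/

set_option autoImplicit false

open scoped ContDiff Topology
open Filter Set MeasureTheory

namespace Pool.Agent.H301_RC

/-- the function `∫₀ˢ e^{Kt} e^{-1/t} dt` -/
noncomputable def Phi (K s : ℝ) : ℝ := ∫ t in (0 : ℝ)..s, Real.exp (K * t) * expNegInvGlue t

lemma phi_cd (K : ℝ) : ContDiff ℝ ∞ fun t => Real.exp (K * t) * expNegInvGlue t :=
  (Real.contDiff_exp.comp (contDiff_const.mul contDiff_id)).mul expNegInvGlue.contDiff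

lemma Phi_hasDerivAt (K s : ℝ) : HasDerivAt (Phi K) (Real.exp (K * s) * expNegInvGlue s) s := by
  have hc := (phi_cd K).continuous
  exact intervalIntegral.integral_hasDerivAt_right (hc.intervalIntegrable _ _)
    (hc.stronglyMeasurableAtFilter _ _) hc.continuousAt

lemma Phi_deriv (K : ℝ) : deriv (Phi K) = fun s => Real.exp (K * s) * expNegInvGlue s := by
  funext s; exact (Phi_hasDerivAt K s).deriv

lemma Phi_cd (K : ℝ) : ContDiff ℝ ∞ (Phi K) := by
  rw [contDiff_infty_iff_deriv, Phi_deriv]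
  exact ⟨fun s => (Phi_hasDerivAt K s).differentiableAt, phi_cd K⟩

lemma Phi_zero (K : ℝ) {s : ℝ} (hs : s ≤ 0) : Phi K s = 0 := by
  unfold Phi
  rw [intervalIntegral.integral_symm]
  have : ∫ t in s..0, Real.exp (K * t) * expNegInvGlue t = ∫ _ in s..0, (0 : ℝ) := by
    refine intervalIntegral.integral_congr fun t ht => ?_
    rw [uIcc_of_le hs] at ht
    simp [expNegInvGlue.zero_of_nonpos ht.2]
  rw [this]
  simp

lemma Phi_deriv_pos (K : ℝ) {s : ℝ} (hs : 0 < s) : 0 < deriv (Phi K) s := by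
  rw [Phi_deriv]
  exact mul_pos (Real.exp_pos _) (expNegInvGlue.pos_of_pos hs)

lemma Phi_deriv_nonneg (K s : ℝ) : 0 ≤ deriv (Phi K) s := by
  rw [Phi_deriv]
  exact mul_nonneg (Real.exp_pos _).le (expNegInvGlue.nonneg _)

lemma Phi_deriv_zero (K : ℝ) {s : ℝ} (hs : s ≤ 0) : deriv (Phi K) s = 0 := by
  rw [Phi_deriv]
  simp [expNegInvGlue.zero_of_nonpos hs]

lemma Phi_deriv2 (K s : ℝ) : K * deriv (Phi K) s ≤ deriv (deriv (Phi K)) s := by
  have hg : Differentiable ℝ expNegInvGlue :=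
    (expNegInvGlue.contDiff (n := 1)).differentiable (by simp)
  have h1 : HasDerivAt (fun s => Real.exp (K * s)) (Real.exp (K * s) * K) s := by
    have := ((hasDerivAt_id s).const_mul K).exp
    simpa using this
  have h2 := h1.mul (hg s).hasDerivAt
  have h3 : deriv (fun s => Real.exp (K * s) * expNegInvGlue s) s = _ := h2.deriv
  have h4 : 0 ≤ deriv expNegInvGlue s := expNegInvGlue.monotone.deriv_nonneg
  rw [Phi_deriv, h3]
  simp only
  have h5 := mul_nonneg (Real.exp_pos (K * s)).le h4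
  nlinarith

end Pool.Agent.H301_RC
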