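import Pool.Agent.H301_RC.Tube
import Pool.Agent.H301_RC.Phi

/-! Sums of Levi forms in finitely many directions, and functions which are strictly subharmonic
for such an operator outside of a small set. -/

set_option autoImplicit false
set_option linter.unusedSectionVars false

open scoped Manifold ContDiff Topology ComplexConjugate
open Filter Set

namespace Pool.Agent.H301_RC

variable {E : Type*} [NormedAddCommGroup E] [NormedSpace ℂ E]
  {M : Type*} [TopologicalSpace M] [ChartedSpace E M] [IsManifold 𝓘(ℂ, E) ω M]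
  {κ : Type*} [Fintype κ]

/-- coefficients and directions of an operator -/
structure OpData (E : Type*) [NormedAddCommGroup E] [NormedSpace ℂ E] (M : Type*)
    [TopologicalSpace M] [ChartedSpace E M] (κ : Type*) where
  F : Finset M
  χ : M → M → ℝ
  d : M → κ → E
  sm : ∀ x, Sm E (χ x)
  nonneg : ∀ x y, 0 ≤ χ x y
  supp : ∀ x y, y ∉ (chartAt E x).source → ∀ᶠ y' in 𝓝 y, χ x y' = 0
  cover : ∀ y, ∃ x ∈ F, 0 < χ x y
  span : ∀ x ∈ F, ∀ L : E →L[ℝ] ℝ, (∀ k, L (d x k) = 0 ∧ L (Complex.I • d x k) = 0) → L = 0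

namespace OpData

variable (P : OpData E M κ)

/-- one term of the operator -/
noncomputable def T (x : M) (f : M → ℝ) (y : M) : ℝ :=
  ∑ k, lev (fun w => f ((chartAt E x).symm w)) (chartAt E x y) (P.d x k)

/-- one term of the gradient -/
noncomputable def TG (x : M) (f : M → ℝ) (y : M) : ℝ :=
  ∑ k, gr (fun w => f ((chartAt E x).symm w)) (chartAt E x y) (P.d x k)

/-- the operator -/
noncomputable def L (f : M → ℝ) (y : M) : ℝ := ∑ x ∈ P.F, P.χ x y * P.T x f y

/-- the gradient -/
noncomputable def G (f : M → ℝ) (y : M) : ℝ := ∑ x ∈ P.F, P.χ x y * P.TG x f y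

variable {P}

lemma mem_source_of_ne {x y : M} (h : P.χ x y ≠ 0) : y ∈ (chartAt E x).source := by
  by_contra hy
  exact h (P.supp x y hy).self_of_nhds

lemma smooth_in {f : M → ℝ} {x y : M} (hf : SmAt E f y) (hy : y ∈ (chartAt E x).source) :
    ContDiffAt ℝ ∞ (fun w => f ((chartAt E x).symm w)) (chartAt E x y) :=
  SmAt.chart (chart_hc x) ((chartAt E x).map_source hy) (by rwa [(chartAt E x).left_inv hy])

lemma term_congr {a b : M → ℝ} {y : M} (h : ∀ x ∈ P.F, y ∈ (chartAt E x).source → a x = b x) :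
    ∑ x ∈ P.F, P.χ x y * a x = ∑ x ∈ P.F, P.χ x y * b x := by
  refine Finset.sum_congr rfl fun x hx => ?_
  by_cases h0 : P.χ x y = 0
  · rw [h0, zero_mul, zero_mul]
  · rw [h x hx (mem_source_of_ne h0)]

lemma L_add {f g : M → ℝ} {y : M} (hf : SmAt E f y) (hg : SmAt E g y) :
    P.L (fun z => f z + g z) y = P.L f y + P.L g y := by
  unfold L
  rw [← Finset.sum_add_distrib]
  simp only [← mul_add]
  refine term_congr fun x _ hy => ?_
  unfold T
  rw [← Finset.sum_add_distrib]
  refine Finset.sum_congr rfl fun k _ => ?_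
  exact lev_add ((smooth_in hf hy).of_le two_le) ((smooth_in hg hy).of_le two_le) _

lemma L_const_mul {f : M → ℝ} {y : M} (hf : SmAt E f y) (c : ℝ) :
    P.L (fun z => c * f z) y = c * P.L f y := by
  unfold L
  rw [Finset.mul_sum]
  have h1 : ∀ x, c * (P.χ x y * P.T x f y) = P.χ x y * (c * P.T x f y) := fun x => by ring
  simp only [h1]
  refine term_congr fun x _ hy => ?_
  unfold T
  rw [Finset.mul_sum]
  refine Finset.sum_congr rfl fun k _ => ?_
  exact lev_const_mul ((smooth_in hf hy).of_le two_le) _ _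

lemma L_zero (y : M) : P.L (fun _ => 0) y = 0 := by
  unfold L T
  simp only [lev_const]
  simp

lemma L_sum {ι : Type*} (s : Finset ι) {f : ι → M → ℝ} {y : M} (hf : ∀ i ∈ s, SmAt E (f i) y) :
    P.L (fun z => ∑ i ∈ s, f i z) y = ∑ i ∈ s, P.L (f i) y := by
  classical
  induction s using Finset.induction_on with
  | empty => simp [L_zero]
  | insert i s hi ih =>
    simp only [Finset.sum_insert hi]
    rw [L_add (hf i (Finset.mem_insert_self i s))
      (SmAt.sum s fun j hj => hf j (Finset.mem_insert_of_mem hj)),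
      ih fun j hj => hf j (Finset.mem_insert_of_mem hj)]

lemma L_comp {f : M → ℝ} {y : M} (hf : SmAt E f y) {φ : ℝ → ℝ} (hφ : ContDiff ℝ ∞ φ) :
    P.L (fun z => φ (f z)) y = deriv φ (f y) * P.L f y + deriv (deriv φ) (f y) * P.G f y := by
  unfold L G
  rw [Finset.mul_sum, Finset.mul_sum, ← Finset.sum_add_distrib]
  have h1 : ∀ x, deriv φ (f y) * (P.χ x y * P.T x f y) +
      deriv (deriv φ) (f y) * (P.χ x y * P.TG x f y) =
      P.χ x y * (deriv φ (f y) * P.T x f y + deriv (deriv φ) (f y) * P.TG x f y) := by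
    intro x; ring
  simp only [h1]
  refine term_congr fun x _ hy => ?_
  unfold T TG
  rw [Finset.mul_sum, Finset.mul_sum, ← Finset.sum_add_distrib]
  refine Finset.sum_congr rfl fun k _ => ?_
  have h2 := lev_comp_real (φ := φ) (F := fun w => f ((chartAt E x).symm w))
    (p := chartAt E x y) (hφ.contDiffAt.of_le two_le) ((smooth_in hf hy).of_le two_le) (P.d x k)
  simp only [(chartAt E x).left_inv hy] at h2
  exact h2

lemma ev_chart_symm {f g : M → ℝ} {x y : M} (h : f =ᶠ[𝓝 y] g) (hy : y ∈ (chartAt E x).source) :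
    (fun w => f ((chartAt E x).symm w)) =ᶠ[𝓝 (chartAt E x y)]
      fun w => g ((chartAt E x).symm w) := by
  have h1 : ∀ᶠ w in 𝓝 (chartAt E x y), w ∈ (chartAt E x).target ∧
      (chartAt E x).symm w ∈ {y | f y = g y} :=
    ev_symm ((chartAt E x).map_source hy) (by rw [(chartAt E x).left_inv hy]; exact h)
  filter_upwards [h1] with w hw
  exact hw.2

lemma L_congr {f g : M → ℝ} {y : M} (h : f =ᶠ[𝓝 y] g) : P.L f y = P.L g y := by
  unfold L
  refine term_congr fun x _ hy => ?_
  unfold T
  exact Finset.sum_congr rfl fun k _ => lev_congr (ev_chart_symm h hy) _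

lemma G_nonneg (f : M → ℝ) (y : M) : 0 ≤ P.G f y :=
  Finset.sum_nonneg fun x _ => mul_nonneg (P.nonneg x y)
    (Finset.sum_nonneg fun k _ => gr_nonneg _ _ _)

lemma lev_chart_continuousAt {f : M → ℝ} {x y : M} (hf : SmAt E f y)
    (hy : y ∈ (chartAt E x).source) (q : E) :
    ContinuousAt (fun y' => lev (fun w => f ((chartAt E x).symm w)) (chartAt E x y') q) y := by
  have h1 := lev_continuousAt (smooth_in hf hy) q
  have h2 : ContinuousAt (fun y' => ((chartAt E x y', q) : E × E)) y :=
    ((chartAt E x).continuousAt hy).prodMk continuousAt_const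
  exact ContinuousAt.comp (x := y) (f := fun y' => ((chartAt E x y', q) : E × E))
    (g := fun p : E × E => lev (fun w => f ((chartAt E x).symm w)) p.1 p.2) h1 h2

lemma gr_chart_continuousAt {f : M → ℝ} {x y : M} (hf : SmAt E f y)
    (hy : y ∈ (chartAt E x).source) (q : E) :
    ContinuousAt (fun y' => gr (fun w => f ((chartAt E x).symm w)) (chartAt E x y') q) y := by
  have h1 := gr_continuousAt (smooth_in hf hy) q
  have h2 : ContinuousAt (fun y' => ((chartAt E x y', q) : E × E)) y :=
    ((chartAt E x).continuousAt hy).prodMk continuousAt_const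
  exact ContinuousAt.comp (x := y) (f := fun y' => ((chartAt E x y', q) : E × E))
    (g := fun p : E × E => gr (fun w => f ((chartAt E x).symm w)) p.1 p.2) h1 h2

lemma T_continuousAt {f : M → ℝ} {x y : M} (hf : SmAt E f y) (hy : y ∈ (chartAt E x).source) :
    ContinuousAt (P.T x f) y :=
  tendsto_finsetSum _ fun k _ => lev_chart_continuousAt hf hy (P.d x k)

lemma TG_continuousAt {f : M → ℝ} {x y : M} (hf : SmAt E f y) (hy : y ∈ (chartAt E x).source) :
    ContinuousAt (P.TG x f) y :=
  tendsto_finsetSum _ fun k _ => gr_chart_continuousAt hf hy (P.d x k)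

lemma sum_continuousAt {a : M → M → ℝ} {y : M}
    (h : ∀ x ∈ P.F, y ∈ (chartAt E x).source → ContinuousAt (a x) y) :
    ContinuousAt (fun y => ∑ x ∈ P.F, P.χ x y * a x y) y := by
  refine tendsto_finsetSum _ fun x hx => ?_
  by_cases hy : y ∈ (chartAt E x).source
  · exact ((P.sm x).continuous.continuousAt.tendsto).mul (h x hx hy)
  · have h1 := P.supp x y hy
    rw [h1.self_of_nhds, zero_mul]
    refine tendsto_const_nhds.congr' ?_
    filter_upwards [h1] with y' hy'
    rw [hy', zero_mul]

lemma L_continuousAt {f : M → ℝ} {y : M} (hf : SmAt E f y) : ContinuousAt (P.L f) y :=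
  sum_continuousAt fun _ _ hy => T_continuousAt hf hy

lemma G_continuousAt {f : M → ℝ} {y : M} (hf : SmAt E f y) : ContinuousAt (P.G f) y :=
  sum_continuousAt fun _ _ hy => TG_continuousAt hf hy

/-- ellipticity -/
lemma G_pos {f : M → ℝ} {e : OpenPartialHomeomorph M E} (he : e ∈ HC E M) {y : M}
    (hy : y ∈ e.source) (hf : SmAt E f y) (h0 : fderiv ℝ (fun w => f (e.symm w)) (e y) ≠ 0) :
    0 < P.G f y := by
  obtain ⟨x, hx, hxy⟩ := P.cover y
  have hys : y ∈ (chartAt E x).source := mem_source_of_ne hxy.ne'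
  refine Finset.sum_pos' (fun i _ => mul_nonneg (P.nonneg i y)
    (Finset.sum_nonneg fun k _ => gr_nonneg _ _ _)) ⟨x, hx, mul_pos hxy ?_⟩
  by_contra hneg
  have h1 : P.TG x f y = 0 :=
    le_antisymm (not_lt.1 hneg) (Finset.sum_nonneg fun k _ => gr_nonneg _ _ _)
  have h2 := (Finset.sum_eq_zero_iff_of_nonneg fun k _ => gr_nonneg _ _ _).1 h1
  have h3 : fderiv ℝ (fun w => f ((chartAt E x).symm w)) (chartAt E x y) = 0 := by
    refine P.span x hx _ fun k => ?_
    have h4 := h2 k (Finset.mem_univ k)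
    unfold gr at h4
    have h5 : (fderiv ℝ (fun w => f ((chartAt E x).symm w)) (chartAt E x y) (P.d x k)) ^ 2 = 0 := by
      nlinarith [sq_nonneg (fderiv ℝ (fun w => f ((chartAt E x).symm w)) (chartAt E x y)
        (P.d x k)), sq_nonneg (fderiv ℝ (fun w => f ((chartAt E x).symm w)) (chartAt E x y)
        (Complex.I • P.d x k))]
    have h6 : (fderiv ℝ (fun w => f ((chartAt E x).symm w)) (chartAt E x y)
        (Complex.I • P.d x k)) ^ 2 = 0 := by
      nlinarith [sq_nonneg (fderiv ℝ (fun w => f ((chartAt E x).symm w)) (chartAt E x y)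
        (P.d x k)), sq_nonneg (fderiv ℝ (fun w => f ((chartAt E x).symm w)) (chartAt E x y)
        (Complex.I • P.d x k))]
    exact ⟨pow_eq_zero_iff (two_ne_zero) |>.1 h5, pow_eq_zero_iff (two_ne_zero) |>.1 h6⟩
  apply h0
  have hz : e y ∈ e.target := e.map_source hy
  have hzz : e.symm (e y) = y := e.left_inv hy
  have hd := (tr_diff he (chart_hc x) hz (by rw [hzz]; exact hys)).hasFDerivAt.restrictScalars ℝ
  have hf' : HasFDerivAt (fun w => f ((chartAt E x).symm w))
      (fderiv ℝ (fun w => f ((chartAt E x).symm w)) (chartAt E x y))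
      ((fun w => chartAt E x (e.symm w)) (e y)) := by
    simp only [hzz]
    exact ((smooth_in hf hys).differentiableAt (by simp)).hasFDerivAt
  have h7 := hf'.comp (e y) hd
  have h8 : (fun w => f (e.symm w)) =ᶠ[𝓝 (e y)]
      (fun w => f ((chartAt E x).symm w)) ∘ fun w => chartAt E x (e.symm w) := by
    filter_upwards [ev_symm hz (s := (chartAt E x).source)
      (by rw [hzz]; exact (chartAt E x).open_source.mem_nhds hys)] with w hw
    simp only [Function.comp_apply]
    rw [(chartAt E x).left_inv hw.2]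
  rw [(h7.congr_of_eventuallyEq h8).fderiv, h3]
  simp

end OpData

/-- A positive multiple dominates. -/
lemma exists_mul_dominate {X : Type*} [TopologicalSpace X] {K : Set X} (hK : IsCompact K)
    {p q : X → ℝ} (hp : ContinuousOn p K) (hq : ContinuousOn q K) (hpos : ∀ x ∈ K, 0 < q x) :
    ∃ A : ℝ, 0 ≤ A ∧ ∀ x ∈ K, 0 < p x + A * q x := by
  have h1 : ContinuousOn (fun x => p x / q x) K := hp.div hq fun x hx => (hpos x hx).ne'
  obtain ⟨B, hB⟩ := hK.bddBelow_image h1
  refine ⟨max 0 (1 - B), le_max_left _ _, fun x hx => ?_⟩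
  have h2 : B ≤ p x / q x := hB ⟨x, hx, rfl⟩
  have h3 := hpos x hx
  have h4 : p x = (p x / q x) * q x := by field_simp
  have h5 : 1 - B ≤ max 0 (1 - B) := le_max_right _ _
  have h6 : 0 < p x / q x + max 0 (1 - B) := by linarith
  rw [h4]
  have := mul_pos h6 h3
  nlinarith

end Pool.Agent.H301_RC
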