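import Pool.Agent.H301_RC.Charts

/-! Positive curves, and the representations of the tensor and exterior powers. -/

set_option autoImplicit false

open scoped Manifold ContDiff TensorProduct

namespace Pool.Agent.H301_RC

/-- The bundle of the `p`-th tensor power of the tangent bundle: `W` is the `p`-th tensor power of
`E` and `ρ A` is the `p`-th tensor power of `A`. -/
noncomputable def tensorRep (E : Type*) [NormedAddCommGroup E] [NormedSpace ℂ E] (p : ℕ) :
    (E →L[ℂ] E) → (⨂[ℂ]^p E) →ₗ[ℂ] (⨂[ℂ]^p E) :=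
  fun A => PiTensorProduct.map fun _ => (A : E →ₗ[ℂ] E)

/-- The bundle of the `p`-th exterior power of the tangent bundle: `W` is the `p`-th exterior power
of `E` and `ρ A` is the `p`-th exterior power of `A`. -/
noncomputable def exteriorRep (E : Type*) [NormedAddCommGroup E] [NormedSpace ℂ E] (p : ℕ) :
    (E →L[ℂ] E) → (⋀[ℂ]^p E) →ₗ[ℂ] (⋀[ℂ]^p E) :=
  fun A => exteriorPower.map p (A : E →ₗ[ℂ] E)

section

variable {E : Type*} [NormedAddCommGroup E] [NormedSpace ℂ E]
  {W : Type*} [AddCommGroup W] [Module ℂ W]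
  {ρ : (E →L[ℂ] E) → W →ₗ[ℂ] W} {M : Type*} [TopologicalSpace M] [ChartedSpace E M]

/-- The metric has positive curvature in the direction `v` at the point `x`:
`R(v, v̄, a, ā) > 0` for every nonzero `a` in the fibre at `x`. -/
def HermitianMetric.PositiveAt [IsManifold 𝓘(ℂ, E) 1 M] (g : HermitianMetric ρ M) (x : M)
    (v : E) : Prop :=
  ∀ a : W, a ≠ 0 → ∃ r : ℝ, g.IsCurvature x v a r ∧ 0 < r

/-- In the holomorphic chart `e` the set `C` is the line `ℂ u`, `u ≠ 0`. -/
def IsLineIn (C : Set M) (e : OpenPartialHomeomorph M E) (u : E) : Prop :=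
  u ≠ 0 ∧ ∀ y ∈ e.source, y ∈ C ↔ ∃ c : ℂ, e y = c • u

/-- `C` is a nonempty closed complex submanifold of `M` of dimension one (near each of its points it
is the line `ℂ u` in a holomorphic chart `e`, so that its tangent space is spanned by the vector
`d(e⁻¹)(u)`), and the curvature of the metric `h` on the tangent bundle of `M` at the points `x` of
`C` in the directions tangent to `C` is positive: `R(v, v̄, a, ā) > 0` for `0 ≠ v ∈ T_x C` and
`0 ≠ a ∈ T_x M`. -/
structure PositiveCurve [IsManifold 𝓘(ℂ, E) ω M] (h : HermitianMetric (idRep E) M)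
    (C : Set M) : Prop where
  closed : IsClosed C
  nonempty : C.Nonempty
  chart : ∀ x ∈ C, ∃ e ∈ IsManifold.maximalAtlas 𝓘(ℂ, E) ω M, ∃ u : E, x ∈ e.source ∧
    IsLineIn C e u ∧ h.PositiveAt x (mfderiv 𝓘(ℂ, E) 𝓘(ℂ, E) e.symm (e x) u)

end

end Pool.Agent.H301_RC
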