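import Pool.Agent.H301_RC.PCDefs

/-! Plurisubharmonic functions, and pseudo-effective line bundles with a homomorphism to a
covariant tensor bundle. -/

set_option autoImplicit false

open scoped Manifold ContDiff

namespace Pool.Agent.H301_RC

/-- `φ` is plurisubharmonic on `U` (the value `-∞` is allowed): `φ` is upper semicontinuous on `U`
and `< ∞`, and if the closed disc `{a + ζ b : |ζ| ≤ 1}` lies in `U` and `ψ` is a continuous function
with `φ ≤ ψ` on the boundary of the disc, then `φ(a)` is at most the mean value of `ψ` over the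
boundary. -/
structure Psh {E : Type*} [NormedAddCommGroup E] [NormedSpace ℂ E] (U : Set E) (φ : E → EReal) :
    Prop where
  usc : UpperSemicontinuousOn φ U
  lt_top : ∀ z ∈ U, φ z < ⊤
  mean : ∀ a b : E, (∀ ζ : ℂ, ‖ζ‖ ≤ 1 → a + ζ • b ∈ U) → ∀ ψ : ℂ → ℝ,
    ContinuousOn ψ (Metric.sphere 0 1) → (∀ ζ : ℂ, ‖ζ‖ = 1 → φ (a + ζ • b) ≤ ((ψ ζ : ℝ) : EReal)) →
    φ a ≤ ((Real.circleAverage ψ 0 1 : ℝ) : EReal)

/-- A pseudo-effective line bundle `L` on `M` with a homomorphism `s` from `L` to the `m`-th tensor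
power of the cotangent bundle of `M`. For each point `x` of `M`, let `z` be the coordinates given by
the preferred chart at `x`. `U x` is an open set of coordinates which contains those of `x`. Over it
`L` has a frame `e_x`; the singular metric of `L` is `|e_x|² = exp(-2 φ_x)`, where `φ_x` is
plurisubharmonic, and not `-∞` on any open set; and `σ_x`, which is holomorphic, is the image
`s(e_x)`, a multilinear form on the tangent space, written in the coordinates `z`. If `z ∈ U x`
and `z' ∈ U y` are the coordinates of the same point of `M`, then there `e_x = c e_y` with `c ≠ 0`,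
hence `φ_y = φ_x + log |c|` and `σ_x = c σ_y`. -/
structure PsefTensor (E : Type*) [NormedAddCommGroup E] [NormedSpace ℂ E] (M : Type*)
    [TopologicalSpace M] [ChartedSpace E M] [IsManifold 𝓘(ℂ, E) 1 M] (m : ℕ) where
  U : M → Set E
  isOpen : ∀ x, IsOpen (U x)
  mem : ∀ x, co E x ∈ U x
  sub : ∀ x, U x ⊆ (extChartAt 𝓘(ℂ, E) x).target
  φ : M → E → EReal
  psh : ∀ x, Psh (U x) (φ x)
  dense : ∀ x, U x ⊆ closure {z ∈ U x | φ x z ≠ ⊥}
  σ : M → E → (E [×m]→L[ℂ] ℂ)
  hol : ∀ x, DifferentiableOn ℂ (σ x) (U x)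
  change : ∀ x y z z', z ∈ U x → z' ∈ U y → pt x z = pt y z' → ∃ c : ℂ, c ≠ 0 ∧
    φ y z' = φ x z + ((Real.log ‖c‖ : ℝ) : EReal) ∧
    ∀ a : Fin m → E, σ x z a =
      c * σ y z' fun i => tangentCoordChange 𝓘(ℂ, E) x y (pt x z) (a i)

end Pool.Agent.H301_RC
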