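import Pool.Agent.H301_RC.Near1
import Pool.Agent.H301_RC.PsefDefs

/-! A plurisubharmonic function does not touch a function with negative Levi form from below. -/

set_option autoImplicit false
set_option linter.unusedSectionVars false

open scoped Manifold ContDiff Topology
open Filter Set

namespace Pool.Agent.H301_RC

lemma sd_line' {V : Type*} [NormedAddCommGroup V] [NormedSpace ℝ V] {F : V → ℝ} {q : V} {t : ℝ}
    (hF : ContDiffAt ℝ 2 F (t • q)) :
    deriv (deriv fun s : ℝ => F (s • q)) t = sd F (t • q) q := by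
  have h1 := sd_line (q := q) hF
  rw [← h1]
  have e1 : (fun s : ℝ => F (t • q + s • q)) = fun s => (fun s : ℝ => F (s • q)) (s + t) := by
    funext s
    simp only
    rw [add_smul, add_comm]
  rw [e1]
  have e2 : deriv (fun s => (fun s : ℝ => F (s • q)) (s + t)) =
      fun s => deriv (fun s : ℝ => F (s • q)) (s + t) := by
    funext s
    exact deriv_comp_add_const (fun s : ℝ => F (s • q)) t s
  rw [e2, deriv_comp_add_const (deriv fun s : ℝ => F (s • q)) t 0, zero_add]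

/-- The upper bound of second order -/
lemma upper_bound {L : ℂ → ℝ} (hL : ContDiffAt ℝ 2 L 0) (hg : fderiv ℝ L 0 = 0)
    (hlev : lev L 0 1 < 0) :
    ∃ β : ℂ, ∃ κ : ℝ, κ < 0 ∧ ∀ᶠ ζ : ℂ in 𝓝 0, L ζ ≤ L 0 + (β * ζ ^ 2).re + κ * ‖ζ‖ ^ 2 := by
  set lam := lev L 0 1 with hlam
  set D2 := fderiv ℝ (fderiv ℝ L) 0 with hD2
  set β' : ℂ := ⟨(D2 1 1 - D2 Complex.I Complex.I) / 2, -D2 1 Complex.I⟩ with hβ'
  have hsymm : D2 Complex.I 1 = D2 1 Complex.I :=
    (hL.isSymmSndFDerivAt (by simp)) Complex.I 1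
  have hQ : ∀ w : ℂ, sd L 0 w = (β' * w ^ 2).re + 2 * lam * ‖w‖ ^ 2 := by
    intro w
    have e1 : w = w.re • (1 : ℂ) + w.im • Complex.I := by
      rw [Complex.real_smul, Complex.real_smul, mul_one, Complex.re_add_im]
    have e2 : sd L 0 w = w.re ^ 2 * D2 1 1 + 2 * (w.re * w.im * D2 1 Complex.I) +
        w.im ^ 2 * D2 Complex.I Complex.I := by
      unfold sd
      rw [← hD2]
      conv_lhs => rw [e1]
      simp only [map_add, map_smul, add_apply, smul_apply, smul_eq_mul, hsymm]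
      ring
    rw [e2, hlam]
    unfold lev sd
    rw [← hD2]
    have e3 : ‖w‖ ^ 2 = w.re ^ 2 + w.im ^ 2 := by
      rw [← Complex.normSq_eq_norm_sq, Complex.normSq_apply]; ring
    rw [e3, hβ']
    simp only [pow_two, Complex.mul_re, Complex.mul_im, smul_eq_mul, mul_one]
    ring
  refine ⟨β' / 2, lam / 2, by linarith, ?_⟩
  have hcont : ContinuousAt (fderiv ℝ (fderiv ℝ L)) 0 := by
    have h1 : ContDiffAt ℝ 1 (fderiv ℝ L) 0 := cd_fderiv hL
    exact (h1.fderiv_right (m := 0) (by norm_num)).continuousAt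
  have hnear : ∀ᶠ ζ : ℂ in 𝓝 0, ‖fderiv ℝ (fderiv ℝ L) ζ - D2‖ < -lam := by
    have h2 := hcont.eventually (Metric.ball_mem_nhds D2 (show (0 : ℝ) < -lam by linarith))
    filter_upwards [h2] with ζ h3
    exact lt_of_eq_of_lt (dist_eq_norm (fderiv ℝ (fderiv ℝ L) ζ) D2).symm h3
  have hall := hnear.and (hL.eventually (by simp))
  obtain ⟨ε, hε, hball⟩ := Metric.eventually_nhds_iff_ball.1 hall
  filter_upwards [Metric.ball_mem_nhds (0 : ℂ) hε] with ζ hζ
  by_cases hz : ζ = 0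
  · simp [hz]
  have hn : 0 < ‖ζ‖ := norm_pos_iff.2 hz
  have hin : ∀ t ∈ Icc (0 : ℝ) 1, t • ζ ∈ Metric.ball (0 : ℂ) ε := by
    intro t ht
    rw [mem_ball_zero_iff] at hζ ⊢
    rw [norm_smul, Real.norm_eq_abs, abs_of_nonneg ht.1]
    nlinarith [ht.1, ht.2, norm_nonneg ζ]
  let c : ℝ := ((β' / 2) * ζ ^ 2).re + lam / 2 * ‖ζ‖ ^ 2
  let g : ℝ → ℝ := fun t => L (t • ζ) + (-L 0 + (-c) * t ^ 2)
  have hLt : ∀ t ∈ Icc (0 : ℝ) 1, ContDiffAt ℝ 2 (fun t : ℝ => L (t • ζ)) t := by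
    intro t ht
    have h1 : ContDiffAt ℝ 2 L (t • ζ) := (hball _ (hin t ht)).2
    exact h1.comp t (contDiffAt_id.smul contDiffAt_const)
  have hpoly : ∀ t : ℝ, ContDiffAt ℝ 2 (fun t : ℝ => -L 0 + (-c) * t ^ 2) t := fun t => by fun_prop
  have hdp : deriv (fun t : ℝ => -L 0 + (-c) * t ^ 2) = fun t => -c * (2 * t) := by
    funext t
    have : HasDerivAt (fun t : ℝ => -L 0 + (-c) * t ^ 2) (-c * (2 * t)) t := by
      have h1 := ((hasDerivAt_pow 2 t).const_mul (-c)).const_add (-L 0)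
      simpa using h1
    exact this.deriv
  have hg1 : ∀ t ∈ Icc (0 : ℝ) 1, deriv g =ᶠ[𝓝 t] fun t =>
      deriv (fun t : ℝ => L (t • ζ)) t + (-c * (2 * t)) := by
    intro t ht
    filter_upwards [(hLt t ht).eventually (by simp)] with s hs
    have h1 := deriv_fun_add (hs.differentiableAt (by simp))
      ((hpoly s).differentiableAt (by simp))
    rw [show g = fun t => L (t • ζ) + (-L 0 + (-c) * t ^ 2) from rfl, h1, hdp]
  have hkey : g 1 < 0 := by
    refine neg_of_dd_neg one_pos (fun t ht => (hLt t ht).add (hpoly t)) ?_ ?_ ?_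
    · simp [g]
    · have h1 := (hg1 0 ⟨le_rfl, zero_le_one⟩).self_of_nhds
      rw [h1]
      have h2 : deriv (fun t : ℝ => L (t • ζ)) 0 = 0 := by
        have h3 := deriv_line (f := L) (p := 0) (hL.differentiableAt (by simp)) ζ
        simp only [zero_add] at h3
        rw [h3, Da, hg]
        simp
      simp only [h2]; simp
    · intro t ht
      have h1 := hg1 t ht
      have h2 := hball _ (hin t ht)
      rw [h1.deriv_eq]
      have h3 : DifferentiableAt ℝ (deriv fun t : ℝ => L (t • ζ)) t := by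
        have h4 : ContDiffAt ℝ 1 (fderiv ℝ fun t : ℝ => L (t • ζ)) t :=
          (hLt t ht).fderiv_right (m := 1) (by norm_num)
        have h5 : ContDiffAt ℝ 1 (deriv fun t : ℝ => L (t • ζ)) t := by
          have : (deriv fun t : ℝ => L (t • ζ)) = fun t =>
              fderiv ℝ (fun t : ℝ => L (t • ζ)) t 1 := by
            funext t; exact (fderiv_apply_one_eq_deriv).symm
          rw [this]
          exact h4.clm_apply contDiffAt_const
        exact h5.differentiableAt (by simp)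
      have h4 : HasDerivAt (fun t : ℝ => -c * (2 * t)) (-c * 2) t := by
        simpa using ((hasDerivAt_id t).const_mul 2).const_mul (-c)
      rw [deriv_fun_add h3 h4.differentiableAt, h4.deriv, sd_line' h2.2]
      have h5 : sd L (t • ζ) ζ ≤ sd L 0 ζ + ‖fderiv ℝ (fderiv ℝ L) (t • ζ) - D2‖ * ‖ζ‖ ^ 2 := by
        have h6 := (fderiv ℝ (fderiv ℝ L) (t • ζ) - D2).le_opNorm₂ ζ ζ
        have h7 := (le_abs_self _).trans h6
        unfold sd
        rw [← hD2]
        simp only [sub_apply] at h7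
        nlinarith [h7]
      have h8 := hQ ζ
      have h9 : 2 * c = (β' * ζ ^ 2).re + lam * ‖ζ‖ ^ 2 := by
        simp only [c]
        have : (β' / 2 * ζ ^ 2) = (1 / 2 : ℝ) • (β' * ζ ^ 2) := by
          rw [Complex.real_smul]; push_cast; ring
        rw [this, Complex.smul_re]
        simp only [smul_eq_mul]
        ring
      have h10 : 0 < ‖ζ‖ ^ 2 := by positivity
      nlinarith [mul_lt_mul_of_pos_right h2.1 h10]
  have : g 1 = L ζ - L 0 - c := by simp [g]; ring
  rw [this] at hkey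
  simp only [c] at hkey
  linarith

lemma circ_avg {h : ℂ → ℂ} {δ : ℝ} (hδ : 0 < δ)
    (hh : ∀ ζ : ℂ, ‖ζ‖ ≤ δ → DifferentiableAt ℂ h ζ) (C : ℝ) :
    Real.circleAverage (fun ζ : ℂ => C + (h (δ * ζ)).re) 0 1 = C + (h 0).re := by
  have hd : ∀ ζ ∈ Metric.closedBall (0 : ℂ) 1, DifferentiableAt ℂ (fun ζ : ℂ => h (δ * ζ)) ζ := by
    intro ζ hζ
    have h1 : DifferentiableAt ℂ h (δ * ζ) := hh _ (by
      rw [norm_mul, Complex.norm_real, Real.norm_eq_abs, abs_of_pos hδ]
      have := mem_closedBall_zero_iff.1 hζ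
      nlinarith)
    exact h1.comp ζ (by fun_prop)
  have hc : ContinuousOn (fun ζ : ℂ => h (δ * ζ)) (Metric.closedBall 0 1) := fun ζ hζ =>
    (hd ζ hζ).continuousAt.continuousWithinAt
  have h1 : DiffContOnCl ℂ (fun ζ : ℂ => h (δ * ζ)) (Metric.ball 0 |1|) := by
    rw [abs_one]
    refine ⟨fun ζ hζ => (hd ζ (Metric.ball_subset_closedBall hζ)).differentiableWithinAt, ?_⟩
    rw [closure_ball (0 : ℂ) one_ne_zero]
    exact hc
  have h2 := h1.circleAverage
  have hi : CircleIntegrable (fun ζ : ℂ => h (δ * ζ)) 0 1 := by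
    refine ContinuousOn.circleIntegrable zero_le_one (hc.mono Metric.sphere_subset_closedBall)
  have h3 := Complex.reCLM.circleAverage_comp_comm hi
  have h4 : Real.circleAverage (fun ζ : ℂ => (h (δ * ζ)).re) 0 1 = (h 0).re := by
    have e : (fun ζ : ℂ => (h (δ * ζ)).re) = Complex.reCLM ∘ fun ζ : ℂ => h (δ * ζ) := rfl
    rw [e, h3, h2]
    simp
  have hi2 : CircleIntegrable (fun ζ : ℂ => (h (δ * ζ)).re) 0 1 :=
    ContinuousOn.circleIntegrable zero_le_one
      (Complex.continuous_re.comp_continuousOn (hc.mono Metric.sphere_subset_closedBall))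
  have h5 := Real.circleAverage_fun_add (circleIntegrable_const C 0 1) hi2
  rw [h5, h4, Real.circleAverage_const]

/-- A plurisubharmonic function does not touch a function with negative Levi form from below. -/
theorem no_touch {E : Type*} [NormedAddCommGroup E] [NormedSpace ℂ E] {U : Set E} {φ : E → EReal}
    (hU : IsOpen U) (hφ : Psh U φ) {z v : E} (hz : z ∈ U) {L : ℂ → ℝ} (hL : ContDiffAt ℝ 2 L 0)
    (hg : fderiv ℝ L 0 = 0) (hlev : lev L 0 1 < 0) {h : ℂ → ℂ} (hh : ∀ᶠ ζ in 𝓝 0, DifferentiableAt ℂ h ζ)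
    (hle : ∀ᶠ ζ : ℂ in 𝓝 0, φ (z + ζ • v) ≤ ((L ζ + (h ζ).re : ℝ) : EReal))
    (heq : φ z = ((L 0 + (h 0).re : ℝ) : EReal)) : False := by
  obtain ⟨β, κ, hκ, hub⟩ := upper_bound hL hg hlev
  have hUn : ∀ᶠ ζ : ℂ in 𝓝 0, z + ζ • v ∈ U := by
    have hc : ContinuousAt (fun ζ : ℂ => z + ζ • v) 0 := by fun_prop
    refine hc.eventually ?_
    simp only [zero_smul, add_zero]
    exact hU.mem_nhds hz
  have hall := (hub.and hh).and (hle.and hUn)
  obtain ⟨ε, hε, hball⟩ := Metric.eventually_nhds_iff_ball.1 hall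
  set δ := ε / 2 with hδ
  have hδ0 : 0 < δ := by positivity
  have hin : ∀ ζ : ℂ, ‖ζ‖ ≤ δ → ζ ∈ Metric.ball (0 : ℂ) ε := by
    intro ζ hζ
    rw [mem_ball_zero_iff]; linarith
  let H : ℂ → ℂ := fun ζ => β * ζ ^ 2 + h ζ
  have hH : ∀ ζ : ℂ, ‖ζ‖ ≤ δ → DifferentiableAt ℂ H ζ := by
    intro ζ hζ
    have h1 := (hball _ (hin ζ hζ)).1.2
    exact DifferentiableAt.fun_add (by fun_prop) h1
  have hδn : ∀ ζ : ℂ, ‖(δ : ℂ) * ζ‖ = δ * ‖ζ‖ := by
    intro ζ
    rw [norm_mul, Complex.norm_real, Real.norm_eq_abs, abs_of_pos hδ0]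
  have hmean := hφ.mean z ((δ : ℂ) • v) ?_
    (fun ζ : ℂ => (L 0 + κ * δ ^ 2) + (H (δ * ζ)).re) ?_ ?_
  · rw [circ_avg hδ0 hH, heq, EReal.coe_le_coe_iff] at hmean
    have : (H 0).re = (h 0).re := by simp [H]
    rw [this] at hmean
    have h2 : κ * δ ^ 2 < 0 := mul_neg_of_neg_of_pos hκ (by positivity)
    linarith
  · intro ζ hζ
    have h1 := (hball _ (hin (δ * ζ) (by rw [hδn]; nlinarith))).2.2
    rwa [mul_comm, mul_smul] at h1
  · refine continuousOn_const.add (Complex.continuous_re.comp_continuousOn fun ζ hζ => ?_)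
    have h1 : ‖ζ‖ = 1 := mem_sphere_zero_iff_norm.1 hζ
    have h2 : DifferentiableAt ℂ H (δ * ζ) := hH _ (by rw [hδn, h1, mul_one])
    have h3 : ContinuousAt (fun ζ : ℂ => H (δ * ζ)) ζ :=
      ContinuousAt.comp (x := ζ) (g := H) (f := fun ζ : ℂ => (δ : ℂ) * ζ) h2.continuousAt
        (by fun_prop)
    exact h3.continuousWithinAt
  · intro ζ hζ
    have h0 := hball _ (hin (δ * ζ) (by rw [hδn, hζ, mul_one]))
    have h1 := h0.2.1
    rw [mul_comm, mul_smul] at h1
    refine h1.trans ?_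
    rw [EReal.coe_le_coe_iff]
    have h2 := h0.1.1
    rw [hδn, hζ, mul_one] at h2
    rw [mul_comm ζ (δ : ℂ)]
    simp only [H, Complex.add_re]
    linarith

end Pool.Agent.H301_RC
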