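import Pool.Agent.H301_RC.Psef1
import Pool.Agent.H301_RC.HForm

/-! The maximum principle for invariant polynomials: the local part. -/

set_option autoImplicit false
set_option linter.unusedSectionVars false

open scoped Manifold ContDiff Topology ComplexConjugate
open Filter Set Module

namespace Pool.Agent.H301_RC

/-- `e^t` for an extended real number `t`. -/
noncomputable def ex (t : EReal) : ℝ := if t = ⊥ then 0 else Real.exp t.toReal

lemma ex_bot : ex ⊥ = 0 := by simp [ex]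

lemma ex_coe (r : ℝ) : ex (r : EReal) = Real.exp r := by simp [ex]

lemma ex_nonneg (t : EReal) : 0 ≤ ex t := by
  unfold ex; split_ifs
  · exact le_rfl
  · exact (Real.exp_pos _).le

lemma ex_cases {t : EReal} (ht : t < ⊤) : t = ⊥ ∨ ∃ r : ℝ, t = (r : EReal) := by
  induction t with
  | bot => exact Or.inl rfl
  | coe r => exact Or.inr ⟨r, rfl⟩
  | top => exact absurd ht (lt_irrefl _)

lemma ex_lt {t : EReal} (ht : t < ⊤) {y : ℝ} (hy : 0 < y) :
    ex t < y ↔ t < ((Real.log y : ℝ) : EReal) := by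
  rcases ex_cases ht with rfl | ⟨r, rfl⟩
  · simp [ex_bot, hy]
  · rw [ex_coe, EReal.coe_lt_coe_iff, Real.lt_log_iff_exp_lt hy]

lemma ex_add {t : EReal} (ht : t < ⊤) {c : ℂ} (hc : c ≠ 0) :
    ex (t + ((Real.log ‖c‖ : ℝ) : EReal)) = ‖c‖ * ex t := by
  rcases ex_cases ht with rfl | ⟨r, rfl⟩
  · simp [ex_bot]
  · rw [← EReal.coe_add, ex_coe, ex_coe, Real.exp_add, Real.exp_log (norm_pos_iff.2 hc), mul_comm]

lemma ex_usc {X : Type*} [TopologicalSpace X] {s : Set X} {φ : X → EReal}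
    (h1 : UpperSemicontinuousOn φ s) (h2 : ∀ z ∈ s, φ z < ⊤) :
    UpperSemicontinuousOn (fun z => ex (φ z)) s := by
  intro z hz y hy
  have hy0 : 0 < y := lt_of_le_of_lt (ex_nonneg _) hy
  have h3 := h1 z hz _ ((ex_lt (h2 z hz) hy0).1 hy)
  filter_upwards [h3, self_mem_nhdsWithin] with w hw hws
  exact (ex_lt (h2 w hws) hy0).2 hw

lemma usc_mul {X : Type*} [TopologicalSpace X] {s : Set X} {f g : X → ℝ}
    (hf : ContinuousOn f s) (hf0 : ∀ x ∈ s, 0 ≤ f x) (hg : UpperSemicontinuousOn g s)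
    (hg0 : ∀ x ∈ s, 0 ≤ g x) : UpperSemicontinuousOn (fun x => f x * g x) s := by
  intro x hx y hy
  have hy0 : 0 < y := lt_of_le_of_lt (mul_nonneg (hf0 x hx) (hg0 x hx)) hy
  obtain ⟨y1, h1, h2⟩ : ∃ y1, g x < y1 ∧ f x * y1 < y := by
    rcases (hf0 x hx).eq_or_lt with h0 | h0
    · exact ⟨g x + 1, by linarith, by rw [← h0, zero_mul]; exact hy0⟩
    · have : g x < y / f x := by rwa [lt_div_iff₀ h0, mul_comm]
      obtain ⟨y1, h3, h4⟩ := exists_between this
      exact ⟨y1, h3, by rwa [mul_comm, ← lt_div_iff₀ h0]⟩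
  have h3 := hg x hx y1 h1
  have h4 : Tendsto (fun x => f x * y1) (𝓝[s] x) (𝓝 (f x * y1)) := (hf x hx).tendsto.mul_const y1
  filter_upwards [h3, h4.eventually (gt_mem_nhds h2), self_mem_nhdsWithin] with w h5 h6 h7
  exact lt_of_le_of_lt (mul_le_mul_of_nonneg_left h5.le (hf0 w h7)) h6

lemma usc_pow {X : Type*} [TopologicalSpace X] {s : Set X} {g : X → ℝ}
    (hg : UpperSemicontinuousOn g s) (hg0 : ∀ x ∈ s, 0 ≤ g x) (n : ℕ) :
    UpperSemicontinuousOn (fun x => g x ^ n) s := by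
  intro x hx y hy
  have h1 : ∃ y1, g x < y1 ∧ y1 ^ n < y := by
    have hc : ContinuousAt (fun t : ℝ => t ^ n) (g x) := (continuous_pow n).continuousAt
    have h2 : ∀ᶠ t in 𝓝 (g x), t ^ n < y := hc.eventually (gt_mem_nhds hy)
    have h3 : ∀ᶠ t in 𝓝[>] (g x), t ^ n < y := h2.filter_mono nhdsWithin_le_nhds
    obtain ⟨t, h4, h5⟩ := (h3.and self_mem_nhdsWithin).exists
    exact ⟨t, h5, h4⟩
  obtain ⟨y1, h1, h2⟩ := h1
  filter_upwards [hg x hx y1 h1, self_mem_nhdsWithin] with w h3 h4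
  exact lt_of_le_of_lt (pow_le_pow_left₀ (hg0 w h4) h3.le n) h2

/-- `P` is a polynomial in a covariant tensor and a vector of `W`, invariant under `GL(E)`. -/
structure InvPoly {E : Type*} [NormedAddCommGroup E] [NormedSpace ℂ E] {W : Type*} [AddCommGroup W]
    [Module ℂ W] {ι : Type*} [Fintype ι] {m : ℕ} (ρ : (E →L[ℂ] E) → W →ₗ[ℂ] W)
    (b : Basis ι ℂ W) (k N : ℕ) (P : (E [×m]→L[ℂ] ℂ) → W → ℂ) : Prop where
  diff : Differentiable ℂ fun q : (E [×m]→L[ℂ] ℂ) × (ι → ℂ) => P q.1 (∑ i, q.2 i • b i)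
  hom1 : ∀ (c : ℂ) s w, P (c • s) w = c ^ k * P s w
  hom2 : ∀ (c : ℂ) s w, P s (c • w) = c ^ N * P s w
  inv : ∀ (A : E →L[ℂ] E) s w, P (s.compContinuousLinearMap fun _ => A) w = P s (ρ A w)

variable {E : Type*} [NormedAddCommGroup E] [NormedSpace ℂ E]
  {M : Type*} [TopologicalSpace M] [ChartedSpace E M] [IsManifold 𝓘(ℂ, E) ω M]
  {W : Type*} [AddCommGroup W] [Module ℂ W] {m : ℕ}
  {ρ : (E →L[ℂ] E) → W →ₗ[ℂ] W} {ι : Type*} [Fintype ι] {b : Basis ι ℂ W} {k N : ℕ}
  {P : (E [×m]→L[ℂ] ℂ) → W → ℂ}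

lemma InvPoly.zero_right (hP : InvPoly ρ b k N P) (hN : N ≠ 0) (s : E [×m]→L[ℂ] ℂ) :
    P s 0 = 0 := by
  have := hP.hom2 0 s 0
  rwa [zero_smul, zero_pow hN, zero_mul] at this

/-- the squared length of the image -/
noncomputable def amp (T : PsefTensor E M m) (P : (E [×m]→L[ℂ] ℂ) → W → ℂ) (k : ℕ) (x : M) (z : E)
    (w : W) : ℝ := (‖P (T.σ x z) w‖ * ex (T.φ x z) ^ k) ^ 2

lemma amp_nonneg (T : PsefTensor E M m) (P : (E [×m]→L[ℂ] ℂ) → W → ℂ) (k : ℕ) (x : M) (z : E)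
    (w : W) : 0 ≤ amp T P k x z w := sq_nonneg _

lemma pt_co (x : M) : pt x (co E x) = x := extChartAt_to_inv x

lemma amp_change (hP : InvPoly ρ b k N P) (T : PsefTensor E M m) {x : M} {z : E} (hz : z ∈ T.U x)
    (w : W) : amp T P k x z w =
      amp T P k (pt x z) (co E (pt x z)) (frame ρ x z w) := by
  obtain ⟨c, hc, h1, h2⟩ := T.change x (pt x z) z (co E (pt x z)) hz (T.mem _) (pt_co _).symm
  have h3 : T.σ x z = c • (T.σ (pt x z) (co E (pt x z))).compContinuousLinearMap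
      fun _ => tangentCoordChange 𝓘(ℂ, E) x (pt x z) (pt x z) := by
    ext a
    rw [h2 a]
    rfl
  have h4 : P (T.σ x z) w = c ^ k * P (T.σ (pt x z) (co E (pt x z))) (frame ρ x z w) := by
    rw [h3, hP.hom1, hP.inv]
    rfl
  unfold amp
  rw [h4, h1, ex_add ((T.psh x).lt_top z hz) hc, norm_mul, norm_pow]
  ring

lemma fderiv_zero_of_dz {B : ℂ → ℝ} (hB : DifferentiableAt ℝ B 0)
    (h : dz (fun ζ => ((B ζ : ℝ) : ℂ)) = 0) : fderiv ℝ B 0 = 0 := by
  have e1 : deriv (fun t : ℝ => ((B (t : ℂ) : ℝ) : ℂ)) 0 = ((fderiv ℝ B 0 1 : ℝ) : ℂ) := by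
    have h1 : HasDerivAt (fun t : ℝ => (t : ℂ)) 1 0 := Complex.ofRealCLM.hasDerivAt
    have h0 : HasFDerivAt B (fderiv ℝ B 0) ((fun t : ℝ => (t : ℂ)) 0) := by
      simpa using hB.hasFDerivAt
    exact (h0.comp_hasDerivAt 0 h1).ofReal_comp.deriv
  have e2 : deriv (fun t : ℝ => ((B ((t : ℂ) * Complex.I) : ℝ) : ℂ)) 0 =
      ((fderiv ℝ B 0 Complex.I : ℝ) : ℂ) := by
    have h1 : HasDerivAt (fun t : ℝ => (t : ℂ) * Complex.I) Complex.I 0 := by
      simpa using (Complex.ofRealCLM.hasDerivAt (x := (0 : ℝ))).mul_const Complex.I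
    have h0 : HasFDerivAt B (fderiv ℝ B 0) ((fun t : ℝ => (t : ℂ) * Complex.I) 0) := by
      simpa using hB.hasFDerivAt
    exact (h0.comp_hasDerivAt 0 h1).ofReal_comp.deriv
  unfold dz at h
  rw [e1, e2] at h
  have h3 : ((fderiv ℝ B 0 1 : ℝ) : ℂ) - Complex.I * ((fderiv ℝ B 0 Complex.I : ℝ) : ℂ) = 0 := by
    have := congrArg (fun c : ℂ => c * 2) h
    simpa using this
  have h4 : fderiv ℝ B 0 1 = 0 := by
    have := congrArg Complex.re h3
    simpa using this
  have h5 : fderiv ℝ B 0 Complex.I = 0 := by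
    have := congrArg Complex.im h3
    simpa using this
  refine ContinuousLinearMap.ext fun q => ?_
  have e : q = q.re • (1 : ℂ) + q.im • Complex.I := by
    rw [Complex.real_smul, Complex.real_smul, mul_one, Complex.re_add_im]
  rw [e, map_add, map_smul, map_smul, h4, h5]
  simp

/-- The local part of the maximum principle. -/
theorem local_max (g : HermitianMetric ρ M) (T : PsefTensor E M m)
    (hP : InvPoly ρ b k N P)
    (hk : k ≠ 0) (hN : N ≠ 0) {G : ℝ} (hG : 0 < G) {x : M} {w : W}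
    (hB : 0 < (g.loc x (co E x) w w).re)
    (hle : ∀ z ∈ T.U x, ∀ w, amp T P k x z w ≤ G * (g.loc x z w w).re ^ N)
    (heq : amp T P k x (co E x) w = G * (g.loc x (co E x) w w).re ^ N) {v : E} {r : ℝ}
    (hr : 0 < r) (hv : g.IsCurvature x v w r) : False := by
  obtain ⟨θ, hθ, hrθ⟩ := hv
  set z := co E x with hz
  have hzU : z ∈ T.U x := T.mem x
  have hzt : z ∈ (extChartAt 𝓘(ℂ, E) x).target := T.sub x hzU
  set B : ℂ → ℝ := fun ζ => (g.sec x z v w θ ζ).re with hBdef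
  have hBc : ∀ ζ, ((B ζ : ℝ) : ℂ) = g.sec x z v w θ ζ := by
    intro ζ
    refine Complex.ext ?_ ?_
    · simp [B]
    · simp only [Complex.ofReal_im]
      exact (g.loc_self_im _ _ _).symm
  have hBcd : ContDiffAt ℝ 2 B 0 :=
    Complex.reCLM.contDiff.contDiffAt.comp (0 : ℂ) (g.sec_cd hzt v w θ)
  have hB0 : B 0 = (g.loc x z w w).re := by simp [B, HermitianMetric.sec]
  have hB0p : 0 < B 0 := by rw [hB0]; exact hB
  have hBf : fderiv ℝ B 0 = 0 := by
    refine fderiv_zero_of_dz (hBcd.differentiableAt (by simp)) ?_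
    rw [funext hBc]
    exact g.dz_sec_theta hzt v w θ hθ
  have hBl : lev B 0 1 < 0 := by
    have h1 := ddz_line (q := (1 : ℂ)) hBcd
    have h2 : (fun ζ : ℂ => ((B (0 + ζ • (1 : ℂ)) : ℝ) : ℂ)) = g.sec x z v w θ := by
      funext ζ
      rw [zero_add, smul_eq_mul, mul_one]
      exact hBc ζ
    rw [h2, g.ddz_sec_theta hzt v w θ θ hθ, sub_self] at h1
    have h3 := congrArg Complex.re h1
    simp only [Complex.sub_re, Complex.ofReal_re, g.loc_zero_left, add_zero] at h3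
    linarith
  have hkR : (0 : ℝ) < k := by exact_mod_cast Nat.pos_of_ne_zero hk
  have hNR : (0 : ℝ) < N := by exact_mod_cast Nat.pos_of_ne_zero hN
  -- the function `L`
  set L : ℂ → ℝ := fun ζ => N / (2 * k) * Real.log (B ζ) with hL
  have hlog : ContDiffAt ℝ 2 Real.log (B 0) := Real.contDiffAt_log.2 hB0p.ne'
  have hlogB : ContDiffAt ℝ 2 (fun ζ => Real.log (B ζ)) 0 := hlog.comp (0 : ℂ) hBcd
  have hLcd : ContDiffAt ℝ 2 L 0 := contDiffAt_const.mul hlogB
  have hLf : fderiv ℝ L 0 = 0 := by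
    have h1 : HasFDerivAt B (0 : ℂ →L[ℝ] ℝ) 0 := by
      rw [← hBf]; exact (hBcd.differentiableAt (by simp)).hasFDerivAt
    have h2 := (h1.log hB0p.ne').const_mul ((N : ℝ) / (2 * k))
    rw [h2.fderiv]
    simp
  have hLl : lev L 0 1 < 0 := by
    rw [hL, lev_const_mul hlogB, lev_comp_real hlog hBcd]
    have h1 : gr B 0 1 = 0 := by simp [gr, hBf]
    rw [h1, Real.deriv_log, mul_zero, add_zero]
    have h2 : 0 < (N : ℝ) / (2 * k) := by positivity
    have h3 : (B 0)⁻¹ * lev B 0 1 < 0 := mul_neg_of_pos_of_neg (inv_pos.2 hB0p) hBl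
    exact mul_neg_of_pos_of_neg h2 h3
  -- the holomorphic function `p`
  set p : ℂ → ℂ := fun ζ => P (T.σ x (z + ζ • v)) (w - ζ • θ) with hp
  have hline : ContinuousAt (fun ζ : ℂ => z + ζ • v) 0 := by fun_prop
  have hev : ∀ᶠ ζ : ℂ in 𝓝 0, z + ζ • v ∈ T.U x := by
    refine hline.eventually ?_
    simp only [zero_smul, add_zero]
    exact (T.isOpen x).mem_nhds hzU
  have hpd : ∀ ζ : ℂ, z + ζ • v ∈ T.U x → DifferentiableAt ℂ p ζ := by
    intro ζ hζ
    have h1 : DifferentiableAt ℂ (T.σ x) (z + ζ • v) :=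
      (T.hol x).differentiableAt ((T.isOpen x).mem_nhds hζ)
    have h2 : DifferentiableAt ℂ (fun ζ : ℂ => T.σ x (z + ζ • v)) ζ :=
      DifferentiableAt.comp ζ (g := T.σ x) (f := fun ζ : ℂ => z + ζ • v) h1 (by fun_prop)
    have h3 : DifferentiableAt ℂ (fun ζ : ℂ => fun i => b.repr w i - ζ * b.repr θ i) ζ := by
      rw [differentiableAt_pi]
      intro i
      fun_prop
    have h4 : DifferentiableAt ℂ ((fun q : (E [×m]→L[ℂ] ℂ) × (ι → ℂ) =>
        P q.1 (∑ i, q.2 i • b i)) ∘ fun ζ : ℂ => (T.σ x (z + ζ • v),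
          fun i => b.repr w i - ζ * b.repr θ i)) ζ :=
      DifferentiableAt.comp ζ (hP.diff _) (h2.prodMk h3)
    refine h4.congr_of_eventuallyEq (Eventually.of_forall fun ζ => ?_)
    simp only [p, Function.comp_apply]
    congr 1
    simp only [sub_smul, Finset.sum_sub_distrib, mul_smul, ← Finset.smul_sum, b.sum_repr]
  have hamp0 : 0 < amp T P k x z w := by rw [heq]; positivity
  have hp0 : p 0 ≠ 0 := by
    intro h0
    have h1 : P (T.σ x z) w = 0 := by simpa [p] using h0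
    simp [amp, h1] at hamp0
  have hφ0 : T.φ x z ≠ ⊥ := by
    intro h0
    simp [amp, h0, ex_bot, hk] at hamp0
  obtain ⟨t0, ht0⟩ : ∃ r : ℝ, T.φ x z = (r : EReal) :=
    (ex_cases ((T.psh x).lt_top z hzU)).resolve_left hφ0
  have hpev : ∀ᶠ ζ : ℂ in 𝓝 0, p ζ / p 0 ∈ Complex.slitPlane := by
    have h1 : ContinuousAt (fun ζ => p ζ / p 0) 0 :=
      (hpd 0 (by simpa using hzU)).continuousAt.div_const _
    refine h1.eventually (Complex.isOpen_slitPlane.mem_nhds ?_)
    have h2 : p 0 / p 0 = 1 := div_self hp0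
    simp only [h2]
    exact Complex.one_mem_slitPlane
  set C : ℝ := (Real.log G - 2 * Real.log ‖p 0‖) / (2 * k) with hC
  set h : ℂ → ℂ := fun ζ => (C : ℂ) + ((-(1 / k) : ℝ) : ℂ) * Complex.log (p ζ / p 0) with hh
  have hhre : ∀ ζ : ℂ, p ζ ≠ 0 → (h ζ).re = (Real.log G - 2 * Real.log ‖p ζ‖) / (2 * k) := by
    intro ζ hζ
    simp only [hh, Complex.add_re, Complex.ofReal_re, Complex.re_ofReal_mul, Complex.log_re,
      norm_div]
    rw [Real.log_div (norm_ne_zero_iff.2 hζ) (norm_ne_zero_iff.2 hp0), hC]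
    field_simp
    ring
  refine no_touch (T.isOpen x) (T.psh x) (v := v) hzU hLcd hLf hLl (h := h) ?_ ?_ ?_
  · filter_upwards [hev, hpev] with ζ h1 h2
    have h3 := (hpd ζ h1).div_const (p 0)
    exact ((h3.clog h2).const_mul _).const_add _
  · filter_upwards [hev, hpev, (hBcd.continuousAt.eventually (lt_mem_nhds hB0p))] with ζ h1 h2 h3
    have hpz : p ζ ≠ 0 := by
      intro h0
      rw [h0, zero_div] at h2
      simp at h2
    rcases ex_cases ((T.psh x).lt_top _ h1) with h4 | ⟨t, h4⟩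
    · rw [h4]; exact bot_le
    · rw [h4, EReal.coe_le_coe_iff, hhre ζ hpz]
      have h5 := hle _ h1 (w - ζ • θ)
      have h6 : (g.loc x (z + ζ • v) (w - ζ • θ) (w - ζ • θ)).re = B ζ := rfl
      rw [h6] at h5
      unfold amp at h5
      rw [h4, ex_coe] at h5
      have h7 : 0 < ‖p ζ‖ := norm_pos_iff.2 hpz
      have h8 := Real.log_le_log (by positivity) h5
      rw [Real.log_pow, Real.log_mul h7.ne' (by positivity), Real.log_pow, Real.log_exp,
        Real.log_mul hG.ne' (by positivity), Real.log_pow] at h8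
      simp only [hL]
      have e : (N : ℝ) / (2 * k) * Real.log (B ζ) + (Real.log G - 2 * Real.log ‖p ζ‖) / (2 * k) =
          (N * Real.log (B ζ) + Real.log G - 2 * Real.log ‖p ζ‖) / (2 * k) := by
        field_simp
        ring
      rw [e, le_div_iff₀ (by positivity)]
      push_cast at h8
      linarith
  · rw [ht0, EReal.coe_eq_coe_iff, hhre 0 hp0]
    have h6 : (g.loc x z w w).re = B 0 := hB0.symm
    have h5 := heq
    rw [h6] at h5
    unfold amp at h5
    rw [ht0, ex_coe] at h5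
    have hpp : P (T.σ x z) w = p 0 := by simp [p]
    rw [hpp] at h5
    have h7 : 0 < ‖p 0‖ := norm_pos_iff.2 hp0
    have h8 := congrArg Real.log h5
    rw [Real.log_pow, Real.log_mul h7.ne' (by positivity), Real.log_pow, Real.log_exp,
      Real.log_mul hG.ne' (by positivity), Real.log_pow] at h8
    simp only [hL]
    have e : (N : ℝ) / (2 * k) * Real.log (B 0) + (Real.log G - 2 * Real.log ‖p 0‖) / (2 * k) =
        (N * Real.log (B 0) + Real.log G - 2 * Real.log ‖p 0‖) / (2 * k) := by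
      field_simp
      ring
    rw [e, eq_div_iff (by positivity)]
    push_cast at h8
    linarith

end Pool.Agent.H301_RC
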