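import Pool.Agent.H301_RC.Conf

/-! The metric on the normal bundle of a curve, and the function `|·|²` on a tube around it. -/

set_option autoImplicit false
set_option linter.unusedSectionVars false

open scoped Manifold ContDiff Topology ComplexConjugate
open Filter Set

namespace Pool.Agent.H301_RC

variable {E : Type*} [NormedAddCommGroup E] [NormedSpace ℂ E] [FiniteDimensional ℂ E]
  {M : Type*} [TopologicalSpace M] [ChartedSpace E M] [IsManifold 𝓘(ℂ, E) ω M]
  (h : HermitianMetric (idRep E) M)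

/-- The quotient metric modulo `ℂ u` in the chart `e`. -/
noncomputable def gE (e : OpenPartialHomeomorph M E) (u : E) (p : E × E) : ℝ :=
  HF h e p - ‖locE h e p.1 p.2 u‖ ^ 2 / (locE h e p.1 u u).re

/-- The component orthogonal to `u`. -/
noncomputable def orth (e : OpenPartialHomeomorph M E) (u : E) (z a : E) : E :=
  a - (locE h e z a u / locE h e z u u) • u

variable {h} {e : OpenPartialHomeomorph M E} {u z : E}

lemma locE_uu (he : e ∈ HC E M) (hz : z ∈ e.target) (hu : u ≠ 0) : locE h e z u u ≠ 0 := by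
  intro h0
  have := locE_pos (h := h) he hz hu
  rw [h0] at this
  simp at this

lemma locE_orth (he : e ∈ HC E M) (hz : z ∈ e.target) (hu : u ≠ 0) (a : E) :
    locE h e z (orth h e u z a) u = 0 := by
  unfold orth
  rw [locE_sub_left, locE_smul_left, div_mul_cancel₀ _ (locE_uu he hz hu), sub_self]

lemma gE_add_u (he : e ∈ HC E M) (hz : z ∈ e.target) (hu : u ≠ 0) (a : E) (κ : ℂ) :
    gE h e u (z, a + κ • u) = gE h e u (z, a) := by
  have hne := locE_uu (h := h) he hz hu
  have him : (locE h e z u u).im = 0 := locE_self_im _ _ _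
  have hre : (locE h e z u u).re ≠ 0 := (locE_pos he hz hu).ne'
  set m : ℝ := (locE h e z u u).re with hm
  have hm' : locE h e z u u = (m : ℂ) := Complex.ext rfl (by simpa using him)
  set w := locE h e z a u with hw
  have hw' : locE h e z u a = conj w := (locE_conj e z a u).symm
  unfold gE HF
  simp only [locE_add_left, locE_add_right, locE_smul_left, locE_smul_right]
  rw [← hw, hw', hm', ← Complex.normSq_eq_norm_sq, ← Complex.normSq_eq_norm_sq]
  simp only [Complex.add_re, Complex.mul_re, Complex.conj_re, Complex.conj_im, Complex.ofReal_re,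
    Complex.ofReal_im, Complex.normSq_apply, Complex.add_im, Complex.mul_im]
  field_simp
  ring

lemma gE_le (he : e ∈ HC E M) (hz : z ∈ e.target) (hu : u ≠ 0) (a : E) :
    gE h e u (z, a) ≤ HF h e (z, a) := by
  unfold gE
  have := (locE_pos (h := h) he hz hu).le
  have h2 : 0 ≤ ‖locE h e z a u‖ ^ 2 / (locE h e z u u).re := by positivity
  simp only
  linarith

lemma gE_eq_orth (he : e ∈ HC E M) (hz : z ∈ e.target) (hu : u ≠ 0) (a : E) :
    gE h e u (z, a) = HF h e (z, orth h e u z a) := by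
  have h1 : gE h e u (z, a) = gE h e u (z, orth h e u z a) := by
    have h2 : orth h e u z a = a + (-(locE h e z a u / locE h e z u u)) • u := by
      unfold orth; rw [neg_smul, sub_eq_add_neg]
    rw [h2, gE_add_u he hz hu]
  rw [h1, gE]
  simp only [locE_orth he hz hu]
  simp

lemma gE_nonneg (he : e ∈ HC E M) (hz : z ∈ e.target) (hu : u ≠ 0) (a : E) :
    0 ≤ gE h e u (z, a) := by
  rw [gE_eq_orth he hz hu]
  exact HF_nonneg h he hz _

lemma gE_eq_zero (he : e ∈ HC E M) (hz : z ∈ e.target) (hu : u ≠ 0) (a : E) :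
    gE h e u (z, a) = 0 ↔ ∃ κ : ℂ, a = κ • u := by
  constructor
  · intro h0
    rw [gE_eq_orth he hz hu] at h0
    by_contra hne
    refine absurd h0 (HF_pos h he hz ?_).ne'
    intro h1
    exact hne ⟨_, sub_eq_zero.1 h1⟩
  · rintro ⟨κ, rfl⟩
    have h1 := gE_add_u (h := h) he hz hu 0 κ
    rw [zero_add] at h1
    rw [h1]
    simp [gE, HF, locE]

lemma gE_smul (e : OpenPartialHomeomorph M E) (u z a : E) (c : ℂ) :
    gE h e u (z, c • a) = ‖c‖ ^ 2 * gE h e u (z, a) := by
  unfold gE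
  rw [HF_smul]
  simp only [locE_smul_left, norm_mul, mul_pow]
  ring

lemma gE_change {e' : OpenPartialHomeomorph M E} (he : e ∈ HC E M) (he' : e' ∈ HC E M)
    (hz : z ∈ e.target) (hz' : e.symm z ∈ e'.source) {u' : E} {κ : ℂ} (hκ : κ ≠ 0)
    (hu : D e e' z u = κ • u') (a : E) :
    gE h e u (z, a) = gE h e' u' (e' (e.symm z), D e e' z a) := by
  have h1 : HF h e (z, a) = HF h e' (e' (e.symm z), D e e' z a) :=
    congrArg Complex.re (locE_change h he he' hz hz' a a)
  have h2 : locE h e z a u = conj κ * locE h e' (e' (e.symm z)) (D e e' z a) u' := by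
    rw [locE_change h he he' hz hz', hu, locE_smul_right]
  have h3 : locE h e z u u = κ * (conj κ * locE h e' (e' (e.symm z)) u' u') := by
    rw [locE_change h he he' hz hz', hu, locE_smul_right, locE_smul_left]
    ring
  have h4 : (κ * (conj κ * locE h e' (e' (e.symm z)) u' u')).re =
      ‖κ‖ ^ 2 * (locE h e' (e' (e.symm z)) u' u').re := by
    rw [← mul_assoc, Complex.mul_conj, Complex.normSq_eq_norm_sq, Complex.re_ofReal_mul]
  unfold gE
  simp only
  rw [h1, h2, h3, h4, norm_mul, mul_pow, Complex.norm_conj]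
  congr 1
  have : ‖κ‖ ^ 2 ≠ 0 := by positivity
  field_simp

lemma gE_cd (he : e ∈ HC E M) (hz : z ∈ e.target) (hu : u ≠ 0) (a : E) :
    ContDiffAt ℝ ∞ (gE h e u) (z, a) := by
  have h1 := HF_cd h he hz a
  have m1 : ContDiffAt ℝ ∞ (fun x : E × E => (x.1, x.2, u)) (z, a) :=
    contDiffAt_fst.prodMk (contDiffAt_snd.prodMk contDiffAt_const)
  have m2 : ContDiffAt ℝ ∞ (fun x : E × E => (x.1, u, u)) (z, a) :=
    contDiffAt_fst.prodMk (contDiffAt_const.prodMk contDiffAt_const)
  have h2 : ContDiffAt ℝ ∞ (fun x : E × E => locE h e x.1 x.2 u) (z, a) :=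
    ContDiffAt.comp (z, a) (g := fun x : E × E × E => locE h e x.1 x.2.1 x.2.2)
      (f := fun x : E × E => (x.1, x.2, u)) (locE_cd h he hz a u) m1
  have h3 : ContDiffAt ℝ ∞ (fun x : E × E => locE h e x.1 u u) (z, a) :=
    ContDiffAt.comp (z, a) (g := fun x : E × E × E => locE h e x.1 x.2.1 x.2.2)
      (f := fun x : E × E => (x.1, u, u)) (locE_cd h he hz u u) m2
  have h4 : ContDiffAt ℝ ∞ (fun x : E × E => ‖locE h e x.1 x.2 u‖ ^ 2) (z, a) := h2.norm_sq ℝ
  have h5 : ContDiffAt ℝ ∞ (fun x : E × E => (locE h e x.1 u u).re) (z, a) :=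
    Complex.reCLM.contDiff.contDiffAt.comp (z, a) h3
  exact h1.sub (h4.div h5 (locE_pos he hz hu).ne')

/-- The chart `e` straightens `C` to the line `ℂ u`. -/
structure Adapted (C : Set M) (e : OpenPartialHomeomorph M E) (u : E) : Prop where
  mem : e ∈ HC E M
  ne : u ≠ 0
  iff : ∀ y ∈ e.source, y ∈ C ↔ ∃ c : ℂ, e y = c • u

lemma Adapted.tangent {C : Set M} {e e' : OpenPartialHomeomorph M E} {u u' : E}
    (A : Adapted C e u) (A' : Adapted C e' u') {z : E} (hz : z ∈ e.target)
    (hz' : e.symm z ∈ e'.source) (hC : e.symm z ∈ C) : ∃ κ : ℂ, κ ≠ 0 ∧ D e e' z u = κ • u' := by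
  obtain ⟨c, hc⟩ := (A.iff _ (e.map_target hz)).1 hC
  rw [e.right_inv hz] at hc
  have hd : HasFDerivAt (fun w => e' (e.symm w)) (D e e' z) z :=
    (tr_diff A.mem A'.mem hz hz').hasFDerivAt
  have hl : HasDerivAt (fun ζ : ℂ => z + ζ • u) u 0 := by
    simpa using ((hasDerivAt_id (0 : ℂ)).smul_const u).const_add z
  have hd' : HasFDerivAt (fun w => e' (e.symm w)) (D e e' z) ((fun ζ : ℂ => z + ζ • u) 0) := by
    simpa using hd
  have h1 : HasDerivAt (fun ζ : ℂ => e' (e.symm (z + ζ • u))) (D e e' z u) 0 := by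
    have := HasFDerivAt.comp_hasDerivAt (0 : ℂ) hd' hl
    exact this
  have hcl : IsClosed ((Submodule.span ℂ {u'} : Submodule ℂ E) : Set E) :=
    Submodule.closed_of_finiteDimensional _
  have hmem : ∀ᶠ ζ : ℂ in 𝓝 0, e' (e.symm (z + ζ • u)) ∈ Submodule.span ℂ {u'} := by
    have hcont : ContinuousAt (fun ζ : ℂ => z + ζ • u) 0 := by fun_prop
    have hev : ∀ᶠ w in 𝓝 ((fun ζ : ℂ => z + ζ • u) 0), w ∈ e.target ∧ e.symm w ∈ e'.source := by
      have := ev_symm hz (e'.open_source.mem_nhds hz')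
      simpa using this
    filter_upwards [hcont.eventually hev] with ζ hζ
    have h2 : e.symm (z + ζ • u) ∈ C := by
      rw [A.iff _ (e.map_target hζ.1), e.right_inv hζ.1]
      exact ⟨c + ζ, by rw [hc, add_smul]⟩
    obtain ⟨c', hc'⟩ := (A'.iff _ hζ.2).1 h2
    rw [hc']
    exact Submodule.smul_mem _ _ (Submodule.mem_span_singleton_self u')
  have h0mem : e' (e.symm (z + (0 : ℂ) • u)) ∈ Submodule.span ℂ {u'} := hmem.self_of_nhds
  have h3 : D e e' z u ∈ ((Submodule.span ℂ {u'} : Submodule ℂ E) : Set E) := by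
    refine hcl.mem_of_tendsto (hasDerivAt_iff_tendsto_slope.1 h1) ?_
    filter_upwards [hmem.filter_mono nhdsWithin_le_nhds] with ζ hζ
    rw [slope_def_module]
    exact Submodule.smul_mem _ _ (Submodule.sub_mem _ hζ h0mem)
  obtain ⟨κ, hκ⟩ := Submodule.mem_span_singleton.1 h3
  refine ⟨κ, ?_, hκ.symm⟩
  rintro rfl
  rw [zero_smul] at hκ
  exact D_inj A.mem A'.mem hz hz' A.ne hκ.symm

/-- The quotient metric is the second order term of the tube function. -/
lemma tube_limit {C : Set M} {e e' : OpenPartialHomeomorph M E} {u u' : E}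
    (A : Adapted C e u) (A' : Adapted C e' u') {q : M} (hq : q ∈ e.source) (hq' : q ∈ e'.source)
    (hC : q ∈ C) (a : E) :
    Tendsto (fun t : ℝ => gE h e u (e (e'.symm (e' q + t • a)), e (e'.symm (e' q + t • a))) / t ^ 2)
      (𝓝[≠] 0) (𝓝 (gE h e' u' (e' q, a))) := by
  set z := e' q with hz
  have hzt : z ∈ e'.target := e'.map_source hq'
  have hzq : e'.symm z = q := e'.left_inv hq'
  have hzs : e'.symm z ∈ e.source := by rw [hzq]; exact hq
  set Y : ℝ → E := fun t => e (e'.symm (z + t • a)) with hY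
  have hY0 : Y 0 = e q := by simp [hY, hzq]
  have hl : HasDerivAt (fun t : ℝ => z + t • a) a 0 := by
    simpa using ((hasDerivAt_id (0 : ℝ)).smul_const a).const_add z
  have hd : HasFDerivAt (fun w => e (e'.symm w)) ((D e' e z).restrictScalars ℝ)
      ((fun t : ℝ => z + t • a) 0) := by
    have h0 : HasFDerivAt (fun w => e (e'.symm w)) (D e' e z) z :=
      (tr_diff A'.mem A.mem hzt hzs).hasFDerivAt
    have := h0.restrictScalars ℝ
    simpa using this
  have hYd : HasDerivAt Y (D e' e z a) 0 := by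
    have := HasFDerivAt.comp_hasDerivAt (0 : ℝ) hd hl
    exact this
  have hYc : ContinuousAt Y 0 := hYd.continuousAt
  obtain ⟨c, hc⟩ := (A.iff q hq).1 hC
  obtain ⟨κ, hκ, hκu⟩ := A'.tangent A hzt hzs (by rw [hzq]; exact hC)
  have hlim : gE h e' u' (z, a) = gE h e u (e q, D e' e z a) := by
    rw [gE_change A'.mem A.mem hzt hzs hκ hκu, hzq]
  rw [hlim]
  have heq : e q ∈ e.target := e.map_source hq
  have h1 : Tendsto (fun t : ℝ => (Y t, slope Y 0 t)) (𝓝[≠] 0) (𝓝 (e q, D e' e z a)) := by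
    have h2 := hYc.tendsto.mono_left (nhdsWithin_le_nhds (s := {0}ᶜ))
    rw [hY0] at h2
    exact h2.prodMk_nhds (hasDerivAt_iff_tendsto_slope.1 hYd)
  have h2 := (gE_cd (h := h) A.mem heq A.ne (D e' e z a)).continuousAt.tendsto.comp h1
  refine h2.congr' ?_
  have hev : ∀ᶠ t in 𝓝[≠] (0 : ℝ), Y t ∈ e.target := by
    have : ∀ᶠ t in 𝓝 (0 : ℝ), Y t ∈ e.target :=
      hYc.eventually (by rw [hY0]; exact e.open_target.mem_nhds heq)
    exact this.filter_mono nhdsWithin_le_nhds
  filter_upwards [hev, self_mem_nhdsWithin] with t ht ht0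
  have ht0' : (t : ℝ) ≠ 0 := ht0
  simp only [Function.comp_apply]
  have h3 : Y t = ((t : ℝ) : ℂ) • slope Y 0 t + c • u := by
    rw [slope_def_module, hY0, hc, Complex.coe_smul, smul_smul]
    have : t * (t - 0)⁻¹ = 1 := by rw [sub_zero]; exact mul_inv_cancel₀ ht0'
    rw [this, one_smul]
    abel
  have h4 : gE h e u (Y t, Y t) = t ^ 2 * gE h e u (Y t, slope Y 0 t) := by
    have h5 : gE h e u (Y t, Y t) = gE h e u (Y t, ((t : ℝ) : ℂ) • slope Y 0 t + c • u) := by
      rw [← h3]
    rw [h5, gE_add_u A.mem ht A.ne, gE_smul, Complex.norm_real, Real.norm_eq_abs, sq_abs]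
  have h6 : gE h e u (e (e'.symm (z + t • a)), e (e'.symm (z + t • a))) =
      gE h e u (Y t, Y t) := rfl
  rw [h6, h4]
  field_simp

end Pool.Agent.H301_RC
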