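import Pool.Agent.H301_RC.Imm

/-!
# RC-positive tangent bundles in small codimension

Every complex manifold `X` of dimension `n` with a holomorphic immersion into the projective space
of dimension `N ≤ 2 n - 1` has an RC-positive tangent bundle: the metric induced by the
Fubini-Study metric is RC-positive. This is the case `p = 1` of Q1 and of Q2 for all projective
manifolds of dimension `n` in the projective space of dimension `2 n - 1`.

Proof. The second fundamental form `A(v, a)` takes values in a space of dimension `N - n < n`, so for
each `a` there is a `v ≠ 0` with `A(v, a) = 0`, and then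
`R(v, v̄, a, ā) = |v|² |a|² + |(v, a)|² > 0`.
-/

set_option autoImplicit false

open scoped Manifold ContDiff LinearAlgebra.Projectivization

namespace Pool.Agent.H301_RC.SmallCodimension

open Pool.Agent.H301_RC

/-- Let `X` be a complex manifold of dimension `n` (not necessarily compact), modelled on the
`n`-dimensional complex normed space `E`, with a holomorphic immersion `f` into the complex
projective space of dimension `N < 2 n`. Then the holomorphic tangent bundle of `X` carries a smooth
Hermitian metric which is RC-positive. -/
theorem result {E : Type*} [NormedAddCommGroup E] [NormedSpace ℂ E] [FiniteDimensional ℂ E]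
    {N : ℕ} (hN : N < 2 * Module.finrank ℂ E) (X : Type*) [TopologicalSpace X]
    [ChartedSpace E X] [IsManifold 𝓘(ℂ, E) ω X]
    (f : X → ℙ ℂ (EuclideanSpace ℂ (Fin (N + 1)))) (hf : HolomorphicImmersion E f) :
    ∃ h : HermitianMetric (idRep E) X, h.RCPositive :=
  ⟨fsMetric hf, fsMetric_rc hf hN⟩

end Pool.Agent.H301_RC.SmallCodimension
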