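import Pool.Agent.H301_RC.TP1
import Pool.Agent.H301_RC.Conf

/-! Metrics on tensor bundles induced by a metric on the tangent bundle. -/

set_option autoImplicit false
set_option linter.unusedSectionVars false

open scoped Manifold ContDiff Topology ComplexConjugate TensorProduct
open Filter Set Module

namespace Pool.Agent.H301_RC

section prodcalc

lemma cd_prod {ι : Type*} (s : Finset ι) {f : ι → ℂ → ℂ}
    (hf : ∀ i ∈ s, ContDiffAt ℝ 2 (f i) 0) : ContDiffAt ℝ 2 (fun ζ => ∏ i ∈ s, f i ζ) 0 :=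
  contDiffAt_prod hf

/-- derivatives of a product of functions with vanishing first derivatives -/
lemma ddz_prod {ι : Type*} [DecidableEq ι] (s : Finset ι) {f : ι → ℂ → ℂ}
    (hf : ∀ i ∈ s, ContDiffAt ℝ 2 (f i) 0) (h1 : ∀ i ∈ s, dz (f i) = 0)
    (h2 : ∀ i ∈ s, dzb (f i) = 0) :
    dz (fun ζ => ∏ i ∈ s, f i ζ) = 0 ∧ dzb (fun ζ => ∏ i ∈ s, f i ζ) = 0 ∧
      ddz (fun ζ => ∏ i ∈ s, f i ζ) = ∑ i ∈ s, ddz (f i) * ∏ j ∈ s.erase i, f j 0 := by
  induction s using Finset.induction_on with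
  | empty => simp [dz_const, dzb_const, ddz_const]
  | insert a s ha ih =>
    have hf' : ∀ i ∈ s, ContDiffAt ℝ 2 (f i) 0 := fun i hi => hf i (Finset.mem_insert_of_mem hi)
    obtain ⟨i1, i2, i3⟩ := ih hf' (fun i hi => h1 i (Finset.mem_insert_of_mem hi))
      (fun i hi => h2 i (Finset.mem_insert_of_mem hi))
    have ca := hf a (Finset.mem_insert_self a s)
    have cs := cd_prod s hf'
    have e1 := h1 a (Finset.mem_insert_self a s)
    have e2 := h2 a (Finset.mem_insert_self a s)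
    simp only [Finset.prod_insert ha]
    refine ⟨?_, ?_, ?_⟩
    · rw [dz_mul ca cs, e1, i1]; simp
    · rw [dzb_mul ca cs, e2, i2]; simp
    · rw [ddz_mul ca cs, e1, e2, i1, i2, i3, Finset.sum_insert ha, Finset.erase_insert ha]
      have h3 : ∀ i ∈ s, ddz (f i) * ∏ j ∈ (insert a s).erase i, f j 0 =
          f a 0 * (ddz (f i) * ∏ j ∈ s.erase i, f j 0) := by
        intro i hi
        have hai : a ≠ i := fun h => ha (h ▸ hi)
        rw [Finset.erase_insert_of_ne hai, Finset.prod_insert]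
        · ring
        · intro h; exact ha (Finset.mem_of_mem_erase h)
      rw [Finset.sum_congr rfl h3, ← Finset.mul_sum]
      ring

lemma ddz_sum {ι : Type*} (s : Finset ι) {f : ι → ℂ → ℂ}
    (hf : ∀ i ∈ s, ContDiffAt ℝ 2 (f i) 0) :
    ddz (fun ζ => ∑ i ∈ s, f i ζ) = ∑ i ∈ s, ddz (f i) := by
  classical
  induction s using Finset.induction_on with
  | empty => simp [ddz_const]
  | insert a s ha ih =>
    have hf' : ∀ i ∈ s, ContDiffAt ℝ 2 (f i) 0 := fun i hi => hf i (Finset.mem_insert_of_mem hi)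
    simp only [Finset.sum_insert ha]
    rw [ddz_add (hf a (Finset.mem_insert_self a s)) (ContDiffAt.sum hf'), ih hf']

lemma ddz_const_mul {f : ℂ → ℂ} (hf : ContDiffAt ℝ 2 f 0) (c : ℂ) :
    ddz (fun ζ => c * f ζ) = c * ddz f := by
  rw [ddz_mul contDiffAt_const hf, dz_const, dzb_const, ddz_const]
  ring

lemma dz_const_mul {f : ℂ → ℂ} (hf : ContDiffAt ℝ 2 f 0) (c : ℂ) :
    dz (fun ζ => c * f ζ) = c * dz f := by
  rw [dz_mul contDiffAt_const hf, dz_const]
  ring

lemma deriv_mem_submodule {V : Type*} [NormedAddCommGroup V] [NormedSpace ℂ V]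
    [FiniteDimensional ℂ V] (S : Submodule ℂ V) {f : ℂ → V} {f' : V} (hf : HasDerivAt f f' 0)
    (hm : ∀ ζ, f ζ ∈ S) : f' ∈ S := by
  have hcl : IsClosed (S : Set V) := S.closed_of_finiteDimensional
  refine hcl.mem_of_tendsto (hasDerivAt_iff_tendsto_slope.1 hf) ?_
  refine Eventually.of_forall fun ζ => ?_
  rw [slope_def_module]
  exact S.smul_mem _ (S.sub_mem (hm ζ) (hm 0))

end prodcalc

section curve

variable {V : Type*} [AddCommGroup V] [Module ℂ V]

/-- A smooth curve of forms, with the connection `Θ` at `0`. -/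
structure CurveData (V : Type*) [AddCommGroup V] [Module ℂ V] where
  H : ℂ → SF V
  Θ : V →ₗ[ℂ] V
  herm : ∀ ζ a c, conj (H ζ a c) = H ζ c a
  pos : ∀ a, a ≠ 0 → 0 < (H 0 a a).re
  cd : ∀ a c, ContDiffAt ℝ 2 (fun ζ => H ζ a c) 0
  conn : ∀ a c, H 0 (Θ a) c = dz fun ζ => H ζ a c

namespace CurveData

variable (D : CurveData V)

lemma conn' (a c : V) : D.H 0 a (D.Θ c) = dzb fun ζ => D.H ζ a c := by
  have e : (fun ζ => D.H ζ a c) = fun ζ => conj (D.H ζ c a) := by
    funext ζ; rw [D.herm]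
  rw [e, dzb_conj (D.cd c a), ← D.conn, D.herm]

/-- the form in the gauge where the connection vanishes at `0` -/
noncomputable def K (ζ : ℂ) (a c : V) : ℂ := D.H ζ (a - ζ • D.Θ a) (c - ζ • D.Θ c)

lemma K_eq (a c : V) : (fun ζ => D.K ζ a c) = fun ζ => D.H ζ a c +
    (-1 * (ζ * D.H ζ (D.Θ a) c) + (-1 * (conj ζ * D.H ζ a (D.Θ c)) +
      ζ * (conj ζ * D.H ζ (D.Θ a) (D.Θ c)))) := by
  funext ζ
  unfold K
  simp only [map_sub, map_smul, map_smulₛₗ, LinearMap.sub_apply, LinearMap.smul_apply, smul_eq_mul]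
  ring

lemma K_cd (a c : V) : ContDiffAt ℝ 2 (fun ζ => D.K ζ a c) 0 := by
  rw [K_eq]
  have hc : ContDiffAt ℝ 2 (fun ζ : ℂ => conj ζ) 0 := cd_conj cd_id
  exact (D.cd a c).add ((contDiffAt_const.mul (cd_id.mul (D.cd _ _))).add
    ((contDiffAt_const.mul (hc.mul (D.cd _ _))).add (cd_id.mul (hc.mul (D.cd _ _)))))

lemma K_derivs (a c : V) : dz (fun ζ => D.K ζ a c) = 0 ∧ dzb (fun ζ => D.K ζ a c) = 0 ∧
    ddz (fun ζ => D.K ζ a c) = ddz (fun ζ => D.H ζ a c) - D.H 0 (D.Θ a) (D.Θ c) := by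
  have hc : ContDiffAt ℝ 2 (fun ζ : ℂ => conj ζ) 0 := cd_conj cd_id
  have c1 : ContDiffAt ℝ 2 (fun _ : ℂ => (-1 : ℂ)) 0 := contDiffAt_const
  have d1 : dz (fun ζ : ℂ => conj ζ) = 0 := by
    rw [dz_conj cd_id, dzb_id, map_zero]
  have d2 : dzb (fun ζ : ℂ => conj ζ) = 1 := by
    rw [dzb_conj cd_id, dz_id, map_one]
  have d3 : ddz (fun ζ : ℂ => conj ζ) = 0 := by
    rw [ddz_conj cd_id, ddz_id, map_zero]
  have l0 := D.cd a c
  have l1 := D.cd (D.Θ a) c
  have l2 := D.cd a (D.Θ c)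
  have l3 := D.cd (D.Θ a) (D.Θ c)
  have k1 := D.conn a c
  have k2 := D.conn' a c
  have k3 := D.conn' (D.Θ a) c
  have k4 := D.conn a (D.Θ c)
  refine ⟨?_, ?_, ?_⟩
  · rw [K_eq, dz_add l0 ((c1.mul (cd_id.mul l1)).add ((c1.mul (hc.mul l2)).add
      (cd_id.mul (hc.mul l3)))),
      dz_add (c1.mul (cd_id.mul l1)) ((c1.mul (hc.mul l2)).add (cd_id.mul (hc.mul l3))),
      dz_add (c1.mul (hc.mul l2)) (cd_id.mul (hc.mul l3)),
      dz_mul c1 (cd_id.mul l1), dz_mul c1 (hc.mul l2), dz_mul cd_id l1, dz_mul hc l2,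
      dz_mul cd_id (hc.mul l3), dz_const, dz_id, d1, ← k1]
    simp only [map_zero]
    ring
  · rw [K_eq, dzb_add l0 ((c1.mul (cd_id.mul l1)).add ((c1.mul (hc.mul l2)).add
      (cd_id.mul (hc.mul l3)))),
      dzb_add (c1.mul (cd_id.mul l1)) ((c1.mul (hc.mul l2)).add (cd_id.mul (hc.mul l3))),
      dzb_add (c1.mul (hc.mul l2)) (cd_id.mul (hc.mul l3)),
      dzb_mul c1 (cd_id.mul l1), dzb_mul c1 (hc.mul l2), dzb_mul cd_id l1, dzb_mul hc l2,
      dzb_mul cd_id (hc.mul l3), dzb_const, dzb_id, d2, ← k2]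
    simp only [map_zero]
    ring
  · rw [K_eq, ddz_add l0 ((c1.mul (cd_id.mul l1)).add ((c1.mul (hc.mul l2)).add
      (cd_id.mul (hc.mul l3)))),
      ddz_add (c1.mul (cd_id.mul l1)) ((c1.mul (hc.mul l2)).add (cd_id.mul (hc.mul l3))),
      ddz_add (c1.mul (hc.mul l2)) (cd_id.mul (hc.mul l3)),
      ddz_mul c1 (cd_id.mul l1), ddz_mul c1 (hc.mul l2), ddz_mul cd_id l1, ddz_mul hc l2,
      ddz_mul cd_id (hc.mul l3), dzb_mul hc l3, dz_mul hc l3, ddz_mul hc l3, dz_const, dzb_const,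
      ddz_const, dz_id, dzb_id, ddz_id, d1, d2, d3, ← k3, ← k4]
    simp only [map_zero]
    ring

/-- the curvature form -/
noncomputable def R : SF V := LinearMap.mk₂'ₛₗ (RingHom.id ℂ) (starRingEnd ℂ)
  (fun a c => D.H 0 (D.Θ a) (D.Θ c) - ddz fun ζ => D.H ζ a c)
  (fun a a' c => by
    have e : (fun ζ => D.H ζ (a + a') c) = fun ζ => D.H ζ a c + D.H ζ a' c := by
      funext ζ; simp
    rw [e, ddz_add (D.cd _ _) (D.cd _ _)]
    simp only [map_add, LinearMap.add_apply]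
    ring)
  (fun k a c => by
    have e : (fun ζ => D.H ζ (k • a) c) = fun ζ => k * D.H ζ a c := by
      funext ζ; simp
    rw [e, ddz_const_mul (D.cd _ _)]
    simp only [map_smul, LinearMap.smul_apply, smul_eq_mul, RingHom.id_apply]
    ring)
  (fun a c c' => by
    have e : (fun ζ => D.H ζ a (c + c')) = fun ζ => D.H ζ a c + D.H ζ a c' := by
      funext ζ; simp
    rw [e, ddz_add (D.cd _ _) (D.cd _ _)]
    simp only [map_add]
    ring)
  (fun k a c => by
    have e : (fun ζ => D.H ζ a (k • c)) = fun ζ => conj k * D.H ζ a c := by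
      funext ζ; simp
    rw [e, ddz_const_mul (D.cd _ _)]
    simp only [map_smul, map_smulₛₗ, smul_eq_mul]
    ring)

lemma R_apply (a c : V) : D.R a c = D.H 0 (D.Θ a) (D.Θ c) - ddz fun ζ => D.H ζ a c := rfl

lemma R_herm (a c : V) : conj (D.R a c) = D.R c a := by
  rw [R_apply, R_apply, map_sub, D.herm, ← ddz_conj (D.cd a c)]
  simp only [D.herm]

variable [FiniteDimensional ℂ V] {p : ℕ}

/-- The gauged tensor power has a negative `∂∂̄`. -/
theorem tensor_neg (hR : ∀ a, a ≠ 0 → 0 < (D.R a a).re) (hp : 1 ≤ p) {T : ⨂[ℂ]^p V}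
    (hT : T ≠ 0) :
    (ddz fun ζ => tform (D.H ζ) p (PiTensorProduct.map (fun _ => LinearMap.id - ζ • D.Θ) T)
      (PiTensorProduct.map (fun _ => LinearMap.id - ζ • D.Θ) T)).re < 0 := by
  obtain ⟨b, l, hb1, hb2⟩ := exists_diag (D.H 0) D.R (D.herm 0) D.pos D.R_herm
  have hl : ∀ i, 0 < l i := by
    intro i
    have h1 := hR (b i) (b.ne_zero i)
    rw [hb2] at h1
    simpa using h1
  have hK0 : ∀ a c, D.K 0 a c = D.H 0 a c := fun a c => by simp [K]
  have e1 : (fun ζ => tform (D.H ζ) p (PiTensorProduct.map (fun _ => LinearMap.id - ζ • D.Θ) T)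
      (PiTensorProduct.map (fun _ => LinearMap.id - ζ • D.Θ) T)) = fun ζ =>
      ∑ I, ∑ J, ((tb b p).repr T I * conj ((tb b p).repr T J)) *
        ∏ k, D.K ζ (b (I k)) (b (J k)) := by
    funext ζ
    rw [tform_map, sf_expand (tb b p)]
    refine Finset.sum_congr rfl fun I _ => Finset.sum_congr rfl fun J _ => ?_
    rw [tb_apply, tb_apply, tform_tprod, mul_assoc]
    rfl
  have hcd : ∀ I J : Fin p → Fin (finrank ℂ V),
      ContDiffAt ℝ 2 (fun ζ => ∏ k, D.K ζ (b (I k)) (b (J k))) 0 := fun I J =>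
    cd_prod Finset.univ fun k _ => D.K_cd _ _
  have hdd : ∀ I J : Fin p → Fin (finrank ℂ V),
      ddz (fun ζ => ∏ k, D.K ζ (b (I k)) (b (J k))) =
        if I = J then ((-∑ k, l (I k) : ℝ) : ℂ) else 0 := by
    intro I J
    rw [(ddz_prod Finset.univ (f := fun k ζ => D.K ζ (b (I k)) (b (J k)))
      (fun k _ => D.K_cd _ _) (fun k _ => (D.K_derivs _ _).1)
      (fun k _ => (D.K_derivs _ _).2.1)).2.2]
    have h1 : ∀ k, ddz (fun ζ => D.K ζ (b (I k)) (b (J k))) =
        if I k = J k then (-(l (I k)) : ℂ) else 0 := by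
      intro k
      have h2 := hb2 (I k) (J k)
      rw [R_apply] at h2
      rw [(D.K_derivs _ _).2.2]
      have h3 : ddz (fun ζ => D.H ζ (b (I k)) (b (J k))) - D.H 0 (D.Θ (b (I k))) (D.Θ (b (J k))) =
          -(D.H 0 (D.Θ (b (I k))) (D.Θ (b (J k))) - ddz fun ζ => D.H ζ (b (I k)) (b (J k))) := by
        ring
      rw [h3, h2]
      split_ifs <;> simp
    simp only [h1, hK0, hb1]
    by_cases hIJ : I = J
    · subst hIJ
      simp
    · rw [if_neg hIJ]
      obtain ⟨k, hk⟩ := Function.ne_iff.1 hIJ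
      refine Finset.sum_eq_zero fun m _ => ?_
      by_cases hmk : m = k
      · rw [hmk, if_neg hk, zero_mul]
      · have : ∏ j ∈ Finset.univ.erase m, (if I j = J j then (1 : ℂ) else 0) = 0 :=
          Finset.prod_eq_zero (Finset.mem_erase.2 ⟨Ne.symm hmk, Finset.mem_univ k⟩) (if_neg hk)
        rw [this, mul_zero]
  rw [e1, ddz_sum _ fun I _ => ContDiffAt.sum fun J _ => contDiffAt_const.mul (hcd I J)]
  have e2 : ∀ I, ddz (fun ζ => ∑ J, ((tb b p).repr T I * conj ((tb b p).repr T J)) *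
      ∏ k, D.K ζ (b (I k)) (b (J k))) =
      ((-(Complex.normSq ((tb b p).repr T I) * ∑ k, l (I k)) : ℝ) : ℂ) := by
    intro I
    rw [ddz_sum _ fun J _ => contDiffAt_const.mul (hcd I J)]
    simp only [ddz_const_mul (hcd _ _), hdd]
    rw [Finset.sum_eq_single I]
    · rw [if_pos rfl, Complex.mul_conj]
      push_cast
      ring
    · intro J _ hJ
      rw [if_neg (Ne.symm hJ), mul_zero]
    · intro h; exact absurd (Finset.mem_univ I) h
  simp only [e2]
  rw [← Complex.ofReal_sum, Complex.ofReal_re]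
  have h3 : ∃ I, (tb b p).repr T I ≠ 0 := by
    by_contra hcon
    push Not at hcon
    exact hT ((tb b p).repr.map_eq_zero_iff.1 (Finsupp.ext hcon))
  obtain ⟨I, hI⟩ := h3
  have hlpos : ∀ I : Fin p → Fin (finrank ℂ V), 0 < ∑ k, l (I k) := by
    intro I
    have : Nonempty (Fin p) := ⟨⟨0, hp⟩⟩
    exact Finset.sum_pos (fun k _ => hl _) Finset.univ_nonempty
  refine Finset.sum_neg' (fun J _ => ?_) ⟨I, Finset.mem_univ I, ?_⟩
  · have := mul_nonneg (Complex.normSq_nonneg ((tb b p).repr T J)) (hlpos J).le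
    linarith
  · have := mul_pos (Complex.normSq_pos.2 hI) (hlpos I)
    linarith

end CurveData

end curve

end Pool.Agent.H301_RC
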