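import Pool.Agent.H301_RC.Quot

/-! Bump functions, and the tube function around a curve. -/

set_option autoImplicit false
set_option linter.unusedSectionVars false

open scoped Manifold ContDiff Topology ComplexConjugate
open Filter Set

namespace Pool.Agent.H301_RC

variable {E : Type*} [NormedAddCommGroup E] [NormedSpace ℂ E] [FiniteDimensional ℂ E]
  {M : Type*} [TopologicalSpace M] [ChartedSpace E M] [IsManifold 𝓘(ℂ, E) ω M]

open Classical in
/-- The extension by zero of a function in a chart. -/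
noncomputable def extz (e : OpenPartialHomeomorph M E) (g : E → ℝ) (x : M) : ℝ :=
  if x ∈ e.source then g (e x) else 0

section ext

variable [T2Space M] {e : OpenPartialHomeomorph M E} {g : E → ℝ} {K : Set E}

lemma extz_of_mem {x : M} (hx : x ∈ e.source) : extz e g x = g (e x) := by simp [extz, hx]

lemma extz_symm {z : E} (hz : z ∈ e.target) : extz e g (e.symm z) = g z := by
  rw [extz_of_mem (e.map_target hz), e.right_inv hz]

/-- outside of `K` the extension vanishes -/
lemma extz_ev_zero (hK : IsCompact K) (hKt : K ⊆ e.target) (hg : ∀ z, z ∉ K → g z = 0) {x : M}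
    (hx : x ∉ e.symm '' K) : ∀ᶠ y in 𝓝 x, extz e g y = 0 := by
  have hK2 : IsCompact (e.symm '' K) := hK.image_of_continuousOn (e.continuousOn_symm.mono hKt)
  filter_upwards [hK2.isClosed.isOpen_compl.mem_nhds hx] with y hy
  by_cases hys : y ∈ e.source
  · rw [extz_of_mem hys]
    refine hg _ fun h1 => hy ⟨e y, h1, e.left_inv hys⟩
  · simp [extz, hys]

lemma extz_sm (he : e ∈ HC E M) (hK : IsCompact K) (hKt : K ⊆ e.target)
    (hg : ∀ z, z ∉ K → g z = 0) (hgs : ∀ z ∈ e.target, ContDiffAt ℝ ∞ g z) : Sm E (extz e g) := by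
  intro x
  by_cases hx : x ∈ e.source
  · refine SmAt.of_chart he hx ((hgs _ (e.map_source hx)).congr_of_eventuallyEq ?_)
    filter_upwards [e.open_target.mem_nhds (e.map_source hx)] with w hw
    exact extz_symm hw
  · have hx' : x ∉ e.symm '' K := by
      rintro ⟨z, hz, rfl⟩
      exact hx (e.map_target (hKt hz))
    exact (SmAt.const 0 x).congr (extz_ev_zero hK hKt hg hx')

end ext

lemma exists_bump [T2Space M] (x : M) {U : Set M} (hU : U ∈ 𝓝 x) : ∃ χ : M → ℝ, Sm E χ ∧
    (∀ y, 0 ≤ χ y) ∧ 0 < χ x ∧ ∀ y, y ∉ U → ∀ᶠ y' in 𝓝 y, χ y' = 0 := by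
  set e := chartAt E x
  have hxs : x ∈ e.source := mem_chart_source E x
  have hxt : e x ∈ e.target := mem_chart_target E x
  have hxx : e.symm (e x) = x := e.left_inv hxs
  have h1 : ∀ᶠ w in 𝓝 (e x), w ∈ e.target ∧ e.symm w ∈ U :=
    ev_symm hxt (by rw [hxx]; exact hU)
  obtain ⟨r, hr, hrs⟩ := Metric.eventually_nhds_iff_ball.1 h1
  let f : ContDiffBump (e x) := ⟨r / 4, r / 2, by positivity, by linarith⟩
  have hball : Metric.closedBall (e x) (r / 2) ⊆ Metric.ball (e x) r :=
    Metric.closedBall_subset_ball (by linarith)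
  have hKt : Metric.closedBall (e x) (r / 2) ⊆ e.target := fun z hz => (hrs z (hball hz)).1
  have hK : IsCompact (Metric.closedBall (e x) (r / 2)) := by
    have : ProperSpace E := FiniteDimensional.proper ℂ E
    exact isCompact_closedBall _ _
  have hg : ∀ z, z ∉ Metric.closedBall (e x) (r / 2) → f z = 0 := by
    intro z hz
    refine f.zero_of_le_dist ?_
    rw [Metric.mem_closedBall, not_le] at hz
    exact hz.le
  refine ⟨extz e f, extz_sm (chart_hc x) hK hKt hg fun z _ => f.contDiff.contDiffAt, ?_, ?_, ?_⟩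
  · intro y
    unfold extz
    split_ifs
    · exact f.nonneg
    · exact le_rfl
  · rw [extz_of_mem hxs]
    exact f.pos_of_mem_ball (Metric.mem_ball_self (by positivity))
  · intro y hy
    refine extz_ev_zero hK hKt hg ?_
    rintro ⟨z, hz, rfl⟩
    exact hy (hrs z (hball hz)).2

lemma Sm_mul_of_support {χ r : M → ℝ} {s : Set M} (hχ : Sm E χ) (hr : ∀ y ∈ s, SmAt E r y)
    (h0 : ∀ y, y ∉ s → ∀ᶠ y' in 𝓝 y, χ y' = 0) : Sm E fun y => χ y * r y := by
  intro y
  by_cases hy : y ∈ s
  · exact (hχ y).mul (hr y hy)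
  · refine (SmAt.const 0 y).congr ?_
    filter_upwards [h0 y hy] with y' hy'
    rw [hy', zero_mul]

lemma line_tendsto {e : OpenPartialHomeomorph M E} {q : M} (hq : q ∈ e.source) (a : E) :
    Tendsto (fun t : ℝ => e.symm (e q + t • a)) (𝓝 0) (𝓝 q) := by
  have hq' : e.symm (e q) = q := e.left_inv hq
  have c1 : Tendsto (fun t : ℝ => e q + t • a) (𝓝 0) (𝓝 (e q)) := by
    have : Continuous fun t : ℝ => e q + t • a := by fun_prop
    simpa using this.tendsto 0
  have c2 : Tendsto e.symm (𝓝 (e q)) (𝓝 q) := by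
    have := (e.continuousAt_symm (e.map_source hq)).tendsto
    rwa [hq'] at this
  exact c2.comp c1

variable (h : HermitianMetric (idRep E) M)

/-- `r` has the second order term given by the quotient metric, at the point `q` of `C`, with the
weight `w`. -/
def TubeAt (C : Set M) (r : M → ℝ) (w : ℝ) (q : M) : Prop :=
  ∀ (e : OpenPartialHomeomorph M E) (u : E), Adapted C e u → q ∈ e.source → ∀ a : E,
    Tendsto (fun t : ℝ => r (e.symm (e q + t • a)) / t ^ 2) (𝓝[≠] 0)
      (𝓝 (w * gE h e u (e q, a)))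

/-- the local tube functions -/
lemma exists_local_tube {C : Set M} (hC : IsClosed C)
    (hA : ∀ x ∈ C, ∃ (e : OpenPartialHomeomorph M E) (u : E), x ∈ e.source ∧ Adapted C e u)
    (x : M) : ∃ (s : Set M) (r : M → ℝ), s ∈ 𝓝 x ∧
      (∀ y ∈ s, SmAt E r y ∧ 0 ≤ r y ∧ (r y = 0 ↔ y ∈ C)) ∧
      ∀ y ∈ s, y ∈ C → TubeAt h C r 1 y := by
  by_cases hx : x ∈ C
  · obtain ⟨e, u, hxe, A⟩ := hA x hx
    refine ⟨e.source, fun y => gE h e u (e y, e y), e.open_source.mem_nhds hxe, ?_, ?_⟩
    · intro y hy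
      have hyt := e.map_source hy
      refine ⟨SmAt.of_chart A.mem hy ?_, gE_nonneg A.mem hyt A.ne _, ?_⟩
      · have h1 : ContDiffAt ℝ ∞ (fun w : E => gE h e u (w, w)) (e y) :=
          ContDiffAt.comp (e y) (g := gE h e u) (f := fun w : E => (w, w))
            (gE_cd A.mem hyt A.ne _) (contDiffAt_id.prodMk contDiffAt_id)
        refine h1.congr_of_eventuallyEq ?_
        filter_upwards [e.open_target.mem_nhds hyt] with w hw
        rw [e.right_inv hw]
      · rw [gE_eq_zero A.mem hyt A.ne, A.iff y hy]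
    · intro y hy hyC e' u' A' hy' a
      rw [one_mul]
      exact tube_limit A A' hy hy' hyC a
  · refine ⟨Cᶜ, fun _ => 1, hC.isOpen_compl.mem_nhds hx, ?_, ?_⟩
    · intro y hy
      exact ⟨SmAt.const 1 y, zero_le_one, ⟨fun h1 => absurd h1 one_ne_zero, fun h1 => absurd h1 hy⟩⟩
    · intro y hy hyC
      exact absurd hyC hy

lemma TubeAt.mul {C : Set M} {r χ : M → ℝ} {q : M} (hr : TubeAt h C r 1 q)
    (hχ : ContinuousAt χ q) : TubeAt h C (fun y => χ y * r y) (χ q) q := by
  intro e u A hq a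
  have h1 := hr e u A hq a
  rw [one_mul] at h1
  have h2 : Tendsto (fun t : ℝ => χ (e.symm (e q + t • a))) (𝓝[≠] 0) (𝓝 (χ q)) :=
    (hχ.tendsto.comp (line_tendsto hq a)).mono_left nhdsWithin_le_nhds
  refine (h2.mul h1).congr fun t => ?_
  ring

lemma TubeAt.zero {C : Set M} {r : M → ℝ} {q : M} (hr : ∀ᶠ y in 𝓝 q, r y = 0) :
    TubeAt h C r 0 q := by
  intro e u A hq a
  have c3 : ∀ᶠ t : ℝ in 𝓝 0, r (e.symm (e q + t • a)) = 0 :=
    (line_tendsto hq a).eventually hr
  rw [zero_mul]
  refine tendsto_const_nhds.congr' ?_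
  filter_upwards [c3.filter_mono nhdsWithin_le_nhds] with t ht
  rw [ht, zero_div]

lemma TubeAt.sum {ι : Type*} {C : Set M} {q : M} (s : Finset ι) {r : ι → M → ℝ} {w : ι → ℝ}
    (hr : ∀ i ∈ s, TubeAt h C (r i) (w i) q) :
    TubeAt h C (fun y => ∑ i ∈ s, r i y) (∑ i ∈ s, w i) q := by
  intro e u A hq a
  have h1 := tendsto_finsetSum s fun i hi => hr i hi e u A hq a
  rw [← Finset.sum_mul] at h1
  refine h1.congr fun t => ?_
  rw [Finset.sum_div]

/-- The tube function. -/
theorem exists_tube [CompactSpace M] [T2Space M] {C : Set M} (hC : IsClosed C)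
    (hA : ∀ x ∈ C, ∃ (e : OpenPartialHomeomorph M E) (u : E), x ∈ e.source ∧ Adapted C e u) :
    ∃ ρ : M → ℝ, Sm E ρ ∧ (∀ x, 0 ≤ ρ x) ∧ (∀ x, ρ x = 0 ↔ x ∈ C) ∧
      ∀ q ∈ C, TubeAt h C ρ 1 q := by
  choose s r hs hr hrT using exists_local_tube h hC hA
  choose χ hχs hχ0 hχx hχe using fun x => exists_bump (E := E) x (hs x)
  obtain ⟨F, hF⟩ := isCompact_univ.elim_nhds_subcover (fun x => {y | 0 < χ x y}) fun x _ =>
    (isOpen_lt continuous_const (hχs x).continuous).mem_nhds (hχx x)
  have hcov : ∀ y, ∃ x ∈ F, 0 < χ x y := by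
    intro y
    have := hF.2 (mem_univ y)
    simpa using this
  let N : M → ℝ := fun y => ∑ x ∈ F, χ x y * r x y
  let S : M → ℝ := fun y => ∑ x ∈ F, χ x y
  have hSpos : ∀ y, 0 < S y := by
    intro y
    obtain ⟨x, hx, hxy⟩ := hcov y
    exact Finset.sum_pos' (fun i _ => hχ0 i y) ⟨x, hx, hxy⟩
  have hterm : ∀ x, Sm E fun y => χ x y * r x y := fun x =>
    Sm_mul_of_support (hχs x) (fun y hy => (hr x y hy).1) (hχe x)
  have hN : Sm E N := fun y => SmAt.sum F fun x _ => hterm x y
  have hS : Sm E S := fun y => SmAt.sum F fun x _ => hχs x y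
  have hχzero : ∀ x y, y ∉ s x → χ x y = 0 := fun x y hy => (hχe x y hy).self_of_nhds
  have htermnn : ∀ x y, 0 ≤ χ x y * r x y := by
    intro x y
    by_cases hy : y ∈ s x
    · exact mul_nonneg (hχ0 x y) (hr x y hy).2.1
    · rw [hχzero x y hy, zero_mul]
  refine ⟨fun y => N y / S y, fun y => (hN y).div (hS y) (hSpos y).ne', fun y =>
    div_nonneg (Finset.sum_nonneg fun x _ => htermnn x y) (hSpos y).le, fun y => ?_, ?_⟩
  · rw [div_eq_zero_iff, or_iff_left (hSpos y).ne']
    constructor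
    · intro h0
      have h1 := (Finset.sum_eq_zero_iff_of_nonneg fun x _ => htermnn x y).1 h0
      obtain ⟨x, hx, hxy⟩ := hcov y
      have h2 := h1 x hx
      have hys : y ∈ s x := by
        by_contra hys
        rw [hχzero x y hys] at hxy
        exact lt_irrefl _ hxy
      rcases mul_eq_zero.1 h2 with h3 | h3
      · exact absurd h3 hxy.ne'
      · exact (hr x y hys).2.2.1 h3
    · intro hy
      refine Finset.sum_eq_zero fun x _ => ?_
      by_cases hys : y ∈ s x
      · rw [(hr x y hys).2.2.2 hy, mul_zero]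
      · rw [hχzero x y hys, zero_mul]
  · intro q hq
    have hNT : TubeAt h C N (S q) q := by
      refine TubeAt.sum h F fun x _ => ?_
      by_cases hqs : q ∈ s x
      · exact TubeAt.mul h (hrT x q hqs hq) (hχs x).continuous.continuousAt
      · rw [hχzero x q hqs]
        refine TubeAt.zero h ?_
        filter_upwards [hχe x q hqs] with y hy
        rw [hy, zero_mul]
    intro e u A hqe a
    have h1 := hNT e u A hqe a
    have h2 : Tendsto (fun t : ℝ => S (e.symm (e q + t • a))) (𝓝[≠] 0) (𝓝 (S q)) :=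
      (hS.continuous.continuousAt.tendsto.comp (line_tendsto hqe a)).mono_left nhdsWithin_le_nhds
    have h3 := h1.div h2 (hSpos q).ne'
    have h4 : S q * gE h e u (e q, a) / S q = 1 * gE h e u (e q, a) := by
      have := (hSpos q).ne'
      field_simp
    rw [h4] at h3
    refine h3.congr fun t => ?_
    simp only [Pi.div_apply]
    rw [div_right_comm]

end Pool.Agent.H301_RC
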